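import Pool.Agent.H899_CR.Defs

/-!
# Basic facts on the forms
-/

set_option autoImplicit false

noncomputable section

namespace Pool.Agent.H899_CR

open MeasureTheory

variable {n : ℕ}

/-! ### The scalar product on `ℂ` -/

theorem rp_self (a : ℂ) : rp a a = ‖a‖ ^ 2 := by
  rw [Complex.sq_norm, Complex.normSq_apply]; rfl

theorem rp_comm (a b : ℂ) : rp a b = rp b a := by unfold rp; ring

theorem rp_add_left (a b c : ℂ) : rp (a + b) c = rp a c + rp b c := by
  simp [rp]; ring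

theorem rp_add_right (a b c : ℂ) : rp a (b + c) = rp a b + rp a c := by
  simp [rp]; ring

theorem rp_sub_left (a b c : ℂ) : rp (a - b) c = rp a c - rp b c := by
  simp [rp]; ring

theorem rp_smul_left (t : ℝ) (a b : ℂ) : rp ((t : ℂ) * a) b = t * rp a b := by
  simp [rp]; ring

theorem rp_smul_right (t : ℝ) (a b : ℂ) : rp a ((t : ℂ) * b) = t * rp a b := by
  simp [rp]; ring

theorem rp_polar (a b : ℂ) : rp a b = 1 / 4 * (‖a + b‖ ^ 2 - ‖a - b‖ ^ 2) := by
  rw [← rp_self, ← rp_self]; simp [rp]; ring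

theorem rp_abs (a b : ℂ) : |rp a b| ≤ ‖a‖ * ‖b‖ := by
  have h1 : (rp a b) ^ 2 ≤ (‖a‖ * ‖b‖) ^ 2 := by
    rw [mul_pow, ← rp_self, ← rp_self]
    unfold rp
    nlinarith [sq_nonneg (a.re * b.im - a.im * b.re)]
  exact abs_le_of_sq_le_sq h1 (by positivity)

theorem rp_continuous {X : Type*} [TopologicalSpace X] {f g : X → ℂ} (hf : Continuous f)
    (hg : Continuous g) : Continuous fun x => rp (f x) (g x) := by
  unfold rp
  exact ((Complex.continuous_re.comp hf).mul (Complex.continuous_re.comp hg)).add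
    ((Complex.continuous_im.comp hf).mul (Complex.continuous_im.comp hg))

theorem rp_measurable {X : Type*} [MeasurableSpace X] {f g : X → ℂ} (hf : Measurable f)
    (hg : Measurable g) : Measurable fun x => rp (f x) (g x) := by
  unfold rp
  exact ((Complex.measurable_re.comp hf).mul (Complex.measurable_re.comp hg)).add
    ((Complex.measurable_im.comp hf).mul (Complex.measurable_im.comp hg))

theorem rp_zero_left (b : ℂ) : rp 0 b = 0 := by simp [rp]

theorem rp_zero_right (b : ℂ) : rp b 0 = 0 := by simp [rp]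

/-! ### The class `CC` -/

theorem CC.cont {α : (Fin n → E3) → ℂ} (h : CC α) : Continuous α := h.smooth.continuous

theorem CC.add {α β : (Fin n → E3) → ℂ} (h : CC α) (k : CC β) : CC (fun x => α x + β x) :=
  ⟨h.smooth.add k.smooth, h.comp.add k.comp⟩

theorem CC.const_mul {α : (Fin n → E3) → ℂ} (h : CC α) (t : ℂ) : CC (fun x => t * α x) :=
  ⟨contDiff_const.mul h.smooth, h.comp.mul_left⟩

theorem CC.sub {α β : (Fin n → E3) → ℂ} (h : CC α) (k : CC β) : CC (fun x => α x - β x) := by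
  have h1 := h.add (k.const_mul (-1))
  have e : (fun x => α x + (-1) * β x) = fun x => α x - β x := by
    funext x; ring
  rwa [e] at h1

theorem CC.zero : CC (fun _ : Fin n → E3 => (0 : ℂ)) :=
  ⟨contDiff_const, HasCompactSupport.zero⟩

theorem CC.sum {ι : Type*} (s : Finset ι) {α : ι → (Fin n → E3) → ℂ} (h : ∀ i ∈ s, CC (α i)) :
    CC (fun x => ∑ i ∈ s, α i x) := by
  classical
  induction s using Finset.induction_on with
  | empty => simpa using CC.zero
  | insert a s ha ih =>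
    simp only [Finset.sum_insert ha]
    exact (h a (Finset.mem_insert_self a s)).add
      (ih fun i hi => h i (Finset.mem_insert_of_mem hi))

/-- Multiplication by a real function of class `C¹`. -/
theorem CC.rmul {α : (Fin n → E3) → ℂ} (h : CC α) {f : (Fin n → E3) → ℝ} (hf : ContDiff ℝ 1 f) :
    CC (fun x => (f x : ℂ) * α x) :=
  ⟨(Complex.ofRealCLM.contDiff.comp hf).mul h.smooth, h.comp.mul_left⟩

theorem pd_continuous {α : (Fin n → E3) → ℂ} (h : CC α) (i : Fin n) (c : Fin 3) :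
    Continuous (pd i c α) :=
  (h.smooth.continuous_fderiv (by simp)).clm_apply continuous_const

theorem pd_comp {α : (Fin n → E3) → ℂ} (h : CC α) (i : Fin n) (c : Fin 3) :
    HasCompactSupport (pd i c α) := h.comp.fderiv_apply (𝕜 := ℝ) _

theorem CC.diff {α : (Fin n → E3) → ℂ} (h : CC α) : Differentiable ℝ α :=
  h.smooth.differentiable (by simp)

theorem pd_add {α β : (Fin n → E3) → ℂ} (h : CC α) (k : CC β) (i : Fin n) (c : Fin 3)
    (x : Fin n → E3) : pd i c (fun x => α x + β x) x = pd i c α x + pd i c β x := by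
  unfold pd
  rw [fderiv_fun_add (h.diff x) (k.diff x)]
  rfl

theorem pd_sub {α β : (Fin n → E3) → ℂ} (h : CC α) (k : CC β) (i : Fin n) (c : Fin 3)
    (x : Fin n → E3) : pd i c (fun x => α x - β x) x = pd i c α x - pd i c β x := by
  unfold pd
  rw [fderiv_fun_sub (h.diff x) (k.diff x)]
  rfl

theorem pd_const_mul {α : (Fin n → E3) → ℂ} (h : CC α) (t : ℂ) (i : Fin n) (c : Fin 3)
    (x : Fin n → E3) : pd i c (fun x => t * α x) x = t * pd i c α x := by
  unfold pd
  rw [fderiv_const_mul (h.diff x) t]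
  rfl

theorem pd_sum {ι : Type*} (s : Finset ι) {α : ι → (Fin n → E3) → ℂ} (h : ∀ i ∈ s, CC (α i))
    (i : Fin n) (c : Fin 3) (x : Fin n → E3) :
    pd i c (fun x => ∑ j ∈ s, α j x) x = ∑ j ∈ s, pd i c (α j) x := by
  unfold pd
  rw [fderiv_fun_sum fun j hj => (h j hj).diff x]
  simp

/-- product rule -/
theorem pd_rmul {α : (Fin n → E3) → ℂ} (h : CC α) {f : (Fin n → E3) → ℝ} (hf : ContDiff ℝ 1 f)
    (i : Fin n) (c : Fin 3) (x : Fin n → E3) :
    pd i c (fun x => (f x : ℂ) * α x) x =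
      (f x : ℂ) * pd i c α x + ((fderiv ℝ f x (dir i c) : ℝ) : ℂ) * α x := by
  unfold pd
  have h1 : HasFDerivAt (fun x => (f x : ℂ)) (Complex.ofRealCLM.comp (fderiv ℝ f x)) x :=
    Complex.ofRealCLM.hasFDerivAt.comp x (hf.differentiable (by simp) x).hasFDerivAt
  have h2 : HasFDerivAt (fun x => (f x : ℂ) * α x) _ x := h1.mul (h.diff x).hasFDerivAt
  rw [h2.fderiv]
  simp
  ring

/-! ### Integrability -/

theorem int_rp {α β : (Fin n → E3) → ℂ} (ha : Continuous α) (ha' : HasCompactSupport α)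
    (hb : Continuous β) : Integrable (fun x => rp (α x) (β x)) := by
  refine (rp_continuous ha hb).integrable_of_hasCompactSupport ?_
  refine ha'.mono ?_
  intro x hx
  rw [Function.mem_support] at hx ⊢
  intro h
  apply hx
  rw [h, rp_zero_left]

theorem int_sq {α : (Fin n → E3) → ℂ} (ha : Continuous α) (ha' : HasCompactSupport α) :
    Integrable (fun x => ‖α x‖ ^ 2) := by
  have := int_rp ha ha' ha
  simpa only [rp_self] using this

theorem Adm.int_rp {U : (Fin n → E3) → ℝ} (hU : Adm U) {α β : (Fin n → E3) → ℂ} (ha : CC α)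
    (hb : CC β) : Integrable (fun x => U x * rp (α x) (β x)) := by
  have h1 := hU.int _ (ha.add hb).cont (ha.add hb).comp
  have h2 := hU.int _ (ha.sub hb).cont (ha.sub hb).comp
  have h3 := (h1.sub h2).const_mul (1 / 4)
  refine h3.congr (ae_of_all _ fun x => ?_)
  simp only [Pi.sub_apply]
  rw [rp_polar]
  ring

theorem int_pd {α β : (Fin n → E3) → ℂ} (ha : CC α) (hb : CC β) (i : Fin n) (c : Fin 3) :
    Integrable (fun x => rp (pd i c α x) (pd i c β x)) :=
  H899_CR.int_rp (pd_continuous ha i c) (pd_comp ha i c) (pd_continuous hb i c)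

theorem int_kin {α β : (Fin n → E3) → ℂ} (ha : CC α) (hb : CC β) :
    Integrable (fun x => 1 / 2 * (∑ i, ∑ c, rp (pd i c α x) (pd i c β x))) :=
  (integrable_finsetSum _ fun i _ => integrable_finsetSum _ fun c _ => int_pd ha hb i c).const_mul _

theorem int_ed {U : (Fin n → E3) → ℝ} (hU : Adm U) {α β : (Fin n → E3) → ℂ} (ha : CC α)
    (hb : CC β) : Integrable (ed U α β) := (int_kin ha hb).add (hU.int_rp ha hb)

theorem Adm.const (t : ℝ) : Adm (fun _ : Fin n → E3 => t) :=
  ⟨measurable_const, fun _ h1 h2 => (int_sq h1 h2).const_mul t⟩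

theorem Adm.add {U W : (Fin n → E3) → ℝ} (h : Adm U) (k : Adm W) : Adm (fun x => U x + W x) :=
  ⟨h.meas.add k.meas, fun α h1 h2 => by
    have := (h.int α h1 h2).add (k.int α h1 h2)
    refine this.congr (ae_of_all _ fun x => ?_)
    simp only [Pi.add_apply]; ring⟩

theorem Adm.sub {U W : (Fin n → E3) → ℝ} (h : Adm U) (k : Adm W) : Adm (fun x => U x - W x) :=
  ⟨h.meas.sub k.meas, fun α h1 h2 => by
    have := (h.int α h1 h2).sub (k.int α h1 h2)
    refine this.congr (ae_of_all _ fun x => ?_)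
    simp only [Pi.sub_apply]; ring⟩

theorem Adm.const_mul {U : (Fin n → E3) → ℝ} (h : Adm U) (t : ℝ) : Adm (fun x => t * U x) :=
  ⟨h.meas.const_mul t, fun α h1 h2 => by
    have := (h.int α h1 h2).const_mul t
    refine this.congr (ae_of_all _ fun x => ?_)
    ring⟩

theorem Adm.sum {ι : Type*} (s : Finset ι) {U : ι → (Fin n → E3) → ℝ} (h : ∀ i ∈ s, Adm (U i)) :
    Adm (fun x => ∑ i ∈ s, U i x) := by
  classical
  induction s using Finset.induction_on with
  | empty => simpa using Adm.const 0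
  | insert a s ha ih =>
    simp only [Finset.sum_insert ha]
    exact (h a (Finset.mem_insert_self a s)).add
      (ih fun i hi => h i (Finset.mem_insert_of_mem hi))

theorem Adm.bdd {U : (Fin n → E3) → ℝ} (hm : Measurable U) {B : ℝ} (hB : ∀ x, |U x| ≤ B) :
    Adm U :=
  ⟨hm, fun α h1 h2 => by
    have h3 := int_sq h1 h2
    refine Integrable.mono' (h3.const_mul B) (hm.aestronglyMeasurable.mul
      h3.aestronglyMeasurable) (ae_of_all _ fun x => ?_)
    rw [norm_mul, Real.norm_eq_abs, Real.norm_of_nonneg (by positivity)]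
    exact mul_le_mul_of_nonneg_right (hB x) (by positivity)⟩

theorem Adm.mulb {U W : (Fin n → E3) → ℝ} (h : Adm U) (hm : Measurable W) {B : ℝ}
    (hB : ∀ x, |W x| ≤ B) : Adm (fun x => U x * W x) :=
  ⟨h.meas.mul hm, fun α h1 h2 => by
    have h3 := h.int α h1 h2
    refine Integrable.mono' (h3.norm.const_mul B) ((h.meas.mul hm).aestronglyMeasurable.mul
      (int_sq h1 h2).aestronglyMeasurable) (ae_of_all _ fun x => ?_)
    rw [norm_mul, norm_mul, norm_mul]
    have h4 : ‖W x‖ ≤ B := hB x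
    have h5 : 0 ≤ ‖U x‖ * ‖‖α x‖ ^ 2‖ := by positivity
    nlinarith [mul_le_mul_of_nonneg_right h4 h5]⟩

theorem Adm.congr {U W : (Fin n → E3) → ℝ} (h : Adm U) (e : ∀ x, W x = U x) : Adm W := by
  have : W = U := funext e
  rw [this]; exact h

theorem adm_en (i : Fin n) (R : E3) : Adm (fun x : Fin n → E3 => 1 / ‖x i - R‖) :=
  ⟨by fun_prop, fun α h1 h2 => H5R2.NL.integrable_en α h1 h2 i R⟩

theorem adm_en0 (i : Fin n) : Adm (fun x : Fin n → E3 => 1 / ‖x i‖) :=
  (adm_en i 0).congr fun x => by rw [sub_zero]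

theorem adm_ee (i j : Fin n) : Adm (fun x : Fin n → E3 => 1 / ‖x i - x j‖) :=
  ⟨by fun_prop, fun α h1 h2 => H5R2.NL.integrable_ee α h1 h2 i j⟩

theorem adm_VC (Z : ℝ) : Adm (VC (n := n) Z) := by
  have h1 : Adm (fun x : Fin n → E3 => ∑ i, 1 / ‖x i‖) := Adm.sum _ fun i _ => adm_en0 i
  have h2 : Adm (fun x : Fin n → E3 => ∑ i, ∑ j, 1 / ‖x i - x j‖) :=
    Adm.sum _ fun i _ => Adm.sum _ fun j _ => adm_ee i j
  refine ((h1.const_mul (-Z)).add (h2.const_mul (1 / 2))).congr fun x => ?_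
  unfold VC
  ring

theorem sym_VC (Z : ℝ) : Sym (VC (n := n) Z) := by
  intro π x
  unfold VC
  simp only [Function.comp_apply]
  have h1 : ∑ i, 1 / ‖x (π i)‖ = ∑ i, 1 / ‖x i‖ :=
    Equiv.sum_comp π (fun i => 1 / ‖x i‖)
  have h2 : ∑ i, ∑ j, 1 / ‖x (π i) - x (π j)‖ = ∑ i, ∑ j, 1 / ‖x i - x j‖ := by
    rw [← Equiv.sum_comp π (fun i => ∑ j, 1 / ‖x i - x j‖)]
    exact Finset.sum_congr rfl fun i _ => Equiv.sum_comp π (fun j => 1 / ‖x (π i) - x j‖)
  rw [h1, h2]

/-! ### Bilinearity -/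

theorem ed_comm (U : (Fin n → E3) → ℝ) (α β : (Fin n → E3) → ℂ) (x : Fin n → E3) :
    ed U α β x = ed U β α x := by
  unfold ed
  rw [rp_comm (α x)]
  congr 2
  exact Finset.sum_congr rfl fun i _ => Finset.sum_congr rfl fun c _ => rp_comm _ _

theorem FF_comm (U : (Fin n → E3) → ℝ) (α β : (Fin n → E3) → ℂ) : FF U α β = FF U β α := by
  unfold FF
  exact integral_congr_ae (ae_of_all _ fun x => ed_comm U α β x)

theorem ed_add_left {U : (Fin n → E3) → ℝ} {α β γ : (Fin n → E3) → ℂ} (ha : CC α) (hb : CC β)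
    (x : Fin n → E3) : ed U (fun x => α x + β x) γ x = ed U α γ x + ed U β γ x := by
  unfold ed
  have : ∑ i, ∑ c, rp (pd i c (fun x => α x + β x) x) (pd i c γ x) =
      (∑ i, ∑ c, rp (pd i c α x) (pd i c γ x)) + ∑ i, ∑ c, rp (pd i c β x) (pd i c γ x) := by
    rw [← Finset.sum_add_distrib]
    refine Finset.sum_congr rfl fun i _ => ?_
    rw [← Finset.sum_add_distrib]
    refine Finset.sum_congr rfl fun c _ => ?_
    rw [pd_add ha hb, rp_add_left]
  rw [this, rp_add_left]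
  ring

theorem FF_add_left {U : (Fin n → E3) → ℝ} (hU : Adm U) {α β γ : (Fin n → E3) → ℂ} (ha : CC α)
    (hb : CC β) (hc : CC γ) : FF U (fun x => α x + β x) γ = FF U α γ + FF U β γ := by
  unfold FF
  rw [← integral_add (int_ed hU ha hc) (int_ed hU hb hc)]
  exact integral_congr_ae (ae_of_all _ fun x => ed_add_left ha hb x)

theorem ed_smul_left {U : (Fin n → E3) → ℝ} {α γ : (Fin n → E3) → ℂ} (ha : CC α) (t : ℝ)
    (x : Fin n → E3) : ed U (fun x => (t : ℂ) * α x) γ x = t * ed U α γ x := by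
  unfold ed
  have : ∑ i, ∑ c, rp (pd i c (fun x => (t : ℂ) * α x) x) (pd i c γ x) =
      t * (∑ i, ∑ c, rp (pd i c α x) (pd i c γ x)) := by
    rw [Finset.mul_sum]
    refine Finset.sum_congr rfl fun i _ => ?_
    rw [Finset.mul_sum]
    refine Finset.sum_congr rfl fun c _ => ?_
    rw [pd_const_mul ha, rp_smul_left]
  rw [this, rp_smul_left]
  ring

theorem FF_smul_left {U : (Fin n → E3) → ℝ} {α γ : (Fin n → E3) → ℂ} (ha : CC α) (t : ℝ) :
    FF U (fun x => (t : ℂ) * α x) γ = t * FF U α γ := by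
  unfold FF
  rw [← integral_const_mul]
  exact integral_congr_ae (ae_of_all _ fun x => ed_smul_left ha t x)

theorem FF_zero_left (U : (Fin n → E3) → ℝ) (γ : (Fin n → E3) → ℂ) :
    FF U (fun _ => 0) γ = 0 := by
  have := FF_smul_left (U := U) (γ := γ) (CC.zero (n := n)) 0
  simpa using this

theorem FF_sub_left {U : (Fin n → E3) → ℝ} (hU : Adm U) {α β γ : (Fin n → E3) → ℂ} (ha : CC α)
    (hb : CC β) (hc : CC γ) : FF U (fun x => α x - β x) γ = FF U α γ - FF U β γ := by
  have h1 := FF_add_left hU ha (hb.const_mul ((-1 : ℝ) : ℂ)) hc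
  rw [FF_smul_left hb] at h1
  have e : (fun x => α x + ((-1 : ℝ) : ℂ) * β x) = fun x => α x - β x := by
    funext x; push_cast; ring
  rw [e] at h1
  rw [h1]; ring

/-- Additivity in the potential. -/
theorem FF_add_pot {U W : (Fin n → E3) → ℝ} (hU : Adm U) (hW : Adm W) {α β : (Fin n → E3) → ℂ}
    (ha : CC α) (hb : CC β) :
    FF (fun x => U x + W x) α β = FF U α β + ∫ x, W x * rp (α x) (β x) := by
  unfold FF
  rw [← integral_add (int_ed hU ha hb) (hW.int_rp ha hb)]
  refine integral_congr_ae (ae_of_all _ fun x => ?_)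
  show ed _ α β x = ed U α β x + W x * rp (α x) (β x)
  unfold ed
  ring

/-! ### Wave functions with spin -/

theorem CW.add {φ χ : WF n} (h : CW φ) (k : CW χ) : CW (fun σ x => φ σ x + χ σ x) :=
  fun σ => (h σ).add (k σ)

theorem CW.smul {φ : WF n} (h : CW φ) (t : ℂ) : CW (fun σ x => t * φ σ x) :=
  fun σ => (h σ).const_mul t

theorem FW_comm (U : (Fin n → E3) → ℝ) (φ χ : WF n) : FW U φ χ = FW U χ φ :=
  Finset.sum_congr rfl fun _ _ => FF_comm U _ _

theorem FW_add_left {U : (Fin n → E3) → ℝ} (hU : Adm U) {φ χ η : WF n} (h1 : CW φ)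
    (h2 : CW χ) (h3 : CW η) : FW U (fun σ x => φ σ x + χ σ x) η = FW U φ η + FW U χ η := by
  unfold FW
  rw [← Finset.sum_add_distrib]
  exact Finset.sum_congr rfl fun σ _ => FF_add_left hU (h1 σ) (h2 σ) (h3 σ)

theorem FW_add_right {U : (Fin n → E3) → ℝ} (hU : Adm U) {φ χ η : WF n} (h1 : CW φ)
    (h2 : CW χ) (h3 : CW η) : FW U η (fun σ x => φ σ x + χ σ x) = FW U η φ + FW U η χ := by
  rw [FW_comm, FW_add_left hU h1 h2 h3, FW_comm U φ, FW_comm U χ]

theorem FW_smul_left {U : (Fin n → E3) → ℝ} {φ η : WF n} (h1 : CW φ) (t : ℝ) :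
    FW U (fun σ x => (t : ℂ) * φ σ x) η = t * FW U φ η := by
  unfold FW
  rw [Finset.mul_sum]
  exact Finset.sum_congr rfl fun σ _ => FF_smul_left (h1 σ) t

theorem FW_smul_right {U : (Fin n → E3) → ℝ} {φ η : WF n} (h1 : CW φ) (t : ℝ) :
    FW U η (fun σ x => (t : ℂ) * φ σ x) = t * FW U η φ := by
  rw [FW_comm, FW_smul_left h1, FW_comm]

theorem FW_sum_right {U : (Fin n → E3) → ℝ} (hU : Adm U) {ι : Type*} (s : Finset ι)
    {φ : ι → WF n} {η : WF n} (h1 : ∀ i ∈ s, CW (φ i)) (h2 : CW η) :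
    FW U η (fun σ x => ∑ i ∈ s, φ i σ x) = ∑ i ∈ s, FW U η (φ i) := by
  classical
  induction s using Finset.induction_on with
  | empty =>
    simp only [Finset.sum_empty]
    rw [FW_comm]
    unfold FW
    exact Finset.sum_eq_zero fun σ _ => FF_zero_left U _
  | insert a s ha ih =>
    simp only [Finset.sum_insert ha]
    have h3 : CW (fun σ x => ∑ i ∈ s, φ i σ x) := fun σ =>
      CC.sum s fun i hi => h1 i (Finset.mem_insert_of_mem hi) σ
    rw [FW_add_right hU (h1 a (Finset.mem_insert_self a s)) h3 h2,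
      ih fun i hi => h1 i (Finset.mem_insert_of_mem hi)]

theorem FW_add_pot {U W : (Fin n → E3) → ℝ} (hU : Adm U) (hW : Adm W) {φ χ : WF n}
    (h1 : CW φ) (h2 : CW χ) :
    FW (fun x => U x + W x) φ χ = FW U φ χ + ∑ σ, ∫ x, W x * rp (φ σ x) (χ σ x) := by
  unfold FW
  rw [← Finset.sum_add_distrib]
  exact Finset.sum_congr rfl fun σ _ => FF_add_pot hU hW (h1 σ) (h2 σ)

theorem nsq_nonneg (φ : WF n) : 0 ≤ nsq φ :=
  Finset.sum_nonneg fun _ _ => integral_nonneg fun _ => by positivity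

/-- Expansion of the quadratic form. -/
theorem FW_expand {U : (Fin n → E3) → ℝ} (hU : Adm U) {φ χ : WF n} (h1 : CW φ) (h2 : CW χ)
    (t : ℝ) : FW U (fun σ x => φ σ x + (t : ℂ) * χ σ x) (fun σ x => φ σ x + (t : ℂ) * χ σ x) =
      FW U φ φ + 2 * t * FW U φ χ + t ^ 2 * FW U χ χ := by
  have h3 : CW (fun σ x => (t : ℂ) * χ σ x) := h2.smul _
  rw [FW_add_left hU h1 h3 (h1.add h3), FW_add_right hU h1 h3 h1, FW_add_right hU h1 h3 h3,
    FW_smul_right h2, FW_smul_left h2, FW_smul_left h2, FW_smul_right h2, FW_comm U χ φ]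
  ring

/-- Cauchy-Schwarz for a form which is nonnegative on a linear space. -/
theorem cs_form {U : (Fin n → E3) → ℝ} (hU : Adm U) {φ χ : WF n} (h1 : CW φ) (h2 : CW χ)
    (h : ∀ t : ℝ, 0 ≤ FW U (fun σ x => φ σ x + (t : ℂ) * χ σ x)
      (fun σ x => φ σ x + (t : ℂ) * χ σ x)) :
    FW U φ χ ^ 2 ≤ FW U φ φ * FW U χ χ := by
  have h3 : ∀ t : ℝ, 0 ≤ FW U φ φ + 2 * t * FW U φ χ + t ^ 2 * FW U χ χ := by
    intro t
    rw [← FW_expand hU h1 h2 t]
    exact h t
  have h4 := discrim_le_zero (a := FW U χ χ) (b := 2 * FW U φ χ) (c := FW U φ φ)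
    (fun t => by have := h3 t; nlinarith)
  unfold discrim at h4
  nlinarith

end Pool.Agent.H899_CR
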