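import Pool.Agent.H899_CR.BumpDef
import Pool.Agent.R999.Newton


set_option autoImplicit false

noncomputable section

namespace Pool.Agent.H899_CR

open MeasureTheory

variable {n : ℕ}

/-! ### auxiliary facts -/

/-- the basic bump before normalization -/
def c7_V (w : E3) : ℝ := Real.smoothTransition (1 - 2 * ‖w‖ ^ 2)

theorem c7_V_cd : ContDiff ℝ 1 c7_V := by
  unfold c7_V
  have h1 : ContDiff ℝ 1 Real.smoothTransition := Real.smoothTransition.contDiff (n := 1)
  exact h1.comp (contDiff_const.sub (contDiff_const.mul (contDiff_norm_sq ℝ)))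

theorem c7_V_supp (w : E3) (hw : 1 ≤ ‖w‖) : c7_V w = 0 := by
  unfold c7_V
  apply Real.smoothTransition.zero_of_nonpos
  nlinarith

theorem c7_V_comp : HasCompactSupport c7_V := by
  apply HasCompactSupport.intro (isCompact_closedBall (0 : E3) 1)
  intro w hw
  apply c7_V_supp
  rw [mem_closedBall_zero_iff, not_le] at hw
  exact hw.le

theorem c7_V_zero : c7_V 0 = 1 := by
  unfold c7_V
  simp

theorem c7_V_nonneg (w : E3) : 0 ≤ c7_V w := Real.smoothTransition.nonneg _

theorem c7_gs_cont {U : E3 → ℝ} (h : ContDiff ℝ 1 U) : Continuous (gs U) := by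
  unfold gs
  apply continuous_finsetSum
  intro c _
  exact ((h.continuous_fderiv (by simp)).clm_apply continuous_const).pow 2

theorem c7_gs_comp {U : E3 → ℝ} (h : HasCompactSupport U) : HasCompactSupport (gs U) := by
  have h1 := h.fderiv (𝕜 := ℝ)
  refine h1.mono ?_
  intro y hy
  rw [Function.mem_support] at hy ⊢
  intro h0
  apply hy
  unfold gs
  rw [h0]
  simp

theorem c7_gs_nonneg (U : E3 → ℝ) (y : E3) : 0 ≤ gs U y := Finset.sum_nonneg fun _ _ => sq_nonneg _

theorem c7_sq_pos : 0 < ∫ w, c7_V w ^ 2 := by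
  have hc : Continuous fun w => c7_V w ^ 2 := c7_V_cd.continuous.pow 2
  have hs : HasCompactSupport fun w => c7_V w ^ 2 := by
    have := c7_V_comp.comp_left (g := fun t : ℝ => t ^ 2) (by simp)
    exact this
  exact hc.integral_pos_of_hasCompactSupport_nonneg_nonzero hs (fun w => sq_nonneg _) (x := 0)
    (by rw [c7_V_zero]; norm_num)

theorem c7_gs_pos : 0 < ∫ w, gs c7_V w := by
  have hc := c7_gs_cont c7_V_cd
  have hs := c7_gs_comp c7_V_comp
  have hex : ∃ w, gs c7_V w ≠ 0 := by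
    by_contra hcon
    push Not at hcon
    have hf : ∀ w, fderiv ℝ c7_V w = 0 := by
      intro w
      have h0 := hcon w
      unfold gs at h0
      rw [Finset.sum_eq_zero_iff_of_nonneg (fun _ _ => sq_nonneg _)] at h0
      have h1 : ∀ c : Fin 3, fderiv ℝ c7_V w (EuclideanSpace.single c 1) = 0 := fun c =>
        pow_eq_zero_iff (two_ne_zero) |>.1 (h0 c (Finset.mem_univ c))
      ext v
      have h2 : v = ∑ c : Fin 3, v c • (EuclideanSpace.single c (1 : ℝ)) := by
        ext i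
        simp [Finset.sum_apply, Pi.single_apply]
      rw [h2]
      simp [h1]
    have hconst := is_const_of_fderiv_eq_zero (𝕜 := ℝ) (c7_V_cd.differentiable (by simp)) hf 0
      (EuclideanSpace.single (0 : Fin 3) (1 : ℝ))
    rw [c7_V_zero, c7_V_supp] at hconst
    · norm_num at hconst
    · rw [PiLp.norm_single]; norm_num
  obtain ⟨w, hw⟩ := hex
  exact hc.integral_pos_of_hasCompactSupport_nonneg_nonzero hs (c7_gs_nonneg _) hw

/-- start from `U₁ w = Real.smoothTransition (1 - 2 ‖w‖ ^ 2)`, normalize, and scale: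
`U w = c ρ^(-3/2) U₁(w/ρ)` -/
theorem exists_bump : ∃ K : ℝ, 0 < K ∧ ∀ ρ : ℝ, 0 < ρ → ∃ U : E3 → ℝ, Bump K ρ U := by
  set I := ∫ w, c7_V w ^ 2 with hI
  set G := ∫ w, gs c7_V w with hG
  have hIp : 0 < I := c7_sq_pos
  have hGp : 0 < G := c7_gs_pos
  refine ⟨G / I / 2, by positivity, fun ρ hρ => ?_⟩
  set a : ℝ := Real.sqrt ((ρ ^ 3 * I)⁻¹) with ha
  have ha2 : a ^ 2 = (ρ ^ 3 * I)⁻¹ := Real.sq_sqrt (by positivity)
  have hρi : 0 ≤ ρ⁻¹ := by positivity
  have hscale : ∀ F : E3 → ℝ, ∫ w, F (ρ⁻¹ • w) = ρ ^ 3 * ∫ w, F w := by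
    intro F
    rw [Measure.integral_comp_smul_of_nonneg volume F ρ⁻¹ (hR := hρi)]
    simp only [finrank_euclideanSpace, Fintype.card_fin, smul_eq_mul]
    rw [inv_pow, inv_inv]
  refine ⟨fun w => a * c7_V (ρ⁻¹ • w), ?_, ?_, ?_, ?_, ?_, ?_, ?_⟩
  · exact contDiff_const.mul (c7_V_cd.comp (contDiff_const_smul ρ⁻¹))
  · have h1 : HasCompactSupport (fun w : E3 => c7_V (ρ⁻¹ • w)) :=
      c7_V_comp.comp_smul (inv_ne_zero hρ.ne')
    exact h1.mul_left
  · intro w
    exact mul_nonneg (Real.sqrt_nonneg _) (c7_V_nonneg _)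
  · intro w hw
    rw [c7_V_supp, mul_zero]
    rw [norm_smul, Real.norm_of_nonneg hρi, ← div_eq_inv_mul, le_div_iff₀ hρ, one_mul]
    exact hw
  · have e1 : ∀ w : E3, (a * c7_V (ρ⁻¹ • w)) ^ 2 = a ^ 2 * (fun v => c7_V v ^ 2) (ρ⁻¹ • w) := by
      intro w
      simp only
      ring
    simp_rw [e1]
    rw [integral_const_mul, hscale (fun v => c7_V v ^ 2), ha2, ← hI]
    field_simp
  · have e1 : ∀ w : E3, gs (fun w => a * c7_V (ρ⁻¹ • w)) w = a ^ 2 * (ρ⁻¹) ^ 2 * gs c7_V (ρ⁻¹ • w) := by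
      intro w
      have hd : HasFDerivAt (fun w : E3 => a * c7_V (ρ⁻¹ • w))
          (a • ((fderiv ℝ c7_V (ρ⁻¹ • w)).comp (ρ⁻¹ • ContinuousLinearMap.id ℝ E3))) w := by
        have h1 : HasFDerivAt c7_V (fderiv ℝ c7_V (ρ⁻¹ • w)) (ρ⁻¹ • w) :=
          ((c7_V_cd.differentiable (by simp)) _).hasFDerivAt
        have h2 : HasFDerivAt (fun w : E3 => ρ⁻¹ • w) (ρ⁻¹ • ContinuousLinearMap.id ℝ E3) w :=
          (hasFDerivAt_id w).const_smul ρ⁻¹
        exact (h1.comp w h2).const_mul a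
      unfold gs
      rw [hd.fderiv, Finset.mul_sum]
      apply Finset.sum_congr rfl
      intro c _
      simp only [smul_apply, ContinuousLinearMap.comp_apply,
        ContinuousLinearMap.id_apply, map_smul, smul_eq_mul]
      ring
    simp_rw [e1]
    rw [integral_const_mul, hscale (gs c7_V), ha2, ← hG]
    field_simp
  · refine ⟨fun r => a * Real.smoothTransition (1 - 2 * (ρ⁻¹ * r) ^ 2), ?_, ?_⟩
    · apply Continuous.measurable
      exact continuous_const.mul (Real.smoothTransition.continuous.comp (by fun_prop))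
    · intro w
      unfold c7_V
      rw [norm_smul, Real.norm_of_nonneg hρi]

theorem Bump.trans {K ρ : ℝ} {U : E3 → ℝ} (h : Bump K ρ U) (y : E3) :
    ContDiff ℝ 1 (fun w => U (w - y)) ∧ HasCompactSupport (fun w => U (w - y)) ∧
    ∫ w, U (w - y) ^ 2 = 1 ∧ ∫ w, gs (fun w => U (w - y)) w = 2 * K / ρ ^ 2 ∧
    ∫ w, U (w - y) = ∫ w, U w := by
  refine ⟨h.smooth.comp (contDiff_id.sub contDiff_const), ?_, ?_, ?_, ?_⟩
  · exact h.comp.comp_homeomorph (Homeomorph.subRight y)
  · rw [integral_sub_right_eq_self (fun w => U w ^ 2) y]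
    exact h.norm
  · have e1 : ∀ w, gs (fun w => U (w - y)) w = gs U (w - y) := by
      intro w
      unfold gs
      rw [fderiv_comp_sub]
    simp_rw [e1]
    rw [integral_sub_right_eq_self (gs U) y]
    exact h.grad
  · exact integral_sub_right_eq_self U y

theorem c7_int_U2 {K ρ : ℝ} {U : E3 → ℝ} (h : Bump K ρ U) : Integrable (fun w => U w ^ 2) := by
  have hc : Continuous fun w => U w ^ 2 := h.smooth.continuous.pow 2
  have hs : HasCompactSupport fun w => U w ^ 2 := h.comp.comp_left (g := fun t : ℝ => t ^ 2) (by simp)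
  exact hc.integrable_of_hasCompactSupport hs

theorem c7_vol_ball {ρ : ℝ} (hρ : 0 < ρ) :
    volume.real (Metric.ball (0 : E3) ρ) = 4 * Real.pi / 3 * ρ ^ 3 := by
  have hpi := Real.pi_pos
  rw [Measure.real, EuclideanSpace.volume_ball_fin_three, ← ENNReal.ofReal_pow hρ.le,
    ← ENNReal.ofReal_mul (by positivity), ENNReal.toReal_ofReal (by positivity)]
  ring

/-- Cauchy-Schwarz on the ball of radius ρ -/
theorem Bump.int_sq_le {K ρ : ℝ} {U : E3 → ℝ} (h : Bump K ρ U) (hρ : 0 < ρ) :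
    (∫ w, U w) ^ 2 ≤ 4 * Real.pi / 3 * ρ ^ 3 := by
  set B := Metric.ball (0 : E3) ρ with hB
  set v := volume.real B with hv
  have hvol : v = 4 * Real.pi / 3 * ρ ^ 3 := c7_vol_ball hρ
  have hpi := Real.pi_pos
  have hvp : 0 < v := by rw [hvol]; positivity
  have hsupp : ∀ w, w ∉ B → U w = 0 := by
    intro w hw
    apply h.supp
    rw [hB, mem_ball_zero_iff, not_lt] at hw
    exact hw
  have e1 : ∫ w in B, U w = ∫ w, U w := setIntegral_eq_integral_of_forall_compl_eq_zero hsupp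
  have e2 : ∫ w in B, U w ^ 2 = 1 := by
    rw [← h.norm]
    exact setIntegral_eq_integral_of_forall_compl_eq_zero (fun w hw => by rw [hsupp w hw]; simp)
  have i1 : Integrable U := h.smooth.continuous.integrable_of_hasCompactSupport h.comp
  have i2 := c7_int_U2 h
  set J := ∫ w, U w with hJ
  set t := J / v with ht
  have hfin : volume B ≠ ⊤ := measure_ball_lt_top.ne
  have i3 : IntegrableOn (fun _ : E3 => t ^ 2) B := integrableOn_const hfin
  have e3 : 0 ≤ ∫ w in B, (U w - t) ^ 2 := integral_nonneg fun w => sq_nonneg _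
  have e4 : ∫ w in B, (U w - t) ^ 2 = ∫ w in B, (U w ^ 2 - 2 * t * U w + t ^ 2) := by
    congr 1
    funext w
    ring
  have i4 : Integrable (fun w => U w ^ 2 - 2 * t * U w) (volume.restrict B) :=
    (i2.sub (i1.const_mul (2 * t))).integrableOn
  rw [e4, integral_add i4 i3, integral_sub i2.integrableOn (i1.const_mul (2 * t)).integrableOn,
    integral_const_mul, e1, e2, setIntegral_const, smul_eq_mul, ← hv] at e3
  have e5 : t * v = J := by rw [ht]; field_simp
  have e6 : 0 ≤ 1 - t * J := by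
    have : v * t ^ 2 = t * J := by rw [← e5]; ring
    nlinarith
  have e7 : t * J * v = J ^ 2 := by rw [← e5]; ring
  rw [← hvol]
  nlinarith

/-- integrability of the potential of a bounded function supported in a ball -/
theorem c7_int_pot {K ρ : ℝ} {U : E3 → ℝ} (h : Bump K ρ U) (x y : E3) :
    Integrable (fun w => U (w - y) ^ 2 * (1 / ‖w - x‖)) := by
  set s := max ρ 1 with hs
  have hs0 : 0 < s := lt_of_lt_of_le one_pos (le_max_right _ _)
  obtain ⟨C, hC⟩ : ∃ C, ∀ w, U w ^ 2 ≤ C := by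
    have hc : Continuous fun w => U w ^ 2 := h.smooth.continuous.pow 2
    have hcs : HasCompactSupport fun w => U w ^ 2 := h.comp.comp_left (g := fun t : ℝ => t ^ 2) (by simp)
    obtain ⟨C, hC⟩ := hc.bounded_above_of_compact_support hcs
    refine ⟨C, fun w => ?_⟩
    have := hC w
    rw [Real.norm_of_nonneg (sq_nonneg _)] at this
    exact this
  have h1 := (Pool.Agent.TH791.Cl.newton_ball y x s hs0).1
  have h2 : IntegrableOn (fun w => U (w - y) ^ 2 * (1 / ‖w - x‖)) (Metric.ball y s) := by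
    refine Integrable.mono' (h1.const_mul C) ?_ ?_
    · have hc : Continuous fun w => U (w - y) ^ 2 := by
        have := h.smooth.continuous
        fun_prop
      have hm : Measurable fun w : E3 => 1 / ‖w - x‖ := by fun_prop
      exact (hc.measurable.mul hm).aestronglyMeasurable
    · refine ae_of_all _ fun w => ?_
      rw [norm_mul, Real.norm_of_nonneg (sq_nonneg _), Real.norm_of_nonneg (by positivity)]
      exact mul_le_mul_of_nonneg_right (hC _) (by positivity)
  rw [← integrableOn_iff_integrable_of_support_subset]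
  · exact h2
  · intro w hw
    rw [Function.mem_support] at hw
    by_contra hcon
    apply hw
    rw [Metric.mem_ball, not_lt, dist_eq_norm] at hcon
    rw [h.supp (w - y) ((le_max_left _ _).trans hcon)]
    simp

theorem c7_pot {K ρ : ℝ} {U : E3 → ℝ} {g : ℝ → ℝ} (hg : Measurable g) (hU : ∀ w, U w = g ‖w‖)
    (_h : Bump K ρ U) (x y : E3) :
    ∫ w, U (w - y) ^ 2 * (1 / ‖w - x‖) =
      ∫ t in Set.Ioi (0 : ℝ), R999.Newton.kx ‖x - y‖ t * g t ^ 2 := by
  have e1 := R999.Newton.pot_radial (g := fun t => g t ^ 2) (hg.pow_const 2) (x - y)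
  rw [← e1, ← integral_sub_right_eq_self (fun v : E3 => g ‖v‖ ^ 2 / ‖x - y - v‖) y]
  congr 1
  funext w
  rw [hU]
  have e2 : x - y - (w - y) = -(w - x) := by abel
  rw [e2, norm_neg]
  ring

theorem c7_rad {K ρ : ℝ} {U : E3 → ℝ} {g : ℝ → ℝ} (hU : ∀ w, U w = g ‖w‖)
    (h : Bump K ρ U) : IntegrableOn (fun t => t ^ 2 * g t ^ 2) (Set.Ioi 0) ∧
      4 * Real.pi * ∫ t in Set.Ioi (0 : ℝ), t ^ 2 * g t ^ 2 = 1 := by
  constructor
  · have h1 := c7_int_U2 h
    have h2 : (fun w => U w ^ 2) = fun w : E3 => (fun t => g t ^ 2) ‖w‖ := by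
      funext w
      simp only [hU]
    rw [h2] at h1
    exact (R999.Newton.integrable_radial (g := fun t => g t ^ 2)).1 h1
  · rw [← R999.Newton.int_radial (fun t => g t ^ 2), ← h.norm]
    congr 1
    funext w
    rw [hU]

/-- translate by `y`, `pot_radial` with `g²`, `kx r t ≤ 4 π t²/r`, `int_radial` -/
theorem Bump.newton_le {K ρ : ℝ} {U : E3 → ℝ} (h : Bump K ρ U) {x y : E3} (hxy : x ≠ y) :
    Integrable (fun w => U (w - y) ^ 2 * (1 / ‖w - x‖)) ∧
      ∫ w, U (w - y) ^ 2 * (1 / ‖w - x‖) ≤ 1 / ‖y - x‖ := by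
  refine ⟨c7_int_pot h x y, ?_⟩
  obtain ⟨g, hg, hU⟩ := h.radial
  obtain ⟨h1, h2⟩ := c7_rad hU h
  have hr : 0 < ‖x - y‖ := norm_pos_iff.2 (sub_ne_zero.2 hxy)
  have hpi := Real.pi_pos
  rw [c7_pot hg hU h x y, norm_sub_rev y x]
  have e1 : ∫ t in Set.Ioi (0 : ℝ), R999.Newton.kx ‖x - y‖ t * g t ^ 2 ≤
      ∫ t in Set.Ioi (0 : ℝ), 4 * Real.pi / ‖x - y‖ * (t ^ 2 * g t ^ 2) := by
    apply integral_mono_of_nonneg
    · exact ae_of_all _ fun t => mul_nonneg (R999.Newton.kx_nonneg (norm_nonneg _)) (sq_nonneg _)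
    · exact h1.const_mul _
    · refine ae_of_all _ fun t => ?_
      simp only
      unfold R999.Newton.kx
      have h3 : 4 * Real.pi * t ^ 2 / max ‖x - y‖ t ≤ 4 * Real.pi * t ^ 2 / ‖x - y‖ :=
        div_le_div_of_nonneg_left (by positivity) hr (le_max_left _ _)
      have h4 := mul_le_mul_of_nonneg_right h3 (sq_nonneg (g t))
      refine h4.trans (le_of_eq ?_)
      ring
  refine e1.trans (le_of_eq ?_)
  rw [integral_const_mul]
  have e2 : 4 * Real.pi / ‖x - y‖ * ∫ t in Set.Ioi (0 : ℝ), t ^ 2 * g t ^ 2 =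
      (4 * Real.pi * ∫ t in Set.Ioi (0 : ℝ), t ^ 2 * g t ^ 2) / ‖x - y‖ := by ring
  rw [e2, h2]

/-- now `max ‖y‖ t = ‖y‖` on the support `t < ρ ≤ ‖y‖` -/
theorem Bump.newton_eq {K ρ : ℝ} {U : E3 → ℝ} (h : Bump K ρ U) (hρ : 0 < ρ) {y : E3}
    (hy : ρ ≤ ‖y‖) : Integrable (fun w => U (w - y) ^ 2 * (1 / ‖w‖)) ∧
      ∫ w, U (w - y) ^ 2 * (1 / ‖w‖) = 1 / ‖y‖ := by
  have h0 := c7_int_pot h 0 y
  simp only [sub_zero] at h0
  refine ⟨h0, ?_⟩
  obtain ⟨g, hg, hU⟩ := h.radial
  obtain ⟨h1, h2⟩ := c7_rad hU h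
  have hr : 0 < ‖y‖ := lt_of_lt_of_le hρ hy
  have e0 := c7_pot hg hU h 0 y
  simp only [sub_zero, zero_sub, norm_neg] at e0
  rw [e0]
  have e1 : ∫ t in Set.Ioi (0 : ℝ), R999.Newton.kx ‖y‖ t * g t ^ 2 =
      ∫ t in Set.Ioi (0 : ℝ), 4 * Real.pi / ‖y‖ * (t ^ 2 * g t ^ 2) := by
    refine setIntegral_congr_fun measurableSet_Ioi fun t ht => ?_
    rw [Set.mem_Ioi] at ht
    unfold R999.Newton.kx
    rcases lt_or_ge t ρ with h3 | h3
    · rw [max_eq_left (h3.le.trans hy)]
      ring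
    · have h4 : g t = 0 := by
        have h5 := hU (t • EuclideanSpace.single (0 : Fin 3) (1 : ℝ))
        have h6 : ‖t • EuclideanSpace.single (0 : Fin 3) (1 : ℝ)‖ = t := by
          rw [norm_smul, PiLp.norm_single, norm_one, mul_one, Real.norm_of_nonneg ht.le]
        rw [h.supp _ (by rw [h6]; exact h3), h6] at h5
        exact h5.symm
      rw [h4]
      simp
  rw [e1, integral_const_mul]
  have e2 : 4 * Real.pi / ‖y‖ * ∫ t in Set.Ioi (0 : ℝ), t ^ 2 * g t ^ 2 =
      (4 * Real.pi * ∫ t in Set.Ioi (0 : ℝ), t ^ 2 * g t ^ 2) / ‖y‖ := by ring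
  rw [e2, h2]

theorem Bump.PP_le {K ρ : ℝ} {U : E3 → ℝ} (h : Bump K ρ U) (hρ : 0 < ρ) (Z : ℝ)
    (x : Fin n → E3) {y : E3} (hy : ρ ≤ ‖y‖) (hne : ∀ j, y ≠ x j) :
    ∫ w, U (w - y) ^ 2 * PP Z w x ≤ PP Z y x := by
  obtain ⟨i1, e1⟩ := h.newton_eq hρ hy
  have i2 : ∀ j, Integrable (fun w => U (w - y) ^ 2 * (1 / ‖w - x j‖)) := fun j =>
    (h.newton_le (hne j).symm).1
  have e2 : ∀ j, ∫ w, U (w - y) ^ 2 * (1 / ‖w - x j‖) ≤ 1 / ‖y - x j‖ := fun j =>
    (h.newton_le (hne j).symm).2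
  have e3 : ∀ w, U (w - y) ^ 2 * PP Z w x = -Z * (U (w - y) ^ 2 * (1 / ‖w‖)) +
      ∑ j, U (w - y) ^ 2 * (1 / ‖w - x j‖) := by
    intro w
    unfold PP
    rw [mul_add, Finset.mul_sum]
    ring
  simp_rw [e3]
  rw [integral_add (i1.const_mul _) (integrable_finsetSum _ fun j _ => i2 j), integral_const_mul, e1,
    integral_finsetSum _ (fun j _ => i2 j)]
  unfold PP
  have e4 := Finset.sum_le_sum (s := Finset.univ) (fun j _ => e2 j)
  have e5 : -Z * (1 / ‖y‖) = -(Z / ‖y‖) := by ring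
  rw [e5]
  linarith

theorem shell_meas (L : ℝ) : MeasurableSet (shell L) := by
  unfold shell
  exact ((isClosed_le continuous_const continuous_norm).inter
    (isClosed_le continuous_norm continuous_const)).measurableSet

theorem c7_shell_eq (L : ℝ) : shell L = Metric.closedBall (0 : E3) (2 * L) \ Metric.ball 0 L := by
  ext y
  simp only [shell, Set.mem_ofPred_eq, Set.mem_sdiff, mem_closedBall_zero_iff, mem_ball_zero_iff, not_lt]
  tauto

theorem shell_vol {L : ℝ} (hL : 0 < L) :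
    volume (shell L) ≠ ⊤ ∧ volume.real (shell L) = 28 * Real.pi / 3 * L ^ 3 := by
  have hpi := Real.pi_pos
  have hfin : volume (shell L) ≠ ⊤ := by
    rw [c7_shell_eq]
    exact ((measure_mono Set.sdiff_subset).trans_lt measure_closedBall_lt_top).ne
  refine ⟨hfin, ?_⟩
  have h1 : volume.real (Metric.closedBall (0 : E3) (2 * L)) = 4 * Real.pi / 3 * (2 * L) ^ 3 := by
    rw [← c7_vol_ball (by linarith : 0 < 2 * L), Measure.real, Measure.real,
      Measure.addHaar_closedBall_eq_addHaar_ball]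
  have hsub : Metric.ball (0 : E3) L ⊆ Metric.closedBall 0 (2 * L) :=
    Metric.ball_subset_closedBall.trans (Metric.closedBall_subset_closedBall (by linarith))
  have h2 := measureReal_sdiff hsub measurableSet_ball (μ := (volume : Measure E3)) measure_closedBall_lt_top.ne
  rw [c7_shell_eq, h2, h1, c7_vol_ball hL]
  ring

/-- `pot_radial` with `g = indicator of [L, 2L]`, `max ‖x‖ t ≥ t`, and `int_radial` for `x = 0` -/
theorem shell_newton {L : ℝ} (hL : 0 < L) (x : E3) :
    IntegrableOn (fun y => 1 / ‖y - x‖) (shell L) ∧ IntegrableOn (fun y => 1 / ‖y‖) (shell L) ∧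
      ∫ y in shell L, 1 / ‖y - x‖ ≤ ∫ y in shell L, 1 / ‖y‖ := by
  have hint : ∀ x : E3, IntegrableOn (fun y => 1 / ‖y - x‖) (shell L) := by
    intro x
    have h1 := (Pool.Agent.TH791.Cl.newton_ball 0 x (3 * L) (by linarith)).1
    refine h1.mono_set ?_
    intro y hy
    rw [mem_ball_zero_iff]
    have := hy.2
    linarith
  have h0 := hint 0
  simp only [sub_zero] at h0
  refine ⟨hint x, h0, ?_⟩
  set g : ℝ → ℝ := (Set.Icc L (2 * L)).indicator (fun _ => 1) with hg
  have hgm : Measurable g := measurable_const.indicator measurableSet_Icc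
  have hg0 : ∀ t, 0 ≤ g t := fun t => Set.indicator_nonneg (fun _ _ => zero_le_one) t
  have key : ∀ x : E3, ∫ y in shell L, 1 / ‖y - x‖ = ∫ t in Set.Ioi (0 : ℝ), R999.Newton.kx ‖x‖ t * g t := by
    intro x
    rw [← R999.Newton.pot_radial hgm x, ← integral_indicator (shell_meas L)]
    congr 1
    funext y
    by_cases hy : y ∈ shell L
    · rw [Set.indicator_of_mem hy, hg, Set.indicator_of_mem (show ‖y‖ ∈ Set.Icc L (2 * L) from hy), norm_sub_rev]
    · rw [Set.indicator_of_notMem hy, hg,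
        Set.indicator_of_notMem (show ‖y‖ ∉ Set.Icc L (2 * L) from hy), zero_div]
  have e0 := key 0
  simp only [sub_zero] at e0
  rw [key x, e0]
  have hkint : ∀ x : E3, IntegrableOn (fun t => R999.Newton.kx ‖x‖ t * g t) (Set.Ioi 0) := by
    intro x
    have hb : IntegrableOn ((Set.Icc L (2 * L)).indicator (fun _ => 8 * Real.pi * L)) (Set.Ioi (0 : ℝ)) := by
      apply Integrable.integrableOn
      rw [integrable_indicator_iff measurableSet_Icc]
      exact integrableOn_const (by rw [Real.volume_Icc]; exact ENNReal.ofReal_ne_top)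
    refine Integrable.mono' hb ((R999.Newton.kx_meas _).mul hgm).aestronglyMeasurable ?_
    refine ae_of_all _ fun t => ?_
    rw [Real.norm_of_nonneg (mul_nonneg (R999.Newton.kx_nonneg (norm_nonneg x)) (hg0 t))]
    by_cases ht : t ∈ Set.Icc L (2 * L)
    · rw [Set.indicator_of_mem ht, hg, Set.indicator_of_mem ht, mul_one]
      have ht0 : 0 < t := lt_of_lt_of_le hL ht.1
      have hpi := Real.pi_pos
      unfold R999.Newton.kx
      have hm : t ≤ max ‖x‖ t := le_max_right _ _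
      rw [div_le_iff₀ (lt_of_lt_of_le ht0 hm)]
      have h3 : 4 * Real.pi * t ^ 2 ≤ 8 * Real.pi * L * t := by
        have h4 := ht.2
        nlinarith [mul_pos hpi ht0]
      have h5 : 8 * Real.pi * L * t ≤ 8 * Real.pi * L * max ‖x‖ t :=
        mul_le_mul_of_nonneg_left hm (by positivity)
      linarith
    · rw [Set.indicator_of_notMem ht, hg, Set.indicator_of_notMem ht, mul_zero]
  apply setIntegral_mono_on_ae ?_ ?_ measurableSet_Ioi
  · refine ae_of_all _ fun t ht => ?_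
    rw [Set.mem_Ioi] at ht
    apply mul_le_mul_of_nonneg_right _ (hg0 t)
    unfold R999.Newton.kx
    have hpi := Real.pi_pos
    rw [norm_zero]
    apply div_le_div_of_nonneg_left (by positivity)
    · exact lt_of_lt_of_le ht (le_max_right _ _)
    · exact max_le_max (norm_nonneg _) le_rfl
  · exact hkint x
  · have := hkint 0
    exact this

theorem shell_low {L : ℝ} (hL : 0 < L) :
    volume.real (shell L) / (2 * L) ≤ ∫ y in shell L, 1 / ‖y‖ := by
  obtain ⟨hfin, -⟩ := shell_vol hL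
  have h1 := (shell_newton hL 0).2.1
  have h2 : ∫ y in shell L, (1 / (2 * L) : ℝ) ≤ ∫ y in shell L, 1 / ‖y‖ := by
    apply setIntegral_mono_on (integrableOn_const hfin) h1 (shell_meas L)
    intro y hy
    have h3 : 0 < ‖y‖ := lt_of_lt_of_le hL hy.1
    exact one_div_le_one_div_of_le h3 hy.2
  rw [setIntegral_const, smul_eq_mul] at h2
  refine le_trans (le_of_eq ?_) h2
  ring

theorem shell_PP {L : ℝ} (hL : 0 < L) {Z : ℝ} (hZ : (n : ℝ) ≤ Z) (x : Fin n → E3) :
    IntegrableOn (fun y => PP Z y x) (shell L) ∧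
      ∫ y in shell L, PP Z y x ≤ -((Z - n) * (volume.real (shell L) / (2 * L))) := by
  have i0 := (shell_newton hL 0).2.1
  have i1 : ∀ j, IntegrableOn (fun y => 1 / ‖y - x j‖) (shell L) := fun j => (shell_newton hL (x j)).1
  have e1 : ∀ j, ∫ y in shell L, 1 / ‖y - x j‖ ≤ ∫ y in shell L, 1 / ‖y‖ := fun j => (shell_newton hL (x j)).2.2
  have e2 : (fun y => PP Z y x) = fun y => -Z * (1 / ‖y‖) + ∑ j, 1 / ‖y - x j‖ := by
    funext y
    unfold PP
    ring
  rw [e2]
  have i2 : IntegrableOn (fun y : E3 => ∑ j, 1 / ‖y - x j‖) (shell L) := integrable_finsetSum _ fun j _ => i1 j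
  refine ⟨(i0.const_mul _).add i2, ?_⟩
  rw [integral_add (i0.const_mul _) i2, integral_const_mul, integral_finsetSum _ (fun j _ => i1 j)]
  have e3 := Finset.sum_le_sum (s := Finset.univ) (fun j _ => e1 j)
  rw [Finset.sum_const, Finset.card_univ, Fintype.card_fin, nsmul_eq_mul] at e3
  have e4 := mul_le_mul_of_nonneg_left (shell_low hL) (sub_nonneg.2 hZ)
  linarith

end Pool.Agent.H899_CR
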