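import Pool.Agent.H899_CR.Defs2

/-!
# Radial bump functions: definition
-/

set_option autoImplicit false

noncomputable section

namespace Pool.Agent.H899_CR

open MeasureTheory

/-- A radial normalized bump function supported in the ball of radius `ρ`, with
`(1/2) ∫ |∇U|² = K/ρ²`. -/
structure Bump (K ρ : ℝ) (U : E3 → ℝ) : Prop where
  smooth : ContDiff ℝ 1 U
  comp : HasCompactSupport U
  nonneg : ∀ w, 0 ≤ U w
  supp : ∀ w, ρ ≤ ‖w‖ → U w = 0
  norm : ∫ w, U w ^ 2 = 1
  grad : ∫ w, gs U w = 2 * K / ρ ^ 2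
  radial : ∃ g : ℝ → ℝ, Measurable g ∧ ∀ w, U w = g ‖w‖

end Pool.Agent.H899_CR
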