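import Pool.Agent.H899_CR.Slice


set_option autoImplicit false

noncomputable section

namespace Pool.Agent.H899_CR

open MeasureTheory

variable {n : ℕ}

/-! Targets. For α continuous with compact support put a x = ∫ u y α (cns y x) dy. -/

theorem cns_cont : Continuous (fun p : E3 × (Fin n → E3) => cns p.1 p.2) := by
  refine continuous_pi (fun i => ?_)
  refine Fin.cases ?_ (fun j => ?_) i
  · exact continuous_fst
  · exact (continuous_apply j).comp continuous_snd

/-- the linear part of `cns` -/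
def cnsL : (Fin n → E3) →L[ℝ] (Fin (n + 1) → E3) :=
  ContinuousLinearMap.pi (fun i => Fin.cases (motive := fun _ => (Fin n → E3) →L[ℝ] E3) 0
    (fun j => ContinuousLinearMap.proj j) i)

theorem cnsL_apply (x : Fin n → E3) : cnsL x = cns 0 x := by
  funext i
  refine Fin.cases ?_ (fun j => ?_) i
  · rfl
  · rfl

theorem cns_fd (y : E3) (x : Fin n → E3) : HasFDerivAt (fun x => cns y x) cnsL x := by
  have h : (fun x : Fin n → E3 => cns y x) = fun x => cns y 0 + cnsL x := by
    funext x i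
    rw [cnsL_apply]
    refine Fin.cases ?_ (fun j => ?_) i
    · change y = y + 0
      rw [add_zero]
    · change x j = 0 + x j
      rw [zero_add]
  rw [h]
  exact cnsL.hasFDerivAt.const_add _

theorem cnsL_dir (i : Fin n) (c : Fin 3) : cnsL (dir i c) = dir i.succ c := by
  rw [cnsL_apply]
  funext k
  refine Fin.cases ?_ (fun j => ?_) k
  · change (0 : E3) = _
    unfold dir
    rw [Pi.single_eq_of_ne (Fin.succ_ne_zero i).symm]
  · change dir i c j = _
    unfold dir
    by_cases h : j = i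
    · subst h
      rw [Pi.single_eq_same, Pi.single_eq_same]
    · rw [Pi.single_eq_of_ne h, Pi.single_eq_of_ne (fun h' => h (Fin.succ_injective _ h'))]

/-- continuity of an integral with compact support in the variable of integration -/
theorem par_cont {F : Type} [NormedAddCommGroup F] [NormedSpace ℝ F]
    {G : (Fin n → E3) → E3 → F} (hG : Continuous (Function.uncurry G)) {K : Set E3}
    (hK : IsCompact K) (h0 : ∀ x, ∀ y ∉ K, G x y = 0) : Continuous (fun x => ∫ y, G x y) := by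
  have h1 := continuous_parametric_integral_of_continuous (μ := (volume : Measure E3)) hG hK
  refine h1.congr fun x => ?_
  exact setIntegral_eq_integral_of_forall_compl_eq_zero (h0 x)

/-- continuity and compact support of the contraction (the integrand is jointly continuous with
compact support) -/
theorem ctr_cont {X : (Fin (n + 1) → E3) → ℂ} (hX : Continuous X) (hX' : HasCompactSupport X)
    {p : E3 → ℝ} (hp : Continuous p) (hp' : HasCompactSupport p) :
    Continuous (fun x : Fin n → E3 => ∫ y, (p y : ℂ) * X (cns y x)) ∧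
      HasCompactSupport (fun x : Fin n → E3 => ∫ y, (p y : ℂ) * X (cns y x)) := by
  constructor
  · refine par_cont (G := fun x y => (p y : ℂ) * X (cns y x)) ?_ hp' ?_
    · exact (Complex.continuous_ofReal.comp (hp.comp continuous_snd)).mul
        (hX.comp (cns_cont.comp continuous_swap))
    · intro x y hy
      rw [image_eq_zero_of_notMem_tsupport hy]
      simp
  · have htl : Continuous (tl : (Fin (n + 1) → E3) → (Fin n → E3)) :=
      continuous_pi fun i => continuous_apply _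
    refine HasCompactSupport.intro (hX'.image htl) ?_
    intro x hx
    have h1 : ∀ y, X (cns y x) = 0 := by
      intro y
      by_contra hne
      apply hx
      exact ⟨cns y x, subset_tsupport _ hne, tl_cns y x⟩
    simp [h1]

theorem ctr_fd {α : (Fin (n + 1) → E3) → ℂ} (h : CC α) {u : E3 → ℝ} (hu : Continuous u)
    (hc : HasCompactSupport u) (x : Fin n → E3) :
    HasFDerivAt (fun x : Fin n → E3 => ∫ y, (u y : ℂ) * α (cns y x))
      (∫ y, (u y) • (fderiv ℝ α (cns y x)).comp cnsL) x ∧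
    Integrable (fun y => (u y) • (fderiv ℝ α (cns y x)).comp (cnsL (n := n))) := by
  have hfc : Continuous (fderiv ℝ α) := h.smooth.continuous_fderiv (by simp)
  have hfs : HasCompactSupport (fderiv ℝ α) := h.comp.fderiv (𝕜 := ℝ)
  obtain ⟨C, hC⟩ := hfs.exists_bound_of_continuous hfc
  have hcy : ∀ x : Fin n → E3, Continuous (fun y : E3 => cns y x) := fun x =>
    cns_cont.comp (continuous_id.prodMk continuous_const)
  have hF' : ∀ x : Fin n → E3,
      Continuous (fun y => (u y) • (fderiv ℝ α (cns y x)).comp (cnsL (n := n))) := fun x =>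
    hu.smul ((hfc.comp (hcy x)).clm_comp continuous_const)
  have hF : ∀ x : Fin n → E3, Continuous (fun y => (u y : ℂ) * α (cns y x)) := fun x =>
    (Complex.continuous_ofReal.comp hu).mul (h.cont.comp (hcy x))
  have hu0 : ∀ y, y ∉ tsupport u → u y = 0 := fun y hy => image_eq_zero_of_notMem_tsupport hy
  have hint : Integrable (fun y => (u y) • (fderiv ℝ α (cns y x)).comp (cnsL (n := n))) := by
    refine (hF' x).integrable_of_hasCompactSupport (HasCompactSupport.intro hc ?_)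
    intro y hy
    rw [hu0 y hy]
    ext v
    simp
  refine ⟨?_, hint⟩
  refine hasFDerivAt_integral_of_dominated_of_fderiv_le (s := Set.univ)
    (F' := fun x y => (u y) • (fderiv ℝ α (cns y x)).comp (cnsL (n := n)))
    (bound := fun y => |u y| * (C * ‖(cnsL (n := n))‖)) Filter.univ_mem ?_ ?_ ?_ ?_ ?_ ?_
  · exact Filter.Eventually.of_forall fun x => (hF x).aestronglyMeasurable
  · refine (hF x).integrable_of_hasCompactSupport (HasCompactSupport.intro hc ?_)
    intro y hy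
    rw [hu0 y hy]; simp
  · exact hint.aestronglyMeasurable
  · refine ae_of_all _ fun y x _ => ?_
    rw [norm_smul, Real.norm_eq_abs]
    refine mul_le_mul_of_nonneg_left ?_ (abs_nonneg _)
    refine (ContinuousLinearMap.opNorm_comp_le _ _).trans ?_
    exact mul_le_mul_of_nonneg_right (hC _) (norm_nonneg _)
  · exact ((hu.abs.integrable_of_hasCompactSupport hc.abs)).mul_const _
  · refine ae_of_all _ fun y x _ => ?_
    have h1 : HasFDerivAt (fun x => α (cns y x)) ((fderiv ℝ α (cns y x)).comp cnsL) x :=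
      ((h.diff (cns y x)).hasFDerivAt).comp x (cns_fd y x)
    have h2 := h1.const_smul (u y)
    refine h2.congr_of_eventuallyEq (Filter.Eventually.of_forall fun z => ?_)
    simp only [Pi.smul_apply, Complex.real_smul]

/-- differentiation under the integral sign -/
theorem CC.ctr {α : (Fin (n + 1) → E3) → ℂ} (h : CC α) {u : E3 → ℝ} (hu : Continuous u)
    (hc : HasCompactSupport u) : CC (fun x : Fin n → E3 => ∫ y, (u y : ℂ) * α (cns y x)) := by
  refine ⟨?_, (ctr_cont h.cont h.comp hu hc).2⟩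
  rw [contDiff_one_iff_fderiv]
  refine ⟨fun x => (ctr_fd h hu hc x).1.differentiableAt, ?_⟩
  have e : fderiv ℝ (fun x : Fin n → E3 => ∫ y, (u y : ℂ) * α (cns y x)) =
      fun x => ∫ y, (u y) • (fderiv ℝ α (cns y x)).comp cnsL :=
    funext fun x => (ctr_fd h hu hc x).1.fderiv
  rw [e]
  have hfc : Continuous (fderiv ℝ α) := h.smooth.continuous_fderiv (by simp)
  refine par_cont (G := fun x y => (u y) • (fderiv ℝ α (cns y x)).comp (cnsL (n := n))) ?_ hc ?_
  · exact (hu.comp continuous_snd).smul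
      ((hfc.comp (cns_cont.comp continuous_swap)).clm_comp continuous_const)
  · intro x y hy
    rw [image_eq_zero_of_notMem_tsupport hy]
    ext v
    simp

theorem pd_ctr {α : (Fin (n + 1) → E3) → ℂ} (h : CC α) {u : E3 → ℝ} (hu : Continuous u)
    (hc : HasCompactSupport u) (i : Fin n) (c : Fin 3) (x : Fin n → E3) :
    pd i c (fun x : Fin n → E3 => ∫ y, (u y : ℂ) * α (cns y x)) x =
      ∫ y, (u y : ℂ) * pd i.succ c α (cns y x) := by
  unfold pd
  rw [(ctr_fd h hu hc x).1.fderiv, ContinuousLinearMap.integral_apply (ctr_fd h hu hc x).2]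
  refine integral_congr_ae (ae_of_all _ fun y => ?_)
  change ((u y) • (fderiv ℝ α (cns y x)).comp (cnsL (n := n))) (dir i c) = _
  rw [smul_apply, ContinuousLinearMap.comp_apply, cnsL_dir,
    Complex.real_smul]

theorem CW.ctr {φ : WF (n + 1)} (h : CW φ) {u : E3 → ℝ} (hu : Continuous u)
    (hc : HasCompactSupport u) : CW (ctr u φ) := fun σ => CC.ctr (h (cns 0 σ)) hu hc

/-- from `AS.slice`, `ctr u φ σ x = ∫ u y * sl 0 y φ σ x` -/
theorem AS.ctr {φ : WF (n + 1)} (h : AS φ) {u : E3 → ℝ} (hu : Continuous u)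
    (hc : HasCompactSupport u) : AS (ctr u φ) := by
  refine ⟨CW.ctr h.cw hu hc, ?_⟩
  intro π
  funext σ x
  have h1 : ∀ y, φ (cns 0 (σ ∘ π)) (cns y (x ∘ π)) = sg π * φ (cns 0 σ) (cns y x) := fun y =>
    congrFun (congrFun ((h.slice 0 y).anti π) σ) x
  change ∫ y, (u y : ℂ) * φ (cns 0 (σ ∘ π)) (cns y (x ∘ π)) =
    sg π * ∫ y, (u y : ℂ) * φ (cns 0 σ) (cns y x)
  rw [← integral_const_mul]
  refine integral_congr_ae (ae_of_all _ fun y => ?_)
  simp only [h1]
  ring

theorem cs_real {f g : E3 → ℝ} (hf : Continuous f) (hf' : HasCompactSupport f)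
    (hg : Continuous g) (hg' : HasCompactSupport g) (hf0 : ∀ y, 0 ≤ f y) (hg0 : ∀ y, 0 ≤ g y) :
    (∫ y, f y * g y) ^ 2 ≤ (∫ y, f y ^ 2) * ∫ y, g y ^ 2 := by
  have h := integral_mul_le_Lp_mul_Lq_of_nonneg (μ := (volume : Measure E3))
    Real.HolderConjugate.two_two (ae_of_all _ hf0) (ae_of_all _ hg0)
    (hf.memLp_of_hasCompactSupport hf') (hg.memLp_of_hasCompactSupport hg')
  simp only [Real.rpow_two] at h
  have e : ∀ a : ℝ, 0 ≤ a → (a ^ ((1 : ℝ) / 2)) ^ 2 = a := by
    intro a ha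
    rw [← Real.sqrt_eq_rpow, Real.sq_sqrt ha]
  have h1 : 0 ≤ ∫ y, f y * g y := integral_nonneg fun y => mul_nonneg (hf0 y) (hg0 y)
  have h2 : 0 ≤ ∫ y, f y ^ 2 := integral_nonneg fun y => sq_nonneg _
  have h3 : 0 ≤ ∫ y, g y ^ 2 := integral_nonneg fun y => sq_nonneg _
  calc (∫ y, f y * g y) ^ 2 ≤
      ((∫ y, f y ^ 2) ^ ((1 : ℝ) / 2) * (∫ y, g y ^ 2) ^ ((1 : ℝ) / 2)) ^ 2 :=
        pow_le_pow_left₀ h1 h 2
    _ = (∫ y, f y ^ 2) * ∫ y, g y ^ 2 := by rw [mul_pow, e _ h2, e _ h3]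

/-- Cauchy-Schwarz in the variable `y` for fixed `x`, then `fub'` -/
theorem ctr_sq_le {X : (Fin (n + 1) → E3) → ℂ} (hX : Continuous X) (hX' : HasCompactSupport X)
    {p : E3 → ℝ} (hp : Continuous p) (hp' : HasCompactSupport p) :
    ∫ x : Fin n → E3, ‖∫ y, (p y : ℂ) * X (cns y x)‖ ^ 2 ≤
      (∫ y, p y ^ 2) * ∫ x, ‖X x‖ ^ 2 := by
  have hcy : ∀ x : Fin n → E3, Continuous (fun y : E3 => cns y x) := fun x =>
    cns_cont.comp (continuous_id.prodMk continuous_const)
  have hsq : Integrable (fun x => ‖X x‖ ^ 2) := int_sq hX hX'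
  have hpt : ∀ x : Fin n → E3, ‖∫ y, (p y : ℂ) * X (cns y x)‖ ^ 2 ≤
      (∫ y, p y ^ 2) * ∫ y, ‖X (cns y x)‖ ^ 2 := by
    intro x
    have hXx : Continuous (fun y : E3 => ‖X (cns y x)‖) := (hX.comp (hcy x)).norm
    have hh : Continuous (fun y : E3 => y) := continuous_id
    have hcs : HasCompactSupport (fun y : E3 => ‖X (cns y x)‖) := by
      refine HasCompactSupport.intro (hX'.image (continuous_apply (0 : Fin (n + 1)))) ?_
      intro y hy
      have : X (cns y x) = 0 := by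
        by_contra hne
        exact hy ⟨cns y x, subset_tsupport _ hne, rfl⟩
      rw [this, norm_zero]
    have h1 : ‖∫ y, (p y : ℂ) * X (cns y x)‖ ≤ ∫ y, |p y| * ‖X (cns y x)‖ := by
      refine (norm_integral_le_integral_norm _).trans (le_of_eq ?_)
      refine integral_congr_ae (ae_of_all _ fun y => ?_)
      simp only [norm_mul, Complex.norm_real, Real.norm_eq_abs]
    have h2 := cs_real hp.abs hp'.abs hXx hcs (fun y => abs_nonneg _) (fun y => norm_nonneg _)
    simp only [sq_abs] at h2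
    exact (pow_le_pow_left₀ (norm_nonneg _) h1 2).trans h2
  rw [fub' hsq, ← integral_const_mul]
  refine integral_mono ?_ ?_ hpt
  · exact int_sq (ctr_cont hX hX' hp hp').1 (ctr_cont hX hX' hp hp').2
  · exact ((fub_int hsq).integral_prod_right).const_mul _

theorem h1_eq' {m : ℕ} {φ : WF m} (h : CW φ) : h1 φ =
    ∑ σ, (1 / 2 * (∑ i, ∑ c, ∫ x, ‖pd i c (φ σ) x‖ ^ 2) + ∫ x, ‖φ σ x‖ ^ 2) := by
  unfold h1 FW FF ed
  refine Finset.sum_congr rfl fun σ _ => ?_
  simp only [rp_self, one_mul]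
  have hi : ∀ i c, Integrable (fun x => ‖pd i c (φ σ) x‖ ^ 2) := fun i c =>
    int_sq (pd_continuous (h σ) i c) (pd_comp (h σ) i c)
  rw [integral_add]
  · rw [integral_const_mul, integral_finsetSum]
    · congr 2
      refine Finset.sum_congr rfl fun i _ => ?_
      rw [integral_finsetSum]
      exact fun c _ => hi i c
    · exact fun i _ => integrable_finsetSum _ fun c _ => hi i c
  · exact (integrable_finsetSum _ fun i _ => integrable_finsetSum _ fun c _ => hi i c).const_mul _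
  · exact int_sq (h σ).cont (h σ).comp

/-- `h1 φ = ½ ∑ ∫ ‖pd i c (φ σ)‖² + ∑ ∫ ‖φ σ‖²` -/
theorem h1_ctr_le {φ : WF (n + 1)} (h : CW φ) {u : E3 → ℝ} (hu : Continuous u)
    (hc : HasCompactSupport u) : h1 (Pool.Agent.H899_CR.ctr u φ) ≤ (∫ y, u y ^ 2) * h1 φ := by
  rw [h1_eq' (CW.ctr h hu hc), h1_eq' h]
  set A : (Fin (n + 1) → Fin 2) → ℝ := fun σ =>
    1 / 2 * (∑ i, ∑ c, ∫ x, ‖pd i c (φ σ) x‖ ^ 2) + ∫ x, ‖φ σ x‖ ^ 2 with hA
  have hu2 : 0 ≤ ∫ y, u y ^ 2 := integral_nonneg fun y => sq_nonneg _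
  have hA0 : ∀ σ, 0 ≤ A σ := by
    intro σ
    simp only [hA]
    have h1 : 0 ≤ ∑ i, ∑ c, ∫ x, ‖pd i c (φ σ) x‖ ^ 2 :=
      Finset.sum_nonneg fun i _ => Finset.sum_nonneg fun c _ => integral_nonneg fun x => by
        positivity
    have h2 : 0 ≤ ∫ x, ‖φ σ x‖ ^ 2 := integral_nonneg fun x => by positivity
    positivity
  have hstep : ∀ σ : Fin n → Fin 2,
      (1 / 2 * (∑ i, ∑ c, ∫ x, ‖pd i c (Pool.Agent.H899_CR.ctr u φ σ) x‖ ^ 2) +
        ∫ x, ‖Pool.Agent.H899_CR.ctr u φ σ x‖ ^ 2) ≤ (∫ y, u y ^ 2) * A (cns 0 σ) := by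
    intro σ
    have k1 : ∀ (i : Fin n) (c : Fin 3),
        ∫ x, ‖pd i c (Pool.Agent.H899_CR.ctr u φ σ) x‖ ^ 2 ≤
          (∫ y, u y ^ 2) * ∫ x, ‖pd i.succ c (φ (cns 0 σ)) x‖ ^ 2 := by
      intro i c
      have e : ∀ x, pd i c (Pool.Agent.H899_CR.ctr u φ σ) x =
          ∫ y, (u y : ℂ) * pd i.succ c (φ (cns 0 σ)) (cns y x) := fun x =>
        pd_ctr (h (cns 0 σ)) hu hc i c x
      simp only [e]
      exact ctr_sq_le (pd_continuous (h _) _ _) (pd_comp (h _) _ _) hu hc
    have k2 : ∫ x, ‖Pool.Agent.H899_CR.ctr u φ σ x‖ ^ 2 ≤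
        (∫ y, u y ^ 2) * ∫ x, ‖φ (cns 0 σ) x‖ ^ 2 :=
      ctr_sq_le (h _).cont (h _).comp hu hc
    have k3 : ∑ i, ∑ c, ∫ x, ‖pd i c (Pool.Agent.H899_CR.ctr u φ σ) x‖ ^ 2 ≤
        (∫ y, u y ^ 2) * ∑ i, ∑ c, ∫ x, ‖pd i c (φ (cns 0 σ)) x‖ ^ 2 := by
      rw [Fin.sum_univ_succ, mul_add]
      have k4 : 0 ≤ (∫ y, u y ^ 2) * ∑ c, ∫ x, ‖pd 0 c (φ (cns 0 σ)) x‖ ^ 2 :=
        mul_nonneg hu2 (Finset.sum_nonneg fun c _ => integral_nonneg fun x => by positivity)
      have k5 : ∑ i, ∑ c, ∫ x, ‖pd i c (Pool.Agent.H899_CR.ctr u φ σ) x‖ ^ 2 ≤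
          ∑ i : Fin n, (∫ y, u y ^ 2) * ∑ c, ∫ x, ‖pd i.succ c (φ (cns 0 σ)) x‖ ^ 2 := by
        refine Finset.sum_le_sum fun i _ => ?_
        rw [Finset.mul_sum]
        exact Finset.sum_le_sum fun c _ => k1 i c
      rw [← Finset.mul_sum] at k5
      linarith
    simp only [hA]
    rw [mul_add]
    have k6 : (∫ y, u y ^ 2) * (1 / 2 * ∑ i, ∑ c, ∫ x, ‖pd i c (φ (cns 0 σ)) x‖ ^ 2) =
        1 / 2 * ((∫ y, u y ^ 2) * ∑ i, ∑ c, ∫ x, ‖pd i c (φ (cns 0 σ)) x‖ ^ 2) := by ring
    rw [k6]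
    linarith
  refine (Finset.sum_le_sum fun σ _ => hstep σ).trans ?_
  rw [← Finset.mul_sum]
  refine mul_le_mul_of_nonneg_left ?_ hu2
  rw [sum_spin A, Fin.sum_univ_two]
  have : 0 ≤ ∑ σ : Fin n → Fin 2, A (cns 1 σ) := Finset.sum_nonneg fun σ _ => hA0 _
  linarith

end Pool.Agent.H899_CR
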