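import Pool.Agent.H899_CR.Fub2


set_option autoImplicit false

noncomputable section

namespace Pool.Agent.H899_CR

open MeasureTheory

variable {n : ℕ}

/-! ### Auxiliary lemmas -/

theorem integrable_comp_perm (π : Equiv.Perm (Fin n)) {F : (Fin n → E3) → ℝ}
    (hF : Integrable F) : Integrable (fun x => F (x ∘ π)) := by
  have hmp := volume_measurePreserving_piCongrLeft (fun _ : Fin n => E3) π.symm
  have h1 := (hmp.integrable_comp_emb
    (MeasurableEquiv.measurableEmbedding _)).2 hF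
  refine h1.congr (ae_of_all _ fun x => ?_)
  simp only [Function.comp_apply]
  congr 1
  funext i
  have h2 := MeasurableEquiv.piCongrLeft_apply_apply (β := fun _ : Fin n => E3) (e := π.symm)
    (x := x) (i := π i)
  rw [Equiv.symm_apply_apply] at h2
  exact h2

theorem adm_VC_tl (Z : ℝ) : Adm (fun x : Fin (n + 1) → E3 => VC Z (tl x)) := by
  have h1 : Adm (fun x : Fin (n + 1) → E3 => ∑ i : Fin n, 1 / ‖x i.succ‖) :=
    Adm.sum _ fun i _ => adm_en0 i.succ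
  have h2 : Adm (fun x : Fin (n + 1) → E3 => ∑ i : Fin n, ∑ j : Fin n,
      1 / ‖x i.succ - x j.succ‖) :=
    Adm.sum _ fun i _ => Adm.sum _ fun j _ => adm_ee i.succ j.succ
  refine ((h1.const_mul (-Z)).add (h2.const_mul (1 / 2))).congr fun x => ?_
  unfold VC
  simp only [tl_apply]
  ring

theorem adm_PP_tl (Z : ℝ) : Adm (fun x : Fin (n + 1) → E3 => PP Z (x 0) (tl x)) := by
  have h1 : Adm (fun x : Fin (n + 1) → E3 => 1 / ‖x 0‖) := adm_en0 0
  have h2 : Adm (fun x : Fin (n + 1) → E3 => ∑ j : Fin n, 1 / ‖x 0 - x j.succ‖) :=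
    Adm.sum _ fun j _ => adm_ee 0 j.succ
  refine ((h1.const_mul (-Z)).add h2).congr fun x => ?_
  unfold PP
  simp only [tl_apply]
  ring

/-- the transposition of the first two electrons -/
def t01 : Equiv.Perm (Fin (n + 2)) := Equiv.swap 0 1

theorem t01_zero (x : Fin (n + 2) → E3) : (x ∘ t01) 0 = x 1 := by
  simp [t01]

theorem t01_one (x : Fin (n + 2) → E3) : (x ∘ t01) 1 = x 0 := by
  simp [t01]

theorem t01_ss (i : Fin n) : t01 i.succ.succ = i.succ.succ := by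
  unfold t01
  apply Equiv.swap_apply_of_ne_of_ne
  · exact Fin.succ_ne_zero _
  · intro h
    have : (1 : Fin (n + 2)) = Fin.succ 0 := rfl
    rw [this] at h
    exact Fin.succ_ne_zero _ (Fin.succ_injective _ h)

theorem t01_tl (x : Fin (n + 2) → E3) : tl (x ∘ t01) = cns (x 0) (tl (tl x)) := by
  funext i
  refine Fin.cases ?_ (fun j => ?_) i
  · exact t01_one x
  · rw [cns_succ]
    show x (t01 j.succ.succ) = _
    rw [t01_ss]
    rfl

theorem t01_tltl (x : Fin (n + 2) → E3) : tl (tl (x ∘ t01)) = tl (tl x) := by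
  rw [t01_tl, tl_cns]

theorem t01_cns (x : Fin (n + 2) → E3) :
    cns ((x ∘ t01) 0) (tl (tl (x ∘ t01))) = tl x := by
  rw [t01_tltl, t01_zero]
  exact cns_tl (tl x)

theorem VC_two (Z : ℝ) (x : Fin (n + 2) → E3) :
    VC Z x = VC Z (tl (tl x)) + PP Z (x 0) (tl (tl x)) + PP Z (x 1) (tl (tl x)) +
      1 / ‖x 0 - x 1‖ := by
  have h1 := VC_cns Z (x 0) (tl x)
  rw [cns_tl] at h1
  have h2 := VC_cns Z (x 1) (tl (tl x))
  have e : cns (x 1) (tl (tl x)) = tl x := cns_tl (tl x)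
  rw [e] at h2
  have h3 : PP Z (x 0) (tl x) = PP Z (x 0) (tl (tl x)) + 1 / ‖x 0 - x 1‖ := by
    unfold PP
    rw [Fin.sum_univ_succ]
    simp only [tl_apply]
    have : (Fin.succ 0 : Fin (n + 2)) = 1 := rfl
    rw [this]
    ring
  rw [h1, h2, h3]
  ring

/-! Target.
Write x = cns y (cns w x''), a(x'') = ∫ u(y) α(cns y x'') dy, Θ = u(x 0) α(tl x) = u(y) α(w,x''),
Θ' = u(x 1) α(cns (x 0) (tl (tl x))) = u(w) α(y,x'') = Θ ∘ (swap 0 1). The density of FF (VC Z) Θ Θ' is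
   ½ ∑_c rp(∂_c u(y) α(w,x''), u(w) (∂_{0c} α)(y,x''))                  (J1: derivatives in x 0)
 + ½ ∑_c rp(u(y) (∂_{0c} α)(w,x''), ∂_c u(w) α(y,x''))                  (J2: derivatives in x 1; J2 = J1 ∘ swap)
 + ½ ∑_{i,c} rp(u(y) (∂_{i+1,c} α)(w,x''), u(w) (∂_{i+1,c} α)(y,x''))   (J3)
 + [VC Z x'' + PP Z y x'' + PP Z w x'' + 1/‖y-w‖] u(y) u(w) rp(α(w,x''), α(y,x''))     (J4, J5, J6 = J5 ∘ swap, J7)
because VC Z (cns y (cns w x'')) = VC Z x'' + PP Z w x'' + PP Z y (cns w x'') and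
 PP Z y (cns w x'') = PP Z y x'' + 1/‖y-w‖.
On the other side, FF (VC Z) α (u(x 0) a(tl x)) = K1 + K3 + K4 + K5 with (variables (y,x''))
 K1 = ∫ ½ ∑_c rp(∂_{0c}α, ∂_c u(y) a(x'')), K3 = ∫ ½ ∑_{i,c} rp(∂_{i+1,c}α, u(y) ∂_{i,c}a(x'')),
 K4 = ∫ VC Z x'' u(y) rp(α, a), K5 = ∫ PP Z y x'' u(y) rp(α, a),
and FF (VC Z) a a = ∫ ½∑ rp(∂a,∂a) + VC Z rp(a,a) = K3 + K4 by fubL2.
By fubL1 (p = u; W = 1, VC Z (tl ·), PP Z (· 0) (tl ·), all Adm): ∫J1 = K1, ∫J3 = K3, ∫J4 = K4, ∫J5 = K5, so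
 FF Θ Θ' = 2 K1 + K3 + K4 + 2 K5 + ∫J7 = 2 FF α (u a) - FF a a + ∫J7,  ∫J7 ≥ 0 (exch_nonneg).
-/
theorem cross_scalar (Z : ℝ) {α : (Fin (n + 1) → E3) → ℂ} (hα : CC α) {u : E3 → ℝ}
    (hu : ContDiff ℝ 1 u) (hc : HasCompactSupport u) :
    2 * FF (VC Z) α (fun x : Fin (n + 1) → E3 =>
        (u (x 0) : ℂ) * ∫ y, (u y : ℂ) * α (cns y (tl x))) -
      FF (VC Z) (fun x : Fin n → E3 => ∫ y, (u y : ℂ) * α (cns y x))
        (fun x : Fin n → E3 => ∫ y, (u y : ℂ) * α (cns y x)) ≤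
      FF (VC Z) (fun x : Fin (n + 2) → E3 => (u (x 0) : ℂ) * α (tl x))
        (fun x : Fin (n + 2) → E3 => (u (x 1) : ℂ) * α (cns (x 0) (tl (tl x)))) := by
  -- notation
  obtain ⟨a, ha⟩ : ∃ a : (Fin n → E3) → ℂ, a = fun x => ∫ y, (u y : ℂ) * α (cns y x) := ⟨_, rfl⟩
  have hax : ∀ x, ∫ y, (u y : ℂ) * α (cns y x) = a x := fun x => by rw [ha]
  have hA : CC a := by rw [ha]; exact hα.ctr hu.continuous hc
  obtain ⟨du, hdu⟩ : ∃ du : Fin 3 → E3 → ℝ,
      du = fun c y => fderiv ℝ u y (EuclideanSpace.single c 1) := ⟨_, rfl⟩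
  have hduc : ∀ c, Continuous (du c) := by
    intro c; rw [hdu]
    exact (hu.continuous_fderiv (by simp)).clm_apply continuous_const
  have hdus : ∀ c, HasCompactSupport (du c) := by
    intro c; rw [hdu]
    exact hc.fderiv_apply (𝕜 := ℝ) _
  have huc : Continuous u := hu.continuous
  have hαc : Continuous α := hα.cont
  have hαs : HasCompactSupport α := hα.comp
  have hpa : ∀ i c x, ∫ y, (u y : ℂ) * pd i.succ c α (cns y x) = pd i c a x := by
    intro i c x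
    rw [ha]
    exact (pd_ctr hα huc hc i c x).symm
  -- the three auxiliary functions on `n + 1` electrons
  have hx0 : Continuous (fun x : Fin (n + 1) → E3 => x 0) := continuous_apply 0
  have hY1c : ∀ c, Continuous (fun z : Fin (n + 1) → E3 => ((du c (z 0) : ℝ) : ℂ) * pd 0 c α z) :=
    fun c => (Complex.continuous_ofReal.comp ((hduc c).comp hx0)).mul (pd_continuous hα 0 c)
  have hY1s : ∀ c, HasCompactSupport
      (fun z : Fin (n + 1) → E3 => ((du c (z 0) : ℝ) : ℂ) * pd 0 c α z) :=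
    fun c => (pd_comp hα 0 c).mul_left
  have hY3c : ∀ (i : Fin n) c, Continuous
      (fun z : Fin (n + 1) → E3 => ((u (z 0) : ℝ) : ℂ) * pd i.succ c α z) :=
    fun i c => (Complex.continuous_ofReal.comp (huc.comp hx0)).mul (pd_continuous hα _ c)
  have hY3s : ∀ (i : Fin n) c, HasCompactSupport
      (fun z : Fin (n + 1) → E3 => ((u (z 0) : ℝ) : ℂ) * pd i.succ c α z) :=
    fun i c => (pd_comp hα _ c).mul_left
  have hY0c : Continuous (fun z : Fin (n + 1) → E3 => ((u (z 0) : ℝ) : ℂ) * α z) :=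
    (Complex.continuous_ofReal.comp (huc.comp hx0)).mul hαc
  have hY0s : HasCompactSupport (fun z : Fin (n + 1) → E3 => ((u (z 0) : ℝ) : ℂ) * α z) :=
    hαs.mul_left
  -- the terms on `n + 2` electrons
  obtain ⟨f1, hf1⟩ : ∃ f1 : Fin 3 → (Fin (n + 2) → E3) → ℝ, f1 = fun c x => (1 : ℝ) *
      (u (x 1) * rp (α (tl x)) (((du c ((cns (x 0) (tl (tl x)) : Fin (n + 1) → E3) 0) : ℝ) : ℂ) *
        pd 0 c α (cns (x 0) (tl (tl x))))) := ⟨_, rfl⟩
  obtain ⟨f3, hf3⟩ : ∃ f3 : Fin n → Fin 3 → (Fin (n + 2) → E3) → ℝ, f3 = fun i c x => (1 : ℝ) *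
      (u (x 1) * rp (pd i.succ c α (tl x))
        (((u ((cns (x 0) (tl (tl x)) : Fin (n + 1) → E3) 0) : ℝ) : ℂ) *
        pd i.succ c α (cns (x 0) (tl (tl x))))) := ⟨_, rfl⟩
  obtain ⟨f4, hf4⟩ : ∃ f4 : (Fin (n + 2) → E3) → ℝ, f4 = fun x =>
      VC Z (tl (cns (x 0) (tl (tl x)) : Fin (n + 1) → E3)) *
      (u (x 1) * rp (α (tl x)) (((u ((cns (x 0) (tl (tl x)) : Fin (n + 1) → E3) 0) : ℝ) : ℂ) *
        α (cns (x 0) (tl (tl x))))) := ⟨_, rfl⟩
  obtain ⟨f5, hf5⟩ : ∃ f5 : (Fin (n + 2) → E3) → ℝ, f5 = fun x =>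
      PP Z ((cns (x 0) (tl (tl x)) : Fin (n + 1) → E3) 0)
        (tl (cns (x 0) (tl (tl x)) : Fin (n + 1) → E3)) *
      (u (x 1) * rp (α (tl x)) (((u ((cns (x 0) (tl (tl x)) : Fin (n + 1) → E3) 0) : ℝ) : ℂ) *
        α (cns (x 0) (tl (tl x))))) := ⟨_, rfl⟩
  obtain ⟨f7, hf7⟩ : ∃ f7 : (Fin (n + 2) → E3) → ℝ, f7 = fun x => 1 / ‖x 0 - x 1‖ *
      (u (x 0) * u (x 1) * rp (α (tl x)) (α (cns (x 0) (tl (tl x))))) := ⟨_, rfl⟩
  -- the terms on `n + 1` electrons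
  obtain ⟨k1, hk1⟩ : ∃ k1 : Fin 3 → (Fin (n + 1) → E3) → ℝ, k1 = fun c x => (1 : ℝ) *
      (du c (x 0) * rp (a (tl x)) (pd 0 c α x)) := ⟨_, rfl⟩
  obtain ⟨k3, hk3⟩ : ∃ k3 : Fin n → Fin 3 → (Fin (n + 1) → E3) → ℝ, k3 = fun i c x => (1 : ℝ) *
      (u (x 0) * rp (pd i c a (tl x)) (pd i.succ c α x)) := ⟨_, rfl⟩
  obtain ⟨k4, hk4⟩ : ∃ k4 : (Fin (n + 1) → E3) → ℝ, k4 = fun x => VC Z (tl x) *
      (u (x 0) * rp (a (tl x)) (α x)) := ⟨_, rfl⟩
  obtain ⟨k5, hk5⟩ : ∃ k5 : (Fin (n + 1) → E3) → ℝ, k5 = fun x => PP Z (x 0) (tl x) *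
      (u (x 0) * rp (a (tl x)) (α x)) := ⟨_, rfl⟩
  -- integrals of the terms
  have F1 : ∀ c, Integrable (f1 c) ∧ ∫ x, f1 c x = ∫ x, k1 c x := by
    intro c
    obtain ⟨h1, h2⟩ := fubL1 (W := fun _ : Fin (n + 1) → E3 => (1 : ℝ)) (Adm.const 1) huc hc
      hαc hαs (hY1c c) (hY1s c)
    rw [hf1, hk1]
    refine ⟨h1, h2.trans (integral_congr_ae (ae_of_all _ fun x => ?_))⟩
    simp only [hax, rp_smul_right]
  have F3 : ∀ i c, Integrable (f3 i c) ∧ ∫ x, f3 i c x = ∫ x, k3 i c x := by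
    intro i c
    obtain ⟨h1, h2⟩ := fubL1 (W := fun _ : Fin (n + 1) → E3 => (1 : ℝ)) (Adm.const 1) huc hc
      (pd_continuous hα i.succ c) (pd_comp hα i.succ c) (hY3c i c) (hY3s i c)
    rw [hf3, hk3]
    refine ⟨h1, h2.trans (integral_congr_ae (ae_of_all _ fun x => ?_))⟩
    simp only [hpa, rp_smul_right]
  have F4 : Integrable f4 ∧ ∫ x, f4 x = ∫ x, k4 x := by
    obtain ⟨h1, h2⟩ := fubL1 (W := fun x : Fin (n + 1) → E3 => VC Z (tl x)) (adm_VC_tl Z) huc hc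
      hαc hαs hY0c hY0s
    rw [hf4, hk4]
    refine ⟨h1, h2.trans (integral_congr_ae (ae_of_all _ fun x => ?_))⟩
    simp only [hax, rp_smul_right]
  have F5 : Integrable f5 ∧ ∫ x, f5 x = ∫ x, k5 x := by
    obtain ⟨h1, h2⟩ := fubL1 (W := fun x : Fin (n + 1) → E3 => PP Z (x 0) (tl x)) (adm_PP_tl Z)
      huc hc hαc hαs hY0c hY0s
    rw [hf5, hk5]
    refine ⟨h1, h2.trans (integral_congr_ae (ae_of_all _ fun x => ?_))⟩
    simp only [hax, rp_smul_right]
  have F7 : Integrable f7 ∧ 0 ≤ ∫ x, f7 x := by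
    rw [hf7]
    exact exch_nonneg hαc hαs huc hc
  have K1 : ∀ c, Integrable (k1 c) := by
    intro c
    rw [hk1]
    exact (fubL2 (W := fun _ : Fin n → E3 => (1 : ℝ)) (Adm.const 1) (hduc c) (hdus c)
      (pd_continuous hα 0 c) (pd_comp hα 0 c) hA.cont hA.comp).1
  have K3 : ∀ i c, Integrable (k3 i c) ∧
      ∫ x, k3 i c x = ∫ x, rp (pd i c a x) (pd i c a x) := by
    intro i c
    obtain ⟨h1, h2⟩ := fubL2 (W := fun _ : Fin n → E3 => (1 : ℝ)) (Adm.const 1) huc hc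
      (pd_continuous hα i.succ c) (pd_comp hα i.succ c) (pd_continuous hA i c) (pd_comp hA i c)
    rw [hk3]
    refine ⟨h1, h2.trans (integral_congr_ae (ae_of_all _ fun x => ?_))⟩
    simp only [hpa, one_mul]
  have K4 : Integrable k4 ∧ ∫ x, k4 x = ∫ x, VC Z x * rp (a x) (a x) := by
    obtain ⟨h1, h2⟩ := fubL2 (W := fun x : Fin n → E3 => VC Z x) (adm_VC Z) huc hc
      hαc hαs hA.cont hA.comp
    rw [hk4]
    refine ⟨h1, h2.trans (integral_congr_ae (ae_of_all _ fun x => ?_))⟩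
    simp only [hax]
  have hIns : CC (fun x : Fin (n + 1) → E3 => (u (x 0) : ℂ) * a (tl x)) := hA.ins hu hc
  have K5 : Integrable k5 := by
    have h1 := (adm_PP_tl (n := n) Z).int_rp hIns hα
    rw [hk5]
    refine h1.congr (ae_of_all _ fun x => ?_)
    simp only [rp_smul_left]
  -- first form
  have E1 : FF (VC Z) α (fun x : Fin (n + 1) → E3 => (u (x 0) : ℂ) * a (tl x)) =
      1 / 2 * ((∑ c, ∫ x, k1 c x) + ∑ i, ∑ c, ∫ x, k3 i c x) + (∫ x, k4 x) + (∫ x, k5 x) := by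
    have hp : ∀ x, ed (VC Z) α (fun x : Fin (n + 1) → E3 => (u (x 0) : ℂ) * a (tl x)) x =
        1 / 2 * ((∑ c, k1 c x) + ∑ i, ∑ c, k3 i c x) + k4 x + k5 x := by
      intro x
      unfold ed
      rw [Fin.sum_univ_succ (n := n)]
      have h1 : ∑ c, rp (pd 0 c α x)
          (pd 0 c (fun x : Fin (n + 1) → E3 => (u (x 0) : ℂ) * a (tl x)) x) = ∑ c, k1 c x := by
        refine Finset.sum_congr rfl fun c _ => ?_
        rw [pd_ins_zero hA hu, rp_smul_right, hk1, hdu, rp_comm]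
        ring
      have h3 : ∑ i : Fin n, ∑ c, rp (pd i.succ c α x)
          (pd i.succ c (fun x : Fin (n + 1) → E3 => (u (x 0) : ℂ) * a (tl x)) x) =
          ∑ i, ∑ c, k3 i c x := by
        refine Finset.sum_congr rfl fun i _ => Finset.sum_congr rfl fun c _ => ?_
        rw [pd_ins_succ hA hu, rp_smul_right, hk3, rp_comm]
        ring
      rw [h1, h3]
      have h4 := VC_cns Z (x 0) (tl x)
      rw [cns_tl] at h4
      rw [h4, rp_smul_right, hk4, hk5, rp_comm (α x)]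
      ring
    unfold FF
    rw [integral_congr_ae (ae_of_all _ hp)]
    have i1 : Integrable (fun x => ∑ c, k1 c x) := integrable_finsetSum _ fun c _ => K1 c
    have i3 : Integrable (fun x => ∑ i, ∑ c, k3 i c x) :=
      integrable_finsetSum _ fun i _ => integrable_finsetSum _ fun c _ => (K3 i c).1
    have i13 : Integrable (fun x => 1 / 2 * ((∑ c, k1 c x) + ∑ i, ∑ c, k3 i c x)) :=
      (i1.add i3).const_mul _
    have i134 : Integrable (fun x => 1 / 2 * ((∑ c, k1 c x) + ∑ i, ∑ c, k3 i c x) + k4 x) :=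
      i13.add K4.1
    rw [integral_add i134 K5, integral_add i13 K4.1, integral_const_mul,
      integral_add i1 i3, integral_finsetSum _ fun c _ => K1 c,
      integral_finsetSum _ fun i _ => integrable_finsetSum _ fun c _ => (K3 i c).1]
    congr 4
    refine Finset.sum_congr rfl fun i _ => ?_
    exact integral_finsetSum _ fun c _ => (K3 i c).1
  -- second form
  have E2 : FF (VC Z) a a = 1 / 2 * (∑ i, ∑ c, ∫ x, k3 i c x) + ∫ x, k4 x := by
    unfold FF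
    have i3 : Integrable (fun x => 1 / 2 * (∑ i, ∑ c, rp (pd i c a x) (pd i c a x))) :=
      int_kin hA hA
    have i4 : Integrable (fun x => VC Z x * rp (a x) (a x)) := (adm_VC Z).int_rp hA hA
    have : ∫ x, ed (VC Z) a a x = ∫ x, (1 / 2 * (∑ i, ∑ c, rp (pd i c a x) (pd i c a x)) +
        VC Z x * rp (a x) (a x)) := rfl
    rw [this, integral_add i3 i4, integral_const_mul,
      integral_finsetSum _ fun i _ => integrable_finsetSum _ fun c _ => int_pd hA hA i c, K4.2]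
    congr 2
    refine Finset.sum_congr rfl fun i _ => ?_
    rw [integral_finsetSum _ fun c _ => int_pd hA hA i c]
    exact Finset.sum_congr rfl fun c _ => (K3 i c).2.symm
  -- third form
  have hΘ : CC (fun x : Fin (n + 2) → E3 => (u (x 0) : ℂ) * α (tl x)) := hα.ins hu hc
  have E3' : FF (VC Z) (fun x : Fin (n + 2) → E3 => (u (x 0) : ℂ) * α (tl x))
        (fun x : Fin (n + 2) → E3 => (u (x 1) : ℂ) * α (cns (x 0) (tl (tl x)))) =
      1 / 2 * ((∑ c, ∫ x, f1 c x) + ((∑ c, ∫ x, f1 c x) + ∑ i, ∑ c, ∫ x, f3 i c x)) +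
        (∫ x, f4 x) + (∫ x, f5 x) + (∫ x, f5 x) + (∫ x, f7 x) := by
    have hΘ' : (fun x : Fin (n + 2) → E3 => (u (x 1) : ℂ) * α (cns (x 0) (tl (tl x)))) =
        fun x => (fun x : Fin (n + 2) → E3 => (u (x 0) : ℂ) * α (tl x)) (x ∘ t01) := by
      funext x
      simp only [t01_tl, t01_zero]
    have hsymm : (t01 (n := n)).symm = t01 := by unfold t01; exact Equiv.symm_swap _ _
    have hp : ∀ x, ed (VC Z) (fun x : Fin (n + 2) → E3 => (u (x 0) : ℂ) * α (tl x))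
        (fun x : Fin (n + 2) → E3 => (u (x 1) : ℂ) * α (cns (x 0) (tl (tl x)))) x =
        1 / 2 * ((∑ c, f1 c x) + ((∑ c, f1 c (x ∘ t01)) + ∑ i, ∑ c, f3 i c x)) +
          f4 x + f5 x + f5 (x ∘ t01) + f7 x := by
      intro x
      have hpd : ∀ i c, pd i c (fun x : Fin (n + 2) → E3 => (u (x 1) : ℂ) *
          α (cns (x 0) (tl (tl x)))) x =
          pd (t01 i) c (fun x : Fin (n + 2) → E3 => (u (x 0) : ℂ) * α (tl x)) (x ∘ t01) := by
        intro i c
        rw [hΘ', pd_comp_perm hΘ, hsymm]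
      have e0 : t01 (0 : Fin (n + 2)) = Fin.succ 0 := by simp [t01]
      have e1 : t01 (Fin.succ 0 : Fin (n + 2)) = 0 := by simp [t01]
      unfold ed
      rw [Fin.sum_univ_succ (n := n + 1), Fin.sum_univ_succ (n := n)]
      have h0 : ∑ c, rp (pd 0 c (fun x : Fin (n + 2) → E3 => (u (x 0) : ℂ) * α (tl x)) x)
          (pd 0 c (fun x : Fin (n + 2) → E3 => (u (x 1) : ℂ) *
          α (cns (x 0) (tl (tl x)))) x) = ∑ c, f1 c x := by
        refine Finset.sum_congr rfl fun c _ => ?_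
        rw [hpd, e0, pd_ins_zero hα hu, pd_ins_succ hα hu, t01_zero, t01_tl, rp_smul_left,
          rp_smul_right, hf1, hdu]
        simp only [cns_zero, rp_smul_right]
        ring
      have h1 : ∑ c, rp (pd (Fin.succ 0) c
          (fun x : Fin (n + 2) → E3 => (u (x 0) : ℂ) * α (tl x)) x)
          (pd (Fin.succ 0) c (fun x : Fin (n + 2) → E3 => (u (x 1) : ℂ) *
          α (cns (x 0) (tl (tl x)))) x) = ∑ c, f1 c (x ∘ t01) := by
        refine Finset.sum_congr rfl fun c _ => ?_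
        rw [hpd, e1, pd_ins_zero hα hu, pd_ins_succ hα hu, t01_zero, t01_tl, rp_smul_left,
          rp_smul_right, hf1, hdu]
        show _ = 1 * (u ((x ∘ t01) 1) * rp (α (tl (x ∘ t01)))
          (((fderiv ℝ u ((cns ((x ∘ t01) 0) (tl (tl (x ∘ t01))) : Fin (n + 1) → E3) 0)
            (EuclideanSpace.single c 1) : ℝ) : ℂ) *
          pd 0 c α (cns ((x ∘ t01) 0) (tl (tl (x ∘ t01))))))
        rw [t01_cns, t01_one, t01_tl, rp_smul_right, rp_comm]
        simp only [tl_apply]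
        have : (Fin.succ 0 : Fin (n + 2)) = 1 := rfl
        rw [this]
        ring
      have h2 : ∑ i : Fin n, ∑ c, rp (pd i.succ.succ c
          (fun x : Fin (n + 2) → E3 => (u (x 0) : ℂ) * α (tl x)) x)
          (pd i.succ.succ c (fun x : Fin (n + 2) → E3 => (u (x 1) : ℂ) *
          α (cns (x 0) (tl (tl x)))) x) = ∑ i, ∑ c, f3 i c x := by
        refine Finset.sum_congr rfl fun i _ => Finset.sum_congr rfl fun c _ => ?_
        rw [hpd, t01_ss, pd_ins_succ hα hu, pd_ins_succ hα hu, t01_zero, t01_tl, rp_smul_left,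
          rp_smul_right, hf3]
        simp only [cns_zero, rp_smul_right]
        ring
      have h5 : f5 (x ∘ t01) = PP Z (x 1) (tl (tl x)) *
          (u (x 0) * (u (x 1) * rp (α (tl x)) (α (cns (x 0) (tl (tl x)))))) := by
        rw [hf5]
        show PP Z ((cns ((x ∘ t01) 0) (tl (tl (x ∘ t01))) : Fin (n + 1) → E3) 0)
          (tl (cns ((x ∘ t01) 0) (tl (tl (x ∘ t01))) : Fin (n + 1) → E3)) *
          (u ((x ∘ t01) 1) * rp (α (tl (x ∘ t01)))
            (((u ((cns ((x ∘ t01) 0) (tl (tl (x ∘ t01))) : Fin (n + 1) → E3) 0) : ℝ) : ℂ) *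
            α (cns ((x ∘ t01) 0) (tl (tl (x ∘ t01)))))) = _
        rw [t01_cns, t01_one, t01_tl, rp_smul_right, rp_comm]
        rfl
      rw [h0, h1, h2, h5, VC_two Z x, hf4, hf5, hf7]
      simp only [tl_cns, cns_zero, rp_smul_right, rp_smul_left]
      ring
    unfold FF
    rw [integral_congr_ae (ae_of_all _ hp)]
    have i1 : Integrable (fun x => ∑ c, f1 c x) := integrable_finsetSum _ fun c _ => (F1 c).1
    have i1' : ∀ c, Integrable (fun x => f1 c (x ∘ t01)) :=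
      fun c => integrable_comp_perm t01 (F1 c).1
    have i2 : Integrable (fun x => ∑ c, f1 c (x ∘ t01)) := integrable_finsetSum _ fun c _ => i1' c
    have i3 : Integrable (fun x => ∑ i, ∑ c, f3 i c x) :=
      integrable_finsetSum _ fun i _ => integrable_finsetSum _ fun c _ => (F3 i c).1
    have i23 : Integrable (fun x => (∑ c, f1 c (x ∘ t01)) + ∑ i, ∑ c, f3 i c x) := i2.add i3
    have i123 : Integrable (fun x => 1 / 2 * ((∑ c, f1 c x) +
        ((∑ c, f1 c (x ∘ t01)) + ∑ i, ∑ c, f3 i c x))) := (i1.add i23).const_mul _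
    have i5' : Integrable (fun x => f5 (x ∘ t01)) := integrable_comp_perm t01 F5.1
    have j4 : Integrable (fun x => 1 / 2 * ((∑ c, f1 c x) +
        ((∑ c, f1 c (x ∘ t01)) + ∑ i, ∑ c, f3 i c x)) + f4 x) := i123.add F4.1
    have j5 : Integrable (fun x => 1 / 2 * ((∑ c, f1 c x) +
        ((∑ c, f1 c (x ∘ t01)) + ∑ i, ∑ c, f3 i c x)) + f4 x + f5 x) := j4.add F5.1
    have j6 : Integrable (fun x => 1 / 2 * ((∑ c, f1 c x) +
        ((∑ c, f1 c (x ∘ t01)) + ∑ i, ∑ c, f3 i c x)) + f4 x + f5 x + f5 (x ∘ t01)) := j5.add i5'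
    rw [integral_add j6 F7.1,
      integral_add j5 i5', integral_add j4 F5.1,
      integral_add i123 F4.1, integral_const_mul, integral_add i1 i23, integral_add i2 i3,
      integral_finsetSum _ fun c _ => (F1 c).1, integral_finsetSum _ fun c _ => i1' c,
      integral_finsetSum _ fun i _ => integrable_finsetSum _ fun c _ => (F3 i c).1,
      integral_comp_perm t01 f5]
    have s1 : ∑ c, ∫ x, f1 c (x ∘ t01) = ∑ c, ∫ x, f1 c x :=
      Finset.sum_congr rfl fun c _ => integral_comp_perm t01 (f1 c)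
    have s3 : ∑ i, ∫ x, ∑ c, f3 i c x = ∑ i, ∑ c, ∫ x, f3 i c x :=
      Finset.sum_congr rfl fun i _ => integral_finsetSum _ fun c _ => (F3 i c).1
    rw [s1, s3]
  have hA1 : (fun x : Fin (n + 1) → E3 => (u (x 0) : ℂ) * ∫ y, (u y : ℂ) * α (cns y (tl x))) =
      fun x : Fin (n + 1) → E3 => (u (x 0) : ℂ) * a (tl x) := by
    funext x; rw [hax]
  rw [hA1, ← ha, E1, E2, E3']
  have S1 : ∑ c, ∫ x, f1 c x = ∑ c, ∫ x, k1 c x := Finset.sum_congr rfl fun c _ => (F1 c).2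
  have S3 : ∑ i, ∑ c, ∫ x, f3 i c x = ∑ i, ∑ c, ∫ x, k3 i c x :=
    Finset.sum_congr rfl fun i _ => Finset.sum_congr rfl fun c _ => (F3 i c).2
  rw [S1, S3, F4.2, F5.2]
  have := F7.2
  linarith

end Pool.Agent.H899_CR
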