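import Pool.Agent.H899_CR.Cross


set_option autoImplicit false

noncomputable section

namespace Pool.Agent.H899_CR

open MeasureTheory

variable {n : ℕ}

/-! Targets. Only the spin configurations with σ 0 = 0 = σ 1 contribute, and then (σ ∘ swap 0 1) = σ,
 `ins u φ σ x = u (x 0) φ (tl σ) (tl x)`, `pa (swap 0 1) (ins u φ) σ x = u (x 1) φ (tl σ) (cns (x 0) (tl (tl x)))`
with tl σ = cns 0 (tl (tl σ)). Similarly `ins u (ctr u φ) σ x = u (x 0) ∫ u y φ (cns 0 (tl σ)) (cns y (tl x))` if σ 0 = 0. -/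

/-! auxiliary lemmas -/

theorem c5_ins0 {u : E3 → ℝ} {χ : WF n} (σ : Fin n → Fin 2) :
    ins u χ (cns 0 σ) = fun x : Fin (n + 1) → E3 => (u (x 0) : ℂ) * χ σ (tl x) := by
  funext x
  simp [ins]

theorem c5_ins1 {u : E3 → ℝ} {χ : WF n} (σ : Fin n → Fin 2) :
    ins u χ (cns 1 σ) = fun _ : Fin (n + 1) → E3 => (0 : ℂ) := by
  funext x
  simp [ins]

theorem c5_swap {β : Type} (x : Fin (n + 2) → β) :
    x ∘ (Equiv.swap (0 : Fin (n + 2)) 1) = cns (x 1) (cns (x 0) (tl (tl x))) := by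
  funext i
  refine Fin.cases ?_ (fun j => ?_) i
  · simp
  · refine Fin.cases ?_ (fun k => ?_) j
    · show x (Equiv.swap (0 : Fin (n + 2)) 1 (Fin.succ 0)) = x 0
      have : (Fin.succ 0 : Fin (n + 2)) = 1 := rfl
      rw [this, Equiv.swap_apply_right]
    · show x (Equiv.swap (0 : Fin (n + 2)) 1 k.succ.succ) = x k.succ.succ
      rw [Equiv.swap_apply_of_ne_of_ne]
      · exact Fin.succ_ne_zero _
      · intro h
        have : (1 : Fin (n + 2)) = Fin.succ 0 := rfl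
        rw [this] at h
        exact Fin.succ_ne_zero _ (Fin.succ_injective _ h)

theorem c5_pa00 {u : E3 → ℝ} {φ : WF (n + 1)} (σ : Fin n → Fin 2) :
    pa (Equiv.swap 0 1) (ins u φ) (cns 0 (cns 0 σ)) =
      fun x : Fin (n + 2) → E3 => (u (x 1) : ℂ) * φ (cns 0 σ) (cns (x 0) (tl (tl x))) := by
  funext x
  unfold pa
  rw [c5_swap, c5_swap]
  have h1 : (cns ((cns (0 : Fin 2) (cns 0 σ) : Fin (n + 2) → Fin 2) 1)
      (cns ((cns (0 : Fin 2) (cns 0 σ) : Fin (n + 2) → Fin 2) 0)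
        (tl (tl (cns (0 : Fin 2) (cns 0 σ) : Fin (n + 2) → Fin 2))))) = cns 0 (cns 0 σ) := rfl
  rw [h1, c5_ins0]
  rfl

theorem c5_pa01 {u : E3 → ℝ} {φ : WF (n + 1)} (σ : Fin n → Fin 2) :
    pa (Equiv.swap 0 1) (ins u φ) (cns 0 (cns 1 σ)) = fun _ : Fin (n + 2) → E3 => (0 : ℂ) := by
  funext x
  unfold pa
  rw [c5_swap, c5_swap]
  have h1 : (cns ((cns (0 : Fin 2) (cns 1 σ) : Fin (n + 2) → Fin 2) 1)
      (cns ((cns (0 : Fin 2) (cns 1 σ) : Fin (n + 2) → Fin 2) 0)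
        (tl (tl (cns (0 : Fin 2) (cns 1 σ) : Fin (n + 2) → Fin 2))))) = cns 1 (cns 0 σ) := rfl
  rw [h1, c5_ins1]

theorem c5_sum2 (G : (Fin (n + 2) → Fin 2) → ℝ) (h1 : ∀ σ, G (cns 1 σ) = 0)
    (h2 : ∀ σ, G (cns 0 (cns 1 σ)) = 0) :
    ∑ σ, G σ = ∑ σ : Fin n → Fin 2, G (cns 0 (cns 0 σ)) := by
  rw [sum_spin, Fin.sum_univ_two, Finset.sum_eq_zero (fun σ _ => h1 σ), add_zero, sum_spin,
    Fin.sum_univ_two, Finset.sum_eq_zero (fun σ _ => h2 σ), add_zero]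

theorem c5_sum1 (G : (Fin (n + 1) → Fin 2) → ℝ) (h1 : ∀ σ, G (cns 1 σ) = 0) :
    ∑ σ, G σ = ∑ σ : Fin n → Fin 2, G (cns 0 σ) := by
  rw [sum_spin, Fin.sum_univ_two, Finset.sum_eq_zero (fun σ _ => h1 σ), add_zero]

theorem c5_FF_zero_right (U : (Fin n → E3) → ℝ) (γ : (Fin n → E3) → ℂ) :
    FF U γ (fun _ => 0) = 0 := by
  rw [FF_comm, FF_zero_left]

theorem c5_cwctr {φ : WF (n + 1)} (hφ : CW φ) {u : E3 → ℝ} (hu : ContDiff ℝ 1 u)
    (hc : HasCompactSupport u) : CW (ctr u φ) := fun σ => (hφ (cns 0 σ)).ctr hu.continuous hc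

theorem c5_contract {φ : WF (n + 1)} (hφ : CW φ) {u : E3 → ℝ} (hu : ContDiff ℝ 1 u)
    (hc : HasCompactSupport u) (σ : Fin n → Fin 2) :
    ∫ x : Fin (n + 1) → E3, u (x 0) * rp (ctr u φ σ (tl x)) (φ (cns 0 σ) x) =
      ∫ x : Fin n → E3, ‖ctr u φ σ x‖ ^ 2 := by
  have h := (fubL2 (Adm.const (n := n) 1) hu.continuous hc (hφ (cns 0 σ)).cont
    (hφ (cns 0 σ)).comp (c5_cwctr hφ hu hc σ).cont (c5_cwctr hφ hu hc σ).comp).2
  simp only [one_mul] at h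
  rw [h]
  refine integral_congr_ae (ae_of_all _ fun x => ?_)
  show rp (ctr u φ σ x) (ctr u φ σ x) = _
  rw [rp_self]

theorem ins_cross (Z : ℝ) {φ : WF (n + 1)} (hφ : CW φ) {u : E3 → ℝ} (hu : ContDiff ℝ 1 u)
    (hc : HasCompactSupport u) :
    2 * FW (VC Z) φ (ins u (ctr u φ)) - FW (VC Z) (ctr u φ) (ctr u φ) ≤
      FW (VC Z) (ins u φ) (pa (Equiv.swap 0 1) (ins u φ)) := by
  have e1 : FW (VC Z) φ (ins u (ctr u φ)) = ∑ σ : Fin n → Fin 2,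
      FF (VC Z) (φ (cns 0 σ)) (fun x : Fin (n + 1) → E3 =>
        (u (x 0) : ℂ) * ∫ y, (u y : ℂ) * φ (cns 0 σ) (cns y (tl x))) := by
    unfold FW
    rw [c5_sum1 (fun σ => FF (VC Z) (φ σ) (ins u (ctr u φ) σ))]
    · refine Finset.sum_congr rfl fun σ _ => ?_
      rw [c5_ins0]
      rfl
    · intro σ
      show FF (VC Z) (φ (cns 1 σ)) (ins u (ctr u φ) (cns 1 σ)) = 0
      rw [c5_ins1, c5_FF_zero_right]
  have e2 : FW (VC Z) (ins u φ) (pa (Equiv.swap 0 1) (ins u φ)) = ∑ σ : Fin n → Fin 2,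
      FF (VC Z) (fun x : Fin (n + 2) → E3 => (u (x 0) : ℂ) * φ (cns 0 σ) (tl x))
        (fun x : Fin (n + 2) → E3 => (u (x 1) : ℂ) * φ (cns 0 σ) (cns (x 0) (tl (tl x)))) := by
    unfold FW
    rw [c5_sum2 (fun σ => FF (VC Z) (ins u φ σ) (pa (Equiv.swap 0 1) (ins u φ) σ))]
    · refine Finset.sum_congr rfl fun σ _ => ?_
      rw [c5_ins0, c5_pa00]
    · intro σ
      show FF (VC Z) (ins u φ (cns 1 σ)) (pa (Equiv.swap 0 1) (ins u φ) (cns 1 σ)) = 0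
      rw [c5_ins1, FF_zero_left]
    · intro σ
      show FF (VC Z) (ins u φ (cns 0 (cns 1 σ)))
        (pa (Equiv.swap 0 1) (ins u φ) (cns 0 (cns 1 σ))) = 0
      rw [c5_pa01, c5_FF_zero_right]
  rw [e1, e2]
  unfold FW
  rw [Finset.mul_sum, ← Finset.sum_sub_distrib]
  refine Finset.sum_le_sum fun σ _ => ?_
  exact cross_scalar Z (hφ (cns 0 σ)) hu hc

theorem ip_ins_cross {φ : WF (n + 1)} (hφ : CW φ) {u : E3 → ℝ} (hu : ContDiff ℝ 1 u)
    (hc : HasCompactSupport u) :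
    ip (ins u φ) (pa (Equiv.swap 0 1) (ins u φ)) = nsq (ctr u φ) := by
  unfold ip
  rw [c5_sum2 (fun σ => ∫ x, rp (ins u φ σ x) (pa (Equiv.swap 0 1) (ins u φ) σ x))]
  · unfold nsq
    refine Finset.sum_congr rfl fun σ _ => ?_
    rw [← c5_contract hφ hu hc σ]
    have hα := hφ (cns 0 σ)
    have hY : CC (fun x : Fin (n + 1) → E3 => (u (x 0) : ℂ) * φ (cns 0 σ) x) :=
      hα.rmul (hu.comp (contDiff_apply ℝ E3 (0 : Fin (n + 1))))
    have h := (fubL1 (Adm.const (n := n + 1) 1) hu.continuous hc hα.cont hα.comp hY.cont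
      hY.comp).2
    simp only [one_mul] at h
    have e1 : ∫ x, rp (ins u φ (cns 0 (cns 0 σ)) x)
        (pa (Equiv.swap 0 1) (ins u φ) (cns 0 (cns 0 σ)) x) =
        ∫ x : Fin (n + 2) → E3, u (x 1) * rp (φ (cns 0 σ) (tl x))
          ((u ((cns (x 0) (tl (tl x)) : Fin (n + 1) → E3) 0) : ℂ) *
            φ (cns 0 σ) (cns (x 0) (tl (tl x)))) := by
      rw [c5_ins0, c5_pa00]
      refine integral_congr_ae (ae_of_all _ fun x => ?_)
      show rp ((u (x 0) : ℂ) * φ (cns 0 σ) (tl x))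
        ((u (x 1) : ℂ) * φ (cns 0 σ) (cns (x 0) (tl (tl x)))) = u (x 1) * rp (φ (cns 0 σ) (tl x))
          ((u (x 0) : ℂ) * φ (cns 0 σ) (cns (x 0) (tl (tl x))))
      rw [rp_smul_left, rp_smul_right, rp_smul_right]
      ring
    rw [e1, h]
    refine integral_congr_ae (ae_of_all _ fun x => ?_)
    show rp (ctr u φ σ (tl x)) ((u (x 0) : ℂ) * φ (cns 0 σ) x) =
      u (x 0) * rp (ctr u φ σ (tl x)) (φ (cns 0 σ) x)
    rw [rp_smul_right]
  · intro σ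
    show ∫ x, rp (ins u φ (cns 1 σ) x) (pa (Equiv.swap 0 1) (ins u φ) (cns 1 σ) x) = 0
    rw [c5_ins1]
    simp only [rp_zero_left, integral_zero]
  · intro σ
    show ∫ x, rp (ins u φ (cns 0 (cns 1 σ)) x)
      (pa (Equiv.swap 0 1) (ins u φ) (cns 0 (cns 1 σ)) x) = 0
    rw [c5_pa01]
    simp only [rp_zero_right, integral_zero]

theorem ip_ins_ctr {φ : WF (n + 1)} (hφ : CW φ) {u : E3 → ℝ} (hu : ContDiff ℝ 1 u)
    (hc : HasCompactSupport u) : ip φ (ins u (ctr u φ)) = nsq (ctr u φ) := by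
  unfold ip
  rw [c5_sum1 (fun σ => ∫ x, rp (φ σ x) (ins u (ctr u φ) σ x))]
  · unfold nsq
    refine Finset.sum_congr rfl fun σ _ => ?_
    rw [← c5_contract hφ hu hc σ, c5_ins0]
    refine integral_congr_ae (ae_of_all _ fun x => ?_)
    show rp (φ (cns 0 σ) x) ((u (x 0) : ℂ) * ctr u φ σ (tl x)) =
      u (x 0) * rp (ctr u φ σ (tl x)) (φ (cns 0 σ) x)
    rw [rp_smul_right, rp_comm]
  · intro σ
    show ∫ x, rp (φ (cns 1 σ) x) (ins u (ctr u φ) (cns 1 σ) x) = 0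
    rw [c5_ins1]
    simp only [rp_zero_right, integral_zero]

end Pool.Agent.H899_CR
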