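import Pool.Agent.H899_CR.Energy


set_option autoImplicit false

noncomputable section

namespace Pool.Agent.H899_CR

open MeasureTheory

variable {n : ℕ}

/-! Targets. -/

theorem stp_nonneg (s : ℝ) (y : E3) : 0 ≤ stp s y := by
  unfold stp; split_ifs <;> norm_num

theorem stp_le_one (s : ℝ) (y : E3) : stp s y ≤ 1 := by
  unfold stp; split_ifs <;> norm_num

theorem stp_anti {s s' : ℝ} (h : s ≤ s') (y : E3) : stp s' y ≤ stp s y := by
  unfold stp
  split_ifs with h1 h2 h2
  · exact le_refl _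
  · exact absurd (h.trans h1) h2
  · norm_num
  · exact le_refl _

theorem mn_nonneg {t : ℝ} (ht : 0 ≤ t) (y : E3) : 0 ≤ mn t y := le_min (norm_nonneg _) ht

theorem DD_nonneg (Z : ℝ) (k : ℕ) {μ : ℝ} (hμ : 0 ≤ μ) (s : ℝ) : 0 ≤ DD Z k μ s := by
  unfold DD
  have h := En_mono (n := k) Z Bd.zero ((Bd.stp s).const_mul μ)
    (fun y => by simpa using mul_nonneg hμ (stp_nonneg s y))
  linarith

/-- `μ stp s ≤ μ` and `den μ φ = μ k nsq φ` -/
theorem DD_triv (Z : ℝ) (k : ℕ) {μ : ℝ} (hμ : 0 ≤ μ) (s : ℝ) : DD Z k μ s ≤ μ * k := by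
  unfold DD
  have hb : Bd (fun _ : E3 => μ) := ⟨measurable_const, |μ|, fun _ => le_refl _⟩
  have h := En_ge (n := k) Z (v := fun y => μ * stp s y) (m := En Z k 0 - μ * k) ?_
  · linarith
  intro φ hφ hn
  have h1 := En_le Z Bd.zero hφ
  rw [FW_pot Z ((Bd.stp s).const_mul μ) 0 hφ.cw]
  rw [FW_pot Z Bd.zero 0 hφ.cw, hn] at h1
  have h2 : den (0 : E3 → ℝ) φ = 0 := by
    have h5 := den_const (n := k) 0 φ
    rw [zero_mul, zero_mul] at h5
    exact h5
  have h3 : den (fun y => μ * stp s y) φ ≤ den (fun _ : E3 => μ) φ :=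
    den_mono ((Bd.stp s).const_mul μ) hb
      (fun y => by nlinarith [stp_le_one s y]) hφ.cw
  rw [den_const, hn] at h3
  rw [h2] at h1
  linarith

/-- concavity between `0` and `μ stp s` -/
theorem DD_conv (Z : ℝ) (k : ℕ) {μ' μ : ℝ} (h0 : 0 < μ') (h1 : μ' ≤ μ) (s : ℝ) :
    DD Z k μ' s ≤ μ' / μ * DD Z k μ s := by
  have hμ : 0 < μ := h0.trans_le h1
  have h2 : 0 ≤ μ' / μ := (div_pos h0 hμ).le
  have h3 : μ' / μ ≤ 1 := (div_le_one hμ).2 h1
  have h := En_conc (n := k) Z Bd.zero ((Bd.stp s).const_mul μ) h2 h3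
  have e : (fun y => (1 - μ' / μ) * (0 : E3 → ℝ) y + μ' / μ * (μ * stp s y)) =
      fun y => μ' * stp s y := by
    funext y
    simp only [Pi.zero_apply, mul_zero, zero_add]
    rw [← mul_assoc, div_mul_cancel₀ _ hμ.ne']
  rw [e] at h
  unfold DD
  linarith

theorem DD_anti (Z : ℝ) (k : ℕ) {μ : ℝ} (hμ : 0 ≤ μ) {s s' : ℝ} (h : s ≤ s') :
    DD Z k μ s' ≤ DD Z k μ s := by
  unfold DD
  have h1 := En_mono (n := k) Z ((Bd.stp s').const_mul μ) ((Bd.stp s).const_mul μ)
    (fun y => mul_le_mul_of_nonneg_left (stp_anti h y) hμ)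
  linarith

/-- the layer cake formula for `min(|y|, t)` -/
theorem mn_layer {t : ℝ} (ht : 0 < t) (y : E3) : mn t y = ∫ r in (0 : ℝ)..t, stp r y := by
  have e : (fun r => stp r y) = (Set.Iic ‖y‖).indicator (fun _ => (1 : ℝ)) := by
    funext r
    simp only [stp, Set.indicator_apply, Set.mem_Iic]
  rw [e, intervalIntegral.integral_of_le ht.le, setIntegral_indicator measurableSet_Iic,
    setIntegral_const]
  rw [Set.Ioc_inter_Iic]
  simp only [smul_eq_mul, mul_one, measureReal_def, Real.volume_Ioc, sub_zero]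
  rw [ENNReal.toReal_ofReal (le_inf ht.le (norm_nonneg _))]
  unfold mn
  exact min_comm _ _

theorem den_layer {t : ℝ} (ht : 0 < t) {φ : WF n} (hφ : CW φ) :
    den (mn t) φ = ∫ r in (0 : ℝ)..t, den (stp r) φ := by
  have hsq : ∀ σ, Integrable (fun x => ‖φ σ x‖ ^ 2) := fun σ => int_sq (hφ σ).cont (hφ σ).comp
  have hmeas : ∀ i : Fin n, Measurable (fun p : (Fin n → E3) × ℝ => stp p.2 (p.1 i)) := by
    intro i
    unfold stp
    refine Measurable.ite ?_ measurable_const measurable_const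
    exact measurableSet_le measurable_snd (by fun_prop)
  have hprod : ∀ σ, Integrable (fun p : (Fin n → E3) × ℝ =>
      (∑ i, stp p.2 (p.1 i)) * ‖φ σ p.1‖ ^ 2)
      (volume.prod (volume.restrict (Set.Ioc 0 t))) := by
    intro σ
    have h1 : Integrable (fun p : (Fin n → E3) × ℝ => (n : ℝ) * ‖φ σ p.1‖ ^ 2 * 1)
        (volume.prod (volume.restrict (Set.Ioc 0 t))) := by
      have := ((hsq σ).const_mul (n : ℝ)).mul_prod
        (integrable_const (μ := volume.restrict (Set.Ioc 0 t)) (1 : ℝ))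
      exact this
    refine h1.mono' ?_ (ae_of_all _ fun p => ?_)
    · refine Measurable.aestronglyMeasurable ?_
      refine (Finset.measurable_sum _ fun i _ => hmeas i).mul ?_
      have : Measurable (φ σ) := (hφ σ).cont.measurable
      fun_prop
    · have h2 : 0 ≤ ∑ i, stp p.2 (p.1 i) := Finset.sum_nonneg fun i _ => stp_nonneg _ _
      have h3 : ∑ i, stp p.2 (p.1 i) ≤ n := by
        calc ∑ i, stp p.2 (p.1 i) ≤ ∑ _i : Fin n, (1 : ℝ) :=
              Finset.sum_le_sum fun i _ => stp_le_one _ _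
          _ = n := by simp
      rw [Real.norm_of_nonneg (by positivity), mul_one]
      exact mul_le_mul_of_nonneg_right h3 (by positivity)
  unfold den
  rw [intervalIntegral.integral_of_le ht.le, integral_finsetSum]
  · refine Finset.sum_congr rfl fun σ _ => ?_
    rw [← integral_integral_swap (hprod σ)]
    refine integral_congr_ae (ae_of_all _ fun x => ?_)
    show (∑ i, mn t (x i)) * ‖φ σ x‖ ^ 2 =
      ∫ r in Set.Ioc 0 t, (∑ i, stp r (x i)) * ‖φ σ x‖ ^ 2
    rw [integral_mul_const]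
    congr 1
    rw [integral_finsetSum]
    · refine Finset.sum_congr rfl fun i _ => ?_
      rw [mn_layer ht, intervalIntegral.integral_of_le ht.le]
    · intro i _
      refine Integrable.mono' (integrable_const (1 : ℝ)) ?_ (ae_of_all _ fun r => ?_)
      · refine Measurable.aestronglyMeasurable ?_
        unfold stp
        exact Measurable.ite measurableSet_Iic measurable_const measurable_const
      · rw [Real.norm_of_nonneg (stp_nonneg _ _)]
        exact stp_le_one _ _
  · intro σ _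
    exact (hprod σ).integral_prod_right

/-
Layer cake: `min(|y|,t) = ∫_0^t stp r y dr`. For antisymmetric normalized φ
 FW(pot Z (κ mn t) 0) φ φ = FW(VC) - κ den (mn t) φ = (1/t) ∫_0^t [FW(VC) - κ t den (stp r) φ] dr
   ≥ (1/t) ∫_0^t En Z k (κ t stp r) dr   (Fubini for den (mn t) φ = ∫_0^t den (stp r) φ dr)
and r ↦ DD Z k (κ t) r is antitone, so interval integrable.
-/
theorem DT_layer (Z : ℝ) (k : ℕ) {κ t : ℝ} (hκ : 0 ≤ κ) (ht : 0 < t) :
    DT Z k κ t ≤ 1 / t * ∫ r in (0 : ℝ)..t, DD Z k (κ * t) r := by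
  have hκt : 0 ≤ κ * t := mul_nonneg hκ ht.le
  have hi : IntervalIntegrable (fun r => DD Z k (κ * t) r) volume 0 t :=
    Antitone.intervalIntegrable (fun _ _ h => DD_anti Z k hκt h)
  have hI : (∫ r in (0 : ℝ)..t, DD Z k (κ * t) r) =
      t * En Z k 0 - ∫ r in (0 : ℝ)..t, En Z k (fun y => κ * t * stp r y) := by
    have hi2 : IntervalIntegrable (fun r => En Z k (fun y => κ * t * stp r y)) volume 0 t := by
      have := (intervalIntegrable_const (μ := volume) (a := 0) (b := t) (c := En Z k 0)).sub hi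
      refine this.congr fun r _ => ?_
      simp only [DD]
      ring
    have : (fun r => DD Z k (κ * t) r) =
        fun r => En Z k 0 - En Z k (fun y => κ * t * stp r y) := by
      funext r; rfl
    rw [this, intervalIntegral.integral_sub intervalIntegrable_const hi2,
      intervalIntegral.integral_const]
    simp
  have h := En_ge (n := k) Z (v := fun y => κ * mn t y)
    (m := 1 / t * ∫ r in (0 : ℝ)..t, En Z k (fun y => κ * t * stp r y)) ?_
  · unfold DT
    rw [hI, mul_sub, ← mul_assoc, one_div_mul_cancel ht.ne', one_mul]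
    linarith
  intro φ hφ hn
  rw [FW_pot Z ((Bd.mn t).const_mul κ) 0 hφ.cw, den_const_mul, den_layer ht hφ.cw]
  have hanti : Antitone (fun r => den (stp r) φ) := fun r r' h =>
    den_mono (Bd.stp r') (Bd.stp r) (stp_anti h) hφ.cw
  have hid : IntervalIntegrable (fun r => den (stp r) φ) volume 0 t := hanti.intervalIntegrable
  have hi2 : IntervalIntegrable (fun r => En Z k (fun y => κ * t * stp r y)) volume 0 t := by
    have := (intervalIntegrable_const (μ := volume) (a := 0) (b := t) (c := En Z k 0)).sub hi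
    refine this.congr fun r _ => ?_
    simp only [DD]
    ring
  have hle : (∫ r in (0 : ℝ)..t, En Z k (fun y => κ * t * stp r y)) ≤
      ∫ r in (0 : ℝ)..t, (FW (VC Z) φ φ - κ * t * den (stp r) φ) := by
    refine intervalIntegral.integral_mono_on ht.le hi2
      (intervalIntegrable_const.sub (hid.const_mul _)) fun r _ => ?_
    have h1 := En_le Z ((Bd.stp r).const_mul (κ * t)) hφ
    rw [FW_pot Z ((Bd.stp r).const_mul (κ * t)) 0 hφ.cw, den_const_mul, hn] at h1
    linarith
  rw [intervalIntegral.integral_sub intervalIntegrable_const (hid.const_mul _),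
    intervalIntegral.integral_const, intervalIntegral.integral_const_mul] at hle
  simp only [sub_zero, smul_eq_mul] at hle
  have h4 := mul_le_mul_of_nonneg_left hle (show 0 ≤ 1 / t by positivity)
  have e : 1 / t * (t * FW (VC Z) φ φ - κ * t * ∫ r in (0 : ℝ)..t, den (stp r) φ) =
      FW (VC Z) φ φ - κ * (∫ r in (0 : ℝ)..t, den (stp r) φ) := by
    field_simp
  rw [e] at h4
  linarith

/-
With v = μ stp s, w = κ mn t: v + w = (1-θ) v + θ (v + w/θ), so En v - En (v+w) ≤ θ (En v - En (v+w/θ))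
 ≤ θ (En 0 - En (v + w/θ)) and v + w/θ = ½ (2v) + ½ (2w/θ).
-/
theorem DD_joint (Z : ℝ) (k : ℕ) {μ κ θ : ℝ} (hμ : 0 ≤ μ) (hκ : 0 ≤ κ) (h0 : 0 < θ) (h1 : θ ≤ 1)
    (s t : ℝ) (ht : 0 < t) :
    En Z k (fun y => μ * stp s y) - En Z k (fun y => μ * stp s y + κ * mn t y) ≤
      θ / 2 * (DD Z k (2 * μ) s + DT Z k (2 * κ / θ) t) := by
  have hv : Bd (fun y => μ * stp s y) := (Bd.stp s).const_mul μ
  have hw : Bd (fun y => κ / θ * mn t y) := (Bd.mn t).const_mul (κ / θ)
  have hvw := hv.add hw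
  have a1 := En_conc (n := k) Z hv hvw h0.le h1
  have e1 : (fun y => (1 - θ) * (μ * stp s y) + θ * (μ * stp s y + κ / θ * mn t y)) =
      fun y => μ * stp s y + κ * mn t y := by
    funext y
    have : θ * (κ / θ * mn t y) = κ * mn t y := by
      rw [← mul_assoc, mul_div_cancel₀ _ h0.ne']
    linear_combination this
  rw [e1] at a1
  have a2 := En_mono (n := k) Z Bd.zero hv
    (fun y => by simpa using mul_nonneg hμ (stp_nonneg s y))
  have a3 := En_conc (n := k) Z ((Bd.stp s).const_mul (2 * μ)) ((Bd.mn t).const_mul (2 * κ / θ))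
    (θ := 1 / 2) (by norm_num) (by norm_num)
  have e3 : (fun y => (1 - 1 / 2 : ℝ) * (2 * μ * stp s y) + 1 / 2 * (2 * κ / θ * mn t y)) =
      fun y => μ * stp s y + κ / θ * mn t y := by
    funext y
    ring
  rw [e3] at a3
  unfold DD DT
  have a4 := mul_le_mul_of_nonneg_left a3 h0.le
  have a5 := mul_le_mul_of_nonneg_left a2 h0.le
  nlinarith

end Pool.Agent.H899_CR
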