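import Pool.Agent.H5R2.NL.H1E

/-!
# Many-electron wave functions: definitions (chemical radius of atoms)
-/

set_option autoImplicit false

noncomputable section

namespace Pool.Agent.H899_CR

open MeasureTheory

/-- Physical space `ℝ³`. -/
abbrev E3 : Type := EuclideanSpace ℝ (Fin 3)

/-- Wave functions of `n` electrons: one function of the positions for each spin configuration. -/
abbrev WF (n : ℕ) : Type := (Fin n → Fin 2) → (Fin n → E3) → ℂ

/-- The unit vector in the direction of the coordinate `c` of electron `i`. -/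
def dir {n : ℕ} (i : Fin n) (c : Fin 3) : Fin n → E3 :=
  Pi.single i (EuclideanSpace.single c (1 : ℝ))

/-- Partial derivative with respect to the coordinate `c` of electron `i`. -/
def pd {n : ℕ} (i : Fin n) (c : Fin 3) (α : (Fin n → E3) → ℂ) (x : Fin n → E3) : ℂ :=
  fderiv ℝ α x (dir i c)

/-- The real scalar product on `ℂ`. -/
def rp (a b : ℂ) : ℝ := a.re * b.re + a.im * b.im

/-- Continuously differentiable with compact support. -/
structure CC {n : ℕ} (α : (Fin n → E3) → ℂ) : Prop where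
  smooth : ContDiff ℝ 1 α
  comp : HasCompactSupport α

/-- Admissible potentials. -/
structure Adm {n : ℕ} (U : (Fin n → E3) → ℝ) : Prop where
  meas : Measurable U
  int : ∀ α : (Fin n → E3) → ℂ, Continuous α → HasCompactSupport α →
    Integrable (fun x => U x * ‖α x‖ ^ 2)

/-- Density of the bilinear form of `-(1/2) Δ + U`. -/
def ed {n : ℕ} (U : (Fin n → E3) → ℝ) (α β : (Fin n → E3) → ℂ) (x : Fin n → E3) : ℝ :=
  1 / 2 * (∑ i, ∑ c, rp (pd i c α x) (pd i c β x)) + U x * rp (α x) (β x)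

/-- Bilinear form of `-(1/2) Δ + U` for scalar functions. -/
def FF {n : ℕ} (U : (Fin n → E3) → ℝ) (α β : (Fin n → E3) → ℂ) : ℝ := ∫ x, ed U α β x

/-- Bilinear form of `-(1/2) Δ + U` for wave functions with spin. -/
def FW {n : ℕ} (U : (Fin n → E3) → ℝ) (φ χ : WF n) : ℝ := ∑ σ, FF U (φ σ) (χ σ)

/-- Squared norm. -/
def nsq {n : ℕ} (φ : WF n) : ℝ := ∑ σ, ∫ x, ‖φ σ x‖ ^ 2

/-- Action of permutations. -/
def pa {n : ℕ} (π : Equiv.Perm (Fin n)) (φ : WF n) : WF n := fun σ x => φ (σ ∘ π) (x ∘ π)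

/-- All components are continuously differentiable with compact support. -/
def CW {n : ℕ} (φ : WF n) : Prop := ∀ σ, CC (φ σ)

/-- The sign of a permutation as a complex number. -/
def sg {n : ℕ} (π : Equiv.Perm (Fin n)) : ℂ := ((Equiv.Perm.sign π : ℤ) : ℂ)

/-- Antisymmetric and continuously differentiable with compact support. -/
structure AS {n : ℕ} (φ : WF n) : Prop where
  cw : CW φ
  anti : ∀ π : Equiv.Perm (Fin n), pa π φ = fun σ x => sg π * φ σ x

/-- The Coulomb potential energy of `n` electrons and a nucleus of charge `Z` at the origin.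
In Lean `1 / 0 = 0`, so the diagonal terms of the double sum vanish. -/
def VC {n : ℕ} (Z : ℝ) (x : Fin n → E3) : ℝ :=
  -(Z * ∑ i, 1 / ‖x i‖) + 1 / 2 * ∑ i, ∑ j, 1 / ‖x i - x j‖

/-- Invariance of a potential under permutations. -/
def Sym {n : ℕ} (U : (Fin n → E3) → ℝ) : Prop := ∀ (π : Equiv.Perm (Fin n)) x, U (x ∘ π) = U x

/-! ### Adding and removing one electron -/

/-- Put `z` in front of the tuple `x`. -/
def cns {α : Type} {n : ℕ} (z : α) (x : Fin n → α) : Fin (n + 1) → α := Fin.cons z x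

/-- Remove the first entry. -/
def tl {α : Type} {n : ℕ} (x : Fin (n + 1) → α) : Fin n → α := fun i => x i.succ

@[simp] theorem cns_zero {α : Type} {n : ℕ} (z : α) (x : Fin n → α) : cns z x 0 = z := rfl

@[simp] theorem cns_succ {α : Type} {n : ℕ} (z : α) (x : Fin n → α) (i : Fin n) :
    cns z x i.succ = x i := rfl

@[simp] theorem tl_cns {α : Type} {n : ℕ} (z : α) (x : Fin n → α) : tl (cns z x) = x := rfl

@[simp] theorem tl_apply {α : Type} {n : ℕ} (x : Fin (n + 1) → α) (i : Fin n) :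
    tl x i = x i.succ := rfl

@[simp] theorem cns_tl {α : Type} {n : ℕ} (x : Fin (n + 1) → α) : cns (x 0) (tl x) = x := by
  funext i
  refine Fin.cases rfl (fun j => rfl) i

/-- The wave function of the other electrons when the first one has spin `τ` and position `z`. -/
def sl {n : ℕ} (τ : Fin 2) (z : E3) (φ : WF (n + 1)) : WF n :=
  fun σ x => φ (cns τ σ) (cns z x)

/-- Add one electron of spin `0` in the orbital `u`. -/
def ins {n : ℕ} (u : E3 → ℝ) (χ : WF n) : WF (n + 1) :=
  fun σ x => if σ 0 = 0 then (u (x 0) : ℂ) * χ (tl σ) (tl x) else 0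

/-- Remove one electron of spin `0` in the orbital `u`. -/
def ctr {n : ℕ} (u : E3 → ℝ) (φ : WF (n + 1)) : WF n :=
  fun σ x => ∫ y, (u y : ℂ) * φ (cns 0 σ) (cns y x)

/-- Multiplication by a function of the position of the first electron. -/
def mf {n : ℕ} (f : E3 → ℝ) (φ : WF (n + 1)) : WF (n + 1) :=
  fun σ x => (f (x 0) : ℂ) * φ σ x

/-- Antisymmetric under the permutations which fix the first electron. -/
structure AT {n : ℕ} (Θ : WF (n + 1)) : Prop where
  cw : CW Θ
  anti : ∀ π : Equiv.Perm (Fin (n + 1)), π 0 = 0 → pa π Θ = fun σ x => sg π * Θ σ x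

/-- Antisymmetrization of a function satisfying `AT`. -/
def asym {n : ℕ} (Θ : WF (n + 1)) : WF (n + 1) :=
  fun σ x => ∑ i, sg (Equiv.swap 0 i) * pa (Equiv.swap 0 i) Θ σ x

/-! ### Energies -/

/-- Measurable and bounded. -/
structure Bd (v : E3 → ℝ) : Prop where
  meas : Measurable v
  bdd : ∃ B, ∀ y, |v y| ≤ B

/-- The Coulomb potential energy minus `∑ v (x i)` minus the constant `e`. -/
def pot {n : ℕ} (Z : ℝ) (v : E3 → ℝ) (e : ℝ) (x : Fin n → E3) : ℝ :=
  VC Z x - ∑ i, v (x i) - e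

/-- The ground-state energy of `n` electrons with a nucleus of charge `Z` and the additional
one-body potential `-v`. -/
def En (Z : ℝ) (n : ℕ) (v : E3 → ℝ) : ℝ :=
  sInf {r | ∃ φ : WF n, AS φ ∧ nsq φ = 1 ∧ FW (pot Z v 0) φ φ = r}

/-- The expectation of `∑ w (x i)`. -/
def den {n : ℕ} (w : E3 → ℝ) (φ : WF n) : ℝ := ∑ σ, ∫ x, (∑ i, w (x i)) * ‖φ σ x‖ ^ 2

/-- The real part of the scalar product. -/
def ip {n : ℕ} (φ χ : WF n) : ℝ := ∑ σ, ∫ x, rp (φ σ x) (χ σ x)

/-- The square of an `H¹` norm. -/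
def h1 {n : ℕ} (φ : WF n) : ℝ := FW (fun _ => 1) φ φ

/-- `|∇u|²` for a real function on `ℝ³`. -/
def gs (u : E3 → ℝ) (y : E3) : ℝ := ∑ c, (fderiv ℝ u y (EuclideanSpace.single c 1)) ^ 2

/-- Indicator function of `|y| ≥ s`. -/
def stp (s : ℝ) (y : E3) : ℝ := if s ≤ ‖y‖ then 1 else 0

/-- `min(|y|, t)`. -/
def mn (t : ℝ) (y : E3) : ℝ := min ‖y‖ t

/-- Decrease of the energy due to the potential `-μ 1(|y| ≥ s)`. -/
def DD (Z : ℝ) (k : ℕ) (μ s : ℝ) : ℝ := En Z k 0 - En Z k (fun y => μ * stp s y)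

/-- Decrease of the energy due to the potential `-κ min(|y|, t)`. -/
def DT (Z : ℝ) (k : ℕ) (κ t : ℝ) : ℝ := En Z k 0 - En Z k (fun y => κ * mn t y)

end Pool.Agent.H899_CR
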