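import Pool.Agent.H899_CR.Basic

/-!
# Further definitions
-/

set_option autoImplicit false

noncomputable section

namespace Pool.Agent.H899_CR

open MeasureTheory

/-- The potential energy of an electron at `y` in the field of the nucleus and of the electrons at
the points `x j`. -/
def PP {n : ℕ} (Z : ℝ) (y : E3) (x : Fin n → E3) : ℝ := -(Z / ‖y‖) + ∑ j, 1 / ‖y - x j‖

/-- The shell `L ≤ |y| ≤ 2 L`. -/
def shell (L : ℝ) : Set E3 := {y | L ≤ ‖y‖ ∧ ‖y‖ ≤ 2 * L}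

/-- `ψ` is an `H¹` wave function: every spin component is in `H¹(ℝ^{3n})` and `g σ i c` is the weak
partial derivative of `ψ σ` with respect to the coordinate `c` of electron `i`. -/
def H1W {n : ℕ} (ψ : WF n) (g : (Fin n → Fin 2) → Fin n → Fin 3 → (Fin n → E3) → ℂ) : Prop :=
  ∀ σ, H5R2.NL.IsH1 (ψ σ) (g σ)

/-- Antisymmetry almost everywhere. -/
def AE {n : ℕ} (ψ : WF n) : Prop :=
  ∀ π : Equiv.Perm (Fin n), ∀ σ, ∀ᵐ x, ψ (σ ∘ π) (x ∘ π) = sg π * ψ σ x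

/-- The energy `⟨ψ, H ψ⟩` of an `H¹` wave function. -/
def EH {n : ℕ} (Z : ℝ) (ψ : WF n) (g : (Fin n → Fin 2) → Fin n → Fin 3 → (Fin n → E3) → ℂ) : ℝ :=
  ∑ σ, (1 / 2 * (∑ i, ∑ c, ∫ x, ‖g σ i c x‖ ^ 2) + ∫ x, VC Z x * ‖ψ σ x‖ ^ 2)

end Pool.Agent.H899_CR
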