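import Pool.Agent.H899_CR.Basic
import Pool.Agent.H5R2.NL.H1C


set_option autoImplicit false

noncomputable section

namespace Pool.Agent.H899_CR

open MeasureTheory

variable {n : ℕ}

theorem adm_one_body {v : E3 → ℝ} (hv : Bd v) : Adm (fun x : Fin n → E3 => ∑ i, v (x i)) := by
  obtain ⟨B, hB⟩ := hv.bdd
  exact Adm.sum _ fun i _ => Adm.bdd (hv.meas.comp (measurable_pi_apply i)) fun x => hB (x i)

theorem adm_pot (Z : ℝ) {v : E3 → ℝ} (hv : Bd v) (e : ℝ) : Adm (pot (n := n) Z v e) :=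
  (((adm_VC Z).sub (adm_one_body hv)).sub (Adm.const e)).congr fun _ => rfl

theorem sym_pot (Z : ℝ) (v : E3 → ℝ) (e : ℝ) : Sym (pot (n := n) Z v e) := by
  intro π x
  unfold pot
  rw [sym_VC Z π x]
  have h1 : ∑ i, v ((x ∘ π) i) = ∑ i, v (x i) := Equiv.sum_comp π (fun i => v (x i))
  rw [h1]

theorem FW_pot (Z : ℝ) {v : E3 → ℝ} (hv : Bd v) (e : ℝ) {φ : WF n} (hφ : CW φ) :
    FW (pot Z v e) φ φ = FW (VC Z) φ φ - den v φ - e * nsq φ := by
  have h1 : (pot (n := n) Z v e) = fun x => VC Z x + (-(∑ i, v (x i)) - e) := by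
    funext x
    unfold pot
    ring
  have hA : Adm (fun x : Fin n → E3 => -(∑ i, v (x i)) - e) :=
    (((adm_one_body hv).const_mul (-1)).sub (Adm.const e)).congr fun x => by ring
  rw [h1, FW_add_pot (adm_VC Z) hA hφ hφ]
  have h2 : ∑ σ, ∫ x, (-(∑ i, v (x i)) - e) * rp (φ σ x) (φ σ x) = -den v φ - e * nsq φ := by
    unfold den nsq
    rw [Finset.mul_sum, ← Finset.sum_neg_distrib, ← Finset.sum_sub_distrib]
    refine Finset.sum_congr rfl fun σ _ => ?_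
    have i1 := (adm_one_body hv).int (φ σ) (hφ σ).cont (hφ σ).comp
    have i2 := int_sq (hφ σ).cont (hφ σ).comp
    have i3 : Integrable (fun x => -((∑ i, v (x i)) * ‖φ σ x‖ ^ 2)) := i1.neg
    rw [← integral_const_mul, ← integral_neg, ← integral_sub i3 (i2.const_mul e)]
    refine integral_congr_ae (ae_of_all _ fun x => ?_)
    simp only [rp_self]
    ring
  rw [h2]
  ring

theorem FW_pot_bil (Z : ℝ) {v : E3 → ℝ} (hv : Bd v) (e : ℝ) {φ χ : WF n} (hφ : CW φ) (hχ : CW χ) :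
    FW (pot Z v e) φ χ = FW (pot Z v 0) φ χ - e * ip φ χ := by
  have h1 : (pot (n := n) Z v e) = fun x => pot Z v 0 x + (-e) := by
    funext x
    unfold pot
    ring
  rw [h1, FW_add_pot (adm_pot Z hv 0) (Adm.const (-e)) hφ hχ]
  unfold ip
  rw [Finset.mul_sum, sub_eq_add_neg, ← Finset.sum_neg_distrib]
  congr 1
  refine Finset.sum_congr rfl fun σ _ => ?_
  rw [integral_const_mul]
  ring

/-- The quadratic form for a general admissible potential. -/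
theorem FW_eq {U : (Fin n → E3) → ℝ} (hU : Adm U) {φ : WF n} (hφ : CW φ) :
    FW U φ φ = 1 / 2 * (∑ σ, ∑ i, ∑ c, ∫ x, ‖pd i c (φ σ) x‖ ^ 2) +
      ∑ σ, ∫ x, U x * ‖φ σ x‖ ^ 2 := by
  unfold FW
  rw [Finset.mul_sum, ← Finset.sum_add_distrib]
  refine Finset.sum_congr rfl fun σ _ => ?_
  have i1 : ∀ i c, Integrable (fun x => ‖pd i c (φ σ) x‖ ^ 2) := fun i c =>
    int_sq (pd_continuous (hφ σ) i c) (pd_comp (hφ σ) i c)
  have i2 : Integrable (fun x => 1 / 2 * (∑ i, ∑ c, ‖pd i c (φ σ) x‖ ^ 2)) :=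
    (integrable_finsetSum _ fun i _ => integrable_finsetSum _ fun c _ => i1 i c).const_mul _
  have h1 : (1 / 2 * ∑ i, ∑ c, ∫ x, ‖pd i c (φ σ) x‖ ^ 2) =
      ∫ x, 1 / 2 * (∑ i, ∑ c, ‖pd i c (φ σ) x‖ ^ 2) := by
    rw [integral_const_mul, integral_finsetSum _ fun i _ =>
      integrable_finsetSum _ fun c _ => i1 i c]
    congr 1
    refine Finset.sum_congr rfl fun i _ => ?_
    rw [integral_finsetSum _ fun c _ => i1 i c]
  rw [h1, ← integral_add i2 (hU.int _ (hφ σ).cont (hφ σ).comp)]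
  unfold FF
  refine integral_congr_ae (ae_of_all _ fun x => ?_)
  show ed U (φ σ) (φ σ) x = _
  unfold ed
  simp only [rp_self]

/-- `h1 φ = ½ ∑_{i,c} ∫ |∂_{i,c} φ|² + ‖φ‖²` -/
theorem h1_eq {φ : WF n} (hφ : CW φ) :
    h1 φ = 1 / 2 * (∑ σ, ∑ i, ∑ c, ∫ x, ‖pd i c (φ σ) x‖ ^ 2) + nsq φ := by
  unfold h1
  rw [FW_eq (Adm.const 1) hφ]
  unfold nsq
  simp only [one_mul]

theorem kin_nonneg (φ : WF n) : 0 ≤ ∑ σ, ∑ i, ∑ c, ∫ x, ‖pd i c (φ σ) x‖ ^ 2 :=
  Finset.sum_nonneg fun _ _ => Finset.sum_nonneg fun _ _ => Finset.sum_nonneg fun _ _ =>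
    integral_nonneg fun _ => by positivity

theorem h1_nonneg {φ : WF n} (hφ : CW φ) : 0 ≤ h1 φ := by
  rw [h1_eq hφ]
  have h2 := kin_nonneg φ
  have h3 := nsq_nonneg φ
  linarith

theorem nsq_le_h1 {φ : WF n} (hφ : CW φ) : nsq φ ≤ h1 φ := by
  rw [h1_eq hφ]
  have h2 := kin_nonneg φ
  linarith

theorem int_gradSq {α : (Fin n → E3) → ℂ} (hα : CC α) (i : Fin n) :
    ∫ x, H5R2.NL.gradSq α i x = ∑ c, ∫ x, ‖pd i c α x‖ ^ 2 := by
  rw [← integral_finsetSum _ fun c _ => int_sq (pd_continuous hα i c) (pd_comp hα i c)]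
  refine integral_congr_ae (ae_of_all _ fun x => ?_)
  exact H5R2.NL.gradSq_dir α hα.smooth i x

theorem hardy1 {α : (Fin n → E3) → ℂ} (hα : CC α) (i : Fin n) :
    Integrable (fun x => ‖α x‖ ^ 2 / ‖x i‖ ^ 2) ∧
      (∫ x, ‖α x‖ ^ 2 / ‖x i‖ ^ 2) ≤ 4 * ∑ c, ∫ x, ‖pd i c α x‖ ^ 2 := by
  have h1 := H5R2.NL.hardy_en α hα.smooth hα.comp i 0
  simp only [sub_zero] at h1
  rw [← int_gradSq hα]
  exact h1

theorem hardy2 {α : (Fin n → E3) → ℂ} (hα : CC α) (i j : Fin n) :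
    Integrable (fun x => ‖α x‖ ^ 2 / ‖x i - x j‖ ^ 2) ∧
      (∫ x, ‖α x‖ ^ 2 / ‖x i - x j‖ ^ 2) ≤ 4 * ∑ c, ∫ x, ‖pd i c α x‖ ^ 2 := by
  rcases eq_or_ne i j with rfl | hij
  · simp only [sub_self, norm_zero, ne_eq, OfNat.ofNat_ne_zero, not_false_eq_true, zero_pow,
      div_zero, integral_zero]
    refine ⟨integrable_zero _ _ _, mul_nonneg (by norm_num) (Finset.sum_nonneg fun _ _ =>
      integral_nonneg fun _ => by positivity)⟩
  · rw [← int_gradSq hα]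
    exact H5R2.NL.hardy_ee α hα.smooth hα.comp i j hij

/-
`h1 φ ≤ 2 FW (pot Z v e) φ φ + K nsq φ`: with T = ½ ∑ ∫ |∂φ|², one has for every i
 |Z| ∫ |φ|²/|x i| ≤ 1/16 ∫ |φ|²/|x i|² + 4 Z² ∫|φ|² ≤ 1/4 ∫ |∇_i φ|² + 4 Z² ∫ |φ|² (Hardy; ab ≤ a²/16 + 4 b²), so the
 nuclear attraction is at most T/2 + 4 n Z² ‖φ‖², the repulsion is ≥ 0, |∑ v| ≤ n B. Hence FW ≥ T/2 - C ‖φ‖².
-/
theorem pot_lower (Z : ℝ) (n : ℕ) {v : E3 → ℝ} (hv : Bd v) (e : ℝ) :
    ∃ K : ℝ, 0 ≤ K ∧ ∀ φ : WF n, CW φ → h1 φ ≤ 2 * FW (pot Z v e) φ φ + K * nsq φ := by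
  obtain ⟨B, hB⟩ := hv.bdd
  have hB0 : 0 ≤ B := (abs_nonneg _).trans (hB 0)
  refine ⟨1 + 2 * (n * (4 * Z ^ 2 + B) + |e|), by positivity, fun φ hφ => ?_⟩
  rw [h1_eq hφ, FW_eq (adm_pot Z hv e) hφ]
  have key : ∀ σ, -(∫ x, pot Z v e x * ‖φ σ x‖ ^ 2) ≤
      1 / 4 * (∑ i, ∑ c, ∫ x, ‖pd i c (φ σ) x‖ ^ 2) +
        (n * (4 * Z ^ 2 + B) + |e|) * ∫ x, ‖φ σ x‖ ^ 2 := by
    intro σ
    have i0 := (adm_pot Z hv e).int (φ σ) (hφ σ).cont (hφ σ).comp
    have i1 : ∀ i ∈ (Finset.univ : Finset (Fin n)),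
        Integrable (fun x => 1 / 16 * (‖φ σ x‖ ^ 2 / ‖x i‖ ^ 2)) := fun i _ =>
      (hardy1 (hφ σ) i).1.const_mul _
    have i2 := int_sq (hφ σ).cont (hφ σ).comp
    have h1 : -(∫ x, pot Z v e x * ‖φ σ x‖ ^ 2) ≤
        ∫ x, ((∑ i, 1 / 16 * (‖φ σ x‖ ^ 2 / ‖x i‖ ^ 2)) +
          (n * (4 * Z ^ 2 + B) + |e|) * ‖φ σ x‖ ^ 2) := by
      rw [← integral_neg]
      refine integral_mono i0.neg ((integrable_finsetSum _ i1).add (i2.const_mul _)) fun x => ?_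
      have h2 : -pot Z v e x ≤ (∑ i, 1 / 16 * (1 / ‖x i‖ ^ 2)) +
          (n * (4 * Z ^ 2 + B) + |e|) := by
        have h3 : ∀ i : Fin n, Z * (1 / ‖x i‖) + v (x i) ≤
            1 / 16 * (1 / ‖x i‖ ^ 2) + (4 * Z ^ 2 + B) := by
          intro i
          have h4 := (abs_le.1 (hB (x i))).2
          have h5 : 1 / ‖x i‖ ^ 2 = (1 / ‖x i‖) ^ 2 := by rw [one_div_pow]
          rw [h5]
          nlinarith [sq_nonneg (1 / 4 * (1 / ‖x i‖) - 2 * Z)]
        have h4 := Finset.sum_le_sum fun i (_ : i ∈ (Finset.univ : Finset (Fin n))) => h3 i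
        rw [Finset.sum_add_distrib, Finset.sum_add_distrib, Finset.sum_const, Finset.card_univ,
          Fintype.card_fin, nsmul_eq_mul, ← Finset.mul_sum] at h4
        have h5 : 0 ≤ ∑ i, ∑ j, 1 / ‖x i - x j‖ :=
          Finset.sum_nonneg fun _ _ => Finset.sum_nonneg fun _ _ => by positivity
        have h6 := le_abs_self e
        unfold pot VC
        linarith
      have h7 : -(pot Z v e x * ‖φ σ x‖ ^ 2) ≤ ((∑ i, 1 / 16 * (1 / ‖x i‖ ^ 2)) +
          (n * (4 * Z ^ 2 + B) + |e|)) * ‖φ σ x‖ ^ 2 := by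
        rw [← neg_mul]
        exact mul_le_mul_of_nonneg_right h2 (by positivity)
      refine h7.trans (le_of_eq ?_)
      rw [add_mul, Finset.sum_mul]
      congr 1
      refine Finset.sum_congr rfl fun i _ => ?_
      ring
    refine h1.trans ?_
    rw [integral_add (integrable_finsetSum _ i1) (i2.const_mul _), integral_const_mul,
      integral_finsetSum _ i1, Finset.mul_sum]
    refine add_le_add (Finset.sum_le_sum fun i _ => ?_) le_rfl
    rw [integral_const_mul]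
    have h2 := (hardy1 (hφ σ) i).2
    linarith
  have h2 := Finset.sum_le_sum fun σ (_ : σ ∈ (Finset.univ : Finset (Fin n → Fin 2))) => key σ
  rw [Finset.sum_neg_distrib, Finset.sum_add_distrib, ← Finset.mul_sum, ← Finset.mul_sum] at h2
  have h3 : nsq φ = ∑ σ, ∫ x, ‖φ σ x‖ ^ 2 := rfl
  rw [← h3] at h2
  linarith

/-
Upper bound: 1/|x i - x j| ≤ 1 + 1/|x i - x j|² (diagonal terms vanish: 1/0 = 0), Hardy; similarly for 1/|x i| if Z < 0.
-/
theorem pot_upper (Z : ℝ) (n : ℕ) {v : E3 → ℝ} (hv : Bd v) (e : ℝ) :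
    ∃ K : ℝ, 0 ≤ K ∧ ∀ φ : WF n, CW φ → FW (pot Z v e) φ φ ≤ K * h1 φ := by
  obtain ⟨B, hB⟩ := hv.bdd
  have hB0 : 0 ≤ B := (abs_nonneg _).trans (hB 0)
  refine ⟨1 + 8 * |Z| + 4 * n + (n * (|Z| + n + B) + |e|), by positivity, fun φ hφ => ?_⟩
  rw [h1_eq hφ, FW_eq (adm_pot Z hv e) hφ]
  have hone : ∀ t : ℝ, 0 ≤ t → 1 / t ≤ 1 + 1 / t ^ 2 := by
    intro t _
    rw [← one_div_pow]
    nlinarith [sq_nonneg (1 / t - 1), sq_nonneg (1 / t)]
  have key : ∀ σ, (∫ x, pot Z v e x * ‖φ σ x‖ ^ 2) ≤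
      (4 * |Z| + 2 * n) * (∑ i, ∑ c, ∫ x, ‖pd i c (φ σ) x‖ ^ 2) +
        (n * (|Z| + n + B) + |e|) * ∫ x, ‖φ σ x‖ ^ 2 := by
    intro σ
    have i0 := (adm_pot Z hv e).int (φ σ) (hφ σ).cont (hφ σ).comp
    have i1 : ∀ i ∈ (Finset.univ : Finset (Fin n)),
        Integrable (fun x => |Z| * (‖φ σ x‖ ^ 2 / ‖x i‖ ^ 2)) := fun i _ =>
      (hardy1 (hφ σ) i).1.const_mul _
    have i3 : ∀ i ∈ (Finset.univ : Finset (Fin n)),
        Integrable (fun x => ∑ j, 1 / 2 * (‖φ σ x‖ ^ 2 / ‖x i - x j‖ ^ 2)) := fun i _ =>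
      integrable_finsetSum _ fun j _ => (hardy2 (hφ σ) i j).1.const_mul _
    have i2 := int_sq (hφ σ).cont (hφ σ).comp
    have h1 : (∫ x, pot Z v e x * ‖φ σ x‖ ^ 2) ≤
        ∫ x, (((∑ i, |Z| * (‖φ σ x‖ ^ 2 / ‖x i‖ ^ 2)) +
          ∑ i, ∑ j, 1 / 2 * (‖φ σ x‖ ^ 2 / ‖x i - x j‖ ^ 2)) +
          (n * (|Z| + n + B) + |e|) * ‖φ σ x‖ ^ 2) := by
      refine integral_mono i0 (((integrable_finsetSum _ i1).add (integrable_finsetSum _ i3)).add
        (i2.const_mul _)) fun x => ?_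
      have h2 : pot Z v e x ≤ ((∑ i, |Z| * (1 / ‖x i‖ ^ 2)) +
          ∑ i, ∑ j, 1 / 2 * (1 / ‖x i - x j‖ ^ 2)) + (n * (|Z| + n + B) + |e|) := by
        have h3 : ∀ i : Fin n, -(Z * (1 / ‖x i‖)) - v (x i) ≤
            |Z| * (1 / ‖x i‖ ^ 2) + (|Z| + B) := by
          intro i
          have h4 := (abs_le.1 (hB (x i))).1
          have h5 := hone ‖x i‖ (norm_nonneg _)
          have h6 : -(Z * (1 / ‖x i‖)) ≤ |Z| * (1 / ‖x i‖) := by
            rw [← neg_mul]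
            exact mul_le_mul_of_nonneg_right (neg_le_abs Z) (by positivity)
          have h7 := mul_le_mul_of_nonneg_left h5 (abs_nonneg Z)
          linarith
        have h4 := Finset.sum_le_sum fun i (_ : i ∈ (Finset.univ : Finset (Fin n))) => h3 i
        rw [Finset.sum_add_distrib, Finset.sum_sub_distrib, Finset.sum_const, Finset.card_univ,
          Fintype.card_fin, nsmul_eq_mul, Finset.sum_neg_distrib, ← Finset.mul_sum] at h4
        have h5 : 1 / 2 * (∑ i, ∑ j, 1 / ‖x i - x j‖) ≤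
            (∑ i, ∑ j, 1 / 2 * (1 / ‖x i - x j‖ ^ 2)) + n * n := by
          have h6 : ∀ i : Fin n, ∑ j, 1 / 2 * (1 / ‖x i - x j‖) ≤
              (∑ j, 1 / 2 * (1 / ‖x i - x j‖ ^ 2)) + n := by
            intro i
            have h7 : ∀ j ∈ (Finset.univ : Finset (Fin n)), 1 / 2 * (1 / ‖x i - x j‖) ≤
                1 / 2 * (1 / ‖x i - x j‖ ^ 2) + 1 := by
              intro j _
              have := hone ‖x i - x j‖ (norm_nonneg _)
              linarith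
            have h8 := Finset.sum_le_sum h7
            rw [Finset.sum_add_distrib, Finset.sum_const, Finset.card_univ,
              Fintype.card_fin, nsmul_eq_mul, mul_one] at h8
            exact h8
          have h9 := Finset.sum_le_sum fun i (_ : i ∈ (Finset.univ : Finset (Fin n))) => h6 i
          rw [Finset.sum_add_distrib, Finset.sum_const, Finset.card_univ,
              Fintype.card_fin, nsmul_eq_mul] at h9
          have h10 : 1 / 2 * (∑ i, ∑ j, 1 / ‖x i - x j‖) =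
              ∑ i, ∑ j, 1 / 2 * (1 / ‖x i - x j‖) := by
            rw [Finset.mul_sum]
            exact Finset.sum_congr rfl fun i _ => Finset.mul_sum _ _ _
          rw [h10]
          exact h9
        have h6 := neg_le_abs e
        unfold pot VC
        have h7 : (n : ℝ) * (|Z| + n + B) = n * (|Z| + B) + n * n := by ring
        linarith
      have h7 : pot Z v e x * ‖φ σ x‖ ^ 2 ≤ (((∑ i, |Z| * (1 / ‖x i‖ ^ 2)) +
          ∑ i, ∑ j, 1 / 2 * (1 / ‖x i - x j‖ ^ 2)) + (n * (|Z| + n + B) + |e|)) *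
            ‖φ σ x‖ ^ 2 :=
        mul_le_mul_of_nonneg_right h2 (by positivity)
      refine h7.trans (le_of_eq ?_)
      rw [add_mul, add_mul, Finset.sum_mul, Finset.sum_mul]
      congr 2
      · refine Finset.sum_congr rfl fun i _ => ?_
        ring
      · refine Finset.sum_congr rfl fun i _ => ?_
        rw [Finset.sum_mul]
        refine Finset.sum_congr rfl fun j _ => ?_
        ring
    refine h1.trans ?_
    have i4 : Integrable (fun x => (∑ i, |Z| * (‖φ σ x‖ ^ 2 / ‖x i‖ ^ 2)) +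
          ∑ i, ∑ j, 1 / 2 * (‖φ σ x‖ ^ 2 / ‖x i - x j‖ ^ 2)) :=
      (integrable_finsetSum _ i1).add (integrable_finsetSum _ i3)
    rw [integral_add i4 (i2.const_mul _), integral_const_mul, integral_add (integrable_finsetSum _ i1)
      (integrable_finsetSum _ i3), integral_finsetSum _ i1, integral_finsetSum _ i3,
      Finset.mul_sum, ← Finset.sum_add_distrib]
    refine add_le_add (Finset.sum_le_sum fun i _ => ?_) le_rfl
    rw [integral_const_mul, integral_finsetSum _ fun j _ => (hardy2 (hφ σ) i j).1.const_mul _]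
    have h2 := mul_le_mul_of_nonneg_left (hardy1 (hφ σ) i).2 (abs_nonneg Z)
    have h3 : ∑ j, ∫ x, 1 / 2 * (‖φ σ x‖ ^ 2 / ‖x i - x j‖ ^ 2) ≤
        n * (2 * ∑ c, ∫ x, ‖pd i c (φ σ) x‖ ^ 2) := by
      have h4 : ∀ j ∈ (Finset.univ : Finset (Fin n)),
          ∫ x, 1 / 2 * (‖φ σ x‖ ^ 2 / ‖x i - x j‖ ^ 2) ≤
            2 * ∑ c, ∫ x, ‖pd i c (φ σ) x‖ ^ 2 := by
        intro j _
        rw [integral_const_mul]
        have h5 := (hardy2 (hφ σ) i j).2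
        linarith
      have h5 := Finset.sum_le_sum h4
      rwa [Finset.sum_const, Finset.card_univ, Fintype.card_fin, nsmul_eq_mul] at h5
    nlinarith
  have h2 := Finset.sum_le_sum fun σ (_ : σ ∈ (Finset.univ : Finset (Fin n → Fin 2))) => key σ
  rw [Finset.sum_add_distrib, ← Finset.mul_sum, ← Finset.mul_sum] at h2
  have h3 : nsq φ = ∑ σ, ∫ x, ‖φ σ x‖ ^ 2 := rfl
  rw [← h3] at h2
  have h4 := kin_nonneg φ
  have h5 := nsq_nonneg φ
  have h6 : 0 ≤ (1 / 2 : ℝ) * (n * (|Z| + n + B) + |e|) *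
      ∑ σ, ∑ i, ∑ c, ∫ x, ‖pd i c (φ σ) x‖ ^ 2 := mul_nonneg (by positivity) h4
  have h7 : 0 ≤ (1 + 8 * |Z| + 4 * n) * nsq φ := mul_nonneg (by positivity) h5
  linarith

end Pool.Agent.H899_CR
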