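import Pool.Agent.H899_CR.Basic


set_option autoImplicit false

noncomputable section

namespace Pool.Agent.H899_CR

open MeasureTheory

variable {n : ℕ}

theorem pa_pa (π ρ : Equiv.Perm (Fin n)) (φ : WF n) : pa π (pa ρ φ) = pa (π * ρ) φ := rfl

theorem sg_mul (π ρ : Equiv.Perm (Fin n)) : sg (π * ρ) = sg π * sg ρ := by
  unfold sg
  rw [Equiv.Perm.sign_mul, Units.val_mul, Int.cast_mul]

theorem sg_sq (π : Equiv.Perm (Fin n)) : sg π * sg π = 1 := by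
  unfold sg
  rw [← Int.cast_mul, ← Units.val_mul, Int.units_mul_self, Units.val_one, Int.cast_one]

/-- the linear map `x ↦ x ∘ π` -/
def permL (π : Equiv.Perm (Fin n)) : (Fin n → E3) ≃L[ℝ] (Fin n → E3) :=
  (LinearEquiv.funCongrLeft ℝ E3 π).toContinuousLinearEquiv

theorem permL_apply (π : Equiv.Perm (Fin n)) (x : Fin n → E3) : permL π x = x ∘ π := rfl

/-- composition with the linear map `x ↦ x ∘ π` preserves `CC` -/
theorem CC.comp_perm {α : (Fin n → E3) → ℂ} (h : CC α) (π : Equiv.Perm (Fin n)) :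
    CC (fun x => α (x ∘ π)) :=
  ⟨h.smooth.comp (permL π).contDiff, h.comp.comp_homeomorph (permL π).toHomeomorph⟩

theorem dir_comp (π : Equiv.Perm (Fin n)) (i : Fin n) (c : Fin 3) :
    dir i c ∘ π = dir (π.symm i) c := by
  funext j
  unfold dir
  rw [Function.comp_apply]
  by_cases hj : π j = i
  · have : j = π.symm i := by rw [← hj, Equiv.symm_apply_apply]
    rw [hj, this, Pi.single_eq_same, Pi.single_eq_same]
  · have : j ≠ π.symm i := fun h => hj (by rw [h, Equiv.apply_symm_apply])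
    rw [Pi.single_eq_of_ne hj, Pi.single_eq_of_ne this]

/-- chain rule: `(dir i c) ∘ π = dir (π⁻¹ i) c` -/
theorem pd_comp_perm {α : (Fin n → E3) → ℂ} (h : CC α) (π : Equiv.Perm (Fin n)) (i : Fin n)
    (c : Fin 3) (x : Fin n → E3) :
    pd i c (fun x => α (x ∘ π)) x = pd (π.symm i) c α (x ∘ π) := by
  unfold pd
  have h1 : HasFDerivAt (fun x : Fin n → E3 => α (x ∘ π))
      ((fderiv ℝ α (x ∘ π)).comp (permL π : (Fin n → E3) →L[ℝ] (Fin n → E3))) x :=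
    HasFDerivAt.comp x (h.diff (x ∘ π)).hasFDerivAt (permL π).hasFDerivAt
  rw [h1.fderiv, ← dir_comp]
  rfl

/-- the map `x ↦ x ∘ π` preserves Lebesgue measure (`volume_measurePreserving_piCongrLeft` or similar) -/
theorem integral_comp_perm (π : Equiv.Perm (Fin n)) (F : (Fin n → E3) → ℝ) :
    ∫ x, F (x ∘ π) = ∫ x, F x := by
  have h := volume_measurePreserving_piCongrLeft (fun _ : Fin n => E3) π.symm
  have h2 := h.integral_comp' F
  rw [← h2]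
  congr 1
  funext x
  congr 1
  funext j
  have := Equiv.piCongrLeft_apply_apply (fun _ : Fin n => E3) π.symm x (π j)
  rw [Equiv.symm_apply_apply] at this
  exact this.symm

theorem CW_pa {φ : WF n} (h : CW φ) (π : Equiv.Perm (Fin n)) : CW (pa π φ) :=
  fun σ => (h (σ ∘ π)).comp_perm π

theorem sum_comp_perm (π : Equiv.Perm (Fin n)) (f : (Fin n → Fin 2) → ℝ) :
    ∑ σ : Fin n → Fin 2, f (σ ∘ π) = ∑ σ, f σ :=
  Equiv.sum_comp (π.symm.arrowCongr (Equiv.refl (Fin 2))) f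

theorem nsq_pa (π : Equiv.Perm (Fin n)) (φ : WF n) : nsq (pa π φ) = nsq φ := by
  unfold nsq pa
  rw [← sum_comp_perm π (fun σ => ∫ x, ‖φ σ x‖ ^ 2)]
  exact Finset.sum_congr rfl fun σ _ => integral_comp_perm π (fun x => ‖φ (σ ∘ π) x‖ ^ 2)

theorem ip_pa (π : Equiv.Perm (Fin n)) (φ χ : WF n) : ip (pa π φ) (pa π χ) = ip φ χ := by
  unfold ip pa
  rw [← sum_comp_perm π (fun σ => ∫ x, rp (φ σ x) (χ σ x))]
  exact Finset.sum_congr rfl fun σ _ =>
    integral_comp_perm π (fun x => rp (φ (σ ∘ π) x) (χ (σ ∘ π) x))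

theorem ed_comp_perm {U : (Fin n → E3) → ℝ} (hs : Sym U) (π : Equiv.Perm (Fin n))
    {α β : (Fin n → E3) → ℂ} (ha : CC α) (hb : CC β) (x : Fin n → E3) :
    ed U (fun x => α (x ∘ π)) (fun x => β (x ∘ π)) x = ed U α β (x ∘ π) := by
  unfold ed
  rw [hs π x]
  congr 2
  rw [← Equiv.sum_comp π.symm (fun i => ∑ c, rp (pd i c α (x ∘ π)) (pd i c β (x ∘ π)))]
  refine Finset.sum_congr rfl fun i _ => Finset.sum_congr rfl fun c _ => ?_
  rw [pd_comp_perm ha, pd_comp_perm hb]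

theorem FW_pa {U : (Fin n → E3) → ℝ} (hs : Sym U) (π : Equiv.Perm (Fin n)) {φ χ : WF n}
    (h1 : CW φ) (h2 : CW χ) : FW U (pa π φ) (pa π χ) = FW U φ χ := by
  unfold FW
  rw [← sum_comp_perm π (fun σ => FF U (φ σ) (χ σ))]
  refine Finset.sum_congr rfl fun σ _ => ?_
  unfold FF
  rw [← integral_comp_perm π (fun x => ed U (φ (σ ∘ π)) (χ (σ ∘ π)) x)]
  refine integral_congr_ae (ae_of_all _ fun x => ?_)
  exact ed_comp_perm hs π (h1 (σ ∘ π)) (h2 (σ ∘ π)) x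

/-- the sign as a real number -/
def sgR (π : Equiv.Perm (Fin n)) : ℝ := ((Equiv.Perm.sign π : ℤ) : ℝ)

theorem sg_eq (π : Equiv.Perm (Fin n)) : sg π = ((sgR π : ℝ) : ℂ) := by
  unfold sg sgR; push_cast; rfl

theorem sgR_sq (π : Equiv.Perm (Fin n)) : sgR π * sgR π = 1 := by
  unfold sgR
  rw [← Int.cast_mul, ← Units.val_mul, Int.units_mul_self, Units.val_one, Int.cast_one]

theorem sg_one : sg (1 : Equiv.Perm (Fin n)) = 1 := by
  unfold sg; simp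

theorem sg_inv (π : Equiv.Perm (Fin n)) : sg π⁻¹ = sg π := by
  unfold sg
  rw [Equiv.Perm.sign_inv]

/-- the terms of the antisymmetrization -/
def TT (Θ : WF (n + 1)) (i : Fin (n + 1)) : WF (n + 1) :=
  fun σ x => sg (Equiv.swap 0 i) * pa (Equiv.swap 0 i) Θ σ x

theorem asym_eq (Θ : WF (n + 1)) : asym Θ = fun σ x => ∑ i, TT Θ i σ x := rfl

theorem TT_cw {Θ : WF (n + 1)} (h : CW Θ) (i : Fin (n + 1)) : CW (TT Θ i) :=
  (CW_pa h _).smul _

theorem TT_zero (Θ : WF (n + 1)) : TT Θ 0 = Θ := by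
  funext σ x
  unfold TT
  rw [Equiv.swap_self]
  change sg 1 * pa 1 Θ σ x = Θ σ x
  rw [sg_one, one_mul]
  rfl

/-- `sg π * pa π Θ = T (π 0)` -/
theorem pa_eq_TT {Θ : WF (n + 1)} (h : AT Θ) (π : Equiv.Perm (Fin (n + 1))) (σ : Fin (n + 1) → Fin 2)
    (x : Fin (n + 1) → E3) : pa π Θ σ x = sg π * TT Θ (π 0) σ x := by
  set s := Equiv.swap 0 (π 0) with hs
  have hρ : (s⁻¹ * π) 0 = 0 := by
    rw [Equiv.Perm.mul_apply, hs, Equiv.swap_inv, Equiv.swap_apply_right]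
  have e1 : π = s * (s⁻¹ * π) := by rw [mul_inv_cancel_left]
  have e2 := h.anti _ hρ
  have e3 : pa π Θ = pa s (pa (s⁻¹ * π) Θ) := by
    rw [pa_pa, ← e1]
  rw [e3, e2]
  unfold TT
  rw [← hs]
  change sg (s⁻¹ * π) * pa s Θ σ x = sg π * (sg s * pa s Θ σ x)
  rw [sg_mul, sg_inv]
  ring

theorem pa_TT {Θ : WF (n + 1)} (h : AT Θ) (π : Equiv.Perm (Fin (n + 1))) (i : Fin (n + 1)) :
    pa π (TT Θ i) = fun σ x => sg π * TT Θ (π i) σ x := by
  funext σ x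
  set s := Equiv.swap 0 i with hs
  have e1 : pa π (TT Θ i) σ x = sg s * pa (π * s) Θ σ x := rfl
  rw [e1, pa_eq_TT h, Equiv.Perm.mul_apply, hs, Equiv.swap_apply_left, ← hs, sg_mul]
  have := sg_sq s
  linear_combination (sg π * TT Θ (π i) σ x) * this

/-
Let s i = swap 0 i and T i = sg (s i) * pa (s i) Θ, asym Θ = ∑ i, T i. For π put ρ = (s (π i))⁻¹ π (s i), which fixes 0.
Then pa π (T i) = sg (s i) pa (s (π i) ρ) Θ = sg (s i) sg ρ pa (s (π i)) Θ = sg π T (π i). Hence pa π (asym Θ) = sg π asym Θ.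
-/
theorem AS_asym {Θ : WF (n + 1)} (h : AT Θ) : AS (asym Θ) := by
  refine ⟨fun σ => ?_, fun π => ?_⟩
  · rw [asym_eq]
    exact CC.sum _ fun i _ => TT_cw h.cw i σ
  · funext σ x
    have e1 : pa π (asym Θ) σ x = ∑ i, pa π (TT Θ i) σ x := rfl
    rw [e1, asym_eq]
    simp only [pa_TT h]
    rw [← Finset.mul_sum]
    congr 1
    exact Equiv.sum_comp π (fun i => TT Θ i σ x)

theorem FW_sg_right {U : (Fin n → E3) → ℝ} {φ η : WF n} (h1 : CW φ) (π : Equiv.Perm (Fin n)) :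
    FW U η (fun σ x => sg π * φ σ x) = sgR π * FW U η φ := by
  rw [sg_eq]
  exact FW_smul_right h1 _

theorem FW_sg_left {U : (Fin n → E3) → ℝ} {φ η : WF n} (h1 : CW φ) (π : Equiv.Perm (Fin n)) :
    FW U (fun σ x => sg π * φ σ x) η = sgR π * FW U φ η := by
  rw [sg_eq]
  exact FW_smul_left h1 _

/-
FW U φ (T i) = FW U (pa (s i)⁻¹ φ) (sg (s i) Θ) = FW U φ Θ because φ is antisymmetric.
-/
theorem FW_asym {U : (Fin (n + 1) → E3) → ℝ} (hU : Adm U) (hs : Sym U) {φ Θ : WF (n + 1)}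
    (hφ : AS φ) (h : AT Θ) : FW U φ (asym Θ) = ((n : ℝ) + 1) * FW U φ Θ := by
  rw [asym_eq, FW_sum_right hU _ (fun i _ => TT_cw h.cw i) hφ.cw]
  have key : ∀ i, FW U φ (TT Θ i) = FW U φ Θ := by
    intro i
    set s := Equiv.swap 0 i with hs'
    have e1 : FW U φ (TT Θ i) = sgR s * FW U φ (pa s Θ) := FW_sg_right (CW_pa h.cw _) s
    have e2 : FW U φ (pa s Θ) = FW U (pa s⁻¹ φ) Θ := by
      rw [← FW_pa hs s (CW_pa hφ.cw s⁻¹) h.cw, pa_pa, mul_inv_cancel]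
      rfl
    have e3 : FW U (pa s⁻¹ φ) Θ = sgR s * FW U φ Θ := by
      rw [hφ.anti, sg_inv, FW_sg_left hφ.cw]
    rw [e1, e2, e3, ← mul_assoc, sgR_sq, one_mul]
  simp only [key]
  rw [Finset.sum_const, Finset.card_univ, Fintype.card_fin, nsmul_eq_mul]
  push_cast
  ring

/-
FW U (asym Θ) (asym Θ) = (n+2) FW U (asym Θ) Θ = (n+2) (FW U Θ Θ + ∑_{i ≠ 0} FW U (T i) Θ); for i, j ≠ 0 the permutation
ρ = swap i j fixes 0, pa ρ Θ = sg ρ Θ, pa ρ (T i) = sg ρ T j, so FW U (T i) Θ = FW U (T j) Θ; and T 1 = - pa (swap 0 1) Θ.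
-/
theorem FW_asym_asym {U : (Fin (n + 2) → E3) → ℝ} (hU : Adm U) (hs : Sym U) {Θ : WF (n + 2)}
    (h : AT Θ) : FW U (asym Θ) (asym Θ) =
      ((n : ℝ) + 2) * (FW U Θ Θ - ((n : ℝ) + 1) * FW U Θ (pa (Equiv.swap 0 1) Θ)) := by
  rw [FW_asym hU hs (AS_asym h) h, FW_comm U (asym Θ) Θ, asym_eq,
    FW_sum_right hU _ (fun i _ => TT_cw h.cw i) h.cw, Fin.sum_univ_succ, TT_zero]
  have key : ∀ i : Fin (n + 1), FW U Θ (TT Θ i.succ) = - FW U Θ (pa (Equiv.swap 0 1) Θ) := by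
    intro i
    set ρ := Equiv.swap (1 : Fin (n + 2)) i.succ with hρ
    have hρ0 : ρ 0 = 0 := by
      rw [hρ]
      exact Equiv.swap_apply_of_ne_of_ne (by simp) (Fin.succ_ne_zero i).symm
    have e1 : FW U Θ (TT Θ i.succ) = FW U Θ (TT Θ 1) := by
      rw [← FW_pa hs ρ h.cw (TT_cw h.cw _), h.anti ρ hρ0, pa_TT h, FW_sg_left h.cw,
        FW_sg_right (TT_cw h.cw _), ← mul_assoc, sgR_sq, one_mul, hρ, Equiv.swap_apply_right]
    have e2 : FW U Θ (TT Θ 1) = sgR (Equiv.swap (0 : Fin (n + 2)) 1) *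
        FW U Θ (pa (Equiv.swap 0 1) Θ) := FW_sg_right (CW_pa h.cw _) _
    have e3 : sgR (Equiv.swap (0 : Fin (n + 2)) 1) = -1 := by
      unfold sgR
      rw [Equiv.Perm.sign_swap (by simp)]
      simp
    rw [e1, e2, e3]
    ring
  simp only [key]
  rw [Finset.sum_const, Finset.card_univ, Fintype.card_fin, nsmul_eq_mul]
  push_cast
  ring

theorem FW_one_nonneg (φ : WF n) : 0 ≤ FW (fun _ => 1) φ φ := by
  unfold FW FF
  refine Finset.sum_nonneg fun σ _ => integral_nonneg fun x => ?_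
  change 0 ≤ ed (fun _ => 1) (φ σ) (φ σ) x
  unfold ed
  simp only [rp_self]
  positivity

/-
`h1 φ = FW 1 φ φ` is a nonnegative quadratic form, so by Cauchy-Schwarz (`cs_form`, U = 1) |FW 1 (T i) (T j)| ≤ h1 Θ.
-/
theorem h1_asym {Θ : WF (n + 1)} (h : AT Θ) : h1 (asym Θ) ≤ ((n : ℝ) + 1) ^ 2 * h1 Θ := by
  have hU : Adm (fun _ : Fin (n + 1) → E3 => (1 : ℝ)) := Adm.const 1
  have hs : Sym (fun _ : Fin (n + 1) → E3 => (1 : ℝ)) := fun _ _ => rfl
  have h0 : 0 ≤ h1 Θ := FW_one_nonneg Θ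
  unfold h1 at *
  have e1 : FW (fun _ => 1) (asym Θ) (asym Θ) =
      ((n : ℝ) + 1) * ∑ i, FW (fun _ => 1) Θ (TT Θ i) := by
    rw [FW_asym hU hs (AS_asym h) h, FW_comm _ (asym Θ) Θ, asym_eq,
      FW_sum_right hU _ (fun i _ => TT_cw h.cw i) h.cw]
  have key : ∀ i, FW (fun _ => 1) Θ (TT Θ i) ≤ FW (fun _ => 1) Θ Θ := by
    intro i
    have e2 : FW (fun _ => 1) (TT Θ i) (TT Θ i) = FW (fun _ => 1) Θ Θ := by
      have e3 : FW (fun _ => 1) (TT Θ i) (TT Θ i) = sgR (Equiv.swap 0 i) *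
          (sgR (Equiv.swap 0 i) * FW (fun _ => 1) (pa (Equiv.swap 0 i) Θ)
            (pa (Equiv.swap 0 i) Θ)) := by
        unfold TT
        rw [FW_sg_left (CW_pa h.cw _), FW_sg_right (CW_pa h.cw _)]
      rw [e3, FW_pa hs _ h.cw h.cw, ← mul_assoc, sgR_sq, one_mul]
    have h2 := cs_form hU h.cw (TT_cw h.cw i) (fun t => FW_one_nonneg _)
    rw [e2, ← sq] at h2
    exact abs_le_of_sq_le_sq' h2 h0 |>.2
  rw [e1]
  have h3 : ∑ i : Fin (n + 1), FW (fun _ => 1) Θ (TT Θ i) ≤ ((n : ℝ) + 1) * FW (fun _ => 1) Θ Θ := by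
    calc ∑ i : Fin (n + 1), FW (fun _ => 1) Θ (TT Θ i)
        ≤ ∑ _i : Fin (n + 1), FW (fun _ => 1) Θ Θ := Finset.sum_le_sum fun i _ => key i
      _ = ((n : ℝ) + 1) * FW (fun _ => 1) Θ Θ := by
        rw [Finset.sum_const, Finset.card_univ, Fintype.card_fin, nsmul_eq_mul]
        push_cast
        ring
  calc ((n : ℝ) + 1) * ∑ i, FW (fun _ => 1) Θ (TT Θ i)
      ≤ ((n : ℝ) + 1) * (((n : ℝ) + 1) * FW (fun _ => 1) Θ Θ) :=
        mul_le_mul_of_nonneg_left h3 (by positivity)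
    _ = ((n : ℝ) + 1) ^ 2 * FW (fun _ => 1) Θ Θ := by ring

end Pool.Agent.H899_CR
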