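import Pool.Agent.H899_CR.Defs2
import Pool.Agent.H899_CR.Perm
import Pool.Agent.H899_CR.Hardy


set_option autoImplicit false

noncomputable section

namespace Pool.Agent.H899_CR

open MeasureTheory

variable {n : ℕ}

/-- `volume_preserving_piFinSuccAbove (fun _ => E3) 0`; `cns` is `Fin.cons` -/
theorem mp_cns : MeasurePreserving (fun p : E3 × (Fin n → E3) => cns p.1 p.2)
    (volume.prod volume) volume := by
  have h := (volume_preserving_piFinSuccAbove (fun _ : Fin (n + 1) => E3) 0).symm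
  have e : (fun p : E3 × (Fin n → E3) => cns p.1 p.2) =
      ⇑(MeasurableEquiv.piFinSuccAbove (fun _ : Fin (n + 1) => E3) 0).symm := by
    funext p
    exact (Fin.insertNth_zero' p.1 p.2).symm
  rw [e]
  exact h

namespace B1

theorem mp_map : Measure.map (fun p : E3 × (Fin n → E3) => cns p.1 p.2)
    (volume.prod volume) = volume := mp_cns.map_eq

end B1

theorem fub_int {F : (Fin (n + 1) → E3) → ℝ} (hF : Integrable F) :
    Integrable (fun p : E3 × (Fin n → E3) => F (cns p.1 p.2)) (volume.prod volume) :=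
  (mp_cns.integrable_comp hF.aestronglyMeasurable).2 hF

namespace B1

theorem int_cns {F : (Fin (n + 1) → E3) → ℝ} (hF : Integrable F) :
    ∫ x, F x = ∫ p : E3 × (Fin n → E3), F (cns p.1 p.2) ∂(volume.prod volume) := by
  have h := integral_map (μ := (volume : Measure E3).prod (volume : Measure (Fin n → E3)))
    (φ := fun p : E3 × (Fin n → E3) => cns p.1 p.2) (f := F) mp_cns.measurable.aemeasurable (by
      rw [mp_cns.map_eq]
      exact hF.aestronglyMeasurable)
  rw [mp_cns.map_eq] at h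
  exact h

end B1

theorem fub {F : (Fin (n + 1) → E3) → ℝ} (hF : Integrable F) :
    ∫ x, F x = ∫ z, ∫ y, F (cns z y) := by
  rw [B1.int_cns hF]
  exact integral_prod _ (fub_int hF)

theorem fub' {F : (Fin (n + 1) → E3) → ℝ} (hF : Integrable F) :
    ∫ x, F x = ∫ y, ∫ z, F (cns z y) := by
  rw [B1.int_cns hF]
  exact integral_prod_symm _ (fub_int hF)

theorem VC_cns (Z : ℝ) (y : E3) (x : Fin n → E3) : VC Z (cns y x) = VC Z x + PP Z y x := by
  unfold VC PP
  rw [Fin.sum_univ_succ, Fin.sum_univ_succ]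
  simp only [Fin.sum_univ_succ, cns_zero, cns_succ, sub_self, norm_zero, div_zero, zero_add]
  rw [Finset.sum_add_distrib]
  have h : ∑ i, 1 / ‖x i - y‖ = ∑ i, 1 / ‖y - x i‖ :=
    Finset.sum_congr rfl fun i _ => by rw [norm_sub_rev]
  rw [h]
  ring

theorem sum_spin (G : (Fin (n + 1) → Fin 2) → ℝ) :
    ∑ σ, G σ = ∑ τ : Fin 2, ∑ σ : Fin n → Fin 2, G (cns τ σ) := by
  rw [← Fintype.sum_prod_type']
  exact (Equiv.sum_comp (Fin.consEquiv fun _ : Fin (n + 1) => Fin 2) G).symm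

namespace B1

theorem continuous_cns (z : E3) : Continuous (fun x : Fin n → E3 => cns z x) := by
  refine continuous_pi fun i => ?_
  refine Fin.cases ?_ (fun j => ?_) i
  · exact continuous_const
  · exact continuous_apply j

theorem continuous_cns2 : Continuous (fun p : E3 × (Fin n → E3) => cns p.1 p.2) := by
  refine continuous_pi fun i => ?_
  refine Fin.cases ?_ (fun j => ?_) i
  · exact continuous_fst
  · exact (continuous_apply j).comp continuous_snd

theorem continuous_tl : Continuous (fun x : Fin (n + 1) → E3 => tl x) :=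
  continuous_pi fun i => continuous_apply i.succ

theorem contDiff_cns (z : E3) : ContDiff ℝ 1 (fun x : Fin n → E3 => cns z x) := by
  refine contDiff_pi.2 fun i => ?_
  refine Fin.cases ?_ (fun j => ?_) i
  · exact contDiff_const
  · exact contDiff_apply ℝ E3 j

theorem contDiff_tl : ContDiff ℝ 1 (fun x : Fin (n + 1) → E3 => tl x) :=
  contDiff_pi.2 fun i => contDiff_apply ℝ E3 i.succ

/-- the linear part of `cns z` -/
def Ecns : (Fin n → E3) →L[ℝ] (Fin (n + 1) → E3) :=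
  ContinuousLinearMap.pi fun i => Fin.cases 0 (fun j => ContinuousLinearMap.proj j) i

theorem Ecns_zero (v : Fin n → E3) : Ecns v 0 = 0 := rfl

theorem Ecns_succ (v : Fin n → E3) (j : Fin n) : Ecns v j.succ = v j := rfl

theorem hasFDerivAt_cns (z : E3) (x : Fin n → E3) :
    HasFDerivAt (fun x : Fin n → E3 => cns z x) Ecns x := by
  refine hasFDerivAt_pi.2 fun i => ?_
  refine Fin.cases ?_ (fun j => ?_) i
  · exact hasFDerivAt_const z x
  · exact hasFDerivAt_apply j x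

theorem Ecns_dir (i : Fin n) (c : Fin 3) : Ecns (dir i c) = dir i.succ c := by
  funext j
  refine Fin.cases ?_ (fun j => ?_) j
  · rw [Ecns_zero]
    unfold dir
    rw [Pi.single_eq_of_ne (Fin.succ_ne_zero i).symm]
  · rw [Ecns_succ]
    unfold dir
    by_cases h : j = i
    · subst h
      rw [Pi.single_eq_same, Pi.single_eq_same]
    · rw [Pi.single_eq_of_ne h, Pi.single_eq_of_ne (fun h' => h (Fin.succ_injective _ h'))]

/-- `tl` as a linear map -/
def Etl : (Fin (n + 1) → E3) →L[ℝ] (Fin n → E3) :=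
  ContinuousLinearMap.pi fun i => ContinuousLinearMap.proj i.succ

theorem hasFDerivAt_tl (x : Fin (n + 1) → E3) :
    HasFDerivAt (fun x : Fin (n + 1) → E3 => tl x) Etl x :=
  hasFDerivAt_pi.2 fun i => hasFDerivAt_apply i.succ x

theorem Etl_dir_zero (c : Fin 3) : Etl (dir (0 : Fin (n + 1)) c) = 0 := by
  funext j
  show dir (0 : Fin (n + 1)) c j.succ = 0
  unfold dir
  rw [Pi.single_eq_of_ne (Fin.succ_ne_zero j)]

theorem Etl_dir_succ (i : Fin n) (c : Fin 3) : Etl (dir i.succ c) = dir i c := by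
  funext j
  show dir i.succ c j.succ = dir i c j
  unfold dir
  by_cases h : j = i
  · subst h
    rw [Pi.single_eq_same, Pi.single_eq_same]
  · rw [Pi.single_eq_of_ne h, Pi.single_eq_of_ne (fun h' => h (Fin.succ_injective _ h'))]

theorem dir_zero_zero (c : Fin 3) :
    dir (0 : Fin (n + 1)) c 0 = EuclideanSpace.single c (1 : ℝ) := by
  unfold dir
  rw [Pi.single_eq_same]

theorem dir_succ_zero (i : Fin n) (c : Fin 3) : dir i.succ c 0 = 0 := by
  unfold dir
  rw [Pi.single_eq_of_ne (Fin.succ_ne_zero i).symm]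

end B1

theorem CC.slice {α : (Fin (n + 1) → E3) → ℂ} (h : CC α) (z : E3) :
    CC (fun x => α (cns z x)) := by
  refine ⟨h.smooth.comp (B1.contDiff_cns z), ?_⟩
  have h1 : Topology.IsClosedEmbedding (fun x : Fin n → E3 => cns z x) :=
    Function.LeftInverse.isClosedEmbedding (f := fun x : Fin (n + 1) → E3 => tl x)
      (fun x => rfl) B1.continuous_tl (B1.continuous_cns z)
  exact h.comp.comp_isClosedEmbedding h1

theorem pd_slice {α : (Fin (n + 1) → E3) → ℂ} (h : CC α) (z : E3) (i : Fin n) (c : Fin 3)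
    (x : Fin n → E3) : pd i c (fun x => α (cns z x)) x = pd i.succ c α (cns z x) := by
  unfold pd
  have h1 : HasFDerivAt (fun x => α (cns z x)) ((fderiv ℝ α (cns z x)).comp B1.Ecns) x :=
    (h.diff (cns z x)).hasFDerivAt.comp x (B1.hasFDerivAt_cns z x)
  rw [h1.fderiv, ContinuousLinearMap.comp_apply, B1.Ecns_dir]

theorem CC.ins {α : (Fin n → E3) → ℂ} (h : CC α) {u : E3 → ℝ} (hu : ContDiff ℝ 1 u)
    (hc : HasCompactSupport u) :
    CC (fun x : Fin (n + 1) → E3 => (u (x 0) : ℂ) * α (tl x)) := by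
  constructor
  · refine ContDiff.mul (Complex.ofRealCLM.contDiff.comp (hu.comp (contDiff_apply ℝ E3 0))) ?_
    exact h.smooth.comp B1.contDiff_tl
  · refine HasCompactSupport.intro (K := (fun p : E3 × (Fin n → E3) => cns p.1 p.2) ''
      (tsupport u ×ˢ tsupport α)) ?_ ?_
    · exact (IsCompact.prod hc h.comp).image B1.continuous_cns2
    · intro x hx
      by_cases h1 : x 0 ∈ tsupport u
      · by_cases h2 : tl x ∈ tsupport α
        · exact absurd ⟨(x 0, tl x), ⟨h1, h2⟩, cns_tl x⟩ hx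
        · rw [image_eq_zero_of_notMem_tsupport h2, mul_zero]
      · rw [image_eq_zero_of_notMem_tsupport h1, Complex.ofReal_zero, zero_mul]

namespace B1

theorem hasFDerivAt_ins {α : (Fin n → E3) → ℂ} (h : CC α) {u : E3 → ℝ} (hu : ContDiff ℝ 1 u)
    (x v : Fin (n + 1) → E3) :
    fderiv ℝ (fun x : Fin (n + 1) → E3 => (u (x 0) : ℂ) * α (tl x)) x v =
      (u (x 0) : ℂ) * fderiv ℝ α (tl x) (Etl v) +
      ((fderiv ℝ u (x 0) (v 0) : ℝ) : ℂ) * α (tl x) := by
  have h1 : HasFDerivAt (fun x : Fin (n + 1) → E3 => u (x 0))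
      ((fderiv ℝ u (x 0)).comp (ContinuousLinearMap.proj 0)) x :=
    (hu.differentiable (by simp) (x 0)).hasFDerivAt.comp x (hasFDerivAt_apply 0 x)
  have h2 : HasFDerivAt (fun x : Fin (n + 1) → E3 => (u (x 0) : ℂ))
      (Complex.ofRealCLM.comp ((fderiv ℝ u (x 0)).comp (ContinuousLinearMap.proj 0))) x :=
    Complex.ofRealCLM.hasFDerivAt.comp x h1
  have h3 : HasFDerivAt (fun x : Fin (n + 1) → E3 => α (tl x))
      ((fderiv ℝ α (tl x)).comp Etl) x :=
    (h.diff (tl x)).hasFDerivAt.comp x (hasFDerivAt_tl x)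
  have h4 : HasFDerivAt (fun x : Fin (n + 1) → E3 => (u (x 0) : ℂ) * α (tl x)) _ x := h2.mul h3
  rw [h4.fderiv]
  simp
  ring

end B1

theorem pd_ins_zero {α : (Fin n → E3) → ℂ} (h : CC α) {u : E3 → ℝ} (hu : ContDiff ℝ 1 u)
    (c : Fin 3) (x : Fin (n + 1) → E3) :
    pd 0 c (fun x : Fin (n + 1) → E3 => (u (x 0) : ℂ) * α (tl x)) x =
      ((fderiv ℝ u (x 0) (EuclideanSpace.single c 1) : ℝ) : ℂ) * α (tl x) := by
  unfold pd
  rw [B1.hasFDerivAt_ins h hu, B1.Etl_dir_zero, B1.dir_zero_zero, map_zero, mul_zero, zero_add]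

theorem pd_ins_succ {α : (Fin n → E3) → ℂ} (h : CC α) {u : E3 → ℝ} (hu : ContDiff ℝ 1 u)
    (i : Fin n) (c : Fin 3) (x : Fin (n + 1) → E3) :
    pd i.succ c (fun x : Fin (n + 1) → E3 => (u (x 0) : ℂ) * α (tl x)) x =
      (u (x 0) : ℂ) * pd i c α (tl x) := by
  unfold pd
  rw [B1.hasFDerivAt_ins h hu, B1.Etl_dir_succ, B1.dir_succ_zero, map_zero, Complex.ofReal_zero,
    zero_mul, add_zero]

theorem CC.mf {α : (Fin (n + 1) → E3) → ℂ} (h : CC α) {f : E3 → ℝ} (hf : ContDiff ℝ 1 f) :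
    CC (fun x => (f (x 0) : ℂ) * α x) :=
  h.rmul (f := fun x => f (x 0)) (hf.comp (contDiff_apply ℝ E3 0))

namespace B1

theorem fderiv_eval {f : E3 → ℝ} (hf : ContDiff ℝ 1 f) (x v : Fin (n + 1) → E3) :
    fderiv ℝ (fun x : Fin (n + 1) → E3 => f (x 0)) x v = fderiv ℝ f (x 0) (v 0) := by
  have h1 : HasFDerivAt (fun x : Fin (n + 1) → E3 => f (x 0))
      ((fderiv ℝ f (x 0)).comp (ContinuousLinearMap.proj 0)) x :=
    (hf.differentiable (by simp) (x 0)).hasFDerivAt.comp x (hasFDerivAt_apply 0 x)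
  rw [h1.fderiv]
  rfl

end B1

theorem pd_mf_zero {α : (Fin (n + 1) → E3) → ℂ} (h : CC α) {f : E3 → ℝ} (hf : ContDiff ℝ 1 f)
    (c : Fin 3) (x : Fin (n + 1) → E3) :
    pd 0 c (fun x => (f (x 0) : ℂ) * α x) x = (f (x 0) : ℂ) * pd 0 c α x +
      ((fderiv ℝ f (x 0) (EuclideanSpace.single c 1) : ℝ) : ℂ) * α x := by
  have h1 := pd_rmul h (f := fun x : Fin (n + 1) → E3 => f (x 0))
    (hf.comp (contDiff_apply ℝ E3 0)) 0 c x
  rw [h1, B1.fderiv_eval hf, B1.dir_zero_zero]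

theorem pd_mf_succ {α : (Fin (n + 1) → E3) → ℂ} (h : CC α) {f : E3 → ℝ} (hf : ContDiff ℝ 1 f)
    (i : Fin n) (c : Fin 3) (x : Fin (n + 1) → E3) :
    pd i.succ c (fun x => (f (x 0) : ℂ) * α x) x = (f (x 0) : ℂ) * pd i.succ c α x := by
  have h1 := pd_rmul h (f := fun x : Fin (n + 1) → E3 => f (x 0))
    (hf.comp (contDiff_apply ℝ E3 0)) i.succ c x
  rw [h1, B1.fderiv_eval hf, B1.dir_succ_zero, map_zero, Complex.ofReal_zero, zero_mul, add_zero]

theorem CW.slice {φ : WF (n + 1)} (h : CW φ) (τ : Fin 2) (z : E3) : CW (sl τ z φ) :=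
  fun σ => (h (cns τ σ)).slice z

theorem CW.ins {χ : WF n} (h : CW χ) {u : E3 → ℝ} (hu : ContDiff ℝ 1 u)
    (hc : HasCompactSupport u) : CW (ins u χ) := by
  intro σ
  by_cases h0 : σ 0 = 0
  · have e : H899_CR.ins u χ σ = fun x => (u (x 0) : ℂ) * χ (tl σ) (tl x) := by
      funext x
      simp [H899_CR.ins, h0]
    rw [e]
    exact (h (tl σ)).ins hu hc
  · have e : H899_CR.ins u χ σ = fun _ => 0 := by
      funext x
      simp [H899_CR.ins, h0]
    rw [e]
    exact CC.zero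

theorem CW.mf {φ : WF (n + 1)} (h : CW φ) {f : E3 → ℝ} (hf : ContDiff ℝ 1 f) : CW (mf f φ) :=
  fun σ => (h σ).mf hf

namespace B1

/-- extension of a permutation -/
def ext (π : Equiv.Perm (Fin n)) : Equiv.Perm (Fin (n + 1)) :=
  Equiv.Perm.decomposeFin.symm (0, π)

theorem ext_zero (π : Equiv.Perm (Fin n)) : ext π 0 = 0 :=
  Equiv.Perm.decomposeFin_symm_apply_zero 0 π

theorem ext_succ (π : Equiv.Perm (Fin n)) (i : Fin n) : ext π i.succ = (π i).succ := by
  unfold ext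
  rw [Equiv.Perm.decomposeFin_symm_apply_succ, Equiv.swap_self]
  rfl

theorem sg_ext (π : Equiv.Perm (Fin n)) : sg (ext π) = sg π := by
  unfold sg ext
  rw [Equiv.Perm.decomposeFin.symm_sign, if_pos rfl, one_mul]

theorem cns_comp_ext {X : Type} (π : Equiv.Perm (Fin n)) (z : X) (x : Fin n → X) :
    (cns z x) ∘ (ext π) = cns z (x ∘ π) := by
  funext i
  refine Fin.cases ?_ (fun j => ?_) i
  · show cns z x (ext π 0) = _
    rw [ext_zero]
    rfl
  · show cns z x (ext π j.succ) = _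
    rw [ext_succ]
    rfl

theorem tl_comp_ext {X : Type} (π : Equiv.Perm (Fin n)) (x : Fin (n + 1) → X) :
    tl (x ∘ (ext π)) = (tl x) ∘ π := by
  funext i
  show x (ext π i.succ) = x (π i).succ
  rw [ext_succ]

theorem exists_ext {π : Equiv.Perm (Fin (n + 1))} (h : π 0 = 0) : ∃ π' : Equiv.Perm (Fin n),
    π = ext π' := by
  have h1 : Equiv.Perm.decomposeFin.symm (Equiv.Perm.decomposeFin π) = π :=
    Equiv.symm_apply_apply _ _
  rcases hp : Equiv.Perm.decomposeFin π with ⟨p, π'⟩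
  rw [hp] at h1
  have h2 : p = 0 := by
    rw [← Equiv.Perm.decomposeFin_symm_apply_zero p π', h1, h]
  subst h2
  exact ⟨π', h1.symm⟩

theorem norm_sg (π : Equiv.Perm (Fin n)) : ‖sg π‖ = 1 := by
  unfold sg
  rcases Int.units_eq_one_or (Equiv.Perm.sign π) with h | h <;> simp [h]

end B1

/-- a permutation π of `Fin n` extends to `Fin (n+1)` fixing `0`
(`Equiv.Perm.decomposeFin.symm (0, π)`), with the same sign -/
theorem AS.slice {φ : WF (n + 1)} (h : AS φ) (τ : Fin 2) (z : E3) : AS (sl τ z φ) := by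
  refine ⟨CW.slice h.cw τ z, fun π => ?_⟩
  funext σ x
  have h1 := congrFun (congrFun (h.anti (B1.ext π)) (cns τ σ)) (cns z x)
  rw [B1.sg_ext] at h1
  show φ (cns τ (σ ∘ π)) (cns z (x ∘ π)) = _
  rw [← B1.cns_comp_ext, ← B1.cns_comp_ext]
  exact h1

/-- permutations of `Fin (n+1)` fixing `0` are of the form `Equiv.Perm.decomposeFin.symm (0, π)` -/
theorem AT_ins {χ : WF n} (h : AS χ) {u : E3 → ℝ} (hu : ContDiff ℝ 1 u)
    (hc : HasCompactSupport u) : AT (ins u χ) := by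
  refine ⟨CW.ins h.cw hu hc, fun π hπ => ?_⟩
  obtain ⟨π', rfl⟩ := B1.exists_ext hπ
  funext σ x
  have h1 := congrFun (congrFun (h.anti π') (tl σ)) (tl x)
  show (if σ (B1.ext π' 0) = 0 then (u (x (B1.ext π' 0)) : ℂ) *
    χ (tl (σ ∘ B1.ext π')) (tl (x ∘ B1.ext π')) else 0) = _
  rw [B1.tl_comp_ext, B1.tl_comp_ext, B1.ext_zero, B1.sg_ext]
  show _ = sg π' * (if σ 0 = 0 then (u (x 0) : ℂ) * χ (tl σ) (tl x) else 0)
  by_cases h0 : σ 0 = 0
  · rw [if_pos h0, if_pos h0]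
    have h2 : χ (tl σ ∘ π') (tl x ∘ π') = sg π' * χ (tl σ) (tl x) := h1
    rw [h2]
    ring
  · rw [if_neg h0, if_neg h0, mul_zero]

theorem AT_mf {φ : WF (n + 1)} (h : AS φ) {f : E3 → ℝ} (hf : ContDiff ℝ 1 f) :
    AT (mf f φ) := by
  refine ⟨CW.mf h.cw hf, fun π hπ => ?_⟩
  funext σ x
  have h1 : φ (σ ∘ π) (x ∘ π) = sg π * φ σ x := congrFun (congrFun (h.anti π) σ) x
  show (f (x (π 0)) : ℂ) * φ (σ ∘ π) (x ∘ π) = sg π * ((f (x 0) : ℂ) * φ σ x)
  rw [hπ, h1]
  ring

theorem nsq_slice {φ : WF (n + 1)} (h : CW φ) :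
    (∀ τ, Integrable (fun z => nsq (sl τ z φ))) ∧ nsq φ = ∑ τ, ∫ z, nsq (sl τ z φ) := by
  have hint : ∀ σ, Integrable (fun x => ‖φ σ x‖ ^ 2) := fun σ => int_sq (h σ).cont (h σ).comp
  have hsl : ∀ τ, ∀ σ : Fin n → Fin 2,
      Integrable (fun z : E3 => ∫ x, ‖φ (cns τ σ) (cns z x)‖ ^ 2) := fun τ σ =>
    (fub_int (hint (cns τ σ))).integral_prod_left
  refine ⟨fun τ => integrable_finsetSum _ fun σ _ => hsl τ σ, ?_⟩
  unfold nsq
  rw [sum_spin]
  refine Finset.sum_congr rfl fun τ _ => ?_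
  have h1 : ∫ z : E3, ∑ σ : Fin n → Fin 2, ∫ x, ‖sl τ z φ σ x‖ ^ 2 =
      ∑ σ : Fin n → Fin 2, ∫ z : E3, ∫ x, ‖φ (cns τ σ) (cns z x)‖ ^ 2 :=
    integral_finsetSum _ fun σ _ => hsl τ σ
  rw [h1]
  refine Finset.sum_congr rfl fun σ _ => ?_
  exact fub (hint (cns τ σ))

namespace B1

theorem int_bd {w : E3 → ℝ} (hw : Bd w) {φ : WF (n + 1)} (h : CW φ) (σ : Fin (n + 1) → Fin 2)
    (i : Fin (n + 1)) : Integrable (fun x => w (x i) * ‖φ σ x‖ ^ 2) := by
  obtain ⟨B, hB⟩ := hw.bdd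
  exact (Adm.bdd (U := fun x : Fin (n + 1) → E3 => w (x i))
    (hw.meas.comp (measurable_pi_apply i)) (B := B) fun x => hB _).int _ (h σ).cont (h σ).comp

theorem int_perm {m : ℕ} (π : Equiv.Perm (Fin m)) (F : (Fin m → E3) → ℝ) :
    ∫ x, F (x ∘ π) = ∫ x, F x := by
  have h := volume_measurePreserving_piCongrLeft (fun _ : Fin m => E3) π.symm
  have h1 := h.integral_comp' F
  rw [← h1]
  refine integral_congr_ae (ae_of_all _ fun x => ?_)
  show F (x ∘ π) = F _
  congr 1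
  funext i
  have h2 := MeasurableEquiv.piCongrLeft_apply_apply (β := fun _ : Fin m => E3) π.symm x (π i)
  rw [Equiv.symm_apply_apply] at h2
  exact h2.symm

end B1

namespace B1

theorem den_aux {φ : WF (n + 1)} (hφ : AS φ) {w : E3 → ℝ} (i : Fin (n + 1)) :
    ∑ σ, ∫ x, w (x i) * ‖φ σ x‖ ^ 2 = ∑ σ, ∫ x, w (x 0) * ‖φ σ x‖ ^ 2 := by
  let π : Equiv.Perm (Fin (n + 1)) := Equiv.swap 0 i
  have hπ : π 0 = i := Equiv.swap_apply_left 0 i
  have h1 : ∀ σ x, ‖φ (σ ∘ π) (x ∘ π)‖ = ‖φ σ x‖ := by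
    intro σ x
    have h2 : φ (σ ∘ π) (x ∘ π) = sg π * φ σ x := congrFun (congrFun (hφ.anti π) σ) x
    rw [h2, norm_mul, B1.norm_sg, one_mul]
  have h3 : ∀ σ, ∫ x, w (x i) * ‖φ σ x‖ ^ 2 = ∫ x, w (x 0) * ‖φ (σ ∘ π) x‖ ^ 2 := by
    intro σ
    rw [← B1.int_perm π (fun x => w (x 0) * ‖φ (σ ∘ π) x‖ ^ 2)]
    refine integral_congr_ae (ae_of_all _ fun x => ?_)
    show w (x i) * ‖φ σ x‖ ^ 2 = w (x (π 0)) * ‖φ (σ ∘ π) (x ∘ π)‖ ^ 2
    rw [hπ, h1]
  rw [Finset.sum_congr rfl fun σ _ => h3 σ]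
  exact Equiv.sum_comp (Equiv.arrowCongr π.symm (Equiv.refl (Fin 2)))
    (fun σ => ∫ x, w (x 0) * ‖φ σ x‖ ^ 2)

theorem den_zero' {φ : WF (n + 1)} (hφ : AS φ) {w : E3 → ℝ} (hw : Bd w) :
    den w φ = ((n : ℝ) + 1) * ∑ σ, ∫ x, w (x 0) * ‖φ σ x‖ ^ 2 := by
  have h1 : den w φ = ∑ i : Fin (n + 1), ∑ σ, ∫ x, w (x i) * ‖φ σ x‖ ^ 2 := by
    rw [Finset.sum_comm]
    unfold den
    refine Finset.sum_congr rfl fun σ _ => ?_
    rw [← integral_finsetSum _ fun i _ => B1.int_bd hw hφ.cw σ i]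
    refine integral_congr_ae (ae_of_all _ fun x => ?_)
    show (∑ i, w (x i)) * ‖φ σ x‖ ^ 2 = ∑ i, w (x i) * ‖φ σ x‖ ^ 2
    rw [Finset.sum_mul]
  rw [h1, Finset.sum_congr rfl fun i _ => den_aux hφ i, Finset.sum_const, Finset.card_univ,
    Fintype.card_fin, nsmul_eq_mul]
  push_cast
  ring

end B1

/-- by antisymmetry all electrons contribute the same amount -/
theorem den_slice {φ : WF (n + 1)} (hφ : AS φ) {w : E3 → ℝ} (hw : Bd w) :
    den w φ = ((n : ℝ) + 1) * ∑ τ, ∫ z, w z * nsq (sl τ z φ) := by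
  rw [B1.den_zero' hφ hw, sum_spin]
  congr 1
  refine Finset.sum_congr rfl fun τ _ => ?_
  have hint : ∀ σ : Fin n → Fin 2,
      Integrable (fun x : Fin (n + 1) → E3 => w (x 0) * ‖φ (cns τ σ) x‖ ^ 2) :=
    fun σ => B1.int_bd hw hφ.cw (cns τ σ) 0
  have hsl : ∀ σ : Fin n → Fin 2,
      Integrable (fun z : E3 => w z * ∫ x, ‖φ (cns τ σ) (cns z x)‖ ^ 2) := by
    intro σ
    have h1 := (fub_int (hint σ)).integral_prod_left
    refine h1.congr (ae_of_all _ fun z => ?_)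
    show ∫ x, w (cns z x 0) * ‖φ (cns τ σ) (cns z x)‖ ^ 2 = _
    simp only [cns_zero]
    exact integral_const_mul _ _
  have h2 : ∫ z, w z * nsq (sl τ z φ) =
      ∑ σ : Fin n → Fin 2, ∫ z : E3, w z * ∫ x, ‖φ (cns τ σ) (cns z x)‖ ^ 2 := by
    rw [← integral_finsetSum _ fun σ _ => hsl σ]
    refine integral_congr_ae (ae_of_all _ fun z => ?_)
    show w z * nsq (sl τ z φ) = ∑ σ, w z * ∫ x, ‖φ (cns τ σ) (cns z x)‖ ^ 2
    rw [← Finset.mul_sum]
    rfl
  rw [h2]
  refine Finset.sum_congr rfl fun σ _ => ?_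
  rw [fub (hint σ)]
  refine integral_congr_ae (ae_of_all _ fun z => ?_)
  show ∫ x, w (cns z x 0) * ‖φ (cns τ σ) (cns z x)‖ ^ 2 = _
  simp only [cns_zero]
  exact integral_const_mul _ _

/-- for a bounded weight -/
theorem den_zero {φ : WF (n + 1)} (hφ : AS φ) {w : E3 → ℝ} (hw : Bd w) :
    den w φ = ((n : ℝ) + 1) * ∑ σ, ∫ x, w (x 0) * ‖φ σ x‖ ^ 2 := B1.den_zero' hφ hw

namespace B1

/-- a continuous weight times an integrable function with compact support -/
theorem int_weight {G : (Fin (n + 1) → E3) → ℝ} (hG : Integrable G) (hc : HasCompactSupport G)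
    {f : E3 → ℝ} (hf : Continuous f) :
    Integrable (fun x : Fin (n + 1) → E3 => f (x 0) * G x) := by
  have hf' : Continuous (fun x : Fin (n + 1) → E3 => f (x 0)) := hf.comp (continuous_apply 0)
  obtain ⟨C, hC⟩ := hc.isCompact.exists_bound_of_continuousOn hf'.continuousOn
  refine Integrable.mono' (hG.norm.const_mul (max C 0)) (hf'.aestronglyMeasurable.mul
    hG.aestronglyMeasurable) (ae_of_all _ fun x => ?_)
  rw [norm_mul]
  by_cases hx : x ∈ tsupport G
  · exact mul_le_mul_of_nonneg_right ((hC x hx).trans (le_max_left _ _)) (norm_nonneg _)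
  · rw [image_eq_zero_of_notMem_tsupport hx]
    simp

end B1

/-- the quadratic forms of the slices are integrable -/
theorem int_slice_form {W : (Fin (n + 1) → E3) → ℝ} (hW : Adm W) {φ : WF (n + 1)} (hφ : CW φ)
    {f : E3 → ℝ} (hf : Continuous f) (τ : Fin 2) :
    Integrable (fun z => f z * FW (fun x => W (cns z x)) (sl τ z φ) (sl τ z φ)) := by
  have key : ∀ σ : Fin n → Fin 2, Integrable (fun z => f z * FF (fun x => W (cns z x))
      (sl τ z φ σ) (sl τ z φ σ)) := by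
    intro σ
    set α : (Fin (n + 1) → E3) → ℂ := φ (cns τ σ) with hα
    have hc : CC α := hφ _
    let G : (Fin (n + 1) → E3) → ℝ := fun x =>
      1 / 2 * (∑ i : Fin n, ∑ c, rp (pd i.succ c α x) (pd i.succ c α x)) + W x * rp (α x) (α x)
    have hGi : Integrable G := by
      refine Integrable.add ?_ (hW.int_rp hc hc)
      exact (integrable_finsetSum _ fun i _ => integrable_finsetSum _ fun c _ =>
        int_pd hc hc i.succ c).const_mul _
    have hGc : HasCompactSupport G := by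
      refine HasCompactSupport.intro (K := tsupport α) hc.comp fun x hx => ?_
      have h1 : α x = 0 := image_eq_zero_of_notMem_tsupport hx
      have h2 : ∀ (i : Fin (n + 1)) (c : Fin 3), pd i c α x = 0 := by
        intro i c
        have h3 : x ∉ tsupport (fderiv ℝ α) := fun h => hx (tsupport_fderiv_subset ℝ h)
        unfold pd
        rw [image_eq_zero_of_notMem_tsupport h3]
        rfl
      show 1 / 2 * (∑ i : Fin n, ∑ c, rp (pd i.succ c α x) (pd i.succ c α x)) +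
        W x * rp (α x) (α x) = 0
      simp only [h1, h2, rp_zero_left, Finset.sum_const_zero, mul_zero, add_zero]
    have h1 := (fub_int (B1.int_weight hGi hGc hf)).integral_prod_left
    refine h1.congr (ae_of_all _ fun z => ?_)
    show ∫ x, f (cns z x 0) * G (cns z x) = f z * FF _ _ _
    simp only [cns_zero]
    rw [integral_const_mul]
    congr 1
    unfold FF
    refine integral_congr_ae (ae_of_all _ fun x => ?_)
    show G (cns z x) = ed _ _ _ x
    unfold ed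
    have h2 : ∀ (i : Fin n) (c : Fin 3), pd i c (sl τ z φ σ) x = pd i.succ c α (cns z x) :=
      fun i c => pd_slice hc z i c x
    simp only [h2]
    rfl
  have h2 := integrable_finsetSum Finset.univ fun σ _ => key σ
  refine h2.congr (ae_of_all _ fun z => ?_)
  show ∑ σ, f z * FF _ _ _ = f z * FW _ _ _
  unfold FW
  rw [Finset.mul_sum]

end Pool.Agent.H899_CR
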