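import Pool.Agent.H899_CR.H1Ap
import Pool.Agent.H899_CR.Slice


set_option autoImplicit false

noncomputable section

namespace Pool.Agent.H899_CR

open MeasureTheory Filter Topology

variable {n : ℕ}

/-! Targets. -/

/-- `C¹` antisymmetric functions are `H¹` wave functions -/
theorem isSt_of_AS {φ : WF n} (h : AS φ) (h1 : nsq φ = 1) :
    IsSt φ (fun σ i c => pd i c (φ σ)) := by
  refine ⟨fun σ => isH1_of_CC (h.cw σ), fun π σ => Eventually.of_forall fun x => ?_, h1⟩
  exact congrFun (congrFun (h.anti π) σ) x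

/-- `EH` is `FW (VC Z)` on `C¹` functions -/
theorem EH_of_CW (Z : ℝ) {φ : WF n} (h : CW φ) :
    EH Z φ (fun σ i c => pd i c (φ σ)) = FW (VC Z) φ φ := by
  unfold EH FW
  refine Finset.sum_congr rfl fun σ _ => ?_
  unfold FF ed
  rw [integral_add (int_kin (h σ) (h σ)) ((adm_VC Z).int_rp (h σ) (h σ)), integral_const_mul,
    integral_finsetSum _ fun i _ => integrable_finsetSum _ fun c _ => int_pd (h σ) (h σ) i c]
  simp only [rp_self]
  congr 2
  refine Finset.sum_congr rfl fun i _ => ?_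
  rw [integral_finsetSum]
  intro c _
  have := int_pd (h σ) (h σ) i c
  simpa only [rp_self] using this

theorem stp_meas (s : ℝ) : Measurable (stp s) := by
  unfold stp
  exact Measurable.ite (measurableSet_le measurable_const measurable_norm) measurable_const
    measurable_const

theorem stp_abs_le (s : ℝ) (y : E3) : |stp s y| ≤ 1 := by
  unfold stp
  split_ifs <;> simp

/-- Fubini and antisymmetry: `outside ψ s = (n+1) ∑_σ ∫_{s < ‖x 0‖} ‖ψ σ x‖²`, and by antisymmetry each electron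
contributes the same amount to `den`. (`ψ σ` is in L², only a.e. strongly measurable.) -/
theorem outside_le {ψ : WF (n + 1)}
    {g : (Fin (n + 1) → Fin 2) → Fin (n + 1) → Fin 3 → (Fin (n + 1) → E3) → ℂ} (h : H1W ψ g)
    (ha : AE ψ) (s : ℝ) : outside ψ s ≤ den (stp s) ψ := by
  have hint : ∀ σ, Integrable (fun x => ‖ψ σ x‖ ^ 2) := fun σ =>
    (memLp_two_iff_integrable_sq_norm (h σ).memLp.1).1 (h σ).memLp
  have hmul : ∀ σ i, Integrable (fun x => stp s (x i) * ‖ψ σ x‖ ^ 2) := by
    intro σ i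
    have hm : Measurable (fun x : Fin (n + 1) → E3 => stp s (x i)) :=
      (stp_meas s).comp (measurable_pi_apply i)
    refine (hint σ).bdd_mul (c := 1) hm.aestronglyMeasurable (Eventually.of_forall fun x => ?_)
    rw [Real.norm_eq_abs]
    exact stp_abs_le s _
  -- the function of the first electron
  have hprod : ∀ σ, Integrable (fun p : E3 × (Fin n → E3) => ‖ψ σ (cns p.1 p.2)‖ ^ 2)
      (volume.prod volume) := fun σ =>
    mp_cns.integrable_comp_of_integrable (g := fun x => ‖ψ σ x‖ ^ 2) (hint σ)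
  have hrho : ∀ σ, Integrable (fun z : E3 => ∫ y : Fin n → E3, ‖ψ σ (cns z y)‖ ^ 2) :=
    fun σ => (hprod σ).integral_prod_left
  have hrho' : ∀ σ, Integrable (fun z : E3 => stp s z * ∫ y : Fin n → E3,
      ‖ψ σ (cns z y)‖ ^ 2) := by
    intro σ
    refine (hrho σ).bdd_mul (c := 1) (stp_meas s).aestronglyMeasurable
      (Eventually.of_forall fun x => ?_)
    rw [Real.norm_eq_abs]
    exact stp_abs_le s _
  have hfub : ∀ σ, ∫ x, stp s (x 0) * ‖ψ σ x‖ ^ 2 =
      ∫ z, stp s z * ∫ y : Fin n → E3, ‖ψ σ (cns z y)‖ ^ 2 := by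
    intro σ
    rw [fub (hmul σ 0)]
    refine integral_congr_ae (Eventually.of_forall fun z => ?_)
    simp only [cns_zero]
    rw [integral_const_mul]
  -- antisymmetry
  have hanti : ∀ i, ∑ σ, ∫ x, stp s (x i) * ‖ψ σ x‖ ^ 2 =
      ∑ σ, ∫ x, stp s (x 0) * ‖ψ σ x‖ ^ 2 := by
    intro i
    set π : Equiv.Perm (Fin (n + 1)) := Equiv.swap 0 i with hπ
    have hsum : ∑ σ : Fin (n + 1) → Fin 2, ∫ x, stp s (x i) * ‖ψ σ x‖ ^ 2 =
        ∑ σ : Fin (n + 1) → Fin 2, ∫ x, stp s (x i) * ‖ψ (σ ∘ π) x‖ ^ 2 :=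
      (Equiv.sum_comp (Equiv.arrowCongr π.symm (Equiv.refl (Fin 2)))
        (fun σ : Fin (n + 1) → Fin 2 => ∫ x, stp s (x i) * ‖ψ σ x‖ ^ 2)).symm
    rw [hsum]
    refine Finset.sum_congr rfl fun σ _ => ?_
    rw [← integral_comp_perm π (fun x => stp s (x i) * ‖ψ (σ ∘ π) x‖ ^ 2)]
    refine integral_congr_ae ?_
    filter_upwards [ha π σ] with x hx
    have e1 : (x ∘ π) i = x 0 := by simp [hπ]
    rw [hx, norm_mul, e1]
    have e2 : ‖sg π‖ = 1 := by
      unfold sg
      rcases Int.units_eq_one_or (Equiv.Perm.sign π) with h1 | h1 <;> rw [h1] <;> simp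
    rw [e2, one_mul]
  have hden : den (stp s) ψ =
      ((n : ℝ) + 1) * ∑ σ, ∫ z, stp s z * ∫ y : Fin n → E3, ‖ψ σ (cns z y)‖ ^ 2 := by
    unfold den
    have e1 : ∀ σ, ∫ x, (∑ i, stp s (x i)) * ‖ψ σ x‖ ^ 2 =
        ∑ i, ∫ x, stp s (x i) * ‖ψ σ x‖ ^ 2 := by
      intro σ
      rw [← integral_finsetSum _ fun i _ => hmul σ i]
      refine integral_congr_ae (Eventually.of_forall fun x => ?_)
      simp only [Finset.sum_mul]
    rw [Finset.sum_congr rfl fun σ _ => e1 σ, Finset.sum_comm,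
      Finset.sum_congr rfl fun i _ => hanti i, Finset.sum_const, Finset.card_univ,
      Fintype.card_fin, nsmul_eq_mul, Finset.sum_congr rfl fun σ _ => hfub σ]
    push_cast
    rfl
  rw [hden]
  have hms : MeasurableSet {x : E3 | s < ‖x‖} := measurableSet_lt measurable_const measurable_norm
  unfold outside rho
  rw [integral_const_mul, integral_finsetSum _ fun σ _ => (hrho σ).integrableOn]
  refine mul_le_mul_of_nonneg_left (Finset.sum_le_sum fun σ _ => ?_) (by positivity)
  have hnn : ∀ z : E3, 0 ≤ ∫ y : Fin n → E3, ‖ψ σ (cns z y)‖ ^ 2 := fun z =>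
    integral_nonneg fun y => by positivity
  rw [← integral_indicator hms]
  refine integral_mono ((hrho σ).indicator hms) (hrho' σ) fun z => ?_
  by_cases hz : s < ‖z‖
  · rw [Set.indicator_of_mem (by exact hz)]
    simp only [stp, if_pos hz.le, one_mul, le_refl]
  · rw [Set.indicator_of_notMem (by exact hz)]
    refine mul_nonneg ?_ (hnn z)
    unfold stp
    split_ifs <;> norm_num

end Pool.Agent.H899_CR
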