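import Pool.Agent.H899_CR.Basic


set_option autoImplicit false

noncomputable section

namespace Pool.Agent.H899_CR

open MeasureTheory

/-- The bump function used in the Slater determinant. -/
def a3u : ContDiffBump (0 : E3) := ⟨1 / 4, 1 / 2, by norm_num, by norm_num⟩

/-- The points at which the determinant is the identity matrix. -/
def a3p {n : ℕ} (i : Fin n) : E3 := EuclideanSpace.single 0 ((i : ℕ) : ℝ)

/-- The matrix of the Slater determinant. -/
def a3m {n : ℕ} (x : Fin n → E3) : Matrix (Fin n) (Fin n) ℂ :=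
  Matrix.of fun i j => ((a3u (x j - a3p i) : ℝ) : ℂ)

/-- The Slater determinant. -/
def a3D {n : ℕ} (x : Fin n → E3) : ℂ := (a3m x).det

theorem a3p_norm {n : ℕ} (i : Fin n) : ‖a3p i‖ ≤ n := by
  unfold a3p
  rw [EuclideanSpace.norm_single, Real.norm_eq_abs, abs_of_nonneg (Nat.cast_nonneg _)]
  exact_mod_cast i.2.le

theorem a3p_dist {n : ℕ} {i j : Fin n} (hij : i ≠ j) : 1 ≤ ‖a3p j - a3p i‖ := by
  unfold a3p
  have h1 : EuclideanSpace.single (0 : Fin 3) ((j : ℕ) : ℝ) - EuclideanSpace.single 0 ((i : ℕ) : ℝ)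
      = EuclideanSpace.single (0 : Fin 3) (((j : ℕ) : ℝ) - ((i : ℕ) : ℝ)) := by
    ext k
    by_cases hk : k = 0
    · subst hk; simp
    · simp [hk]
  rw [h1, EuclideanSpace.norm_single, Real.norm_eq_abs]
  have h2 : ((j : ℕ) : ℤ) - ((i : ℕ) : ℤ) ≠ 0 := by
    intro h
    apply hij
    apply Fin.ext
    omega
  have h3 : (1 : ℤ) ≤ |((j : ℕ) : ℤ) - ((i : ℕ) : ℤ)| := Int.one_le_abs h2
  have h4 : ((1 : ℤ) : ℝ) ≤ ((|((j : ℕ) : ℤ) - ((i : ℕ) : ℤ)| : ℤ) : ℝ) := by exact_mod_cast h3
  push_cast at h4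
  exact h4

theorem a3u_zero {y : E3} (h : 1 / 2 ≤ ‖y‖) : a3u y = 0 := by
  apply a3u.zero_of_le_dist
  rw [dist_zero_right]
  exact h

theorem a3u_one : a3u (0 : E3) = 1 := by
  apply a3u.one_of_mem_closedBall
  simp [a3u]

theorem a3D_cc {n : ℕ} : CC (a3D (n := n)) := by
  constructor
  · unfold a3D
    have h : (fun x : Fin n → E3 => (a3m x).det) = fun x =>
        ∑ σ : Equiv.Perm (Fin n), ((Equiv.Perm.sign σ : ℤ) : ℂ) *
          ∏ i, ((a3u (x i - a3p (σ i)) : ℝ) : ℂ) := by
      funext x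
      rw [Matrix.det_apply']
      rfl
    rw [h]
    apply ContDiff.sum
    intro σ _
    apply contDiff_const.mul
    apply contDiff_prod
    intro i _
    apply Complex.ofRealCLM.contDiff.comp
    apply a3u.contDiff.comp
    exact (contDiff_apply ℝ E3 i).sub contDiff_const
  · apply HasCompactSupport.intro (isCompact_closedBall (0 : Fin n → E3) (n + 1))
    intro x hx
    rw [mem_closedBall_zero_iff, pi_norm_le_iff_of_nonneg (by positivity)] at hx
    push Not at hx
    obtain ⟨j, hj⟩ := hx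
    apply Matrix.det_eq_zero_of_column_eq_zero j
    intro i
    show ((a3u (x j - a3p i) : ℝ) : ℂ) = 0
    rw [a3u_zero, Complex.ofReal_zero]
    have h1 := norm_sub_norm_le (x j) (a3p i)
    have h2 := a3p_norm i
    linarith

theorem a3D_perm {n : ℕ} (π : Equiv.Perm (Fin n)) (x : Fin n → E3) :
    a3D (x ∘ π) = sg π * a3D x := by
  unfold a3D sg
  have h : a3m (x ∘ π) = (a3m x).submatrix id π := rfl
  rw [h, Matrix.det_permute']

theorem a3D_one {n : ℕ} : a3D (fun i : Fin n => a3p i) = 1 := by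
  unfold a3D
  have h : a3m (fun i : Fin n => a3p i) = 1 := by
    ext i j
    show ((a3u (a3p j - a3p i) : ℝ) : ℂ) = (1 : Matrix (Fin n) (Fin n) ℂ) i j
    by_cases hij : i = j
    · subst hij
      rw [sub_self, a3u_one, Matrix.one_apply_eq, Complex.ofReal_one]
    · rw [Matrix.one_apply_ne hij, a3u_zero, Complex.ofReal_zero]
      have := a3p_dist hij
      linarith
  rw [h, Matrix.det_one]

theorem exists_AS (n : ℕ) : ∃ φ : WF n, AS φ ∧ nsq φ = 1 := by
  classical
  set φ : WF n := fun σ x => if σ = 0 then a3D x else 0 with hφ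
  have hφ0 : φ 0 = a3D := by funext x; simp [hφ]
  have hφn : ∀ σ, σ ≠ 0 → φ σ = fun _ => 0 := by
    intro σ hσ; funext x; simp [hφ, hσ]
  have hcw : CW φ := by
    intro σ
    by_cases hσ : σ = 0
    · rw [hσ, hφ0]; exact a3D_cc
    · rw [hφn σ hσ]; exact CC.zero
  have hanti : ∀ π : Equiv.Perm (Fin n), pa π φ = fun σ x => sg π * φ σ x := by
    intro π
    funext σ x
    show φ (σ ∘ π) (x ∘ π) = sg π * φ σ x
    by_cases hσ : σ = 0
    · have h1 : σ ∘ π = 0 := by subst hσ; rfl
      rw [h1, hσ, hφ0, a3D_perm]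
    · have h1 : σ ∘ π ≠ 0 := by
        intro h
        apply hσ
        funext i
        have := congrFun h (π.symm i)
        simpa using this
      rw [hφn _ h1, hφn _ hσ, mul_zero]
  have hpos : 0 < nsq φ := by
    unfold nsq
    apply Finset.sum_pos'
    · intro σ _
      exact integral_nonneg fun x => by positivity
    · refine ⟨0, Finset.mem_univ _, ?_⟩
      rw [hφ0]
      have hc : Continuous fun x : Fin n → E3 => ‖a3D x‖ ^ 2 := a3D_cc.cont.norm.pow 2
      refine hc.integral_pos_of_hasCompactSupport_nonneg_nonzero ?_ ?_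
        (x := fun i : Fin n => a3p i) ?_
      · exact a3D_cc.comp.comp_left (g := fun z : ℂ => ‖z‖ ^ 2) (by simp)
      · intro x; positivity
      · simp [a3D_one]
  set c : ℝ := 1 / √(nsq φ) with hc
  refine ⟨fun σ x => (c : ℂ) * φ σ x, ⟨hcw.smul _, ?_⟩, ?_⟩
  · intro π
    funext σ x
    have h1 := congrFun (congrFun (hanti π) σ) x
    have h2 : φ (σ ∘ π) (x ∘ π) = sg π * φ σ x := h1
    show (c : ℂ) * φ (σ ∘ π) (x ∘ π) = sg π * ((c : ℂ) * φ σ x)
    rw [h2]; ring
  · have h1 : nsq (fun σ x => (c : ℂ) * φ σ x) = c ^ 2 * nsq φ := by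
      unfold nsq
      rw [Finset.mul_sum]
      refine Finset.sum_congr rfl fun σ _ => ?_
      rw [← integral_const_mul]
      congr 1
      funext x
      rw [norm_mul, mul_pow, Complex.norm_real, Real.norm_eq_abs, sq_abs]
    rw [h1, hc, div_pow, one_pow, Real.sq_sqrt hpos.le]
    field_simp

end Pool.Agent.H899_CR
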