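import Pool.Agent.H899_CR.Hardy
import Pool.Agent.H899_CR.Slater


set_option autoImplicit false

noncomputable section

namespace Pool.Agent.H899_CR

open MeasureTheory

variable {n : ℕ}

theorem pot_lower' (Z : ℝ) (n : ℕ) {v : E3 → ℝ} (hv : Bd v) (e : ℝ) :
    ∃ K : ℝ, 0 ≤ K ∧ ∀ φ : WF n, CW φ → - K * nsq φ ≤ FW (pot Z v e) φ φ := by
  obtain ⟨K, hK, h⟩ := pot_lower Z n hv e
  refine ⟨K, hK, fun φ hφ => ?_⟩
  have h2 := h φ hφ
  have h3 := h1_nonneg hφ
  have h4 := nsq_nonneg φ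
  nlinarith [mul_nonneg hK h4]

theorem Bd.zero : Bd 0 :=
  ⟨measurable_const, 0, fun y => by simp⟩

theorem Bd.add {v w : E3 → ℝ} (hv : Bd v) (hw : Bd w) : Bd (fun y => v y + w y) := by
  obtain ⟨B, hB⟩ := hv.bdd
  obtain ⟨C, hC⟩ := hw.bdd
  exact ⟨hv.meas.add hw.meas, B + C, fun y => (abs_add_le _ _).trans (add_le_add (hB y) (hC y))⟩

theorem Bd.const_mul {v : E3 → ℝ} (hv : Bd v) (t : ℝ) : Bd (fun y => t * v y) := by
  obtain ⟨B, hB⟩ := hv.bdd
  refine ⟨hv.meas.const_mul t, |t| * B, fun y => ?_⟩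
  rw [abs_mul]
  exact mul_le_mul_of_nonneg_left (hB y) (abs_nonneg t)

theorem Bd.stp (s : ℝ) : Bd (stp s) := by
  refine ⟨?_, 1, fun y => ?_⟩
  · exact Measurable.ite (measurableSet_le measurable_const measurable_norm) measurable_const
      measurable_const
  · unfold H899_CR.stp
    split_ifs <;> simp

theorem Bd.mn (t : ℝ) : Bd (mn t) := by
  refine ⟨measurable_norm.min measurable_const, |t|, fun y => ?_⟩
  unfold H899_CR.mn
  have h0 : 0 ≤ ‖y‖ := norm_nonneg y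
  rcases le_total ‖y‖ t with h | h
  · rw [min_eq_left h, abs_of_nonneg h0]
    exact h.trans (le_abs_self t)
  · rw [min_eq_right h]

theorem int_den {w : E3 → ℝ} (hw : Bd w) {φ : WF n} (hφ : CW φ) (σ : Fin n → Fin 2) :
    Integrable (fun x => (∑ i, w (x i)) * ‖φ σ x‖ ^ 2) := by
  obtain ⟨B, hB⟩ := hw.bdd
  have hm : Measurable (fun x : Fin n → E3 => ∑ i, w (x i)) :=
    Finset.measurable_sum _ fun i _ => hw.meas.comp (measurable_pi_apply i)
  have hb : ∀ x : Fin n → E3, |∑ i, w (x i)| ≤ ∑ _i : Fin n, B := fun x =>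
    (Finset.abs_sum_le_sum_abs _ _).trans (Finset.sum_le_sum fun i _ => hB (x i))
  exact (Adm.bdd hm hb).int (φ σ) (hφ σ).cont (hφ σ).comp

theorem den_add {v w : E3 → ℝ} (hv : Bd v) (hw : Bd w) {φ : WF n} (hφ : CW φ) :
    den (fun y => v y + w y) φ = den v φ + den w φ := by
  unfold den
  rw [← Finset.sum_add_distrib]
  refine Finset.sum_congr rfl fun σ _ => ?_
  rw [← integral_add (int_den hv hφ σ) (int_den hw hφ σ)]
  refine integral_congr_ae (ae_of_all _ fun x => ?_)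
  simp only [Finset.sum_add_distrib]
  ring

theorem den_const_mul {v : E3 → ℝ} (t : ℝ) (φ : WF n) :
    den (fun y => t * v y) φ = t * den v φ := by
  unfold den
  rw [Finset.mul_sum]
  refine Finset.sum_congr rfl fun σ _ => ?_
  rw [← integral_const_mul]
  refine integral_congr_ae (ae_of_all _ fun x => ?_)
  simp only [← Finset.mul_sum]
  ring

theorem den_mono {v w : E3 → ℝ} (hv : Bd v) (hw : Bd w) (h : ∀ y, v y ≤ w y) {φ : WF n}
    (hφ : CW φ) : den v φ ≤ den w φ := by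
  unfold den
  refine Finset.sum_le_sum fun σ _ => ?_
  refine integral_mono (int_den hv hφ σ) (int_den hw hφ σ) fun x => ?_
  exact mul_le_mul_of_nonneg_right (Finset.sum_le_sum fun i _ => h (x i)) (by positivity)

theorem den_nonneg {v : E3 → ℝ} (h : ∀ y, 0 ≤ v y) (φ : WF n) : 0 ≤ den v φ := by
  unfold den
  refine Finset.sum_nonneg fun σ _ => integral_nonneg fun x => ?_
  exact mul_nonneg (Finset.sum_nonneg fun i _ => h (x i)) (by positivity)

/-- for a constant -/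
theorem den_const (t : ℝ) (φ : WF n) : den (fun _ => t) φ = t * n * nsq φ := by
  unfold den nsq
  rw [Finset.mul_sum]
  refine Finset.sum_congr rfl fun σ _ => ?_
  rw [← integral_const_mul]
  refine integral_congr_ae (ae_of_all _ fun x => ?_)
  simp only [Finset.sum_const, Finset.card_univ, Fintype.card_fin, nsmul_eq_mul]
  ring

/-- scaling by a real number -/
theorem AS.smul {φ : WF n} (h : AS φ) (t : ℝ) : AS (fun σ x => (t : ℂ) * φ σ x) := by
  refine ⟨h.cw.smul _, fun π => ?_⟩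
  have h1 := h.anti π
  funext σ x
  have h2 := congrFun (congrFun h1 σ) x
  simp only [pa] at h2 ⊢
  rw [h2]
  ring

theorem nsq_smul (φ : WF n) (t : ℝ) : nsq (fun σ x => (t : ℂ) * φ σ x) = t ^ 2 * nsq φ := by
  unfold nsq
  rw [Finset.mul_sum]
  refine Finset.sum_congr rfl fun σ _ => ?_
  rw [← integral_const_mul]
  refine integral_congr_ae (ae_of_all _ fun x => ?_)
  simp only [norm_mul, mul_pow, Complex.norm_real, Real.norm_eq_abs, sq_abs]

theorem En_bdd (Z : ℝ) (n : ℕ) {v : E3 → ℝ} (hv : Bd v) :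
    BddBelow {r | ∃ φ : WF n, AS φ ∧ nsq φ = 1 ∧ FW (pot Z v 0) φ φ = r} := by
  obtain ⟨K, _, hK⟩ := pot_lower' Z n hv 0
  refine ⟨-K, ?_⟩
  rintro r ⟨φ, hφ, h1, rfl⟩
  have := hK φ hφ.cw
  rw [h1, mul_one] at this
  exact this

theorem En_nonempty (Z : ℝ) (n : ℕ) (v : E3 → ℝ) :
    {r | ∃ φ : WF n, AS φ ∧ nsq φ = 1 ∧ FW (pot Z v 0) φ φ = r}.Nonempty := by
  obtain ⟨φ, hφ, h1⟩ := exists_AS n
  exact ⟨_, φ, hφ, h1, rfl⟩

/-- `En Z n v` is a lower bound (scale `φ` to norm one; for `nsq φ = 0` use that `φ = 0`, or that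
the form of `φ` is then `0`, by continuity of `φ`). -/
theorem En_le (Z : ℝ) {v : E3 → ℝ} (hv : Bd v) {φ : WF n} (hφ : AS φ) :
    En Z n v * nsq φ ≤ FW (pot Z v 0) φ φ := by
  rcases eq_or_lt_of_le (nsq_nonneg φ) with h0 | h0
  · obtain ⟨K, _, hK⟩ := pot_lower' Z n hv 0
    have := hK φ hφ.cw
    rw [← h0, mul_zero] at this
    rw [← h0, mul_zero]
    exact this
  · have hs : 0 < √(nsq φ) := Real.sqrt_pos.2 h0
    have hs2 : √(nsq φ) ^ 2 = nsq φ := Real.sq_sqrt h0.le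
    have h1 : En Z n v ≤ (1 / √(nsq φ)) ^ 2 * FW (pot Z v 0) φ φ := by
      refine csInf_le (En_bdd Z n hv) ⟨_, hφ.smul (1 / √(nsq φ)), ?_, ?_⟩
      · rw [nsq_smul, div_pow, hs2, one_pow]
        field_simp
      · rw [FW_smul_left hφ.cw, FW_smul_right hφ.cw]
        ring
    rw [div_pow, hs2, one_pow] at h1
    have h2 := mul_le_mul_of_nonneg_right h1 h0.le
    refine h2.trans (le_of_eq ?_)
    field_simp

theorem En_ge (Z : ℝ) {v : E3 → ℝ} {m : ℝ}
    (h : ∀ φ : WF n, AS φ → nsq φ = 1 → m ≤ FW (pot Z v 0) φ φ) : m ≤ En Z n v := by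
  refine le_csInf (En_nonempty Z n v) ?_
  rintro r ⟨φ, hφ, h1, rfl⟩
  exact h φ hφ h1

theorem En_near (Z : ℝ) (n : ℕ) {v : E3 → ℝ} {ε : ℝ} (hε : 0 < ε) :
    ∃ φ : WF n, AS φ ∧ nsq φ = 1 ∧ FW (pot Z v 0) φ φ ≤ En Z n v + ε := by
  obtain ⟨r, ⟨φ, hφ, h1, rfl⟩, h2⟩ := exists_lt_of_csInf_lt (En_nonempty Z n v)
    (lt_add_of_pos_right (En Z n v) hε)
  exact ⟨φ, hφ, h1, h2.le⟩

theorem En_mono (Z : ℝ) {v w : E3 → ℝ} (hv : Bd v) (hw : Bd w) (h : ∀ y, v y ≤ w y) :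
    En Z n w ≤ En Z n v := by
  refine En_ge Z fun φ hφ h1 => ?_
  have h2 := En_le Z hw hφ
  rw [h1, mul_one, FW_pot Z hw 0 hφ.cw] at h2
  rw [FW_pot Z hv 0 hφ.cw]
  have h3 := den_mono hv hw h hφ.cw
  linarith

theorem En_conc (Z : ℝ) {v w : E3 → ℝ} (hv : Bd v) (hw : Bd w) {θ : ℝ} (h0 : 0 ≤ θ)
    (h1 : θ ≤ 1) : (1 - θ) * En Z n v + θ * En Z n w ≤
      En Z n (fun y => (1 - θ) * v y + θ * w y) := by
  have h1' : 0 ≤ 1 - θ := by linarith
  refine En_ge Z fun φ hφ hn => ?_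
  have h2 := En_le Z hv hφ
  have h3 := En_le Z hw hφ
  rw [hn, mul_one, FW_pot Z hv 0 hφ.cw] at h2
  rw [hn, mul_one, FW_pot Z hw 0 hφ.cw] at h3
  have hv' := hv.const_mul (1 - θ)
  have hw' := hw.const_mul θ
  rw [FW_pot Z (hv'.add hw') 0 hφ.cw, den_add hv' hw' hφ.cw, den_const_mul, den_const_mul]
  have h4 := mul_le_mul_of_nonneg_left h2 h1'
  have h5 := mul_le_mul_of_nonneg_left h3 h0
  linarith

/-- without electrons (the space `Fin 0 → E3` is a point of mass one) -/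
theorem En_zero (Z : ℝ) {v : E3 → ℝ} : En Z 0 v = 0 := by
  have h : ∀ φ : WF 0, FW (pot Z v 0) φ φ = 0 := by
    intro φ
    unfold FW
    refine Finset.sum_eq_zero fun σ _ => ?_
    unfold FF
    have : ∀ x : Fin 0 → E3, ed (pot Z v 0) (φ σ) (φ σ) x = 0 := by
      intro x
      unfold ed pot VC
      simp
    simp only [this, integral_zero]
  have h2 : {r | ∃ φ : WF 0, AS φ ∧ nsq φ = 1 ∧ FW (pot Z v 0) φ φ = r} = {0} := by
    ext r
    simp only [h, Set.mem_singleton_iff]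
    constructor
    · rintro ⟨φ, _, _, h3⟩
      exact h3.symm
    · rintro rfl
      obtain ⟨φ, hφ, h1⟩ := exists_AS 0
      exact ⟨φ, hφ, h1, rfl⟩
  unfold En
  rw [h2]
  exact csInf_singleton 0

theorem FW_pot_e (Z : ℝ) (e : ℝ) {φ : WF n} (hφ : CW φ) :
    FW (pot Z 0 e) φ φ = FW (pot Z 0 0) φ φ - e * nsq φ := by
  rw [FW_pot Z Bd.zero e hφ, FW_pot Z Bd.zero 0 hφ]
  ring

end Pool.Agent.H899_CR
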