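import Pool.Agent.H899_CR.Defs2

/-!
# Ground states, the one-particle density and the chemical radius
-/

set_option autoImplicit false

noncomputable section

namespace Pool.Agent.H899_CR

open MeasureTheory

/-- A normalized antisymmetric `H¹` wave function `ψ` with weak derivatives `g`. -/
structure IsSt {n : ℕ} (ψ : WF n) (g : (Fin n → Fin 2) → Fin n → Fin 3 → (Fin n → E3) → ℂ) :
    Prop where
  h1 : H1W ψ g
  anti : AE ψ
  norm : nsq ψ = 1

/-- `ψ` (with weak derivatives `g`) is a ground state of `H_{n,Z}`. -/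
structure IsGS {n : ℕ} (Z : ℝ) (ψ : WF n)
    (g : (Fin n → Fin 2) → Fin n → Fin 3 → (Fin n → E3) → ℂ) : Prop where
  st : IsSt ψ g
  min : ∀ (χ : WF n) (h : (Fin n → Fin 2) → Fin n → Fin 3 → (Fin n → E3) → ℂ), IsSt χ h →
    EH Z ψ g ≤ EH Z χ h

/-- The one-particle density of a wave function of `n + 1` electrons. -/
def rho {n : ℕ} (ψ : WF (n + 1)) (x : E3) : ℝ :=
  ((n : ℝ) + 1) * ∑ σ, ∫ y : Fin n → E3, ‖ψ σ (cns x y)‖ ^ 2

/-- The number of electrons outside of the ball of radius `R`. -/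
def outside {n : ℕ} (ψ : WF (n + 1)) (R : ℝ) : ℝ := ∫ x in {x : E3 | R < ‖x‖}, rho ψ x

/-- The chemical radius. -/
def chemRad {n : ℕ} (ψ : WF (n + 1)) : ℝ := sInf {R : ℝ | 0 ≤ R ∧ outside ψ R ≤ 1}

end Pool.Agent.H899_CR
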