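import Pool.Agent.H899_CR.H1Ap
import Pool.Agent.H899_CR.Perm
import Pool.Agent.H899_CR.Hardy
import Pool.Agent.H899_CR.Energy


set_option autoImplicit false

noncomputable section

namespace Pool.Agent.H899_CR

open MeasureTheory Filter Topology

variable {n : ℕ}

/-! ### Auxiliary lemmas -/

/-- the sign as a real number -/
def E2_sr (π : Equiv.Perm (Fin n)) : ℝ := ((Equiv.Perm.sign π : ℤ) : ℝ)

theorem E2_sg (π : Equiv.Perm (Fin n)) : sg π = ((E2_sr π : ℝ) : ℂ) := by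
  unfold sg E2_sr; push_cast; rfl

/-- antisymmetrizer -/
def E2_P (φ : WF n) : WF n := fun σ x =>
  ((((Fintype.card (Equiv.Perm (Fin n)) : ℝ)⁻¹ : ℝ) : ℂ)) *
    ∑ π : Equiv.Perm (Fin n), sg π * pa π φ σ x

theorem E2_CW_P {φ : WF n} (h : CW φ) : CW (E2_P φ) := by
  intro σ
  unfold E2_P
  exact (CC.sum Finset.univ fun π _ => (CW_pa h π σ).const_mul (sg π)).const_mul _

theorem E2_AS_P {φ : WF n} (h : CW φ) : AS (E2_P φ) := by
  refine ⟨E2_CW_P h, fun ρ => ?_⟩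
  funext σ x
  have h1 : pa ρ (E2_P φ) σ x = ((((Fintype.card (Equiv.Perm (Fin n)) : ℝ)⁻¹ : ℝ) : ℂ)) *
      ∑ π : Equiv.Perm (Fin n), sg π * pa (ρ * π) φ σ x := by
    show E2_P φ (σ ∘ ρ) (x ∘ ρ) = _
    unfold E2_P
    congr 1
  rw [h1]
  unfold E2_P
  rw [mul_left_comm]
  congr 1
  rw [Finset.mul_sum]
  rw [← Equiv.sum_comp (Equiv.mulLeft ρ) (fun π => sg ρ * (sg π * pa π φ σ x))]
  refine Finset.sum_congr rfl fun π _ => ?_
  simp only [Equiv.coe_mulLeft]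
  rw [sg_mul, ← mul_assoc, ← mul_assoc, sg_sq, one_mul]

theorem E2_FW_smul_sg {U : (Fin n → E3) → ℝ} (hs : Sym U) {χ φ : WF n} (hχ : AS χ) (hφ : CW φ)
    (π : Equiv.Perm (Fin n)) :
    FW U χ (fun σ x => sg π * pa π φ σ x) = FW U χ φ := by
  rw [E2_sg]
  rw [FW_smul_right (CW_pa hφ π), ← FW_smul_left hχ.cw]
  have h1 := hχ.anti π
  rw [E2_sg] at h1
  rw [← h1]
  exact FW_pa hs π hχ.cw hφ

theorem E2_card_ne : (Fintype.card (Equiv.Perm (Fin n)) : ℝ) ≠ 0 := by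
  have : 0 < Fintype.card (Equiv.Perm (Fin n)) := Fintype.card_pos
  positivity

theorem E2_FW_P {U : (Fin n → E3) → ℝ} (hU : Adm U) (hs : Sym U) {φ : WF n} (hφ : CW φ) :
    FW U (E2_P φ) (E2_P φ) = FW U (E2_P φ) φ := by
  have hA := E2_AS_P hφ
  have h1 : FW U (E2_P φ) (E2_P φ) = (Fintype.card (Equiv.Perm (Fin n)) : ℝ)⁻¹ *
      FW U (E2_P φ) (fun σ x => ∑ π : Equiv.Perm (Fin n), sg π * pa π φ σ x) := by
    have hcw : CW (fun σ x => ∑ π : Equiv.Perm (Fin n), sg π * pa π φ σ x) := fun σ =>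
      CC.sum Finset.univ fun π _ => (CW_pa hφ π σ).const_mul (sg π)
    rw [← FW_smul_right hcw]
    rfl
  rw [h1, FW_sum_right hU Finset.univ (φ := fun π => fun σ x => sg π * pa π φ σ x)
    (fun π _ => (CW_pa hφ π).smul (sg π)) hA.cw]
  rw [Finset.sum_congr rfl fun π _ => E2_FW_smul_sg hs hA hφ π]
  rw [Finset.sum_const, Finset.card_univ, nsmul_eq_mul, ← mul_assoc,
    inv_mul_cancel₀ E2_card_ne, one_mul]

/-- the complementary part -/
def E2_Q (φ : WF n) : WF n := fun σ x => φ σ x - E2_P φ σ x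

theorem E2_CW_Q {φ : WF n} (h : CW φ) : CW (E2_Q φ) := fun σ => (h σ).sub (E2_CW_P h σ)

theorem E2_decomp {U : (Fin n → E3) → ℝ} (hU : Adm U) (hs : Sym U) {φ : WF n} (hφ : CW φ) :
    FW U φ φ = FW U (E2_P φ) (E2_P φ) + FW U (E2_Q φ) (E2_Q φ) := by
  have hP := E2_CW_P hφ
  have hQ := E2_CW_Q hφ
  have h1 := FW_expand hU hP hQ 1
  have e : (fun σ x => E2_P φ σ x + ((1 : ℝ) : ℂ) * E2_Q φ σ x) = φ := by
    funext σ x
    unfold E2_Q
    push_cast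
    ring
  rw [e] at h1
  have h2 := FW_add_right hU hP hQ hP
  have e2 : (fun σ x => E2_P φ σ x + E2_Q φ σ x) = φ := by
    funext σ x
    unfold E2_Q
    ring
  rw [e2, E2_FW_P hU hs hφ] at h2
  rw [h1]
  linarith

theorem E2_FF_self {U : (Fin n → E3) → ℝ} (hU : Adm U) {α : (Fin n → E3) → ℂ} (ha : CC α) :
    FF U α α = 1 / 2 * (∑ i, ∑ c, ∫ x, ‖pd i c α x‖ ^ 2) + ∫ x, U x * ‖α x‖ ^ 2 := by
  unfold FF ed
  rw [integral_add (int_kin ha ha) (hU.int_rp ha ha), integral_const_mul,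
    integral_finsetSum _ (fun i _ => integrable_finsetSum _ fun c _ => int_pd ha ha i c)]
  congr 2
  · refine Finset.sum_congr rfl fun i _ => ?_
    rw [integral_finsetSum _ (fun c _ => int_pd ha ha i c)]
    refine Finset.sum_congr rfl fun c _ => ?_
    simp only [rp_self]
  · simp only [rp_self]

theorem E2_nsq_eq {φ : WF n} (hφ : CW φ) :
    nsq φ = FW (fun _ => 1) φ φ - FW (fun _ => 0) φ φ := by
  unfold nsq FW
  rw [← Finset.sum_sub_distrib]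
  refine Finset.sum_congr rfl fun σ _ => ?_
  rw [E2_FF_self (Adm.const 1) (hφ σ), E2_FF_self (Adm.const 0) (hφ σ)]
  simp only [one_mul, zero_mul, integral_zero]
  ring

theorem E2_nsq_decomp {φ : WF n} (hφ : CW φ) : nsq φ = nsq (E2_P φ) + nsq (E2_Q φ) := by
  have hs : ∀ t : ℝ, Sym (fun _ : Fin n → E3 => t) := fun t π x => rfl
  rw [E2_nsq_eq hφ, E2_nsq_eq (E2_CW_P hφ), E2_nsq_eq (E2_CW_Q hφ),
    E2_decomp (Adm.const 1) (hs 1) hφ, E2_decomp (Adm.const 0) (hs 0) hφ]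
  ring

theorem E2_mp (π : Equiv.Perm (Fin n)) :
    MeasurePreserving (fun x : Fin n → E3 => x ∘ π) volume volume :=
  (volume_measurePreserving_piCongrLeft (fun _ : Fin n => E3) π).symm

theorem E2_P_ae {ψ : WF n} (ha : AE ψ) (σ : Fin n → Fin 2) : ∀ᵐ x, E2_P ψ σ x = ψ σ x := by
  have h1 : ∀ᵐ x, ∀ π : Equiv.Perm (Fin n), ψ (σ ∘ π) (x ∘ π) = sg π * ψ σ x := by
    rw [ae_all_iff]
    exact fun π => ha π σ
  filter_upwards [h1] with x hx
  unfold E2_P pa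
  have h2 : ∑ π : Equiv.Perm (Fin n), sg π * ψ (σ ∘ π) (x ∘ π) =
      (Fintype.card (Equiv.Perm (Fin n)) : ℂ) * ψ σ x := by
    rw [Finset.sum_congr rfl fun π _ => by rw [hx π, ← mul_assoc, sg_sq, one_mul]]
    rw [Finset.sum_const, Finset.card_univ, nsmul_eq_mul]
  rw [h2, ← mul_assoc]
  have h3 : (((Fintype.card (Equiv.Perm (Fin n)) : ℝ)⁻¹ : ℝ) : ℂ) *
      (Fintype.card (Equiv.Perm (Fin n)) : ℂ) = 1 := by
    have := E2_card_ne (n := n)
    have h4 : ((((Fintype.card (Equiv.Perm (Fin n)) : ℝ)⁻¹ *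
      (Fintype.card (Equiv.Perm (Fin n)) : ℝ) : ℝ)) : ℂ) = 1 := by
      rw [inv_mul_cancel₀ this]; norm_num
    push_cast at h4
    push_cast
    exact h4
  rw [h3, one_mul]

theorem E2_sg_norm (π : Equiv.Perm (Fin n)) : ‖sg π‖ = 1 := by
  have h := congrArg norm (sg_sq π)
  rw [norm_mul, norm_one] at h
  have h0 := norm_nonneg (sg π)
  nlinarith

/-- pointwise bound for the complementary part -/
theorem E2_Q_bound (w : WF n) (σ : Fin n → Fin 2) (x : Fin n → E3) :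
    ‖E2_Q w σ x‖ ^ 2 ≤ ∑ π : Equiv.Perm (Fin n), (2 * ‖w σ x‖ ^ 2 + 2 * ‖pa π w σ x‖ ^ 2) := by
  set N : ℝ := (Fintype.card (Equiv.Perm (Fin n)) : ℝ) with hN
  have hN1 : (1 : ℝ) ≤ N := by
    rw [hN]
    exact_mod_cast Nat.succ_le_of_lt (Fintype.card_pos (α := Equiv.Perm (Fin n)))
  have hN0 : 0 < N := by linarith
  have e1 : E2_Q w σ x = (((N⁻¹ : ℝ) : ℂ)) *
      ∑ π : Equiv.Perm (Fin n), (w σ x - sg π * pa π w σ x) := by
    unfold E2_Q E2_P
    rw [Finset.sum_sub_distrib, Finset.sum_const, Finset.card_univ, nsmul_eq_mul, mul_sub,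
      ← mul_assoc]
    have h4 : (((N⁻¹ : ℝ) : ℂ)) * (Fintype.card (Equiv.Perm (Fin n)) : ℂ) = 1 := by
      have h5 : (((N⁻¹ * N : ℝ)) : ℂ) = 1 := by
        rw [inv_mul_cancel₀ hN0.ne']; norm_num
      rw [hN] at h5 ⊢
      push_cast at h5 ⊢
      exact h5
    rw [h4, one_mul]
  have e2 : ‖E2_Q w σ x‖ ≤ N⁻¹ * ∑ π : Equiv.Perm (Fin n), (‖w σ x‖ + ‖pa π w σ x‖) := by
    rw [e1, norm_mul, Complex.norm_real, Real.norm_of_nonneg (by positivity)]
    apply mul_le_mul_of_nonneg_left _ (by positivity)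
    refine (norm_sum_le _ _).trans (Finset.sum_le_sum fun π _ => ?_)
    refine (norm_sub_le _ _).trans ?_
    rw [norm_mul, E2_sg_norm, one_mul]
  have e3 : ‖E2_Q w σ x‖ ^ 2 ≤
      (N⁻¹ * ∑ π : Equiv.Perm (Fin n), (‖w σ x‖ + ‖pa π w σ x‖)) ^ 2 :=
    pow_le_pow_left₀ (norm_nonneg _) e2 2
  refine e3.trans ?_
  rw [mul_pow]
  have e4 : (∑ π : Equiv.Perm (Fin n), (‖w σ x‖ + ‖pa π w σ x‖)) ^ 2 ≤
      N * ∑ π : Equiv.Perm (Fin n), (‖w σ x‖ + ‖pa π w σ x‖) ^ 2 := by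
    have := sq_sum_le_card_mul_sum_sq (s := (Finset.univ : Finset (Equiv.Perm (Fin n))))
      (f := fun π => ‖w σ x‖ + ‖pa π w σ x‖)
    rw [Finset.card_univ] at this
    exact this
  calc (N⁻¹) ^ 2 * (∑ π : Equiv.Perm (Fin n), (‖w σ x‖ + ‖pa π w σ x‖)) ^ 2 ≤
        (N⁻¹) ^ 2 * (N * ∑ π : Equiv.Perm (Fin n), (‖w σ x‖ + ‖pa π w σ x‖) ^ 2) :=
          mul_le_mul_of_nonneg_left e4 (by positivity)
    _ = N⁻¹ * ∑ π : Equiv.Perm (Fin n), (‖w σ x‖ + ‖pa π w σ x‖) ^ 2 := by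
          field_simp
    _ ≤ 1 * ∑ π : Equiv.Perm (Fin n), (‖w σ x‖ + ‖pa π w σ x‖) ^ 2 := by
          apply mul_le_mul_of_nonneg_right (inv_le_one_of_one_le₀ hN1)
          exact Finset.sum_nonneg fun π _ => by positivity
    _ ≤ _ := by
          rw [one_mul]
          refine Finset.sum_le_sum fun π _ => ?_
          nlinarith [sq_nonneg (‖w σ x‖ - ‖pa π w σ x‖)]

theorem E2_CC_memLp {α : (Fin n → E3) → ℂ} (h : CC α) : MemLp α 2 :=
  h.cont.memLp_of_hasCompactSupport h.comp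

theorem E2_int_sq {α : (Fin n → E3) → ℂ} (h : MemLp α 2) : Integrable (fun x => ‖α x‖ ^ 2) :=
  h.integrable_norm_pow (by norm_num)

/-- bound for the norm of the complementary part of an approximation of an antisymmetric
function -/
theorem E2_nsq_Q {ψ φ : WF n} (hψ : ∀ σ, MemLp (ψ σ) 2) (ha : AE ψ) (hφ : CW φ) :
    nsq (E2_Q φ) ≤ (Fintype.card (Equiv.Perm (Fin n)) : ℝ) * (4 * nsq (fun σ x => ψ σ x - φ σ x)) := by
  set w : WF n := fun σ x => ψ σ x - φ σ x with hw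
  have hwL : ∀ σ, MemLp (w σ) 2 := fun σ => (hψ σ).sub (E2_CC_memLp (hφ σ))
  have hwP : ∀ (π : Equiv.Perm (Fin n)) σ, MemLp (pa π w σ) 2 := fun π σ =>
    (hwL (σ ∘ π)).comp_measurePreserving (E2_mp π)
  have e1 : ∀ σ, ∀ᵐ x, ‖E2_Q φ σ x‖ ^ 2 = ‖E2_Q w σ x‖ ^ 2 := by
    intro σ
    filter_upwards [E2_P_ae ha σ] with x hx
    have h1 : E2_Q w σ x = - E2_Q φ σ x := by
      have h2 : E2_P w σ x = E2_P ψ σ x - E2_P φ σ x := by
        unfold E2_P pa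
        rw [← mul_sub, ← Finset.sum_sub_distrib]
        congr 1
        refine Finset.sum_congr rfl fun π _ => ?_
        rw [hw]
        ring
      unfold E2_Q
      rw [h2, hx, hw]
      ring
    rw [h1, norm_neg]
  have e2 : nsq (E2_Q φ) ≤ ∑ σ : Fin n → Fin 2, ∑ π : Equiv.Perm (Fin n),
      (2 * (∫ x, ‖w σ x‖ ^ 2) + 2 * ∫ x, ‖pa π w σ x‖ ^ 2) := by
    unfold nsq
    refine Finset.sum_le_sum fun σ _ => ?_
    rw [integral_congr_ae (e1 σ)]
    have hi : ∀ π : Equiv.Perm (Fin n), Integrable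
        (fun x => 2 * ‖w σ x‖ ^ 2 + 2 * ‖pa π w σ x‖ ^ 2) := fun π =>
      ((E2_int_sq (hwL σ)).const_mul 2).add ((E2_int_sq (hwP π σ)).const_mul 2)
    have h1 : ∫ x, ‖E2_Q w σ x‖ ^ 2 ≤ ∫ x, ∑ π : Equiv.Perm (Fin n),
        (2 * ‖w σ x‖ ^ 2 + 2 * ‖pa π w σ x‖ ^ 2) :=
      integral_mono_of_nonneg (ae_of_all _ fun x => by positivity)
        (integrable_finsetSum _ fun π _ => hi π) (ae_of_all _ fun x => E2_Q_bound w σ x)
    refine h1.trans (le_of_eq ?_)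
    rw [integral_finsetSum _ (fun π _ => hi π)]
    refine Finset.sum_congr rfl fun π _ => ?_
    rw [integral_add ((E2_int_sq (hwL σ)).const_mul 2) ((E2_int_sq (hwP π σ)).const_mul 2),
      integral_const_mul, integral_const_mul]
  refine e2.trans (le_of_eq ?_)
  rw [Finset.sum_comm]
  have e3 : ∀ π : Equiv.Perm (Fin n), ∑ σ : Fin n → Fin 2,
      (2 * (∫ x, ‖w σ x‖ ^ 2) + 2 * ∫ x, ‖pa π w σ x‖ ^ 2) = 4 * nsq w := by
    intro π
    rw [Finset.sum_add_distrib, ← Finset.mul_sum, ← Finset.mul_sum]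
    have h1 : ∑ σ : Fin n → Fin 2, (∫ x, ‖w σ x‖ ^ 2) = nsq w := rfl
    have h2 : ∑ σ : Fin n → Fin 2, (∫ x, ‖pa π w σ x‖ ^ 2) = nsq (pa π w) := rfl
    rw [h1, h2, nsq_pa]
    ring
  rw [Finset.sum_congr rfl fun π _ => e3 π, Finset.sum_const, Finset.card_univ, nsmul_eq_mul]

/-
TARGET. Let U = pot Z v 0. For every σ take approximants v σ k of ψ σ (h1_approx), φ_k σ = v σ k, so CW φ_k. Let
 P φ = (1/n!) ∑_π sg π pa π φ (antisymmetrizer: AS (P φ) for CW φ, P² = P, FW U (P φ) χ = FW U φ (P χ), the same for ip).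
Then FW U φ_k φ_k = FW U (P φ_k) (P φ_k) + FW U (φ_k - P φ_k) (φ_k - P φ_k)
      ≥ m nsq (P φ_k) - K nsq (φ_k - P φ_k)       (hm, pot_lower and h1_nonneg: no antisymmetry needed)
      = m nsq φ_k - (m + K) nsq (φ_k - P φ_k).
nsq (φ_k - P φ_k) → 0: as P ψ = ψ a.e., φ_k - P φ_k = (φ_k - ψ) - P (φ_k - ψ) a.e. and nsq (w - P w) ≤ 4 nsq w.
FW U φ_k φ_k = ∑_σ (kinetic + ∫ VC ‖v σ k‖²) - den v φ_k → EH Z ψ g - den v ψ, nsq φ_k → nsq ψ. Pass to the limit.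
-/
theorem h1w_lower (Z : ℝ) {v : E3 → ℝ} (hv : Bd v) {ψ : WF n}
    {g : (Fin n → Fin 2) → Fin n → Fin 3 → (Fin n → E3) → ℂ} (h : H1W ψ g) (ha : AE ψ) {m : ℝ}
    (hm : ∀ φ : WF n, AS φ → m * nsq φ ≤ FW (pot Z v 0) φ φ) :
    m * nsq ψ + den v ψ ≤ EH Z ψ g := by
  choose hint u hCC hd hE hw using fun σ => h1_approx (h σ) Z
  have hCW : ∀ k, CW (fun σ => u σ k) := fun k σ => hCC σ k
  have hU : Adm (pot (n := n) Z v 0) := adm_pot Z hv 0
  have hS : Sym (pot (n := n) Z v 0) := sym_pot Z v 0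
  obtain ⟨K, hK0, hK⟩ := pot_lower Z n hv 0
  obtain ⟨B, hB⟩ := hv.bdd
  -- the lower bound for the approximants
  have low : ∀ k, m * nsq (fun σ => u σ k) - (m + K / 2) * nsq (E2_Q (fun σ => u σ k)) ≤
      FW (pot Z v 0) (fun σ => u σ k) (fun σ => u σ k) := by
    intro k
    have h1 := E2_decomp hU hS (hCW k)
    have h2 := E2_nsq_decomp (hCW k)
    have h3 := hm _ (E2_AS_P (hCW k))
    have h4 := hK _ (E2_CW_Q (hCW k))
    have h5 := h1_nonneg (E2_CW_Q (hCW k))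
    rw [h1, h2]
    linarith
  -- limits
  have hmeas : Measurable (fun x : Fin n → E3 => ∑ i, v (x i)) :=
    Finset.measurable_sum _ fun i _ => hv.meas.comp (measurable_pi_apply i)
  have hbd : ∀ x : Fin n → E3, |∑ i, v (x i)| ≤ ∑ _i : Fin n, B := fun x =>
    (Finset.abs_sum_le_sum_abs _ _).trans (Finset.sum_le_sum fun i _ => hB _)
  have lim_den : Tendsto (fun k => den v (fun σ => u σ k)) atTop (𝓝 (den v ψ)) :=
    tendsto_finsetSum _ fun σ _ => hw σ _ hmeas ⟨_, hbd⟩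
  have lim_nsq : Tendsto (fun k => nsq (fun σ => u σ k)) atTop (𝓝 (nsq ψ)) := by
    refine tendsto_finsetSum _ fun σ _ => ?_
    have := hw σ (fun _ => 1) measurable_const ⟨1, fun x => by norm_num⟩
    simpa only [one_mul] using this
  have lim_VC : Tendsto (fun k => FW (VC Z) (fun σ => u σ k) (fun σ => u σ k)) atTop
      (𝓝 (EH Z ψ g)) := by
    refine tendsto_finsetSum _ fun σ _ => ?_
    refine (hE σ).congr fun k => ?_
    rw [E2_FF_self (adm_VC Z) (hCC σ k)]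
  have lim_FW : Tendsto (fun k => FW (pot Z v 0) (fun σ => u σ k) (fun σ => u σ k)) atTop
      (𝓝 (EH Z ψ g - den v ψ)) := by
    refine (lim_VC.sub lim_den).congr fun k => ?_
    rw [FW_pot Z hv 0 (hCW k)]
    ring
  have lim_w : Tendsto (fun k => nsq (fun σ x => ψ σ x - u σ k x)) atTop (𝓝 0) := by
    have h1 : Tendsto (fun k => nsq (fun σ x => ψ σ x - u σ k x)) atTop
        (𝓝 (∑ _σ : Fin n → Fin 2, (0 : ℝ))) := tendsto_finsetSum _ fun σ _ => hd σ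
    simpa using h1
  have lim_Q : Tendsto (fun k => nsq (E2_Q (fun σ => u σ k))) atTop (𝓝 0) := by
    have h1 : Tendsto (fun k => (Fintype.card (Equiv.Perm (Fin n)) : ℝ) *
        (4 * nsq (fun σ x => ψ σ x - u σ k x))) atTop (𝓝 0) := by
      have := (lim_w.const_mul 4).const_mul (Fintype.card (Equiv.Perm (Fin n)) : ℝ)
      simpa using this
    refine squeeze_zero (fun k => nsq_nonneg _) (fun k => ?_) h1
    exact E2_nsq_Q (fun σ => (h σ).memLp) ha (hCW k)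
  have lim_L := (lim_nsq.const_mul m).sub (lim_Q.const_mul (m + K / 2))
  have := le_of_tendsto_of_tendsto' lim_L lim_FW low
  rw [mul_zero, sub_zero] at this
  linarith

end Pool.Agent.H899_CR
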