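import Pool.Agent.H899_CR.Slice


set_option autoImplicit false

noncomputable section

namespace Pool.Agent.H899_CR

open MeasureTheory

variable {n : ℕ}

/-! Auxiliary results. -/

theorem c4_int_cns {F : (Fin (n + 1) → E3) → ℝ} (hF : AEStronglyMeasurable F volume) :
    ∫ x, F x = ∫ p : E3 × (Fin n → E3), F (cns p.1 p.2) ∂(volume.prod volume) := by
  have h := mp_cns (n := n)
  rw [← h.map_eq] at hF ⊢
  rw [integral_map h.aemeasurable hF]

theorem c4_sum_ins (G : (Fin (n + 1) → Fin 2) → ℝ) (H : (Fin n → Fin 2) → ℝ)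
    (h0 : ∀ σ, G (cns 0 σ) = H σ) (h1 : ∀ σ, G (cns 1 σ) = 0) : ∑ σ, G σ = ∑ σ, H σ := by
  rw [sum_spin, Fin.sum_univ_two]
  simp only [h0, h1, Finset.sum_const_zero, add_zero]

theorem c4_ins0 (u : E3 → ℝ) (χ : WF n) (σ : Fin n → Fin 2) :
    ins u χ (cns 0 σ) = fun x : Fin (n + 1) → E3 => (u (x 0) : ℂ) * χ σ (tl x) := by
  funext x
  simp [ins]

theorem c4_ins1 (u : E3 → ℝ) (χ : WF n) (σ : Fin n → Fin 2) :
    ins u χ (cns 1 σ) = fun _ : Fin (n + 1) → E3 => 0 := by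
  funext x
  simp [ins]

theorem c4_gs_cont {u : E3 → ℝ} (hu : ContDiff ℝ 1 u) : Continuous (gs u) := by
  unfold gs
  refine continuous_finsetSum _ fun c _ => ?_
  exact ((hu.continuous_fderiv (by simp)).clm_apply continuous_const).pow 2

theorem c4_gs_int {u : E3 → ℝ} (hu : ContDiff ℝ 1 u) (hc : HasCompactSupport u) :
    Integrable (gs u) := by
  refine (c4_gs_cont hu).integrable_of_hasCompactSupport ?_
  refine (hc.fderiv (𝕜 := ℝ)).mono ?_
  intro x hx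
  rw [Function.mem_support] at hx ⊢
  intro h
  apply hx
  simp [gs, h]

theorem c4_sq_int {u : E3 → ℝ} (hu : Continuous u) (hc : HasCompactSupport u) :
    Integrable (fun y => u y ^ 2) := by
  refine (hu.pow 2).integrable_of_hasCompactSupport ?_
  refine hc.mono ?_
  intro x hx
  rw [Function.mem_support] at hx ⊢
  intro h
  apply hx
  simp [h]

theorem c4_rp_real (a : ℝ) (z w : ℂ) : rp ((a : ℂ) * z) ((a : ℂ) * w) = a ^ 2 * rp z w := by
  rw [rp_smul_left, rp_smul_right]; ring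

theorem c4_ed (W : (Fin n → E3) → ℝ) {α : (Fin n → E3) → ℂ} (h : CC α) {u : E3 → ℝ}
    (hu : ContDiff ℝ 1 u) (y : E3) (x : Fin n → E3) :
    ed (fun x : Fin (n + 1) → E3 => W (tl x)) (fun x => (u (x 0) : ℂ) * α (tl x))
      (fun x => (u (x 0) : ℂ) * α (tl x)) (cns y x) =
      1 / 2 * gs u y * ‖α x‖ ^ 2 + u y ^ 2 * ed W α α x := by
  unfold ed
  rw [Fin.sum_univ_succ]
  simp only [pd_ins_zero h hu, pd_ins_succ h hu, c4_rp_real, cns_zero, tl_cns]
  rw [← Finset.sum_mul]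
  simp only [← Finset.mul_sum]
  rw [rp_self (α x)]
  unfold gs
  ring

theorem c4_FF {W : (Fin n → E3) → ℝ} (hW : Adm W)
    (hW' : Adm (fun x : Fin (n + 1) → E3 => W (tl x))) {α : (Fin n → E3) → ℂ} (h : CC α)
    {u : E3 → ℝ} (hu : ContDiff ℝ 1 u) (hc : HasCompactSupport u) :
    FF (fun x : Fin (n + 1) → E3 => W (tl x)) (fun x => (u (x 0) : ℂ) * α (tl x))
      (fun x => (u (x 0) : ℂ) * α (tl x)) =
      1 / 2 * (∫ y, gs u y) * (∫ x, ‖α x‖ ^ 2) + (∫ y, u y ^ 2) * FF W α α := by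
  have hi := int_ed hW' (h.ins hu hc) (h.ins hu hc)
  unfold FF
  rw [c4_int_cns hi.aestronglyMeasurable]
  simp only [c4_ed W h hu]
  have h1 : Integrable (fun p : E3 × (Fin n → E3) => (1 / 2 * gs u p.1) * ‖α p.2‖ ^ 2)
      (volume.prod volume) :=
    ((c4_gs_int hu hc).const_mul (1 / 2)).mul_prod (int_sq h.cont h.comp)
  have h2 : Integrable (fun p : E3 × (Fin n → E3) => u p.1 ^ 2 * ed W α α p.2)
      (volume.prod volume) :=
    (c4_sq_int hu.continuous hc).mul_prod (int_ed hW h h)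
  rw [integral_add h1 h2,
    integral_prod_mul (fun y : E3 => 1 / 2 * gs u y) (fun x : Fin n → E3 => ‖α x‖ ^ 2),
    integral_prod_mul (fun y : E3 => u y ^ 2) (fun x : Fin n → E3 => ed W α α x),
    integral_const_mul]

/-! Targets. -/

/-- `PP Z (x 0) (tl x)` is a sum of `adm_en0` and `adm_ee` potentials -/
theorem adm_PP (Z : ℝ) : Adm (fun x : Fin (n + 1) → E3 => PP Z (x 0) (tl x)) := by
  have h1 : Adm (fun x : Fin (n + 1) → E3 => ∑ j : Fin n, 1 / ‖x 0 - x j.succ‖) :=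
    Adm.sum _ fun j _ => adm_ee 0 j.succ
  refine (((adm_en0 (n := n + 1) 0).const_mul (-Z)).add h1).congr fun x => ?_
  unfold PP
  simp only [tl_apply]
  ring

theorem adm_pot_tl (Z e : ℝ) : Adm (fun x : Fin (n + 1) → E3 => pot Z 0 e (tl x)) := by
  have h1 : Adm (fun x : Fin (n + 1) → E3 => ∑ i : Fin n, 1 / ‖x i.succ‖) :=
    Adm.sum _ fun i _ => adm_en0 i.succ
  have h2 : Adm (fun x : Fin (n + 1) → E3 =>
      ∑ i : Fin n, ∑ j : Fin n, 1 / ‖x i.succ - x j.succ‖) :=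
    Adm.sum _ fun i _ => Adm.sum _ fun j _ => adm_ee i.succ j.succ
  refine (((h1.const_mul (-Z)).add (h2.const_mul (1 / 2))).add (Adm.const (-e))).congr
    fun x => ?_
  unfold pot VC
  simp only [tl_apply, Pi.zero_apply, Finset.sum_const_zero]
  ring

theorem nsq_ins {χ : WF n} (hχ : CW χ) {u : E3 → ℝ} (hu : Continuous u) :
    nsq (ins u χ) = (∫ y, u y ^ 2) * nsq χ := by
  unfold nsq
  rw [c4_sum_ins (fun σ => ∫ x, ‖ins u χ σ x‖ ^ 2)
    (fun σ => (∫ y, u y ^ 2) * ∫ x, ‖χ σ x‖ ^ 2), Finset.mul_sum]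
  · intro σ
    have hcont : Continuous fun x : Fin (n + 1) → E3 => ‖(u (x 0) : ℂ) * χ σ (tl x)‖ ^ 2 := by
      have h1 : Continuous (χ σ) := (hχ σ).cont
      have h2 : Continuous fun x : Fin (n + 1) → E3 => tl x :=
        continuous_pi fun i => continuous_apply i.succ
      have h3 : Continuous fun x : Fin (n + 1) → E3 => u (x 0) := hu.comp (continuous_apply 0)
      exact ((Complex.continuous_ofReal.comp h3).mul (h1.comp h2)).norm.pow 2
    simp only [c4_ins0]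
    rw [c4_int_cns hcont.aestronglyMeasurable]
    simp only [cns_zero, tl_cns]
    rw [← integral_prod_mul (fun y : E3 => u y ^ 2) (fun x : Fin n → E3 => ‖χ σ x‖ ^ 2)]
    refine integral_congr_ae (ae_of_all _ fun p => ?_)
    simp only [norm_mul, mul_pow, Complex.norm_real, Real.norm_eq_abs, sq_abs]
  · intro σ
    simp only [c4_ins1]
    simp

theorem h1_ins {χ : WF n} (hχ : CW χ) {u : E3 → ℝ} (hu : ContDiff ℝ 1 u)
    (hc : HasCompactSupport u) :
    h1 (ins u χ) = 1 / 2 * (∫ y, gs u y) * nsq χ + (∫ y, u y ^ 2) * h1 χ := by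
  unfold h1 FW nsq
  rw [c4_sum_ins (fun σ => FF (fun _ => 1) (ins u χ σ) (ins u χ σ))
    (fun σ => 1 / 2 * (∫ y, gs u y) * (∫ x, ‖χ σ x‖ ^ 2) +
      (∫ y, u y ^ 2) * FF (fun _ => 1) (χ σ) (χ σ)), Finset.sum_add_distrib, Finset.mul_sum,
      Finset.mul_sum]
  · intro σ
    rw [c4_ins0]
    exact c4_FF (Adm.const 1) (Adm.const 1) (hχ σ) hu hc
  · intro σ
    rw [c4_ins1]
    exact FF_zero_left _ _

/-- `pot Z 0 e (cns y x) = pot Z 0 e x + PP Z y x` -/
theorem ins_diag (Z e : ℝ) {χ : WF n} (hχ : CW χ) {u : E3 → ℝ} (hu : ContDiff ℝ 1 u)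
    (hc : HasCompactSupport u) :
    (∀ σ, Integrable (fun x => (∫ y, u y ^ 2 * PP Z y x) * ‖χ σ x‖ ^ 2)) ∧
    FW (pot Z 0 e) (ins u χ) (ins u χ) =
      1 / 2 * (∫ y, gs u y) * nsq χ + (∫ y, u y ^ 2) * FW (pot Z 0 e) χ χ +
        ∑ σ, ∫ x, (∫ y, u y ^ 2 * PP Z y x) * ‖χ σ x‖ ^ 2 := by
  have hpot : (pot Z 0 e : (Fin (n + 1) → E3) → ℝ) =
      fun x => pot Z 0 e (tl x) + PP Z (x 0) (tl x) := by
    funext x
    have h1 := VC_cns Z (x 0) (tl x)
    rw [cns_tl] at h1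
    unfold pot
    rw [h1]
    simp only [Pi.zero_apply, Finset.sum_const_zero]
    ring
  have hadm : Adm (pot Z 0 e : (Fin n → E3) → ℝ) := by
    refine ((adm_VC Z).sub (Adm.const e)).congr fun x => ?_
    unfold pot
    simp only [Pi.zero_apply, Finset.sum_const_zero]
    ring
  have hint : ∀ σ, Integrable (fun x : Fin (n + 1) → E3 => PP Z (x 0) (tl x) *
      rp ((u (x 0) : ℂ) * χ σ (tl x)) ((u (x 0) : ℂ) * χ σ (tl x))) := fun σ =>
    (adm_PP Z).int_rp ((hχ σ).ins hu hc) ((hχ σ).ins hu hc)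
  have hval : ∀ σ (x : Fin n → E3), ∫ y, PP Z y x *
      rp ((u y : ℂ) * χ σ x) ((u y : ℂ) * χ σ x) = (∫ y, u y ^ 2 * PP Z y x) * ‖χ σ x‖ ^ 2 := by
    intro σ x
    rw [← integral_mul_const]
    refine integral_congr_ae (ae_of_all _ fun y => ?_)
    show PP Z y x * rp ((u y : ℂ) * χ σ x) ((u y : ℂ) * χ σ x) =
      u y ^ 2 * PP Z y x * ‖χ σ x‖ ^ 2
    rw [c4_rp_real, rp_self]
    ring
  refine ⟨fun σ => ?_, ?_⟩
  · have h1 := (fub_int (hint σ)).integral_prod_right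
    simp only [cns_zero, tl_cns] at h1
    exact h1.congr (ae_of_all _ fun x => hval σ x)
  · unfold FW nsq
    rw [c4_sum_ins (fun σ => FF (pot Z 0 e) (ins u χ σ) (ins u χ σ))
      (fun σ => (1 / 2 * (∫ y, gs u y) * (∫ x, ‖χ σ x‖ ^ 2) +
        (∫ y, u y ^ 2) * FF (pot Z 0 e) (χ σ) (χ σ)) +
        ∫ x, (∫ y, u y ^ 2 * PP Z y x) * ‖χ σ x‖ ^ 2), Finset.sum_add_distrib,
      Finset.sum_add_distrib, Finset.mul_sum, Finset.mul_sum]
    · intro σ
      have h2 := (hχ σ).ins hu hc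
      rw [c4_ins0, hpot, FF_add_pot (adm_pot_tl Z e) (adm_PP Z) h2 h2,
        c4_FF hadm (adm_pot_tl Z e) (hχ σ) hu hc, fub' (hint σ)]
      congr 1
      refine integral_congr_ae (ae_of_all _ fun x => ?_)
      simp only [cns_zero, tl_cns]
      exact hval σ x
    · intro σ
      rw [c4_ins1]
      exact FF_zero_left _ _

theorem ins_diag_int (Z : ℝ) {χ : WF n} (hχ : CW χ) {u : E3 → ℝ} (hu : ContDiff ℝ 1 u)
    (hc : HasCompactSupport u) :
    ∀ σ, Integrable (fun x => (∫ y, u y ^ 2 * PP Z y x) * ‖χ σ x‖ ^ 2) :=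
  (ins_diag Z 0 hχ hu hc).1

end Pool.Agent.H899_CR
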