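import Pool.Agent.H899_CR.Perm
import Pool.Agent.H899_CR.Energy


set_option autoImplicit false

noncomputable section

namespace Pool.Agent.H899_CR

open MeasureTheory

variable {n : ℕ}

/-! Target. Let U = pot Z v (En Z (n+1) v). FW U is nonnegative on antisymmetric functions (En_le), so by `cs_form`
 FW U φ (asym Θ)² ≤ FW U φ φ · FW U (asym Θ) (asym Θ) ≤ ε K h1 (asym Θ) ≤ ε K (n+1)² h1 Θ. (φ + t asym Θ is
antisymmetric.) -/

/-- the form is nonnegative on antisymmetric functions -/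
theorem FW_nonneg (Z : ℝ) {v : E3 → ℝ} (hv : Bd v) {e : ℝ} (he : e ≤ En Z n v) {φ : WF n}
    (hφ : AS φ) : 0 ≤ FW (pot Z v e) φ φ := by
  have h1 := FW_pot Z hv e hφ.cw
  have h2 := FW_pot Z hv 0 hφ.cw
  have h3 := En_le Z hv hφ
  have h4 := mul_le_mul_of_nonneg_right he (nsq_nonneg φ)
  rw [zero_mul, sub_zero] at h2
  linarith

theorem AS.add {φ χ : WF n} (h : AS φ) (k : AS χ) (t : ℝ) :
    AS (fun σ x => φ σ x + (t : ℂ) * χ σ x) := by
  refine ⟨h.cw.add (k.cw.smul _), ?_⟩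
  intro π
  have h1 := h.anti π
  have h2 := k.anti π
  funext σ x
  have h3 := congrFun (congrFun h1 σ) x
  have h4 := congrFun (congrFun h2 σ) x
  simp only [pa] at h3 h4 ⊢
  rw [h3, h4]
  ring

theorem h1_nonneg' (φ : WF n) : 0 ≤ h1 φ := by
  unfold h1 FW FF ed
  refine Finset.sum_nonneg fun σ _ => integral_nonneg fun x => ?_
  have h1 : ∀ a : ℂ, 0 ≤ rp a a := fun a => by rw [rp_self]; positivity
  have h2 : 0 ≤ ∑ i, ∑ c, rp (pd i c (φ σ) x) (pd i c (φ σ) x) :=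
    Finset.sum_nonneg fun i _ => Finset.sum_nonneg fun c _ => h1 _
  have h3 := h1 (φ σ x)
  simp only [Pi.zero_apply]
  linarith

theorem near_min (Z : ℝ) (n : ℕ) {v : E3 → ℝ} (hv : Bd v) :
    ∃ K : ℝ, 0 ≤ K ∧ ∀ ε : ℝ, 0 ≤ ε → ε ≤ 1 → ∀ φ : WF (n + 1), AS φ → nsq φ = 1 →
      FW (pot Z v (En Z (n + 1) v)) φ φ ≤ ε →
      h1 φ ≤ K ∧ ∀ Θ : WF (n + 1), AT Θ →
        ((n : ℝ) + 1) * |FW (pot Z v (En Z (n + 1) v)) φ Θ| ≤ √(ε * K * h1 Θ) := by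
  obtain ⟨K1, hK1, hlow⟩ := pot_lower Z (n + 1) hv (En Z (n + 1) v)
  obtain ⟨K2, hK2, hup⟩ := pot_upper Z (n + 1) hv (En Z (n + 1) v)
  refine ⟨2 + K1 + K2 * ((n : ℝ) + 1) ^ 2, by positivity, ?_⟩
  intro ε hε hε1 φ hφ hn hle
  constructor
  · have h1 := hlow φ hφ.cw
    rw [hn] at h1
    have h2 : 0 ≤ K2 * ((n : ℝ) + 1) ^ 2 := by positivity
    linarith
  · intro Θ hΘ
    have hA := AS_asym hΘ
    have hadm := adm_pot (n := n + 1) Z hv (En Z (n + 1) v)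
    have hsym := sym_pot (n := n + 1) Z v (En Z (n + 1) v)
    have k1 := FW_asym hadm hsym hφ hΘ
    have h2 := cs_form hadm hφ.cw hA.cw (fun t =>
      FW_nonneg Z hv le_rfl (hφ.add hA t))
    have h3 := hup (asym Θ) hA.cw
    have h4 := h1_asym hΘ
    have h5 := h1_nonneg' Θ
    have h6 := FW_nonneg Z hv (le_refl (En Z (n + 1) v)) hφ
    have h7 := FW_nonneg Z hv (le_refl (En Z (n + 1) v)) hA
    have e : ((n : ℝ) + 1) * |FW (pot Z v (En Z (n + 1) v)) φ Θ| =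
        |FW (pot Z v (En Z (n + 1) v)) φ (asym Θ)| := by
      rw [k1, abs_mul, abs_of_nonneg (by positivity : (0 : ℝ) ≤ (n : ℝ) + 1)]
    rw [e]
    apply Real.abs_le_sqrt
    refine h2.trans ?_
    have h8 : FW (pot Z v (En Z (n + 1) v)) (asym Θ) (asym Θ) ≤
        K2 * (((n : ℝ) + 1) ^ 2 * h1 Θ) := h3.trans (mul_le_mul_of_nonneg_left h4 hK2)
    calc FW (pot Z v (En Z (n + 1) v)) φ φ * FW (pot Z v (En Z (n + 1) v)) (asym Θ) (asym Θ)
        ≤ ε * (K2 * (((n : ℝ) + 1) ^ 2 * h1 Θ)) := mul_le_mul hle h8 h7 hε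
      _ ≤ ε * (2 + K1 + K2 * ((n : ℝ) + 1) ^ 2) * h1 Θ := by
          have h9 : 0 ≤ ε * (2 + K1) * h1 Θ := by positivity
          have e9 : ε * (2 + K1 + K2 * ((n : ℝ) + 1) ^ 2) * h1 Θ = ε * (2 + K1) * h1 Θ +
              ε * (K2 * (((n : ℝ) + 1) ^ 2 * h1 Θ)) := by ring
          rw [e9]
          linarith

end Pool.Agent.H899_CR
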