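import Pool.Agent.H899_CR.Fub2
import Pool.Agent.H899_CR.InsD
import Pool.Agent.H899_CR.Near


set_option autoImplicit false

noncomputable section

namespace Pool.Agent.H899_CR

open MeasureTheory

variable {n : ℕ}

/-! Targets. Let B = FW (pot Z 0 e), a = ctr u φ, s_z = sl 0 z φ. -/

/-- Fubini for one term. -/
theorem bil_aux {W : (Fin n → E3) → ℝ} (hW : Adm W) {u : E3 → ℝ} (hu : Continuous u)
    (hc : HasCompactSupport u) {X : (Fin (n + 1) → E3) → ℂ} {A : (Fin n → E3) → ℂ}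
    (hX : Continuous X) (hX' : HasCompactSupport X) (hA : Continuous A)
    (hA' : HasCompactSupport A) :
    Integrable (fun z => u z * ∫ y, W y * rp (A y) (X (cns z y))) ∧
      ∫ z, u z * ∫ y, W y * rp (A y) (X (cns z y)) =
        ∫ x, W x * rp (A x) (∫ y, (u y : ℂ) * X (cns y x)) := by
  obtain ⟨h1, h2⟩ := fubL2 hW hu hc hX hX' hA hA'
  have e : ∀ z : E3, (∫ y : Fin n → E3, W (tl (cns z y)) * (u ((cns z y) 0) *
      rp (A (tl (cns z y))) (X (cns z y)))) = u z * ∫ y, W y * rp (A y) (X (cns z y)) := by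
    intro z
    rw [← integral_const_mul]
    refine integral_congr_ae (ae_of_all _ fun y => ?_)
    simp only [tl_cns, cns_zero]
    ring
  have h3 := (fub_int h1).integral_prod_left
  simp only [] at h3
  have h4 := fub h1
  constructor
  · refine h3.congr (ae_of_all _ fun z => ?_)
    exact e z
  · rw [← h2, h4]
    refine integral_congr_ae (ae_of_all _ fun z => ?_)
    exact (e z).symm

/-- The form as a sum of integrals. -/
theorem FF_split {U : (Fin n → E3) → ℝ} (hU : Adm U) {α β : (Fin n → E3) → ℂ} (ha : CC α)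
    (hb : CC β) : FF U α β = 1 / 2 * (∑ i, ∑ c, ∫ x, rp (pd i c β x) (pd i c α x)) +
      ∫ x, U x * rp (β x) (α x) := by
  rw [FF_comm]
  unfold FF ed
  rw [integral_add (int_kin hb ha) (hU.int_rp hb ha), integral_const_mul,
    integral_finsetSum _ fun i _ => integrable_finsetSum _ fun c _ => int_pd hb ha i c]
  congr 2
  refine Finset.sum_congr rfl fun i _ => ?_
  rw [integral_finsetSum _ fun c _ => int_pd hb ha i c]

theorem FF_split_slice {U : (Fin n → E3) → ℝ} (hU : Adm U) {α : (Fin (n + 1) → E3) → ℂ}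
    {β : (Fin n → E3) → ℂ} (ha : CC α) (hb : CC β) (z : E3) :
    FF U (fun x => α (cns z x)) β =
      1 / 2 * (∑ i, ∑ c, ∫ x, (1 : ℝ) * rp (pd i c β x) (pd i.succ c α (cns z x))) +
      ∫ x, U x * rp (β x) (α (cns z x)) := by
  rw [FF_split hU (ha.slice z) hb]
  congr 2
  refine Finset.sum_congr rfl fun i _ => Finset.sum_congr rfl fun c _ => ?_
  refine integral_congr_ae (ae_of_all _ fun x => ?_)
  simp only [pd_slice ha, one_mul]

theorem FF_split_ctr {U : (Fin n → E3) → ℝ} (hU : Adm U) {α : (Fin (n + 1) → E3) → ℂ}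
    {β : (Fin n → E3) → ℂ} (ha : CC α) (hb : CC β) {u : E3 → ℝ} (hu : Continuous u)
    (hc : HasCompactSupport u) :
    FF U (fun x : Fin n → E3 => ∫ y, (u y : ℂ) * α (cns y x)) β =
      1 / 2 * (∑ i, ∑ c, ∫ x, (1 : ℝ) * rp (pd i c β x)
        (∫ y, (u y : ℂ) * pd i.succ c α (cns y x))) +
      ∫ x, U x * rp (β x) (∫ y, (u y : ℂ) * α (cns y x)) := by
  rw [FF_split hU (ha.ctr hu hc) hb]
  congr 2
  refine Finset.sum_congr rfl fun i _ => Finset.sum_congr rfl fun c _ => ?_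
  refine integral_congr_ae (ae_of_all _ fun x => ?_)
  simp only [pd_ctr ha hu hc, one_mul]

theorem FF_bil {U : (Fin n → E3) → ℝ} (hU : Adm U) {α : (Fin (n + 1) → E3) → ℂ}
    {β : (Fin n → E3) → ℂ} (ha : CC α) (hb : CC β) {u : E3 → ℝ} (hu : Continuous u)
    (hc : HasCompactSupport u) :
    Integrable (fun z => u z * FF U (fun x => α (cns z x)) β) ∧
    ∫ z, u z * FF U (fun x => α (cns z x)) β =
      FF U (fun x : Fin n → E3 => ∫ y, (u y : ℂ) * α (cns y x)) β := by
  have k1 := fun (i : Fin n) (c : Fin 3) => bil_aux (W := fun _ : Fin n → E3 => (1 : ℝ))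
    (Adm.const 1) hu hc (pd_continuous ha i.succ c) (pd_comp ha i.succ c)
    (pd_continuous hb i c) (pd_comp hb i c)
  have k2 := bil_aux hU hu hc ha.cont ha.comp hb.cont hb.comp
  have e : (fun z => u z * FF U (fun x => α (cns z x)) β) = fun z =>
      1 / 2 * (∑ i, ∑ c, u z * ∫ x, (1 : ℝ) * rp (pd i c β x) (pd i.succ c α (cns z x))) +
      u z * ∫ x, U x * rp (β x) (α (cns z x)) := by
    funext z
    rw [FF_split_slice hU ha hb z, mul_add]
    congr 1
    rw [mul_left_comm, Finset.mul_sum]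
    congr 1
    refine Finset.sum_congr rfl fun i _ => ?_
    rw [Finset.mul_sum]
  rw [e, FF_split_ctr hU ha hb hu hc]
  have i1 : Integrable (fun z => ∑ i, ∑ c, u z * ∫ x, (1 : ℝ) * rp (pd i c β x)
      (pd i.succ c α (cns z x))) :=
    integrable_finsetSum _ fun i _ => integrable_finsetSum _ fun c _ => (k1 i c).1
  refine ⟨(i1.const_mul _).add k2.1, ?_⟩
  rw [integral_add (i1.const_mul _) k2.1, k2.2, integral_const_mul,
    integral_finsetSum _ fun i _ => integrable_finsetSum _ fun c _ => (k1 i c).1]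
  congr 2
  refine Finset.sum_congr rfl fun i _ => ?_
  rw [integral_finsetSum _ fun c _ => (k1 i c).1]
  exact Finset.sum_congr rfl fun c _ => (k1 i c).2

/-- `a = ∫ u(z) s_z dz`, so by Fubini (fubL2 with W = pot Z 0 e for the potential term, W = 1 for the derivatives)
`∫ u(z) B(s_z, b) dz = B(a, b)`. -/
theorem ctr_bil (Z e : ℝ) {φ : WF (n + 1)} (hφ : CW φ) {b : WF n} (hb : CW b) {u : E3 → ℝ}
    (hu : Continuous u) (hc : HasCompactSupport u) :
    Integrable (fun z => u z * FW (pot Z 0 e) (sl 0 z φ) b) ∧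
      ∫ z, u z * FW (pot Z 0 e) (sl 0 z φ) b = FW (pot Z 0 e) (ctr u φ) b := by
  have hU : Adm (pot (n := n) Z 0 e) := adm_pot Z ⟨measurable_zero, 0, by simp⟩ e
  have k := fun σ : Fin n → Fin 2 => FF_bil hU (hφ (cns 0 σ)) (hb σ) hu hc
  have e1 : (fun z => u z * FW (pot Z 0 e) (sl 0 z φ) b) = fun z =>
      ∑ σ, u z * FF (pot Z 0 e) (fun x => φ (cns 0 σ) (cns z x)) (b σ) := by
    funext z
    unfold FW
    rw [Finset.mul_sum]
    rfl
  rw [e1]
  refine ⟨integrable_finsetSum _ fun σ _ => (k σ).1, ?_⟩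
  rw [integral_finsetSum _ fun σ _ => (k σ).1]
  unfold FW
  exact Finset.sum_congr rfl fun σ _ => (k σ).2

/-- With W = ∫ u > 0 (if ∫ u = 0 then u = 0): 0 ≤ ∫ u(z) B(s_z - a/W) dz = ∫ u(z) B(s_z) dz - B(a)/W. -/
theorem jensen (Z : ℝ) {e : ℝ} (he : e ≤ En Z n 0) {φ : WF (n + 1)} (hφ : AS φ) {u : E3 → ℝ}
    (hu : Continuous u) (hc : HasCompactSupport u) (hu0 : ∀ y, 0 ≤ u y) :
    FW (pot Z 0 e) (ctr u φ) (ctr u φ) ≤
      (∫ y, u y) * ∫ z, u z * FW (pot Z 0 e) (sl 0 z φ) (sl 0 z φ) := by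
  have hbd : Bd (0 : E3 → ℝ) := ⟨measurable_zero, 0, by simp⟩
  have hU : Adm (pot (n := n) Z 0 e) := adm_pot Z hbd e
  by_cases hu1 : u = 0
  · have e1 : ctr u φ = fun _ _ => 0 := by
      funext σ x
      unfold ctr
      simp [hu1]
    rw [e1, hu1]
    have e2 : FW (pot Z 0 e) (fun (_ : Fin n → Fin 2) (_ : Fin n → E3) => (0 : ℂ))
        (fun _ _ => 0) = 0 := by
      unfold FW
      exact Finset.sum_eq_zero fun σ _ => FF_zero_left _ _
    rw [e2]
    simp
  · obtain ⟨x0, hx0⟩ := Function.ne_iff.mp hu1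
    have hW : 0 < ∫ y, u y :=
      hu.integral_pos_of_hasCompactSupport_nonneg_nonzero hc hu0 hx0
    have ha : AS (ctr u φ) := hφ.ctr hu hc
    set W := ∫ y, u y with hWdef
    set t : ℝ := -(1 / W) with ht
    obtain ⟨j1, j2⟩ := ctr_bil (n := n) Z e hφ.cw ha.cw hu hc
    have j3 : Integrable (fun z => u z * FW (pot Z 0 e) (sl 0 z φ) (sl 0 z φ)) :=
      int_slice_form (adm_pot_tl Z e) hφ.cw hu 0
    have j4 : Integrable u := hu.integrable_of_hasCompactSupport hc
    have key : ∀ z, 0 ≤ u z * FW (pot Z 0 e) (sl 0 z φ) (sl 0 z φ) +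
        2 * t * (u z * FW (pot Z 0 e) (sl 0 z φ) (ctr u φ)) +
        t ^ 2 * FW (pot Z 0 e) (ctr u φ) (ctr u φ) * u z := by
      intro z
      have hs : AS (sl 0 z φ) := hφ.slice 0 z
      have h1 := FW_nonneg Z hbd he (hs.add ha t)
      rw [FW_expand hU hs.cw ha.cw t] at h1
      have h2 := mul_nonneg (hu0 z) h1
      nlinarith [h2]
    have h5 : 0 ≤ ∫ z, (u z * FW (pot Z 0 e) (sl 0 z φ) (sl 0 z φ) +
        2 * t * (u z * FW (pot Z 0 e) (sl 0 z φ) (ctr u φ)) +
        t ^ 2 * FW (pot Z 0 e) (ctr u φ) (ctr u φ) * u z) := integral_nonneg key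
    have h8 : Integrable (fun z => u z * FW (pot Z 0 e) (sl 0 z φ) (sl 0 z φ) +
        2 * t * (u z * FW (pot Z 0 e) (sl 0 z φ) (ctr u φ))) := j3.add (j1.const_mul _)
    rw [integral_add h8 (j4.const_mul _),
      integral_add j3 (j1.const_mul _), integral_const_mul, integral_const_mul, j2,
      ← hWdef] at h5
    set B := FW (pot Z 0 e) (ctr u φ) (ctr u φ) with hB
    set S := ∫ z, u z * FW (pot Z 0 e) (sl 0 z φ) (sl 0 z φ) with hS
    have h6 : S + 2 * t * B + t ^ 2 * B * W = S - B / W := by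
      rw [ht]
      field_simp
      ring
    rw [h6] at h5
    have h7 : B / W ≤ S := by linarith
    rw [div_le_iff₀ hW] at h7
    linarith

end Pool.Agent.H899_CR
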