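import Pool.Agent.H899_CR.Bump
import Pool.Agent.H899_CR.InsD
import Pool.Agent.H899_CR.Near


set_option autoImplicit false

noncomputable section

namespace Pool.Agent.H899_CR

open MeasureTheory

variable {n : ℕ}

/-
TARGET. Let e = En Z (n+1) 0, ε > 0 and φ a near-minimizer of n electrons: AS φ, nsq φ = 1, FW (pot Z 0 0) φ φ ≤ En Z n 0 + ε;
all φ σ vanish unless all ‖x i‖ ≤ R0 (compact support). For R large take ρ = R/2, a bump U of radius ρ, |y0| = R, and
u w = U (w - y0), Θ = ins u φ. u is supported in ‖w‖ ≥ R/2 > R0.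
For n = m + 1: 0 ≤ FW (pot Z 0 e) (asym Θ) (asym Θ) = (m+2) (FW Θ Θ - (m+1) FW Θ (pa (swap 0 1) Θ)) and the cross term
vanishes, because Θ is supported in {x 0 ∈ supp u, ‖x 1‖ ≤ R0} and pa (swap 0 1) Θ in {x 1 ∈ supp u} (closed supports; the
derivatives of a function vanish outside its tsupport). For n = 0 every Θ : WF 1 is AS (AT Θ and asym Θ = Θ, or use FW_asym
and AS_asym directly: for WF 1 the only permutation is the identity).
So 0 ≤ FW (pot Z 0 e) Θ Θ = K/ρ² + FW (pot Z 0 0) φ φ - e + ∑ ∫ (∫ u² PP Z y x) ‖φ‖² ≤ K/ρ² + En Z n 0 + ε - e + n/(R/2 - R0),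
using PP Z y x ≤ n/(R/2 - R0) for ‖y‖ ≥ R/2 and all ‖x j‖ ≤ R0 (Z ≥ 0), ∫u² = 1. Let R → ∞, ε → 0.
-/
theorem pd_zero_of {m : ℕ} {α : (Fin m → E3) → ℂ} {x : Fin m → E3}
    (h : α =ᶠ[nhds x] fun _ => 0) (i : Fin m) (c : Fin 3) : pd i c α x = 0 := by
  unfold pd
  rw [h.fderiv_eq]
  simp

theorem ed_zero_left {m : ℕ} {U : (Fin m → E3) → ℝ} {α β : (Fin m → E3) → ℂ} {x : Fin m → E3}
    (h : α =ᶠ[nhds x] fun _ => 0) : ed U α β x = 0 := by
  unfold ed
  have h1 : α x = 0 := h.self_of_nhds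
  rw [h1, rp_zero_left, mul_zero, add_zero]
  have h2 : ∑ i, ∑ c, rp (pd i c α x) (pd i c β x) = 0 := by
    refine Finset.sum_eq_zero fun i _ => Finset.sum_eq_zero fun c _ => ?_
    rw [pd_zero_of h, rp_zero_left]
  rw [h2, mul_zero]

theorem cross_zero {m : ℕ} (U : (Fin (m + 2) → E3) → ℝ) {u : E3 → ℝ} {φ : WF (m + 1)} {R0 ρ : ℝ}
    (hR : R0 < ρ) (hu : ∀ w, ‖w‖ < ρ → u w = 0) (hφ : ∀ σ x, R0 < ‖x 0‖ → φ σ x = 0) :
    FW U (ins u φ) (pa (Equiv.swap 0 1) (ins u φ)) = 0 := by
  unfold FW FF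
  refine Finset.sum_eq_zero fun σ _ => ?_
  have h0 : ∀ x : Fin (m + 2) → E3,
      ed U (ins u φ σ) (pa (Equiv.swap 0 1) (ins u φ) σ) x = 0 := by
    intro x
    by_cases hx : R0 < ‖x 1‖
    · apply ed_zero_left
      have ho : IsOpen {x : Fin (m + 2) → E3 | R0 < ‖x 1‖} :=
        isOpen_lt continuous_const (continuous_norm.comp (continuous_apply 1))
      filter_upwards [ho.mem_nhds hx] with y hy
      unfold ins
      split_ifs
      · rw [hφ (tl σ) (tl y) hy, mul_zero]
      · rfl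
    · push Not at hx
      have hx' : ‖x 1‖ < ρ := lt_of_le_of_lt hx hR
      rw [ed_comm]
      apply ed_zero_left
      have ho : IsOpen {x : Fin (m + 2) → E3 | ‖x 1‖ < ρ} :=
        isOpen_lt (continuous_norm.comp (continuous_apply 1)) continuous_const
      filter_upwards [ho.mem_nhds hx'] with y hy
      unfold pa ins
      split_ifs
      · have h1 : (y ∘ (Equiv.swap (0 : Fin (m + 2)) 1)) 0 = y 1 := by
          simp
        rw [h1, hu _ hy]
        simp
      · rfl
  simp_rw [h0]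
  simp

theorem exists_radius {n : ℕ} {φ : WF n} (h : CW φ) :
    ∃ R0 : ℝ, 0 < R0 ∧ ∀ σ x, φ σ x ≠ 0 → ∀ i, ‖x i‖ ≤ R0 := by
  have h1 : ∀ σ, ∃ R : ℝ, ∀ x, φ σ x ≠ 0 → ‖x‖ ≤ R := by
    intro σ
    obtain ⟨R, hR⟩ := (h σ).comp.isCompact.isBounded.exists_norm_le
    exact ⟨R, fun x hx => hR x (subset_tsupport _ hx)⟩
  choose R hR using h1
  refine ⟨1 + ∑ σ, |R σ|, ?_, ?_⟩
  · have : 0 ≤ ∑ σ, |R σ| := Finset.sum_nonneg fun _ _ => abs_nonneg _
    linarith
  · intro σ x hx i
    have h2 : |R σ| ≤ ∑ σ, |R σ| :=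
      Finset.single_le_sum (f := fun σ => |R σ|) (fun _ _ => abs_nonneg _) (Finset.mem_univ σ)
    have h3 := hR σ x hx
    have h4 := norm_le_pi_norm x i
    have h5 := le_abs_self (R σ)
    linarith

theorem En_succ_le {Z : ℝ} (hZ : 0 ≤ Z) (n : ℕ) : En Z (n + 1) 0 ≤ En Z n 0 := by
  refine le_of_forall_pos_le_add fun ε hε => ?_
  obtain ⟨φ, hφ, hn, hE⟩ := En_near Z n (v := 0) (half_pos hε)
  obtain ⟨R0, hR0, hsupp⟩ := exists_radius hφ.cw
  obtain ⟨K, hK, hb⟩ := exists_bump
  set M : ℝ := 1 + 2 * (n + K) / ε with hM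
  have hnK : 0 < (n : ℝ) + K := by positivity
  have hM1 : 1 ≤ M := by
    have : 0 ≤ 2 * ((n : ℝ) + K) / ε := by positivity
    linarith
  have hM0 : 0 < M := by linarith
  set ρ : ℝ := R0 + M with hρ
  have hρ0 : 0 < ρ := by positivity
  obtain ⟨U, hU⟩ := hb ρ hρ0
  set y0 : E3 := EuclideanSpace.single 0 (2 * ρ) with hy0
  have hy0n : ‖y0‖ = 2 * ρ := by
    rw [hy0, PiLp.norm_single, Real.norm_eq_abs, abs_of_pos (by positivity)]
  obtain ⟨hu1, hu2, hu3, hu4, -⟩ := hU.trans y0
  set u : E3 → ℝ := fun w => U (w - y0) with hu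
  have hu0 : ∀ w, ‖w‖ < ρ → u w = 0 := by
    intro w hw
    apply hU.supp
    have h1 : ‖y0‖ ≤ ‖w - y0‖ + ‖w‖ := by
      have := norm_sub_norm_le y0 w
      rw [norm_sub_rev] at this
      linarith
    rw [hy0n] at h1
    linarith
  set Θ : WF (n + 1) := ins u φ with hΘ
  have hAT : AT Θ := AT_ins hφ hu1 hu2
  set e : ℝ := En Z (n + 1) 0 with he
  have key : 0 ≤ FW (pot Z 0 e) Θ Θ := by
    cases n with
    | zero =>
      have hAS : AS Θ := ⟨hAT.cw, fun π => hAT.anti π (@Subsingleton.elim (Fin 1) _ _ _)⟩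
      exact FW_nonneg Z Bd.zero le_rfl hAS
    | succ m =>
      have h1 := FW_nonneg Z Bd.zero (le_refl (En Z (m + 2) 0)) (AS_asym hAT)
      rw [FW_asym_asym (adm_pot Z Bd.zero _) (sym_pot Z 0 _) hAT,
        cross_zero _ (R0 := R0) (ρ := ρ) (by linarith) hu0 (fun σ x hx => by
          by_contra hne
          exact absurd (hsupp σ x hne 0) (not_le.mpr hx)), mul_zero, sub_zero] at h1
      exact nonneg_of_mul_nonneg_right h1 (by positivity)
  obtain ⟨hint, hdiag⟩ := ins_diag Z e hφ.cw hu1 hu2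
  rw [← hΘ] at hdiag
  rw [hdiag, hn, hu3, hu4, FW_pot_e Z e hφ.cw, hn] at key
  have hrest : ∑ σ, ∫ x, (∫ y, u y ^ 2 * PP Z y x) * ‖φ σ x‖ ^ 2 ≤ n / M := by
    have h1 : ∀ σ, ∫ x, (∫ y, u y ^ 2 * PP Z y x) * ‖φ σ x‖ ^ 2 ≤
        n / M * ∫ x, ‖φ σ x‖ ^ 2 := by
      intro σ
      rw [← integral_const_mul]
      refine integral_mono (hint σ) ((int_sq (hφ.cw σ).cont (hφ.cw σ).comp).const_mul _) ?_
      intro x
      by_cases hx : φ σ x = 0
      · simp [hx]
      · have h2 := hsupp σ x hx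
        refine mul_le_mul_of_nonneg_right ?_ (by positivity)
        by_cases hi : Integrable (fun y => u y ^ 2 * PP Z y x)
        · have hu2i : Integrable (fun y => u y ^ 2) := by
            by_contra hcon
            rw [integral_undef hcon] at hu3
            exact zero_ne_one hu3
          calc ∫ y, u y ^ 2 * PP Z y x ≤ ∫ y, n / M * u y ^ 2 := by
                refine integral_mono hi (hu2i.const_mul _) ?_
                intro y
                by_cases hy : u y = 0
                · simp [hy]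
                · have h3 : ρ ≤ ‖y‖ := by
                    by_contra hcon
                    exact hy (hu0 y (not_le.mp hcon))
                  simp only
                  rw [mul_comm]
                  refine mul_le_mul_of_nonneg_right ?_ (by positivity)
                  unfold PP
                  have h4 : 0 ≤ Z / ‖y‖ := by positivity
                  have h5 : ∑ j, 1 / ‖y - x j‖ ≤ ∑ j : Fin n, 1 / M := by
                    refine Finset.sum_le_sum fun j _ => ?_
                    have h6 : M ≤ ‖y - x j‖ := by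
                      have := norm_sub_norm_le y (x j)
                      have := h2 j
                      linarith
                    exact one_div_le_one_div_of_le hM0 h6
                  rw [Finset.sum_const, Finset.card_univ, Fintype.card_fin, nsmul_eq_mul] at h5
                  have h7 : (n : ℝ) * (1 / M) = n / M := by ring
                  linarith
            _ = n / M := by rw [integral_const_mul, hu3, mul_one]
        · rw [integral_undef hi]
          positivity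
    calc _ ≤ ∑ σ, n / M * ∫ x, ‖φ σ x‖ ^ 2 := Finset.sum_le_sum fun σ _ => h1 σ
      _ = n / M * nsq φ := by rw [← Finset.mul_sum]; rfl
      _ = n / M := by rw [hn, mul_one]
  have hKρ : 1 / 2 * (2 * K / ρ ^ 2) ≤ K / M := by
    have h1 : 1 / 2 * (2 * K / ρ ^ 2) = K / ρ ^ 2 := by ring
    rw [h1]
    refine div_le_div_of_nonneg_left hK.le hM0 ?_
    have h2 : M ≤ ρ := by linarith
    nlinarith
  have hfin : K / M + n / M ≤ ε / 2 := by
    rw [← add_div, div_le_iff₀ hM0, hM]
    have : ε / 2 * (1 + 2 * ((n : ℝ) + K) / ε) = ε / 2 + (n + K) := by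
      field_simp
    rw [this]
    linarith
  linarith

end Pool.Agent.H899_CR
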