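import Pool.Agent.H899_CR.CrossS
import Pool.Agent.H899_CR.Jen
import Pool.Agent.H899_CR.Mono


set_option autoImplicit false

noncomputable section

namespace Pool.Agent.H899_CR

open MeasureTheory

variable {n : ℕ}

/-
TARGET. Let e1 = En Z (n+1) 0, e2 = En Z (n+2) 0 ≤ e1 (En_succ_le), a = ctr u φ, Θ = ins u φ : WF (n+2) (AT_ins), N = nsq a,
Q(χ) = FW (pot Z 0 e1) χ χ. (`pot Z 0 0` and `VC Z` are equal functions; FW_pot_bil, FW_pot_e.)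
0 ≤ FW (pot Z 0 e2) (asym Θ) (asym Θ) (AS_asym, FW_nonneg)
  = (n+2) (FW (pot Z 0 e2) Θ Θ - (n+1) FW (pot Z 0 e2) Θ (pa (swap 0 1) Θ))      (FW_asym_asym), so
0 ≤ FW (pot Z 0 e2) Θ Θ - (n+1) FW (pot Z 0 e2) Θ (pa (swap 0 1) Θ).
First term (ins_diag with e = e2, nsq φ = 1): ½∫gs u + FW (pot Z 0 e2) φ φ + ∑∫(∫u² PP)‖φ‖²,
   FW (pot Z 0 e2) φ φ = Q(φ) + (e1 - e2) ≤ ε + (e1 - e2).
Second term: FW (VC Z) Θ (pa ..Θ) - e2 N ≥ 2 FW (VC Z) φ (ins u a) - FW (VC Z) a a - e2 N       (ins_cross, ip_ins_cross)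
   = 2 FW (pot Z 0 e1) φ (ins u a) + 2 e1 N - Q(a) - e1 N - e2 N                     (ip_ins_ctr)
   = 2 FW (pot Z 0 e1) φ (ins u a) - Q(a) + (e1 - e2) N.
near_min with Θ' = ins u a (AT_ins, AS.ctr): (n+1) |FW (pot Z 0 e1) φ (ins u a)| ≤ √(ε K1 h1 (ins u a)),
   h1 (ins u a) = ½∫gs u N + h1 a ≤ (G/2 + 1) h1 φ ≤ (G/2+1) K1   (h1_ins, h1_ctr_le, nsq_le_h1).
Hence 0 ≤ ½∫gs u + ε + (e1-e2) + ∑∫.. + 2 √(..) + (n+1) Q(a) - (n+1)(e1-e2) N, and (e1-e2) N ≥ 0.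
-/
theorem ins_ineq {Z : ℝ} (hZ : 0 ≤ Z) (n : ℕ) (G : ℝ) : ∃ K : ℝ, 0 ≤ K ∧ ∀ ε : ℝ, 0 ≤ ε →
    ε ≤ 1 → ∀ φ : WF (n + 1), AS φ → nsq φ = 1 → FW (pot Z 0 (En Z (n + 1) 0)) φ φ ≤ ε →
    ∀ u : E3 → ℝ, ContDiff ℝ 1 u → HasCompactSupport u → ∫ y, u y ^ 2 = 1 → ∫ y, gs u y ≤ G →
    0 ≤ (En Z (n + 1) 0 - En Z (n + 2) 0) + ε + 1 / 2 * (∫ y, gs u y) +
      (∑ σ, ∫ x, (∫ y, u y ^ 2 * PP Z y x) * ‖φ σ x‖ ^ 2) +
      ((n : ℝ) + 1) * FW (pot Z 0 (En Z (n + 1) 0)) (ctr u φ) (ctr u φ) + K * √ε := by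
  obtain ⟨K1, hK1, hnm⟩ := near_min Z n Bd.zero
  refine ⟨2 * √(K1 * ((|G| / 2 + 1) * K1)), by positivity, ?_⟩
  intro ε hε hε1 φ hφ hn hle u hu1 hu2 hu3 hG
  obtain ⟨hh1, hnear⟩ := hnm ε hε hε1 φ hφ hn hle
  set e1 : ℝ := En Z (n + 1) 0 with he1
  set e2 : ℝ := En Z (n + 2) 0 with he2
  have he12 : e2 ≤ e1 := En_succ_le hZ (n + 1)
  set a : WF n := ctr u φ with ha
  have hAS : AS a := hφ.ctr hu1.continuous hu2
  set N : ℝ := nsq a with hN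
  have hN0 : 0 ≤ N := nsq_nonneg a
  -- the quadratic form of the antisymmetrized function
  have hAT : AT (ins u φ) := AT_ins hφ hu1 hu2
  have g1 := FW_nonneg Z Bd.zero (le_refl (En Z (n + 2) 0)) (AS_asym hAT)
  rw [FW_asym_asym (adm_pot Z Bd.zero _) (sym_pot Z 0 _) hAT] at g1
  have h2 : 0 ≤ FW (pot Z 0 e2) (ins u φ) (ins u φ) -
      ((n : ℝ) + 1) * FW (pot Z 0 e2) (ins u φ) (pa (Equiv.swap 0 1) (ins u φ)) :=
    nonneg_of_mul_nonneg_right g1 (by positivity)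
  -- first term
  obtain ⟨-, hdiag⟩ := ins_diag Z e2 hφ.cw hu1 hu2
  have hQ1 := FW_pot_e Z e1 hφ.cw
  have hQ2 := FW_pot_e Z e2 hφ.cw
  rw [hn, mul_one] at hQ1 hQ2
  rw [hn, hu3, mul_one, one_mul] at hdiag
  -- second term
  have hVC : ∀ {m : ℕ} (e : ℝ) {α β : WF m}, CW α → CW β →
      FW (pot Z 0 e) α β = FW (VC Z) α β - e * ip α β := by
    intro m e α β hα hβ
    rw [FW_pot_bil Z Bd.zero e hα hβ]
    have h0 : (pot Z 0 0 : (Fin m → E3) → ℝ) = VC Z := by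
      funext x
      unfold pot
      simp
    rw [h0]
  have hcross := ins_cross Z hφ.cw hu1 hu2
  have hc1 := hVC e2 hAT.cw (CW_pa hAT.cw (Equiv.swap 0 1))
  rw [ip_ins_cross hφ.cw hu1 hu2] at hc1
  have hATa : AT (ins u a) := AT_ins hAS hu1 hu2
  have hc2 := hVC e1 hφ.cw hATa.cw
  rw [ip_ins_ctr hφ.cw hu1 hu2] at hc2
  have hc3 : FW (pot Z 0 e1) a a = FW (VC Z) a a - e1 * N := by
    rw [FW_pot Z Bd.zero e1 hAS.cw]
    have h0 : den (0 : E3 → ℝ) a = 0 := by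
      unfold den
      simp
    rw [h0, sub_zero]
  set F : ℝ := FW (pot Z 0 e1) φ (ins u a) with hF
  -- near minimizer
  have hb1 := hnear (ins u a) hATa
  have hgs0 : 0 ≤ ∫ y, gs u y :=
    integral_nonneg fun y => Finset.sum_nonneg fun _ _ => sq_nonneg _
  have hb2 : h1 (ins u a) ≤ (|G| / 2 + 1) * K1 := by
    rw [h1_ins hAS.cw hu1 hu2, hu3, one_mul]
    have k1 : h1 a ≤ K1 := by
      have := h1_ctr_le hφ.cw hu1.continuous hu2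
      rw [hu3, one_mul] at this
      exact this.trans hh1
    have k2 : nsq a ≤ K1 := (nsq_le_h1 hAS.cw).trans k1
    have k3 : ∫ y, gs u y ≤ |G| := hG.trans (le_abs_self G)
    have k4 : (∫ y, gs u y) * nsq a ≤ |G| * K1 :=
      mul_le_mul k3 k2 (nsq_nonneg a) (abs_nonneg G)
    linarith
  have hb3 : √(ε * K1 * h1 (ins u a)) ≤ √(K1 * ((|G| / 2 + 1) * K1)) * √ε := by
    rw [← Real.sqrt_mul (by positivity)]
    apply Real.sqrt_le_sqrt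
    have k1 : ε * K1 * h1 (ins u a) ≤ ε * K1 * ((|G| / 2 + 1) * K1) :=
      mul_le_mul_of_nonneg_left hb2 (by positivity)
    refine k1.trans (le_of_eq ?_)
    ring
  have hn1 : (0 : ℝ) ≤ (n : ℝ) + 1 := by positivity
  have hb4 : -(((n : ℝ) + 1) * F) ≤ √(K1 * ((|G| / 2 + 1) * K1)) * √ε := by
    have k1 : -(((n : ℝ) + 1) * F) ≤ ((n : ℝ) + 1) * |F| := by
      have := neg_abs_le F
      nlinarith
    exact k1.trans (hb1.trans hb3)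
  have hsec : 2 * F - FW (pot Z 0 e1) a a + (e1 - e2) * N ≤
      FW (pot Z 0 e2) (ins u φ) (pa (Equiv.swap 0 1) (ins u φ)) := by
    rw [hc1]
    have : 2 * F = 2 * FW (VC Z) φ (ins u a) - 2 * (e1 * N) := by
      rw [hc2]; ring
    rw [this, hc3]
    linarith
  have hsec2 := mul_le_mul_of_nonneg_left hsec hn1
  have hpos : 0 ≤ ((n : ℝ) + 1) * ((e1 - e2) * N) :=
    mul_nonneg hn1 (mul_nonneg (by linarith) hN0)
  have hexp : ((n : ℝ) + 1) * (2 * F - FW (pot Z 0 e1) a a + (e1 - e2) * N) =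
      2 * (((n : ℝ) + 1) * F) - ((n : ℝ) + 1) * FW (pot Z 0 e1) a a +
        ((n : ℝ) + 1) * ((e1 - e2) * N) := by ring
  rw [hexp] at hsec2
  have hlast : 2 * √(K1 * ((|G| / 2 + 1) * K1)) * √ε =
    2 * (√(K1 * ((|G| / 2 + 1) * K1)) * √ε) := by ring
  rw [hlast]
  linarith

/-
TARGET (one electron, k = 0). For L > 0 with Z L ≥ 32 K: ρ = √(8 K L/Z) ≤ L/2, Bump U of radius ρ, |y0| = L, u w = U (w - y0).
φ₀ from En_near 0 (WF 0), ins u φ₀ : WF 1 is AS (every permutation of Fin 1 is the identity; AT_ins).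
En Z 1 0 * nsq (ins u φ₀) ≤ FW (pot Z 0 0) (ins u φ₀) (ins u φ₀) = K/ρ² + FW (pot Z 0 0) φ₀ φ₀ - Z/L ≤ Z/(8L) + ε - Z/L
(ins_diag, nsq_ins, En_zero; PP Z y x = -(Z/‖y‖) for n = 0 and Bump.newton_eq).
-/
theorem ion_zero {K : ℝ} (hK : 0 < K) (hb : ∀ ρ : ℝ, 0 < ρ → ∃ U : E3 → ℝ, Bump K ρ U) {Z : ℝ}
    (hZ : 0 < Z) {L : ℝ} (hL : 0 < L) (h : 32 * K ≤ Z * L) :
    3 * Z / (8 * L) ≤ En Z 0 0 - En Z 1 0 := by
  set ρ : ℝ := √(8 * K * L / Z) with hρd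
  have hρ2 : ρ ^ 2 = 8 * K * L / Z := Real.sq_sqrt (by positivity)
  have hρ : 0 < ρ := Real.sqrt_pos.2 (by positivity)
  have hρL : ρ ≤ L := by
    apply Real.sqrt_le_iff.2
    refine ⟨hL.le, ?_⟩
    rw [div_le_iff₀ hZ]
    nlinarith [mul_le_mul_of_nonneg_left h hL.le, mul_pos hK hL]
  obtain ⟨U, hU⟩ := hb ρ hρ
  set y0 : E3 := EuclideanSpace.single 0 L with hy0
  have hy0n : ‖y0‖ = L := by
    rw [hy0, PiLp.norm_single, Real.norm_eq_abs, abs_of_pos hL]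
  obtain ⟨hu1, hu2, hu3, hu4, -⟩ := hU.trans y0
  obtain ⟨hu5, hu6⟩ := hU.newton_eq hρ (y := y0) (by rw [hy0n]; exact hρL)
  set u : E3 → ℝ := fun w => U (w - y0) with hu
  rw [hy0n] at hu6
  have hmain : ∀ ε : ℝ, 0 < ε → En Z 1 0 ≤ Z / (8 * L) - Z / L + ε := by
    intro ε hε
    obtain ⟨φ, hφ, hn, hE⟩ := En_near Z 0 (v := 0) hε
    rw [En_zero, zero_add] at hE
    have hAT : AT (ins u φ) := AT_ins hφ hu1 hu2
    have hAS : AS (ins u φ) :=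
      ⟨hAT.cw, fun π => hAT.anti π (@Subsingleton.elim (Fin 1) _ _ _)⟩
    have h1 := En_le Z Bd.zero hAS
    rw [nsq_ins hφ.cw hu1.continuous, hu3, hn, one_mul, mul_one] at h1
    obtain ⟨-, hdiag⟩ := ins_diag Z 0 hφ.cw hu1 hu2
    rw [hn, hu3, hu4, mul_one, one_mul] at hdiag
    have h2 : ∑ σ, ∫ x, (∫ y, u y ^ 2 * PP Z y x) * ‖φ σ x‖ ^ 2 = -(Z / L) := by
      have h3 : ∀ x : Fin 0 → E3, ∫ y, u y ^ 2 * PP Z y x = -(Z / L) := by
        intro x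
        have h4 : ∀ y, u y ^ 2 * PP Z y x = -Z * (U (y - y0) ^ 2 * (1 / ‖y‖)) := by
          intro y
          unfold PP
          simp only [Finset.univ_eq_empty, Finset.sum_empty, add_zero, hu]
          ring
        simp_rw [h4]
        rw [integral_const_mul, hu6]
        ring
      simp_rw [h3]
      have h5 : ∑ σ, ∫ x, -(Z / L) * ‖φ σ x‖ ^ 2 = -(Z / L) * nsq φ := by
        unfold nsq
        rw [Finset.mul_sum]
        refine Finset.sum_congr rfl fun σ _ => ?_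
        rw [integral_const_mul]
      rw [h5, hn, mul_one]
    rw [h2] at hdiag
    have h6 : 1 / 2 * (2 * K / ρ ^ 2) = Z / (8 * L) := by
      rw [hρ2]
      field_simp
    rw [h6] at hdiag
    have h7 : En Z 1 0 ≤ FW (pot Z 0 0) (ins u φ) (ins u φ) := h1
    linarith
  have h8 : En Z 1 0 ≤ Z / (8 * L) - Z / L := le_of_forall_pos_le_add hmain
  rw [En_zero]
  have h9 : 3 * Z / (8 * L) ≤ Z / L - Z / (8 * L) := by
    have e1 : Z / L - Z / (8 * L) = 7 * Z / (8 * L) := by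
      field_simp
      ring
    rw [e1]
    apply div_le_div_of_nonneg_right _ (by positivity)
    linarith
  linarith

end Pool.Agent.H899_CR

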