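import Pool.Agent.H899_CR.Bump
import Pool.Agent.H899_CR.InsD


set_option autoImplicit false

noncomputable section

namespace Pool.Agent.H899_CR

open MeasureTheory

variable {n : ℕ}

/-! Targets. -/

theorem C8_adm_PP (Z : ℝ) (y : E3) : Adm (fun x : Fin n → E3 => PP Z y x) := by
  have h1 : Adm (fun x : Fin n → E3 => ∑ j, 1 / ‖x j - y‖) := Adm.sum _ fun j _ => adm_en j y
  refine ((Adm.const (-(Z / ‖y‖))).add h1).congr fun x => ?_
  unfold PP
  congr 1
  exact Finset.sum_congr rfl fun j _ => by rw [norm_sub_rev]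

/-- for fixed `y`: `x ↦ PP Z y x ‖φ σ x‖²` is integrable (`adm_en`) -/
theorem int_PP (Z : ℝ) (y : E3) {φ : WF n} (hφ : CW φ) (σ : Fin n → Fin 2) :
    Integrable (fun x => PP Z y x * ‖φ σ x‖ ^ 2) :=
  (C8_adm_PP Z y).int _ (hφ σ).cont (hφ σ).comp

/-- `Bump.PP_le` holds for almost every `x` (those with `x j ≠ y` for all `j`) -/
theorem Bump.PP_avg_le {K ρ : ℝ} {U : E3 → ℝ} (h : Bump K ρ U) (hρ : 0 < ρ) (Z : ℝ) {y : E3}
    (hy : ρ ≤ ‖y‖) {φ : WF n} (hφ : CW φ) :
    ∑ σ, ∫ x, (∫ w, U (w - y) ^ 2 * PP Z w x) * ‖φ σ x‖ ^ 2 ≤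
      ∑ σ, ∫ x, PP Z y x * ‖φ σ x‖ ^ 2 := by
  obtain ⟨h1, h2, -⟩ := h.trans y
  refine Finset.sum_le_sum fun σ _ => ?_
  refine integral_mono_ae (ins_diag_int Z hφ h1 h2 σ) (int_PP Z y hφ σ) ?_
  have hae : ∀ᵐ x : Fin n → E3, ∀ j, y ≠ x j := by
    rw [ae_all_iff]
    intro j
    have : volume {x : Fin n → E3 | x j = y} = 0 := by
      rw [volume_pi]
      exact Measure.pi_hyperplane (fun _ : Fin n => (volume : Measure E3)) j y
    rw [ae_iff]
    convert this using 3
    simp [eq_comm]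
  filter_upwards [hae] with x hx
  exact mul_le_mul_of_nonneg_right (h.PP_le hρ Z x hy hx) (by positivity)

theorem C8_meas_PP (Z : ℝ) : Measurable (fun p : E3 × (Fin n → E3) => PP Z p.1 p.2) := by
  unfold PP
  fun_prop

theorem C8_prod {L : ℝ} (hL : 0 < L) {Z : ℝ} (hZ : (n : ℝ) ≤ Z) {φ : WF n} (hφ : CW φ)
    (σ : Fin n → Fin 2) :
    Integrable (fun p : E3 × (Fin n → E3) => PP Z p.1 p.2 * ‖φ σ p.2‖ ^ 2)
      ((volume.restrict (shell L)).prod volume) := by
  have hmφ : Measurable (fun p : E3 × (Fin n → E3) => ‖φ σ p.2‖ ^ 2) :=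
    (((hφ σ).cont.comp continuous_snd).norm.pow 2).measurable
  have hm : Measurable (fun p : E3 × (Fin n → E3) => PP Z p.1 p.2 * ‖φ σ p.2‖ ^ 2) :=
    (C8_meas_PP Z).mul hmφ
  rw [integrable_prod_iff' hm.aestronglyMeasurable]
  have hZ0 : 0 ≤ Z := (Nat.cast_nonneg n).trans hZ
  refine ⟨ae_of_all _ fun x => (shell_PP hL hZ x).1.mul_const (‖φ σ x‖ ^ 2), ?_⟩
  set C : ℝ := ∫ y in shell L, 1 / ‖y‖ with hC
  have hsq := int_sq (hφ σ).cont (hφ σ).comp
  refine Integrable.mono' (hsq.const_mul ((Z + n) * C)) ?_ (ae_of_all _ fun x => ?_)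
  · have := hm.norm.aestronglyMeasurable (μ := (volume.restrict (shell L)).prod
      (volume : Measure (Fin n → E3)))
    exact this.prod_swap.integral_prod_right'
  · rw [Real.norm_of_nonneg (integral_nonneg fun _ => norm_nonneg _)]
    have e1 : ∀ y, ‖PP Z y x * ‖φ σ x‖ ^ 2‖ = |PP Z y x| * ‖φ σ x‖ ^ 2 := by
      intro y
      rw [norm_mul, Real.norm_eq_abs, Real.norm_of_nonneg (by positivity : (0 : ℝ) ≤ ‖φ σ x‖ ^ 2)]
    simp only [e1]
    rw [integral_mul_const]
    refine mul_le_mul_of_nonneg_right ?_ (by positivity)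
    have hi0 : IntegrableOn (fun y : E3 => 1 / ‖y‖) (shell L) := (shell_newton hL 0).2.1
    have hi : IntegrableOn (fun y : E3 => Z * (1 / ‖y‖) + ∑ j, 1 / ‖y - x j‖) (shell L) :=
      (hi0.const_mul Z).add (integrable_finsetSum _ fun j _ => (shell_newton hL (x j)).1)
    calc ∫ y in shell L, |PP Z y x| ≤ ∫ y in shell L, (Z * (1 / ‖y‖) + ∑ j, 1 / ‖y - x j‖) := by
          refine integral_mono_of_nonneg (ae_of_all _ fun _ => abs_nonneg _) hi
            (ae_of_all _ fun y => ?_)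
          show |PP Z y x| ≤ Z * (1 / ‖y‖) + ∑ j, 1 / ‖y - x j‖
          unfold PP
          have h1 : 0 ≤ Z / ‖y‖ := by positivity
          have h2 : 0 ≤ ∑ j, 1 / ‖y - x j‖ := Finset.sum_nonneg fun j _ => by positivity
          have h3 : Z * (1 / ‖y‖) = Z / ‖y‖ := by ring
          rw [h3, abs_le]
          constructor <;> linarith
      _ = Z * C + ∑ j, ∫ y in shell L, 1 / ‖y - x j‖ := by
          rw [integral_add (hi0.const_mul Z)
            (integrable_finsetSum _ fun j _ => (shell_newton hL (x j)).1), integral_const_mul,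
            integral_finsetSum _ fun j _ => (shell_newton hL (x j)).1]
      _ ≤ Z * C + ∑ _j : Fin n, C := by
          gcongr with j _
          exact (shell_newton hL (x j)).2.2
      _ = (Z + n) * C := by
          rw [Finset.sum_const, Finset.card_univ, Fintype.card_fin, nsmul_eq_mul]
          ring

/-- Fubini: `(y, x) ↦ PP Z y x ‖φ σ x‖²` is integrable on `shell L × space`, then `shell_PP` -/
theorem shell_avg {L : ℝ} (hL : 0 < L) {Z : ℝ} (hZ : (n : ℝ) ≤ Z) {φ : WF n} (hφ : CW φ) :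
    IntegrableOn (fun y => ∑ σ, ∫ x, PP Z y x * ‖φ σ x‖ ^ 2) (shell L) ∧
      ∫ y in shell L, (∑ σ, ∫ x, PP Z y x * ‖φ σ x‖ ^ 2) ≤
        -((Z - n) * (volume.real (shell L) / (2 * L))) * nsq φ := by
  have hi : ∀ σ, IntegrableOn (fun y => ∫ x, PP Z y x * ‖φ σ x‖ ^ 2) (shell L) :=
    fun σ => (C8_prod hL hZ hφ σ).integral_prod_left
  refine ⟨integrable_finsetSum _ fun σ _ => hi σ, ?_⟩
  rw [integral_finsetSum _ fun σ _ => hi σ]
  unfold nsq
  rw [Finset.mul_sum]
  refine Finset.sum_le_sum fun σ _ => ?_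
  have hsw : ∫ y in shell L, ∫ x, PP Z y x * ‖φ σ x‖ ^ 2 =
      ∫ x, ∫ y in shell L, PP Z y x * ‖φ σ x‖ ^ 2 :=
    integral_integral_swap (C8_prod hL hZ hφ σ)
  rw [hsw, ← integral_const_mul]
  have hr : Integrable (fun x => ∫ y in shell L, PP Z y x * ‖φ σ x‖ ^ 2) :=
    (C8_prod hL hZ hφ σ).integral_prod_right
  refine integral_mono hr ((int_sq (hφ σ).cont (hφ σ).comp).const_mul _) fun x => ?_
  show ∫ y in shell L, PP Z y x * ‖φ σ x‖ ^ 2 ≤ _
  rw [integral_mul_const]
  exact mul_le_mul_of_nonneg_right (shell_PP hL hZ x).2 (by positivity)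

/-- Tonelli; `U (z - y) ≠ 0` and `y ∈ shell L` imply `‖z‖ ≥ L - ρ ≥ L/2`; `∫ U (z - y) dy = ∫ U` -/
theorem shell_jensen {K ρ L : ℝ} {U : E3 → ℝ} (h : Bump K ρ U) (hρ : 0 < ρ) (hL : ρ ≤ L / 2)
    {B : E3 → ℝ} (hB : ∀ z, 0 ≤ B z) (hBi : Integrable B) :
    IntegrableOn (fun y => ∫ z, U (z - y) * B z) (shell L) ∧
      ∫ y in shell L, ∫ z, U (z - y) * B z ≤
        (∫ w, U w) * ∫ z, (if L / 2 ≤ ‖z‖ then B z else 0) := by
  have hUc : Continuous U := h.smooth.continuous
  have hUi : Integrable U := hUc.integrable_of_hasCompactSupport h.comp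
  have hUi' : ∀ z : E3, Integrable (fun y => U (z - y)) := fun z => hUi.comp_sub_left z
  have hUI : ∀ z : E3, ∫ y, U (z - y) = ∫ w, U w := fun z => integral_sub_left_eq_self U volume z
  have hm : AEStronglyMeasurable (fun p : E3 × E3 => U (p.2 - p.1) * B p.2)
      (volume.prod volume) := by
    refine AEStronglyMeasurable.mul ?_ ?_
    · exact (hUc.comp (continuous_snd.sub continuous_fst)).aestronglyMeasurable
    · exact hBi.aestronglyMeasurable.comp_snd
  have hfull : Integrable (fun p : E3 × E3 => U (p.2 - p.1) * B p.2) (volume.prod volume) := by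
    rw [integrable_prod_iff' hm]
    refine ⟨ae_of_all _ fun z => (hUi' z).mul_const (B z), ?_⟩
    refine (hBi.const_mul (∫ w, U w)).congr (ae_of_all _ fun z => ?_)
    show (∫ w, U w) * B z = ∫ y, ‖U (z - y) * B z‖
    have : ∀ y, ‖U (z - y) * B z‖ = U (z - y) * B z := fun y =>
      Real.norm_of_nonneg (mul_nonneg (h.nonneg _) (hB z))
    simp only [this]
    rw [integral_mul_const, hUI]
  have hres : Integrable (fun p : E3 × E3 => U (p.2 - p.1) * B p.2)
      ((volume.restrict (shell L)).prod volume) := by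
    have := hfull.integrableOn (s := shell L ×ˢ Set.univ)
    rw [IntegrableOn, ← Measure.prod_restrict, Measure.restrict_univ] at this
    exact this
  refine ⟨hres.integral_prod_left, ?_⟩
  have hsw : ∫ y in shell L, ∫ z, U (z - y) * B z = ∫ z, ∫ y in shell L, U (z - y) * B z :=
    integral_integral_swap hres
  rw [hsw, ← integral_const_mul]
  have hset : MeasurableSet {z : E3 | L / 2 ≤ ‖z‖} := measurableSet_le measurable_const
    measurable_norm
  have hBr : Integrable (fun z : E3 => if L / 2 ≤ ‖z‖ then B z else 0) := by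
    have := hBi.indicator hset
    refine this.congr (ae_of_all _ fun z => ?_)
    simp only [Set.indicator, Set.mem_ofPred_eq]
  refine integral_mono hres.integral_prod_right (hBr.const_mul _) fun z => ?_
  show ∫ y in shell L, U (z - y) * B z ≤ (∫ w, U w) * (if L / 2 ≤ ‖z‖ then B z else 0)
  rw [integral_mul_const]
  by_cases hz : L / 2 ≤ ‖z‖
  · rw [if_pos hz]
    refine mul_le_mul_of_nonneg_right ?_ (hB z)
    rw [← hUI z]
    exact setIntegral_le_integral (hUi' z) (ae_of_all _ fun y => h.nonneg _)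
  · rw [if_neg hz, mul_zero]
    have h0 : ∫ y in shell L, U (z - y) = 0 := by
      rw [setIntegral_congr_fun (shell_meas L) (g := fun _ => (0 : ℝ))]
      · simp
      · intro y hy
        have hy1 : L ≤ ‖y‖ := hy.1
        apply h.supp
        have h1 : ‖y‖ - ‖z‖ ≤ ‖z - y‖ := by
          rw [norm_sub_rev]
          exact norm_sub_norm_le y z
        push Not at hz
        linarith
    rw [h0, zero_mul]

end Pool.Agent.H899_CR
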