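import Pool.Agent.H899_CR.Rem
import Pool.Agent.H899_CR.InsIneq
import Pool.Agent.H899_CR.Shell
import Pool.Agent.H5R2.NL.Cut


set_option autoImplicit false

noncomputable section

namespace Pool.Agent.H899_CR

open MeasureTheory

variable {n : ℕ}

/-- TARGET 1 -/
theorem shell_ineq {K ρ : ℝ} {U : E3 → ℝ} (h : Bump K ρ U) (hρ : 0 < ρ) {L : ℝ}
    (hL : ρ ≤ L / 2) {Z : ℝ} (k : ℕ) (hZ : (k : ℝ) + 1 ≤ Z) :
    ∃ K' : ℝ, 0 ≤ K' ∧ ∀ ε : ℝ, 0 ≤ ε → ε ≤ 1 → ∀ φ : WF (k + 1), AS φ → nsq φ = 1 →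
      FW (pot Z 0 (En Z (k + 1) 0)) φ φ ≤ ε →
      (Z - (k + 1)) / (2 * L) - K / ρ ^ 2 - ρ ^ 3 / (7 * L ^ 3) * (((k : ℝ) + 1) *
        ∫ z, (if L / 2 ≤ ‖z‖ then
          FW (pot Z 0 (En Z (k + 1) 0)) (sl 0 z φ) (sl 0 z φ) else 0)) ≤
      (En Z (k + 1) 0 - En Z (k + 2) 0) + ε + K' * √ε := by
  have hL0 : 0 < L := by linarith
  have hZ0 : 0 ≤ Z := by
    have : (0 : ℝ) ≤ k := Nat.cast_nonneg k
    linarith
  obtain ⟨K', hK', hins⟩ := ins_ineq hZ0 k (2 * K / ρ ^ 2)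
  refine ⟨K', hK', ?_⟩
  intro ε hε hε1 φ hφ hn hle
  set e : ℝ := En Z (k + 1) 0 with he
  have hek : e ≤ En Z k 0 := En_succ_le hZ0 k
  set Bq : E3 → ℝ := fun z => FW (pot Z 0 e) (sl 0 z φ) (sl 0 z φ) with hBq
  have hB0 : ∀ z, 0 ≤ Bq z := fun z => FW_nonneg Z Bd.zero hek (hφ.slice 0 z)
  have hBi : Integrable Bq := by
    have h1 := int_slice_form (adm_pot_tl (n := k) Z e) hφ.cw (f := fun _ => (1 : ℝ))
      continuous_const 0
    refine h1.congr (ae_of_all _ fun z => ?_)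
    simp only [one_mul, tl_cns]
    rfl
  set P : E3 → ℝ := fun y => ∑ σ, ∫ x, PP Z y x * ‖φ σ x‖ ^ 2 with hP
  set Q : E3 → ℝ := fun y => ∫ z, U (z - y) * Bq z with hQ
  set I : ℝ := ∫ w, U w with hI
  have hI0 : 0 ≤ I := integral_nonneg fun w => h.nonneg w
  set D : ℝ := En Z (k + 1) 0 - En Z (k + 2) 0 with hD
  have hpt : ∀ y ∈ shell L, 0 ≤ (D + ε + K / ρ ^ 2 + K' * √ε) + P y + ((k : ℝ) + 1) * I * Q y := by
    intro y hy
    have hy1 : L ≤ ‖y‖ := hy.1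
    obtain ⟨u1, u2, u3, u4, u5⟩ := h.trans y
    have h1 := hins ε hε hε1 φ hφ hn hle (fun w => U (w - y)) u1 u2 u3 u4.le
    have h2 := h.PP_avg_le hρ Z (y := y) (by linarith) hφ.cw
    have h3 := jensen Z hek hφ u1.continuous u2 (fun w => h.nonneg _)
    rw [u5] at h3
    rw [u4] at h1
    have h4 := mul_le_mul_of_nonneg_left h3 (show (0 : ℝ) ≤ (k : ℝ) + 1 by positivity)
    have h5 : (1 : ℝ) / 2 * (2 * K / ρ ^ 2) = K / ρ ^ 2 := by ring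
    rw [h5] at h1
    have h6 : ((k : ℝ) + 1) * (I * ∫ z, U (z - y) * Bq z) = ((k : ℝ) + 1) * I * Q y := by
      rw [hQ]; ring
    have h7 : ((k : ℝ) + 1) * (I * ∫ z, U (z - y) *
        FW (pot Z 0 e) (sl 0 z φ) (sl 0 z φ)) = ((k : ℝ) + 1) * I * Q y := h6
    rw [h7] at h4
    have h8 : (∑ σ, ∫ x, PP Z y x * ‖φ σ x‖ ^ 2) = P y := rfl
    rw [h8] at h2
    linarith
  obtain ⟨a1, a2⟩ := shell_avg hL0 (n := k + 1) (Z := Z) (by push_cast; exact hZ) hφ.cw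
  obtain ⟨b1, b2⟩ := shell_jensen h hρ hL hB0 hBi
  obtain ⟨v1, v2⟩ := shell_vol hL0
  set A : ℝ := volume.real (shell L) with hA
  have hpi := Real.pi_pos
  have hA0 : 0 < A := by rw [v2]; positivity
  set J : ℝ := ∫ z, (if L / 2 ≤ ‖z‖ then Bq z else 0) with hJ
  have hJ0 : 0 ≤ J := integral_nonneg fun z => by
    simp only [Pi.zero_apply]
    split_ifs
    · exact hB0 z
    · exact le_refl _
  have hconst : IntegrableOn (fun _ : E3 => D + ε + K / ρ ^ 2 + K' * √ε) (shell L) :=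
    integrableOn_const v1
  have hint : 0 ≤ ∫ y in shell L, ((D + ε + K / ρ ^ 2 + K' * √ε) + P y + ((k : ℝ) + 1) * I * Q y) :=
    setIntegral_nonneg (shell_meas L) hpt
  have hadd1 : IntegrableOn (fun y => (D + ε + K / ρ ^ 2 + K' * √ε) + P y) (shell L) :=
    hconst.add a1
  have hadd2 : IntegrableOn (fun y => ((k : ℝ) + 1) * I * Q y) (shell L) := b1.const_mul _
  rw [integral_add hadd1 hadd2, integral_add hconst a1, integral_const_mul] at hint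
  rw [setIntegral_const, smul_eq_mul, ← hA] at hint
  have hPle : ∫ y in shell L, P y ≤ -((Z - (k + 1)) * (A / (2 * L))) := by
    have := a2
    rw [hn, mul_one] at this
    push_cast at this
    exact this
  have hQle : ∫ y in shell L, Q y ≤ I * J := b2
  have hk0 : (0 : ℝ) ≤ (k : ℝ) + 1 := by positivity
  have hQle' : ((k : ℝ) + 1) * I * ∫ y in shell L, Q y ≤ ((k : ℝ) + 1) * (4 * Real.pi / 3 * ρ ^ 3) * J := by
    calc ((k : ℝ) + 1) * I * ∫ y in shell L, Q y ≤ ((k : ℝ) + 1) * I * (I * J) :=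
          mul_le_mul_of_nonneg_left hQle (by positivity)
      _ = ((k : ℝ) + 1) * (I ^ 2) * J := by ring
      _ ≤ ((k : ℝ) + 1) * (4 * Real.pi / 3 * ρ ^ 3) * J := by
          apply mul_le_mul_of_nonneg_right _ hJ0
          exact mul_le_mul_of_nonneg_left (h.int_sq_le hρ) hk0
  have hfin : 0 ≤ A * (D + ε + K / ρ ^ 2 + K' * √ε) + -((Z - (k + 1)) * (A / (2 * L)))
      + ((k : ℝ) + 1) * (4 * Real.pi / 3 * ρ ^ 3) * J := by linarith
  have hdiv : ((k : ℝ) + 1) * (4 * Real.pi / 3 * ρ ^ 3) * J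
      = A * (ρ ^ 3 / (7 * L ^ 3) * (((k : ℝ) + 1) * J)) := by
    rw [v2]; field_simp; ring
  have hdiv2 : (Z - (k + 1)) * (A / (2 * L)) = A * ((Z - (k + 1)) / (2 * L)) := by ring
  rw [hdiv, hdiv2] at hfin
  have hfin2 : 0 ≤ A * ((D + ε + K / ρ ^ 2 + K' * √ε) - ((Z - (k + 1)) / (2 * L))
      + (ρ ^ 3 / (7 * L ^ 3) * (((k : ℝ) + 1) * J))) := by
    have e : A * ((D + ε + K / ρ ^ 2 + K' * √ε) - ((Z - (k + 1)) / (2 * L))
      + (ρ ^ 3 / (7 * L ^ 3) * (((k : ℝ) + 1) * J))) = A * (D + ε + K / ρ ^ 2 + K' * √ε) +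
      -(A * ((Z - (k + 1)) / (2 * L))) + A * (ρ ^ 3 / (7 * L ^ 3) * (((k : ℝ) + 1) * J)) := by ring
    rw [e]; exact hfin
  have hfin3 := nonneg_of_mul_nonneg_right hfin2 hA0
  linarith

/-- the cut-off function -/
theorem F5_cut : ∃ C : ℝ, 0 < C ∧ ∀ L : ℝ, 0 < L → ∃ f : E3 → ℝ, ContDiff ℝ 1 f ∧
    (∀ y, 0 ≤ f y) ∧ (∀ y, f y ≤ 1) ∧ (∀ y, ‖y‖ ≤ L / 4 → f y = 0) ∧
    (∀ y, L / 2 ≤ ‖y‖ → f y = 1) ∧ (∀ y, ‖fderiv ℝ f y‖ ≤ 4 * C / L) := by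
  obtain ⟨C, hC, hcut⟩ := Pool.Agent.H5R2.NL.cutoff
  refine ⟨C, hC, fun L hL => ?_⟩
  obtain ⟨χ, h1, h2, h3, h4, h5, h6⟩ := hcut 0 (L / 4) (by positivity)
  refine ⟨fun y => 1 - χ y, ?_, ?_, ?_, ?_, ?_, ?_⟩
  · exact contDiff_const.sub (h1.of_le (by norm_num))
  · intro y; have := h3 y; linarith
  · intro y; have := h2 y; linarith
  · intro y hy
    have := h4 y (by simpa using hy)
    simp [this]
  · intro y hy
    have := h5 y (by rw [sub_zero]; linarith)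
    simp [this]
  · intro y
    have e : fderiv ℝ (fun y => 1 - χ y) y = -fderiv ℝ χ y := by
      rw [fderiv_const_sub]
    rw [e, norm_neg]
    have := h6 y
    have e2 : C / (L / 4) = 4 * C / L := by field_simp
    rw [e2] at this
    exact this

theorem F5_gs {f : E3 → ℝ} (hf : ContDiff ℝ 1 f) {L B : ℝ}
    (h0 : ∀ y, ‖y‖ ≤ L / 4 → f y = 0) (hB : ∀ y, ‖fderiv ℝ f y‖ ≤ B) (y : E3) :
    gs f y ≤ 3 * B ^ 2 * stp (L / 4) y := by
  unfold stp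
  split_ifs with h
  · rw [mul_one]
    exact (Bd.gs hf hB).2 y
  · push Not at h
    have h1 : f =ᶠ[nhds y] fun _ => 0 := by
      have hopen : IsOpen {z : E3 | ‖z‖ < L / 4} := isOpen_lt continuous_norm continuous_const
      filter_upwards [hopen.mem_nhds h] with z hz
      exact h0 z (le_of_lt hz)
    have h2 : fderiv ℝ f y = 0 := by
      rw [h1.fderiv_eq]
      simp
    unfold gs
    rw [h2]
    simp

theorem F5_sq {f : E3 → ℝ} {L : ℝ} (h1 : ∀ y, 0 ≤ f y) (h2 : ∀ y, f y ≤ 1)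
    (h0 : ∀ y, ‖y‖ ≤ L / 4 → f y = 0) (y : E3) : f y ^ 2 ≤ stp (L / 4) y := by
  unfold stp
  split_ifs with h
  · have := h1 y; have := h2 y; nlinarith
  · push Not at h
    rw [h0 y h.le]; norm_num

theorem F5_DT_nonneg (Z : ℝ) (k : ℕ) {κ t : ℝ} (hκ : 0 ≤ κ) (ht : 0 ≤ t) : 0 ≤ DT Z k κ t := by
  unfold DT
  have h := En_mono (n := k) Z Bd.zero ((Bd.mn t).const_mul κ)
    (fun y => by simpa using mul_nonneg hκ (mn_nonneg ht y))
  linarith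

/-- the outside density of a near minimizer -/
theorem F5_den (Z : ℝ) (m : ℕ) {μ : ℝ} (hμ : 0 < μ) (s : ℝ) {ε : ℝ} {φ : WF m} (hφ : AS φ)
    (hn : nsq φ = 1) (hle : FW (pot Z 0 (En Z m 0)) φ φ ≤ ε) :
    den (stp s) φ ≤ (DD Z m μ s + ε) / μ := by
  have h1 := En_le Z ((Bd.stp s).const_mul μ) hφ
  rw [hn, mul_one, FW_pot Z ((Bd.stp s).const_mul μ) 0 hφ.cw, den_const_mul, hn] at h1
  rw [FW_pot_e Z _ hφ.cw, hn, FW_pot Z Bd.zero 0 hφ.cw, hn] at hle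
  have h2 : den (0 : E3 → ℝ) φ = 0 := by
    unfold den; simp
  rw [h2] at hle
  rw [le_div_iff₀ hμ]
  unfold DD
  linarith

/-- TARGET 2, the estimate of the quadratic forms of the slices -/
theorem F5_Y {C : ℝ} {L : ℝ} (hL : 0 < L) {f : E3 → ℝ} (hf : ContDiff ℝ 1 f)
    (f0 : ∀ y, 0 ≤ f y) (f1 : ∀ y, f y ≤ 1) (f2 : ∀ y, ‖y‖ ≤ L / 4 → f y = 0)
    (f3 : ∀ y, L / 2 ≤ ‖y‖ → f y = 1) (f4 : ∀ y, ‖fderiv ℝ f y‖ ≤ 4 * C / L)
    {Z : ℝ} (hZ : 0 ≤ Z) (k : ℕ) {μ : ℝ} (hμ : 0 < μ) {B : ℝ} (hB0 : 0 ≤ B)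
    (hB : ∀ t, L / 4 ≤ t → (Z - k) / t + 1 / 2 * DT Z k (2 / t ^ 2) t ≤ B) :
    ∃ K' : ℝ, 0 ≤ K' ∧ ∀ ε : ℝ, 0 ≤ ε → ε ≤ 1 → ∀ φ : WF (k + 1), AS φ → nsq φ = 1 →
      FW (pot Z 0 (En Z (k + 1) 0)) φ φ ≤ ε →
      ((k : ℝ) + 1) * ∫ z, (if L / 2 ≤ ‖z‖ then
          FW (pot Z 0 (En Z (k + 1) 0)) (sl 0 z φ) (sl 0 z φ) else 0) ≤
      (2 * B + 48 * C ^ 2 / L ^ 2) * ((DD Z (k + 1) μ (L / 4) + ε) / μ) + K' * √ε := by
  obtain ⟨K'', hK'', hrem⟩ := rem_main Z k Bd.zero hf (B := max 1 (4 * C / L))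
    (fun y => by rw [abs_of_nonneg (f0 y)]; exact (f1 y).trans (le_max_left _ _))
    (fun y => (f4 y).trans (le_max_right _ _))
  refine ⟨2 * K'', by positivity, ?_⟩
  intro ε hε hε1 φ hφ hn hle
  have h1 := hrem ε hε hε1 φ hφ hn hle
  set e : ℝ := En Z (k + 1) 0 with he
  have hek : e ≤ En Z k 0 := En_succ_le hZ k
  have hfc : Continuous f := hf.continuous
  have hf2c : Continuous (fun y => f y ^ 2) := hfc.pow 2
  set Bq : Fin 2 → E3 → ℝ := fun τ z => FW (pot Z 0 e) (sl τ z φ) (sl τ z φ) with hBq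
  have hBq0 : ∀ τ z, 0 ≤ Bq τ z := fun τ z => FW_nonneg Z Bd.zero hek (hφ.slice τ z)
  have hBi : ∀ τ, Integrable (fun z => f z ^ 2 * Bq τ z) := by
    intro τ
    have h1 := int_slice_form (adm_pot_tl (n := k) Z e) hφ.cw hf2c τ
    refine h1.congr (ae_of_all _ fun z => ?_)
    simp only [tl_cns]
    rfl
  have hBi1 : ∀ τ, Integrable (fun z => Bq τ z) := by
    intro τ
    have h1 := int_slice_form (adm_pot_tl (n := k) Z e) hφ.cw (f := fun _ => (1 : ℝ))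
      continuous_const τ
    refine h1.congr (ae_of_all _ fun z => ?_)
    simp only [one_mul, tl_cns]
    rfl
  have hMi : ∀ τ, Integrable (fun z => f z ^ 2 *
      FW (fun x => pot Z 0 e (cns z x)) (sl τ z φ) (sl τ z φ)) := by
    intro τ
    exact int_slice_form (adm_pot (n := k + 1) Z Bd.zero e) hφ.cw hf2c τ
  have hfbd : Bd (fun y => f y ^ 2) := ⟨hf2c.measurable, 1, fun y => by
    rw [abs_of_nonneg (by positivity)]
    have := f0 y; have := f1 y; nlinarith⟩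
  have hNi : ∀ τ, Integrable (fun z => f z ^ 2 * nsq (sl τ z φ)) := by
    intro τ
    have h1 := int_slice_form (Adm.const (n := k + 1) 1) hφ.cw hf2c τ
    have h0 := int_slice_form (Adm.const (n := k + 1) 0) hφ.cw hf2c τ
    refine (h1.sub h0).congr (ae_of_all _ fun z => ?_)
    simp only [Pi.sub_apply]
    have hc : CW (sl τ z φ) := hφ.cw.slice τ z
    have e1 := FW_add_pot (n := k) (Adm.const 0) (Adm.const 1) hc hc
    have e2 : (∑ σ, ∫ x, (1 : ℝ) * rp (sl τ z φ σ x) (sl τ z φ σ x)) = nsq (sl τ z φ) := by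
      unfold nsq
      refine Finset.sum_congr rfl fun σ _ => integral_congr_ae (ae_of_all _ fun x => ?_)
      simp only [one_mul, rp_self]
    rw [e2] at e1
    simp only [zero_add] at e1
    rw [e1]
    ring
  have hpt : ∀ τ z, 1 / 2 * (f z ^ 2 * Bq τ z) - B * (f z ^ 2 * nsq (sl τ z φ)) ≤
      f z ^ 2 * FW (fun x => pot Z 0 e (cns z x)) (sl τ z φ) (sl τ z φ) := by
    intro τ z
    by_cases hfz : f z = 0
    · simp [hfz]
    · have hz : L / 4 < ‖z‖ := by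
        by_contra hcon
        push Not at hcon
        exact hfz (f2 z hcon)
      have hz0 : 0 < ‖z‖ := lt_trans (by positivity) hz
      have h2 := slice_B Z hek hz0 (hφ.slice τ z)
      have h3 := mul_le_mul_of_nonneg_right (hB ‖z‖ hz.le) (nsq_nonneg (sl τ z φ))
      have h4 : 1 / 2 * Bq τ z - B * nsq (sl τ z φ) ≤
          FW (fun x => pot Z 0 e (cns z x)) (sl τ z φ) (sl τ z φ) := by
        have h5 : Bq τ z = FW (pot Z 0 e) (sl τ z φ) (sl τ z φ) := rfl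
        rw [h5]
        linarith
      have h6 := mul_le_mul_of_nonneg_left h4 (sq_nonneg (f z))
      linarith
  have hI : ∀ τ, 1 / 2 * (∫ z, f z ^ 2 * Bq τ z) - B * (∫ z, f z ^ 2 * nsq (sl τ z φ)) ≤
      ∫ z, f z ^ 2 * FW (fun x => pot Z 0 e (cns z x)) (sl τ z φ) (sl τ z φ) := by
    intro τ
    rw [← integral_const_mul, ← integral_const_mul, ← integral_sub ((hBi τ).const_mul _)
      ((hNi τ).const_mul _)]
    exact integral_mono (((hBi τ).const_mul _).sub ((hNi τ).const_mul _)) (hMi τ)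
      (fun z => hpt τ z)
  have hk0 : (0 : ℝ) ≤ (k : ℝ) + 1 := by positivity
  set Y : ℝ := ((k : ℝ) + 1) * ∑ τ, ∫ z, f z ^ 2 * Bq τ z with hY
  have hden : den (fun y => f y ^ 2) φ = ((k : ℝ) + 1) * ∑ τ, ∫ z, f z ^ 2 * nsq (sl τ z φ) :=
    den_slice hφ hfbd
  have hsum : 1 / 2 * Y - B * den (fun y => f y ^ 2) φ ≤
      ((k : ℝ) + 1) * ∑ τ, ∫ z, f z ^ 2 *
        FW (fun x => pot Z 0 e (cns z x)) (sl τ z φ) (sl τ z φ) := by
    have h2 : ∑ τ, (1 / 2 * (∫ z, f z ^ 2 * Bq τ z) - B * (∫ z, f z ^ 2 * nsq (sl τ z φ))) ≤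
        ∑ τ, ∫ z, f z ^ 2 * FW (fun x => pot Z 0 e (cns z x)) (sl τ z φ) (sl τ z φ) :=
      Finset.sum_le_sum fun τ _ => hI τ
    have h3 := mul_le_mul_of_nonneg_left h2 hk0
    have h4 : ((k : ℝ) + 1) * ∑ τ, (1 / 2 * (∫ z, f z ^ 2 * Bq τ z) -
        B * (∫ z, f z ^ 2 * nsq (sl τ z φ))) = 1 / 2 * Y - B * den (fun y => f y ^ 2) φ := by
      rw [hden, hY, Finset.sum_sub_distrib, ← Finset.mul_sum, ← Finset.mul_sum]
      ring
    rw [h4] at h3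
    exact h3
  have hs1 : den (fun y => f y ^ 2) φ ≤ den (stp (L / 4)) φ :=
    den_mono hfbd (Bd.stp _) (F5_sq f0 f1 f2) hφ.cw
  have hs2 : den (gs f) φ ≤ 48 * C ^ 2 / L ^ 2 * den (stp (L / 4)) φ := by
    have h2 := den_mono (Bd.gs hf f4).1 ((Bd.stp (L / 4)).const_mul (3 * (4 * C / L) ^ 2))
      (F5_gs hf f2 f4) hφ.cw
    rw [den_const_mul] at h2
    have e3 : 3 * (4 * C / L) ^ 2 = 48 * C ^ 2 / L ^ 2 := by ring
    rw [e3] at h2
    exact h2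
  have hs3 := F5_den Z (k + 1) hμ (L / 4) hφ hn hle
  have hYle : Y ≤ (2 * B + 48 * C ^ 2 / L ^ 2) * den (stp (L / 4)) φ + 2 * K'' * √ε := by
    have h5 := mul_le_mul_of_nonneg_left hs1 hB0
    linarith
  have hYle2 : Y ≤ (2 * B + 48 * C ^ 2 / L ^ 2) * ((DD Z (k + 1) μ (L / 4) + ε) / μ)
      + 2 * K'' * √ε := by
    have h6 : 0 ≤ 2 * B + 48 * C ^ 2 / L ^ 2 := by positivity
    have h7 := mul_le_mul_of_nonneg_left hs3 h6
    linarith
  refine le_trans ?_ hYle2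
  rw [hY]
  apply mul_le_mul_of_nonneg_left _ hk0
  rw [Fin.sum_univ_two]
  have hset : MeasurableSet {z : E3 | L / 2 ≤ ‖z‖} := measurableSet_le measurable_const
    measurable_norm
  have hBr : Integrable (fun z : E3 => if L / 2 ≤ ‖z‖ then Bq 0 z else 0) := by
    have := (hBi1 0).indicator hset
    refine this.congr (ae_of_all _ fun z => ?_)
    simp only [Set.indicator, Set.mem_ofPred_eq]
  have h8 : ∫ z, (if L / 2 ≤ ‖z‖ then Bq 0 z else 0) ≤ ∫ z, f z ^ 2 * Bq 0 z := by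
    refine integral_mono hBr (hBi 0) fun z => ?_
    show (if L / 2 ≤ ‖z‖ then Bq 0 z else 0) ≤ f z ^ 2 * Bq 0 z
    split_ifs with hz
    · rw [f3 z hz]; simp
    · exact mul_nonneg (sq_nonneg _) (hBq0 0 z)
  have h9 : 0 ≤ ∫ z, f z ^ 2 * Bq 1 z :=
    integral_nonneg fun z => mul_nonneg (sq_nonneg _) (hBq0 1 z)
  have h10 : (∫ z, (if L / 2 ≤ ‖z‖ then FW (pot Z 0 e) (sl 0 z φ) (sl 0 z φ) else 0))
      = ∫ z, (if L / 2 ≤ ‖z‖ then Bq 0 z else 0) := rfl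
  linarith

/-- the limit `ε → 0` -/
theorem F5_lim {X a b : ℝ} (ha : 0 ≤ a) (hb : 0 ≤ b)
    (h : ∀ ε : ℝ, 0 < ε → ε ≤ 1 → X ≤ a * ε + b * √ε) : X ≤ 0 := by
  by_contra hX
  push Not at hX
  set s : ℝ := min 1 (X / (2 * (a + b + 1))) with hs
  have hab : 0 < 2 * (a + b + 1) := by positivity
  have hs0 : 0 < s := lt_min one_pos (div_pos hX hab)
  have hs1 : s ≤ 1 := min_le_left _ _
  have hs2 : s ≤ X / (2 * (a + b + 1)) := min_le_right _ _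
  rw [le_div_iff₀ hab] at hs2
  have h1 := h (s ^ 2) (by positivity) (by nlinarith)
  rw [Real.sqrt_sq hs0.le] at h1
  have h2 : s ^ 2 ≤ s := by nlinarith
  have h3 : a * s ^ 2 ≤ a * s := mul_le_mul_of_nonneg_left h2 ha
  nlinarith

/-- TARGET 2 -/
theorem ion_succ {K : ℝ} (hK : 0 < K) (hb : ∀ ρ : ℝ, 0 < ρ → ∃ U : E3 → ℝ, Bump K ρ U) :
    ∃ K1 : ℝ, 0 < K1 ∧ ∀ Z : ℝ, ∀ k : ℕ, ∀ q : ℝ, q = Z - (k + 1) → 0 < q → ∀ L, 0 < L →
    32 * K ≤ q * L → ∀ μ, 0 < μ →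
    ∀ B, (∀ t, L / 4 ≤ t → (q + 1) / t + 1 / 2 * DT Z k (2 / t ^ 2) t ≤ B) →
    3 * q / (8 * L) -
        K1 / (q * L) ^ (3 / 2 : ℝ) * (DD Z (k + 1) μ (L / 4) / μ) * (B + 1 / L ^ 2) ≤
      En Z (k + 1) 0 - En Z (k + 2) 0 := by
  obtain ⟨C, hC, hcut⟩ := F5_cut
  refine ⟨(8 * K) ^ (3 / 2 : ℝ) / 7 * (2 + 48 * C ^ 2), by positivity, ?_⟩
  intro Z k q hq hq0 L hL hKL μ hμ B hB
  have hk0 : (0 : ℝ) ≤ k := Nat.cast_nonneg k
  have hZ1 : (k : ℝ) + 1 ≤ Z := by linarith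
  have hZ0 : 0 ≤ Z := by linarith
  have hB' : ∀ t, L / 4 ≤ t → (Z - k) / t + 1 / 2 * DT Z k (2 / t ^ 2) t ≤ B := by
    intro t ht
    have := hB t ht
    have e : q + 1 = Z - k := by rw [hq]; ring
    rwa [e] at this
  have hB0 : 0 ≤ B := by
    have h1 := hB (L / 4) (le_refl _)
    have h2 : 0 ≤ (q + 1) / (L / 4) := by positivity
    have h3 := F5_DT_nonneg Z k (κ := 2 / (L / 4) ^ 2) (t := L / 4) (by positivity) (by positivity)
    linarith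
  obtain ⟨f, hf, f0, f1, f2, f3, f4⟩ := hcut L hL
  obtain ⟨K', hK', hY⟩ := F5_Y hL hf f0 f1 f2 f3 f4 hZ0 k hμ hB0 hB'
  -- the radius
  set ρ : ℝ := √(8 * K * L / q) with hρdef
  have hρ2 : ρ ^ 2 = 8 * K * L / q := Real.sq_sqrt (by positivity)
  have hρ0 : 0 < ρ := Real.sqrt_pos.2 (by positivity)
  have hρL : ρ ≤ L / 2 := by
    apply le_of_sq_le_sq _ (by positivity)
    rw [hρ2, div_le_iff₀ hq0]
    nlinarith
  have hKρ : K / ρ ^ 2 = q / (8 * L) := by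
    rw [hρ2]; field_simp
  obtain ⟨U, hU⟩ := hb ρ hρ0
  obtain ⟨K2, hK2, hsh⟩ := shell_ineq hU hρ0 hρL k hZ1
  set c : ℝ := ρ ^ 3 / (7 * L ^ 3) with hc
  have hc0 : 0 ≤ c := by positivity
  have hceq : c = (8 * K) ^ (3 / 2 : ℝ) / 7 / (q * L) ^ (3 / 2 : ℝ) := by
    have hrp : ∀ x : ℝ, 0 ≤ x → x ^ (3 / 2 : ℝ) = √x ^ 3 := by
      intro x hx
      rw [Real.sqrt_eq_rpow, ← Real.rpow_natCast, ← Real.rpow_mul hx]
      norm_num
    have hqL : 0 < q * L := by positivity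
    rw [hrp _ (by positivity), hrp _ hqL.le]
    have hs : 0 < √(q * L) := Real.sqrt_pos.2 hqL
    have h1 : ρ = √(8 * K) / √(q * L) * L := by
      have h2 : 8 * K * L / q = 8 * K / (q * L) * L ^ 2 := by field_simp
      rw [hρdef, h2, Real.sqrt_mul (by positivity), Real.sqrt_sq hL.le,
        Real.sqrt_div (by positivity)]
    rw [hc, h1]
    field_simp
  set D : ℝ := En Z (k + 1) 0 - En Z (k + 2) 0 with hD
  set E : ℝ := DD Z (k + 1) μ (L / 4) with hE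
  have hE0 : 0 ≤ E := DD_nonneg Z (k + 1) hμ.le _
  set b : ℝ := 2 * B + 48 * C ^ 2 / L ^ 2 with hbdef
  have hb0 : 0 ≤ b := by positivity
  have hmain : 3 * q / (8 * L) - c * (b * (E / μ)) - D ≤ 0 := by
    apply F5_lim (a := 1 + c * (b / μ)) (b := K2 + c * K') (by positivity) (by positivity)
    intro ε hε hε1
    obtain ⟨φ, hφ, hn, hnear⟩ := En_near Z (k + 1) (v := 0) hε
    have hle : FW (pot Z 0 (En Z (k + 1) 0)) φ φ ≤ ε := by
      rw [FW_pot_e Z _ hφ.cw, hn]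
      linarith
    have g1 := hsh ε hε.le hε1 φ hφ hn hle
    have g2 := hY ε hε.le hε1 φ hφ hn hle
    have g3 := mul_le_mul_of_nonneg_left g2 hc0
    rw [hKρ] at g1
    have e0 : Z - ((k : ℝ) + 1) = q := hq.symm
    rw [e0] at g1
    have e1 : q / (2 * L) - q / (8 * L) = 3 * q / (8 * L) := by field_simp; norm_num
    have e2 : c * (b * ((E + ε) / μ) + K' * √ε) = c * (b * (E / μ)) + c * (b / μ) * ε + c * K' * √ε := by
      field_simp
    rw [e2] at g3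
    linarith
  have hbb : b ≤ (2 + 48 * C ^ 2) * (B + 1 / L ^ 2) := by
    have h1 : 0 ≤ 1 / L ^ 2 := by positivity
    have h2 : 48 * C ^ 2 / L ^ 2 = 48 * C ^ 2 * (1 / L ^ 2) := by ring
    rw [hbdef, h2]
    nlinarith [mul_nonneg (show 0 ≤ 48 * C ^ 2 by positivity) hB0]
  have hfin : c * (b * (E / μ)) ≤
      (8 * K) ^ (3 / 2 : ℝ) / 7 * (2 + 48 * C ^ 2) / (q * L) ^ (3 / 2 : ℝ) * (E / μ) * (B + 1 / L ^ 2) := by
    have h1 : b * (E / μ) ≤ (2 + 48 * C ^ 2) * (B + 1 / L ^ 2) * (E / μ) :=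
      mul_le_mul_of_nonneg_right hbb (by positivity)
    have h2 := mul_le_mul_of_nonneg_left h1 hc0
    refine h2.trans (le_of_eq ?_)
    rw [hceq]
    ring
  linarith

end Pool.Agent.H899_CR
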