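import Pool.Agent.H899_CR.Rem
import Pool.Agent.H5R2.NL.Cut


set_option autoImplicit false

noncomputable section

namespace Pool.Agent.H899_CR

open MeasureTheory

variable {n : ℕ}

namespace F3

/-- the cutoff function -/
theorem exists_f {C : ℝ} (hC : 0 < C) (hcut : ∀ (w : E3) (r : ℝ), 0 < r → ∃ χ : E3 → ℝ,
    ContDiff ℝ ((⊤ : ℕ∞) : WithTop ℕ∞) χ ∧ (∀ x, 0 ≤ χ x) ∧ (∀ x, χ x ≤ 1) ∧
    (∀ x, ‖x - w‖ ≤ r → χ x = 1) ∧ (∀ x, 2 * r ≤ ‖x - w‖ → χ x = 0) ∧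
    ∀ x, ‖fderiv ℝ χ x‖ ≤ C / r) {s : ℝ} (hs : 0 < s) :
    ∃ f : E3 → ℝ, ContDiff ℝ 1 f ∧ (∀ y, 0 ≤ f y) ∧ (∀ y, f y ≤ 1) ∧
      (∀ y, ‖y‖ ≤ s / 2 → f y = 0) ∧ (∀ y, s ≤ ‖y‖ → f y = 1) ∧
      ∀ y, ‖fderiv ℝ f y‖ ≤ 2 * C / s := by
  obtain ⟨χ, h1, h2, h3, h4, h5, h6⟩ := hcut 0 (s / 2) (by positivity)
  refine ⟨fun y => 1 - χ y, ?_, ?_, ?_, ?_, ?_, ?_⟩
  · exact contDiff_const.sub (h1.of_le (by exact_mod_cast le_top))
  · intro y; have := h3 y; simp only; linarith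
  · intro y; have := h2 y; simp only; linarith
  · intro y hy
    simp only
    rw [h4 y (by rwa [sub_zero]), sub_self]
  · intro y hy
    simp only
    rw [h5 y (by rw [sub_zero]; linarith), sub_zero]
  · intro y
    have e : fderiv ℝ (fun y => 1 - χ y) y = - fderiv ℝ χ y := by
      rw [fderiv_const_sub]
    rw [e, norm_neg]
    refine (h6 y).trans (le_of_eq ?_)
    field_simp

theorem gs_le {C s : ℝ} (hC : 0 < C) (hs : 0 < s) {f : E3 → ℝ} (hf : ContDiff ℝ 1 f)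
    (hfz : ∀ y, ‖y‖ ≤ s / 2 → f y = 0) (hfd : ∀ y, ‖fderiv ℝ f y‖ ≤ 2 * C / s) (y : E3) :
    gs f y ≤ 12 * C ^ 2 / s ^ 2 * stp (s / 2) y := by
  by_cases hy : s / 2 ≤ ‖y‖
  · have h1 := (Bd.gs hf hfd).2 y
    have h2 : stp (s / 2) y = 1 := by unfold stp; rw [if_pos hy]
    rw [h2, mul_one]
    refine h1.trans (le_of_eq ?_)
    field_simp
    ring
  · push Not at hy
    have h2 : stp (s / 2) y = 0 := by unfold stp; rw [if_neg (not_le.2 hy)]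
    rw [h2, mul_zero]
    have h3 : f =ᶠ[nhds y] fun _ => (0 : ℝ) := by
      have : {x : E3 | ‖x‖ < s / 2} ∈ nhds y :=
        (isOpen_lt continuous_norm continuous_const).mem_nhds hy
      filter_upwards [this] with x hx
      exact hfz x (le_of_lt hx)
    have h4 : fderiv ℝ f y = 0 := by
      rw [h3.fderiv_eq, fderiv_const_apply]
    unfold gs
    rw [h4]
    simp

theorem lower_slice (Z : ℝ) (k : ℕ) {μ s θ B : ℝ} (hμ : 0 < μ) (hs : 0 < s) (hθ : 0 < θ)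
    (hθ1 : θ ≤ 1) (hB : ∀ t, s / 2 ≤ t →
      θ / 2 * (DD Z k (2 * μ) s + DT Z k (2 / (θ * t ^ 2)) t) + (Z - k) / t ≤ B)
    (e : ℝ) {z : E3} (hz : s / 2 ≤ ‖z‖) {χ : WF k} (hχ : AS χ) :
    (En Z k (fun y => μ * stp s y) - B - μ - e) * nsq χ ≤
      FW (fun x => pot Z (fun y => μ * stp s y) e (cns z x)) χ χ := by
  have hz0 : 0 < ‖z‖ := lt_of_lt_of_le (by positivity) hz
  have hv : Bd (fun y => μ * stp s y) := (Bd.stp s).const_mul μ
  have h1 := slice_C Z hv e hz0 hχ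
  have h2 := DD_joint Z k (κ := 1 / ‖z‖ ^ 2) hμ.le (by positivity) hθ hθ1 s ‖z‖ hz0
  have h3 := hB ‖z‖ hz
  have e1 : 2 * (1 / ‖z‖ ^ 2) / θ = 2 / (θ * ‖z‖ ^ 2) := by field_simp
  rw [e1] at h2
  have h4 : μ * stp s z ≤ μ := by nlinarith [stp_le_one s z]
  refine le_trans (mul_le_mul_of_nonneg_right ?_ (nsq_nonneg χ)) h1
  linarith

theorem main_bound {f : E3 → ℝ} {s C : ℝ} (hC : 0 < C) (hf : ContDiff ℝ 1 f)
    (hf0 : ∀ y, 0 ≤ f y) (hf1 : ∀ y, f y ≤ 1)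
    (hfz : ∀ y, ‖y‖ ≤ s / 2 → f y = 0) (hfd : ∀ y, ‖fderiv ℝ f y‖ ≤ 2 * C / s)
    (Z : ℝ) (k : ℕ) {μ θ B : ℝ} (hμ : 0 < μ) (hs : 0 < s) (hθ : 0 < θ)
    (hθ1 : θ ≤ 1) (hB : ∀ t, s / 2 ≤ t →
      θ / 2 * (DD Z k (2 * μ) s + DT Z k (2 / (θ * t ^ 2)) t) + (Z - k) / t ≤ B) :
    ∃ K : ℝ, 0 ≤ K ∧ ∀ ε : ℝ, 0 ≤ ε → ε ≤ 1 → ∀ φ : WF (k + 1), AS φ → nsq φ = 1 →
      FW (pot Z (fun y => μ * stp s y) (En Z (k + 1) (fun y => μ * stp s y))) φ φ ≤ ε →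
      (En Z k (fun y => μ * stp s y) - B - μ - En Z (k + 1) (fun y => μ * stp s y)) *
        den (fun y => f y ^ 2) φ ≤ 6 * C ^ 2 / s ^ 2 * den (stp (s / 2)) φ + K * √ε := by
  have hv : Bd (fun y => μ * stp s y) := (Bd.stp s).const_mul μ
  set e := En Z (k + 1) (fun y => μ * stp s y) with he
  set X := En Z k (fun y => μ * stp s y) - B - μ - e with hX
  have hfB : ∀ y, |f y| ≤ 1 + 2 * C / s := by
    intro y
    rw [abs_of_nonneg (hf0 y)]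
    have : 0 ≤ 2 * C / s := by positivity
    linarith [hf1 y]
  obtain ⟨K, hK, hrem⟩ := rem_main Z k hv hf hfB (fun y => (hfd y).trans (by linarith))
  refine ⟨K, hK, fun ε hε hε1 φ hφ hn hle => ?_⟩
  have h1 := hrem ε hε hε1 φ hφ hn hle
  have hf2 : Bd (fun y => f y ^ 2) := by
    refine ⟨(hf.continuous.pow 2).measurable, 1, fun y => ?_⟩
    rw [abs_of_nonneg (by positivity)]
    exact pow_le_one₀ (hf0 y) (hf1 y)
  have hadm : Adm (pot (n := k + 1) Z (fun y => μ * stp s y) e) := adm_pot Z hv e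
  have h2 : X * den (fun y => f y ^ 2) φ ≤ ((k : ℝ) + 1) * ∑ τ, ∫ z, f z ^ 2 *
      FW (fun x => pot Z (fun y => μ * stp s y) e (cns z x)) (sl τ z φ) (sl τ z φ) := by
    rw [den_slice hφ hf2, mul_left_comm]
    refine mul_le_mul_of_nonneg_left ?_ (by positivity)
    rw [Finset.mul_sum]
    refine Finset.sum_le_sum fun τ _ => ?_
    rw [← integral_const_mul]
    refine integral_mono ?_ (int_slice_form hadm hφ.cw (f := fun z => f z ^ 2)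
      (hf.continuous.pow 2) τ) ?_
    · refine Integrable.const_mul ?_ X
      have h3 := (nsq_slice hφ.cw).1 τ
      refine h3.bdd_mul (c := 1) (hf.continuous.pow 2).aestronglyMeasurable
        (ae_of_all _ fun z => ?_)
      rw [Real.norm_of_nonneg (by positivity)]
      exact pow_le_one₀ (hf0 z) (hf1 z)
    · intro z
      show X * (f z ^ 2 * nsq (sl τ z φ)) ≤ f z ^ 2 *
        FW (fun x => pot Z (fun y => μ * stp s y) e (cns z x)) (sl τ z φ) (sl τ z φ)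
      by_cases hz : s / 2 ≤ ‖z‖
      · have h4 := lower_slice Z k hμ hs hθ hθ1 hB e hz (hφ.slice τ z)
        rw [mul_left_comm]
        exact mul_le_mul_of_nonneg_left h4 (by positivity)
      · have h5 : f z = 0 := hfz z (le_of_lt (not_le.1 hz))
        rw [h5]
        simp
  have h6 : den (gs f) φ ≤ 12 * C ^ 2 / s ^ 2 * den (stp (s / 2)) φ := by
    rw [← den_const_mul]
    exact den_mono (Bd.gs hf hfd).1 ((Bd.stp (s / 2)).const_mul _)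
      (gs_le hC hs hf hfz hfd) hφ.cw
  have h7 : 1 / 2 * den (gs f) φ ≤ 6 * C ^ 2 / s ^ 2 * den (stp (s / 2)) φ := by
    have e7 : 6 * C ^ 2 / s ^ 2 * den (stp (s / 2)) φ =
        1 / 2 * (12 * C ^ 2 / s ^ 2 * den (stp (s / 2)) φ) := by ring
    rw [e7]
    linarith
  linarith

theorem step_aux {f : E3 → ℝ} {s C : ℝ} (hC : 0 < C) (hf : ContDiff ℝ 1 f)
    (hf0 : ∀ y, 0 ≤ f y) (hf1 : ∀ y, f y ≤ 1)
    (hfz : ∀ y, ‖y‖ ≤ s / 2 → f y = 0) (hfo : ∀ y, s ≤ ‖y‖ → f y = 1)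
    (hfd : ∀ y, ‖fderiv ℝ f y‖ ≤ 2 * C / s)
    (Z : ℝ) (k : ℕ) {μ θ : ℝ} (hμ : 0 < μ) (hs : 0 < s) (hθ : 0 < θ)
    (hθ1 : θ ≤ 1) (B : ℝ) (hB : ∀ t, s / 2 ≤ t →
      θ / 2 * (DD Z k (2 * μ) s + DT Z k (2 / (θ * t ^ 2)) t) + (Z - k) / t ≤ B) :
    DD Z (k + 1) μ s ≤ DD Z k μ s + 2 * μ + B - (En Z k 0 - En Z (k + 1) 0) ∨
      DD Z (k + 1) μ s ≤ 6 * C ^ 2 / (μ * s ^ 2) * DD Z (k + 1) (2 * μ) (s / 2) := by
  have hv : Bd (fun y => μ * stp s y) := (Bd.stp s).const_mul μ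
  obtain ⟨K, hK, hmain⟩ := main_bound hC hf hf0 hf1 hfz hfd Z k hμ hs hθ hθ1 hB
  by_cases hX : En Z k (fun y => μ * stp s y) - B - μ - En Z (k + 1) (fun y => μ * stp s y) ≤ μ
  · left
    unfold DD
    linarith
  · right
    push Not at hX
    -- the bound for every `ε`
    have key : ∀ ε : ℝ, 0 < ε → ε ≤ 1 → DD Z (k + 1) μ s ≤
        ε + 6 * C ^ 2 / (μ * s ^ 2) * (DD Z (k + 1) (2 * μ) (s / 2) + ε) + K * √ε := by
      intro ε hε hε1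
      obtain ⟨φ, hφ, hn, hle⟩ := En_near Z (k + 1) (v := fun y => μ * stp s y) hε
      have a0 := FW_pot Z hv 0 hφ.cw
      have a1 := FW_pot Z hv (En Z (k + 1) (fun y => μ * stp s y)) hφ.cw
      have a2 := FW_pot Z Bd.zero 0 hφ.cw
      have a3 := FW_pot Z ((Bd.stp (s / 2)).const_mul (2 * μ)) 0 hφ.cw
      rw [den_const_mul] at a0 a1 a3
      rw [hn] at a0 a1 a2 a3
      have hden0 : den (0 : E3 → ℝ) φ = 0 := by
        have h5 := den_const (n := k + 1) 0 φ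
        rw [zero_mul, zero_mul] at h5
        exact h5
      rw [hden0] at a2
      have b1 := hmain ε hε.le hε1 φ hφ hn (by linarith)
      have b2 := En_le Z Bd.zero hφ
      have b3 := En_le Z ((Bd.stp (s / 2)).const_mul (2 * μ)) hφ
      rw [hn, mul_one] at b2 b3
      have hf2 : Bd (fun y => f y ^ 2) := by
        refine ⟨(hf.continuous.pow 2).measurable, 1, fun y => ?_⟩
        rw [abs_of_nonneg (by positivity)]
        exact pow_le_one₀ (hf0 y) (hf1 y)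
      have c1 : den (stp s) φ ≤ den (fun y => f y ^ 2) φ := by
        refine den_mono (Bd.stp s) hf2 (fun y => ?_) hφ.cw
        unfold stp
        split_ifs with h
        · rw [hfo y h, one_pow]
        · positivity
      have c2 : den (stp s) φ ≤ den (stp (s / 2)) φ :=
        den_mono (Bd.stp s) (Bd.stp (s / 2)) (stp_anti (by linarith)) hφ.cw
      have c3 : 0 ≤ den (fun y => f y ^ 2) φ := den_nonneg (fun y => by positivity) φ
      have c4 : 0 ≤ DD Z (k + 1) μ s := DD_nonneg Z (k + 1) hμ.le s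
      have d1 : μ * den (fun y => f y ^ 2) φ ≤ 6 * C ^ 2 / s ^ 2 * den (stp (s / 2)) φ + K * √ε :=
        (mul_le_mul_of_nonneg_right hX.le c3).trans b1
      have d2 : DD Z (k + 1) μ s ≤ ε + μ * den (fun y => f y ^ 2) φ := by
        have := mul_le_mul_of_nonneg_left c1 hμ.le
        unfold DD
        linarith
      have d3 : μ * den (stp (s / 2)) φ ≤ DD Z (k + 1) (2 * μ) (s / 2) + ε := by
        have h5 := mul_le_mul_of_nonneg_left c2 hμ.le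
        unfold DD at c4 ⊢
        linarith
      have d4 : 6 * C ^ 2 / s ^ 2 * den (stp (s / 2)) φ ≤
          6 * C ^ 2 / (μ * s ^ 2) * (DD Z (k + 1) (2 * μ) (s / 2) + ε) := by
        have h5 := mul_le_mul_of_nonneg_left d3
          (show 0 ≤ 6 * C ^ 2 / (μ * s ^ 2) by positivity)
        refine le_trans (le_of_eq ?_) h5
        field_simp
      linarith
    -- the limit `ε → 0`
    have hcont : Continuous (fun ε : ℝ =>
        ε + 6 * C ^ 2 / (μ * s ^ 2) * (DD Z (k + 1) (2 * μ) (s / 2) + ε) + K * √ε) := by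
      have := Real.continuous_sqrt
      fun_prop
    have hlim := (hcont.tendsto 0).mono_left (nhdsWithin_le_nhds (s := Set.Ioi (0 : ℝ)))
    simp only [Real.sqrt_zero, mul_zero, add_zero, zero_add] at hlim
    refine ge_of_tendsto hlim ?_
    have h1 : Set.Ioc (0 : ℝ) 1 ∈ nhdsWithin (0 : ℝ) (Set.Ioi 0) := Ioc_mem_nhdsGT one_pos
    filter_upwards [h1] with ε hε
    exact key ε hε.1 hε.2

end F3

/-
TARGET. `Pool.Agent.H5R2.NL.cutoff` (file Cut.lean) gives C and, with r = s/2, w = 0, a function χ; put f = 1 - χ: C¹, 0 ≤ f ≤ 1,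
f = 0 for ‖y‖ ≤ s/2, f = 1 for ‖y‖ ≥ s, ‖∇f‖ ≤ 2C/s. So stp s ≤ f² ≤ stp (s/2) and
gs f ≤ 3 (2C/s)² stp (s/2) =: (C'/s²) stp (s/2) (the derivative vanishes on ‖y‖ < s/2). Cl = C'.
Let v = μ stp s, e = En Z (k+1) v, E = En Z (k+1) 0, so e = E - DD Z (k+1) μ s. Put
 X = En Z k v - B - μ - e.
For z with f z ≠ 0: t = ‖z‖ > s/2, DD_joint (κ = 1/t²) gives En Z k v - En Z k (v + t⁻² mn t) ≤
 θ/2 (DD Z k (2μ) s + DT Z k (2/(θ t²)) t) ≤ B - (Z-k)/t, so by slice_C (v z ≤ μ) for every slice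
 X nsq (sl τ z φ) ≤ FW (pot Z v e (cns z ·)) (sl τ z φ) (sl τ z φ).
If X ≤ μ: En Z k v = En Z k 0 - DD Z k μ s etc. gives the first alternative.
If X > μ: for ε ∈ (0,1] take φ : WF (k+1) from En_near: AS, nsq φ = 1, FW (pot Z v 0) φ φ ≤ e + ε, i.e.
FW (pot Z v e) φ φ ≤ ε (FW_pot). By rem_main, den_slice for f² (integrability: int_slice_form, nsq_slice) and the bound above
 μ den (f²) φ ≤ X den (f²) φ ≤ ½ den (gs f) φ + K √ε ≤ ½ C'/s² den (stp (s/2)) φ + K √ε.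
 (a) DD Z (k+1) μ s = E - e ≤ FW (pot Z 0 0) φ φ - e = FW (pot Z v 0) φ φ + μ den (stp s) φ - e ≤ ε + μ den (f²) φ.
 (b) μ den (stp (s/2)) φ ≤ DD Z (k+1) (2μ) (s/2) + ε: En Z (k+1) (2μ stp(s/2)) ≤ FW (pot Z 0 0) φ φ - 2μ den (stp (s/2)) φ
     ≤ e + ε + μ den (stp s) φ - 2μ den (stp (s/2)) φ ≤ E + ε - μ den (stp (s/2)) φ.
So DD Z (k+1) μ s ≤ ε + C'/(2 s²) (DD Z (k+1) (2μ) (s/2) + ε)/μ + K √ε for all ε ∈ (0,1]; let ε → 0.
-/
theorem step_ineq : ∃ Cl : ℝ, 0 < Cl ∧ ∀ Z : ℝ, ∀ k : ℕ, ∀ μ, 0 < μ → ∀ s, 0 < s →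
    ∀ θ, 0 < θ → θ ≤ 1 → ∀ B,
    (∀ t, s / 2 ≤ t →
      θ / 2 * (DD Z k (2 * μ) s + DT Z k (2 / (θ * t ^ 2)) t) + (Z - k) / t ≤ B) →
    DD Z (k + 1) μ s ≤ DD Z k μ s + 2 * μ + B - (En Z k 0 - En Z (k + 1) 0) ∨
      DD Z (k + 1) μ s ≤ Cl / (μ * s ^ 2) * DD Z (k + 1) (2 * μ) (s / 2) := by
  obtain ⟨C, hC, hcut⟩ := H5R2.NL.cutoff
  refine ⟨6 * C ^ 2, by positivity, ?_⟩
  intro Z k μ hμ s hs θ hθ hθ1 B hB
  obtain ⟨f, hf, hf0, hf1, hfz, hfo, hfd⟩ := F3.exists_f hC hcut hs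
  exact F3.step_aux hC hf hf0 hf1 hfz hfo hfd Z k hμ hs hθ hθ1 B hB

end Pool.Agent.H899_CR
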