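import Pool.Agent.H899_CR.Num7
import Pool.Agent.H899_CR.Ion
import Pool.Agent.H899_CR.Step
import Pool.Agent.H899_CR.H1Low
import Pool.Agent.H899_CR.Dens

/-!
# Ground states of large atoms: conclusions
-/

set_option autoImplicit false

noncomputable section

namespace Pool.Agent.H899_CR

open MeasureTheory

theorem pot_zero_eq {n : ℕ} (Z : ℝ) : pot (n := n) Z 0 0 = VC Z := by
  funext x
  simp [pot]

theorem iface : ∃ K0 K1 Cl : ℝ, 0 < K0 ∧ 0 < K1 ∧ 0 < Cl ∧ ∀ Z : ℝ, 1 ≤ Z →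
    Iface K0 K1 Cl Z (fun k => En Z k 0) (DD Z) (DT Z) := by
  obtain ⟨K, hK, hb⟩ := exists_bump
  obtain ⟨K1, hK1, h1⟩ := ion_succ hK hb
  obtain ⟨Cl, hCl, h2⟩ := step_ineq
  refine ⟨32 * K, K1, Cl, by positivity, hK1, hCl, fun Z hZ => ?_⟩
  have hZ0 : 0 < Z := by linarith
  exact
    { D_nonneg := fun k μ s hμ => DD_nonneg Z k hμ s
      D_triv := fun k μ s hμ => DD_triv Z k hμ s
      D_conv := fun k μ' μ s h h' => DD_conv Z k h h' s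
      D_anti := fun k μ s s' hμ h => DD_anti Z k hμ h
      T_layer := fun k κ t hκ ht => DT_layer Z k hκ ht
      ion0 := fun L hL h => ion_zero hK hb hZ0 hL h
      ion := fun k q hq hq0 L hL hqL μ hμ B hB => h1 Z k q hq hq0 L hL hqL μ hμ B hB
      step := fun k μ hμ s hs θ h0 h1' B hB => h2 Z k μ hμ s hs θ h0 h1' B hB }

/-- The exponent `a = (3 + √29)/5`. -/
def aexp : ℝ := (3 + √29) / 5

theorem aexp_facts : 1 < aexp ∧ aexp < 2 ∧ 5 * aexp ^ 2 - 6 * aexp - 4 = 0 ∧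
    1 / aexp = (√29 - 3) / 4 := by
  have h0 : (0 : ℝ) ≤ 29 := by norm_num
  have h1 : √29 ^ 2 = 29 := Real.sq_sqrt h0
  have h2 : 5 < √29 := by
    rw [Real.lt_sqrt (by norm_num)]; norm_num
  have h3 : √29 < 6 := by
    rw [Real.sqrt_lt' (by norm_num)]; norm_num
  unfold aexp
  refine ⟨by linarith, by linarith, by nlinarith, ?_⟩
  rw [div_div_eq_mul_div, div_eq_div_iff (by positivity) (by norm_num)]
  nlinarith

theorem main_en : ∃ c C M R : ℝ, 0 < c ∧ 0 < C ∧ 0 < M ∧ 0 < R ∧ ∀ Z : ℝ, 1 ≤ Z →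
    (∀ k : ℕ, (k : ℝ) + 1 ≤ Z →
      c * (Z - k) ^ aexp * Z ^ (-(aexp - 4 / 3)) ≤ En Z k 0 - En Z (k + 1) 0) ∧
    (∀ k : ℕ, (k : ℝ) ≤ Z → ∀ s, 0 < s → ∀ μ, 0 < μ →
      DD Z k μ s ≤
        C * μ * (Z ^ (aexp - 4 / 3) * max μ (M * Z ^ (2 / 3 : ℝ) / s ^ 2)) ^ (1 / aexp)) ∧
    (∀ k : ℕ, (k : ℝ) + 1 ≤ Z → ∃ μ, 0 < μ ∧
      DD Z (k + 1) μ (R * Z ^ (-(1 / 3) : ℝ) * (Z / (Z - k)) ^ (aexp / 2)) ≤ μ) := by
  obtain ⟨K0, K1, Cl, hK0, hK1, hCl, h⟩ := iface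
  obtain ⟨a1, a2, a3, _⟩ := aexp_facts
  obtain ⟨c, C, M, R, hc, hC, hM, hR, h'⟩ := main_num2 aexp K0 K1 Cl a1 a2 a3.ge hK0 hK1 hCl
  exact ⟨c, C, M, R, hc, hC, hM, hR, fun Z hZ => h' Z hZ _ _ _ (h Z hZ)⟩

variable {n : ℕ}

/-- The energy of a ground state is at most `En`. -/
theorem gs_le {Z : ℝ} {ψ : WF n} {g : (Fin n → Fin 2) → Fin n → Fin 3 → (Fin n → E3) → ℂ}
    (h : IsGS Z ψ g) : EH Z ψ g ≤ En Z n 0 := by
  refine En_ge Z fun φ hφ h1 => ?_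
  have h2 := h.min φ _ (isSt_of_AS hφ h1)
  rw [EH_of_CW Z hφ.cw] at h2
  rw [pot_zero_eq]
  exact h2

/-- The potential energy of a ground state in a bounded external potential. -/
theorem gs_den {Z : ℝ} {ψ : WF n} {g : (Fin n → Fin 2) → Fin n → Fin 3 → (Fin n → E3) → ℂ}
    (h : IsGS Z ψ g) {v : E3 → ℝ} (hv : Bd v) : den v ψ ≤ En Z n 0 - En Z n v := by
  have h1 := h1w_lower Z hv h.st.h1 h.st.anti (m := En Z n v) (fun φ hφ => En_le Z hv hφ)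
  rw [h.st.norm] at h1
  have h2 := gs_le h
  linarith

theorem gs_outside {Z : ℝ} {ψ : WF (n + 1)}
    {g : (Fin (n + 1) → Fin 2) → Fin (n + 1) → Fin 3 → (Fin (n + 1) → E3) → ℂ}
    (h : IsGS Z ψ g) {μ : ℝ} (hμ : 0 < μ) (s : ℝ) :
    outside ψ s ≤ DD Z (n + 1) μ s / μ := by
  have h1 := outside_le h.st.h1 h.st.anti s
  have h2 := gs_den h ((Bd.stp s).const_mul μ)
  rw [den_const_mul] at h2
  rw [le_div_iff₀ hμ]
  have h3 : outside ψ s * μ ≤ den (stp s) ψ * μ := mul_le_mul_of_nonneg_right h1 hμ.le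
  have h4 : En Z (n + 1) 0 - En Z (n + 1) (fun y => μ * stp s y) = DD Z (n + 1) μ s := rfl
  linarith

end Pool.Agent.H899_CR
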