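import Pool.Agent.H899_CR.Slice
import Pool.Agent.H899_CR.Contr
import Pool.Agent.TH791.Coul


set_option autoImplicit false

noncomputable section

namespace Pool.Agent.H899_CR

open MeasureTheory

variable {n : ℕ}

/-! Targets. -/

theorem C2_cns_cont : Continuous (fun p : E3 × (Fin n → E3) => cns p.1 p.2) := by
  refine continuous_pi fun i => ?_
  refine Fin.cases ?_ (fun j => ?_) i
  · exact continuous_fst
  · exact (continuous_apply j).comp continuous_snd

theorem C2_tl_cont : Continuous (fun x : Fin (n + 1) → E3 => tl x) :=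
  continuous_pi fun i => continuous_apply i.succ

theorem C2_back {F : (Fin (n + 1) → E3) → ℝ} (hF : Measurable F)
    (h : Integrable (fun p : E3 × (Fin n → E3) => F (cns p.1 p.2)) (volume.prod volume)) :
    Integrable F :=
  (mp_cns.integrable_comp hF.aestronglyMeasurable).mp h

theorem C2_rp_int {f : E3 → ℂ} (hf : Integrable f) (b : ℂ) :
    ∫ z, rp (f z) b = rp (∫ z, f z) b := by
  have h1 : (∫ z, f z).re = ∫ z, (f z).re := (Complex.reCLM.integral_comp_comm hf).symm
  have h2 : (∫ z, f z).im = ∫ z, (f z).im := (Complex.imCLM.integral_comp_comm hf).symm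
  have i1 : Integrable (fun z => (f z).re * b.re) := hf.re.mul_const _
  have i2 : Integrable (fun z => (f z).im * b.im) := hf.im.mul_const _
  unfold rp
  rw [integral_add i1 i2, integral_mul_const, integral_mul_const, h1, h2]

theorem C2_int_prod {W : (Fin n → E3) → ℝ} {p : E3 → ℝ} (hp : Continuous p)
    (hp' : HasCompactSupport p) {β : (Fin n → E3) → ℂ}
    (hWβ : Integrable (fun x => W x * ‖β x‖)) {G : E3 × (Fin n → E3) → ℝ} (hG : Measurable G)
    (C : ℝ) (hb : ∀ q, |G q| ≤ C * (|p q.1| * |W q.2 * ‖β q.2‖|)) :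
    Integrable G ((volume : Measure E3).prod (volume : Measure (Fin n → E3))) := by
  have h1 : Integrable p := hp.integrable_of_hasCompactSupport hp'
  have h2 := (h1.norm.mul_prod hWβ.norm).const_mul C
  refine Integrable.mono' h2 hG.aestronglyMeasurable (ae_of_all _ fun q => ?_)
  exact hb q

theorem C2_bdd {X : (Fin n → E3) → ℂ} (hX : Continuous X) (hX' : HasCompactSupport X) :
    ∃ C : ℝ, 0 ≤ C ∧ ∀ x, ‖X x‖ ≤ C := by
  obtain ⟨C, hC⟩ := hX.bounded_above_of_compact_support hX'
  exact ⟨C, (norm_nonneg _).trans (hC 0), hC⟩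

/-- permuting the variables preserves the volume -/
theorem C2_mp_perm (σ : Equiv.Perm (Fin n)) :
    MeasurePreserving (fun x : Fin n → E3 => x ∘ σ) volume volume := by
  have h := volume_measurePreserving_piCongrLeft (fun _ : Fin n => E3) σ.symm
  have e : (fun x : Fin n → E3 => x ∘ σ) =
      (MeasurableEquiv.piCongrLeft (fun _ : Fin n => E3) σ.symm) := by
    funext x i
    have := MeasurableEquiv.piCongrLeft_apply_apply (β := fun _ : Fin n => E3) σ.symm x (σ i)
    rw [Equiv.symm_apply_apply] at this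
    exact this.symm
  rw [e]
  exact h

/-- `U‖β‖` is integrable for continuous β with compact support: apply `Adm.int` to `√‖β‖` -/
theorem Adm.int_norm {W : (Fin n → E3) → ℝ} (hW : Adm W) {β : (Fin n → E3) → ℂ}
    (hβ : Continuous β) (hβ' : HasCompactSupport β) : Integrable (fun x => W x * ‖β x‖) := by
  have h1 := hW.int (fun x => ((√‖β x‖ : ℝ) : ℂ)) (by fun_prop) (by
    refine hβ'.mono ?_
    intro x hx
    rw [Function.mem_support] at hx ⊢
    intro h
    apply hx
    rw [h]
    simp)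
  refine h1.congr (ae_of_all _ fun x => ?_)
  show W x * ‖((√‖β x‖ : ℝ) : ℂ)‖ ^ 2 = W x * ‖β x‖
  rw [Complex.norm_real, Real.norm_of_nonneg (Real.sqrt_nonneg _), Real.sq_sqrt (norm_nonneg _)]

theorem C2_inner_int {p : E3 → ℝ} (hp : Continuous p) (hp' : HasCompactSupport p)
    {X : (Fin (n + 1) → E3) → ℂ} (hX : Continuous X) (v : Fin n → E3) :
    Integrable (fun z : E3 => (p z : ℂ) * X (cns z v)) := by
  have hc : Continuous (fun z : E3 => cns z v) :=
    C2_cns_cont.comp (continuous_id.prodMk continuous_const)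
  have h1 : Continuous (fun z : E3 => (p z : ℂ) * X (cns z v)) :=
    (Complex.continuous_ofReal.comp hp).mul (hX.comp hc)
  refine h1.integrable_of_hasCompactSupport (hp'.mono ?_)
  intro x hx
  rw [Function.mem_support] at hx ⊢
  intro h
  apply hx
  rw [h]
  simp

theorem C2_bound (w p C a b : ℝ) (r : ℝ) (ha : 0 ≤ a) (hb : 0 ≤ b) (hr : |r| ≤ a * b)
    (haC : a ≤ C) : |w * (p * r)| ≤ C * (|p| * |w * b|) := by
  rw [abs_mul, abs_mul, abs_mul, abs_of_nonneg hb]
  have h1 : |r| ≤ C * b := hr.trans (mul_le_mul_of_nonneg_right haC hb)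
  calc |w| * (|p| * |r|) ≤ |w| * (|p| * (C * b)) := by gcongr
    _ = C * (|p| * (|w| * b)) := by ring

/-
In the variables x = cns y (cns w x''): x 0 = y, x 1 = w, tl x = cns w x'', cns (x 0) (tl (tl x)) = cns y x''.
After the substitution x ↦ x ∘ swap 0 1 (measure preserving) the integrand is
 W (tl x) p (x 0) rp (X (cns (x 0) (tl (tl x)))) (Y (tl x)); integrate over x 0 (fub'). Integrability on the product from
 |p| integrable, X bounded, W ‖Y‖ integrable (and mp_cns to go back).
-/
theorem fubL1 {W : (Fin (n + 1) → E3) → ℝ} (hW : Adm W) {p : E3 → ℝ} (hp : Continuous p)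
    (hp' : HasCompactSupport p) {X Y : (Fin (n + 1) → E3) → ℂ} (hX : Continuous X)
    (hX' : HasCompactSupport X) (hY : Continuous Y) (hY' : HasCompactSupport Y) :
    Integrable (fun x : Fin (n + 2) → E3 => W (cns (x 0) (tl (tl x))) *
      (p (x 1) * rp (X (tl x)) (Y (cns (x 0) (tl (tl x)))))) ∧
    ∫ x : Fin (n + 2) → E3, W (cns (x 0) (tl (tl x))) *
      (p (x 1) * rp (X (tl x)) (Y (cns (x 0) (tl (tl x))))) =
      ∫ x : Fin (n + 1) → E3, W x * rp (∫ y, (p y : ℂ) * X (cns y (tl x))) (Y x) := by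
  obtain ⟨C, hC0, hC⟩ := C2_bdd hX hX'
  obtain ⟨G, hG⟩ : ∃ G : (Fin (n + 2) → E3) → ℝ, ∀ x, G x =
      W (tl x) * (p (x 0) * rp (X (cns (x 0) (tl (tl x)))) (Y (tl x))) := ⟨_, fun _ => rfl⟩
  have s1 : ∀ x : Fin (n + 2) → E3, tl (x ∘ Equiv.swap (0 : Fin (n + 2)) 1) =
      cns (x 0) (tl (tl x)) := by
    intro x
    funext i
    refine Fin.cases ?_ (fun j => ?_) i
    · show x (Equiv.swap 0 1 (Fin.succ 0)) = x 0
      rw [Fin.succ_zero_eq_one, Equiv.swap_apply_right]
    · show x (Equiv.swap 0 1 j.succ.succ) = x j.succ.succ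
      rw [Equiv.swap_apply_of_ne_of_ne (Fin.succ_ne_zero _) (by
        rw [← Fin.succ_zero_eq_one]
        exact fun h => Fin.succ_ne_zero _ (Fin.succ_injective _ h))]
  have s0 : ∀ x : Fin (n + 2) → E3, (x ∘ Equiv.swap (0 : Fin (n + 2)) 1) 0 = x 1 := by
    intro x
    show x (Equiv.swap 0 1 0) = x 1
    rw [Equiv.swap_apply_left]
  have hFG : ∀ x : Fin (n + 2) → E3, W (cns (x 0) (tl (tl x))) *
      (p (x 1) * rp (X (tl x)) (Y (cns (x 0) (tl (tl x))))) =
      G (x ∘ Equiv.swap (0 : Fin (n + 2)) 1) := by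
    intro x
    rw [hG, s1, s0, tl_cns]
    have h1 : cns (x 1) (tl (tl x)) = tl x := cns_tl (tl x)
    rw [h1]
  have hGm : Measurable G := by
    have : G = fun x => W (tl x) * (p (x 0) * rp (X (cns (x 0) (tl (tl x)))) (Y (tl x))) :=
      funext hG
    rw [this]
    have t1 : Measurable (fun x : Fin (n + 2) → E3 => W (tl x)) :=
      hW.meas.comp C2_tl_cont.measurable
    have t2 : Continuous (fun x : Fin (n + 2) → E3 => p (x 0)) := hp.comp (continuous_apply 0)
    have t3 : Continuous (fun x : Fin (n + 2) → E3 => X (cns (x 0) (tl (tl x)))) :=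
      hX.comp (C2_cns_cont.comp ((continuous_apply 0).prodMk (C2_tl_cont.comp C2_tl_cont)))
    have t4 : Continuous (fun x : Fin (n + 2) → E3 => Y (tl x)) := hY.comp C2_tl_cont
    exact t1.mul (t2.mul (rp_continuous t3 t4)).measurable
  have hGp : Integrable (fun q : E3 × (Fin (n + 1) → E3) => G (cns q.1 q.2))
      (volume.prod volume) := by
    refine C2_int_prod hp hp' (hW.int_norm hY hY') (hGm.comp C2_cns_cont.measurable) C ?_
    intro q
    rw [hG]
    simp only [tl_cns, cns_zero]
    exact C2_bound _ _ _ _ _ _ (norm_nonneg _) (norm_nonneg _) (rp_abs _ _) (hC _)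
  have hGi : Integrable G := C2_back hGm hGp
  have hmp := C2_mp_perm (n := n + 2) (Equiv.swap 0 1)
  constructor
  · have h1 := (hmp.integrable_comp hGm.aestronglyMeasurable).mpr hGi
    refine h1.congr (ae_of_all _ fun x => ?_)
    exact (hFG x).symm
  · simp only [hFG]
    rw [integral_comp_perm (Equiv.swap (0 : Fin (n + 2)) 1) G, fub' hGi]
    refine integral_congr_ae (ae_of_all _ fun v => ?_)
    show ∫ z, G (cns z v) = W v * rp (∫ y, (p y : ℂ) * X (cns y (tl v))) (Y v)
    have h2 : ∀ z : E3, G (cns z v) = W v * rp ((p z : ℂ) * X (cns z (tl v))) (Y v) := by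
      intro z
      rw [hG, rp_smul_left]
      simp only [tl_cns, cns_zero]
    simp only [h2]
    rw [integral_const_mul, C2_rp_int (C2_inner_int hp hp' hX (tl v))]

/-- same with `x 0` integrated -/
theorem fubL2 {W : (Fin n → E3) → ℝ} (hW : Adm W) {p : E3 → ℝ} (hp : Continuous p)
    (hp' : HasCompactSupport p) {X : (Fin (n + 1) → E3) → ℂ} {A : (Fin n → E3) → ℂ}
    (hX : Continuous X) (hX' : HasCompactSupport X) (hA : Continuous A)
    (hA' : HasCompactSupport A) :
    Integrable (fun x : Fin (n + 1) → E3 => W (tl x) * (p (x 0) * rp (A (tl x)) (X x))) ∧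
    ∫ x : Fin (n + 1) → E3, W (tl x) * (p (x 0) * rp (A (tl x)) (X x)) =
      ∫ x : Fin n → E3, W x * rp (A x) (∫ y, (p y : ℂ) * X (cns y x)) := by
  obtain ⟨C, hC0, hC⟩ := C2_bdd hX hX'
  have hGm : Measurable (fun x : Fin (n + 1) → E3 => W (tl x) * (p (x 0) * rp (A (tl x)) (X x))) := by
    have t1 : Measurable (fun x : Fin (n + 1) → E3 => W (tl x)) :=
      hW.meas.comp C2_tl_cont.measurable
    have t2 : Continuous (fun x : Fin (n + 1) → E3 => p (x 0)) := hp.comp (continuous_apply 0)
    have t4 : Continuous (fun x : Fin (n + 1) → E3 => A (tl x)) := hA.comp C2_tl_cont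
    exact t1.mul (t2.mul (rp_continuous t4 hX)).measurable
  have hGi : Integrable
      (fun x : Fin (n + 1) → E3 => W (tl x) * (p (x 0) * rp (A (tl x)) (X x))) := by
    apply C2_back hGm
    refine C2_int_prod hp hp' (hW.int_norm hA hA') (hGm.comp C2_cns_cont.measurable) C ?_
    intro q
    simp only [tl_cns, cns_zero]
    refine C2_bound _ _ _ _ _ _ (norm_nonneg (X (cns q.1 q.2))) (norm_nonneg _) ?_ (hC _)
    rw [mul_comm]
    exact rp_abs _ _
  refine ⟨hGi, ?_⟩
  rw [fub' hGi]
  refine integral_congr_ae (ae_of_all _ fun v => ?_)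
  show ∫ z, W (tl (cns z v)) * (p (cns z v 0) * rp (A (tl (cns z v))) (X (cns z v))) =
    W v * rp (A v) (∫ y, (p y : ℂ) * X (cns y v))
  have h2 : ∀ z : E3, W (tl (cns z v)) * (p (cns z v 0) * rp (A (tl (cns z v))) (X (cns z v))) =
      W v * rp ((p z : ℂ) * X (cns z v)) (A v) := by
    intro z
    rw [rp_smul_left, rp_comm (X _)]
    simp only [tl_cns, cns_zero]
  simp only [h2]
  rw [integral_const_mul, C2_rp_int (C2_inner_int hp hp' hX v), rp_comm]

/-- continuous functions with compact support are nice -/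
theorem C2_nice {h : E3 → ℝ} (hh : Continuous h) (hh' : HasCompactSupport h) :
    Pool.Agent.TH791.Cl.Nice h := by
  refine ⟨hh.measurable, hh.integrable_of_hasCompactSupport hh', ?_⟩
  have h1 : Continuous (fun x => |h x| ^ (5 / 3 : ℝ)) :=
    hh.abs.rpow_const fun _ => Or.inr (by norm_num)
  refine h1.integrable_of_hasCompactSupport (hh'.mono ?_)
  intro x hx
  rw [Function.mem_support] at hx ⊢
  intro h0
  apply hx
  rw [h0, abs_zero, Real.zero_rpow (by norm_num)]

/-- positivity of the sum of two Coulomb energies -/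
theorem C2_two {h1 h2 : E3 → ℝ} (n1 : Pool.Agent.TH791.Cl.Nice h1)
    (n2 : Pool.Agent.TH791.Cl.Nice h2) :
    0 ≤ ∫ y, ∫ w, (h1 y * h1 w / ‖y - w‖ + h2 y * h2 w / ‖y - w‖) := by
  obtain ⟨B1, hB1⟩ := Pool.Agent.TH791.Cl.nice_bound h1 n1
  obtain ⟨B2, hB2⟩ := Pool.Agent.TH791.Cl.nice_bound h2 n2
  have e : ∀ y : E3, ∫ w, (h1 y * h1 w / ‖y - w‖ + h2 y * h2 w / ‖y - w‖) =
      h1 y * Pool.Agent.TH791.Cl.pot h1 y + h2 y * Pool.Agent.TH791.Cl.pot h2 y := by
    intro y
    have i1 : Integrable (fun w => h1 y * h1 w / ‖y - w‖) :=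
      ((hB1 y).1.const_mul (h1 y)).congr (ae_of_all _ fun w => by
        show h1 y * (h1 w / ‖y - w‖) = h1 y * h1 w / ‖y - w‖
        rw [mul_div_assoc])
    have i2 : Integrable (fun w => h2 y * h2 w / ‖y - w‖) :=
      ((hB2 y).1.const_mul (h2 y)).congr (ae_of_all _ fun w => by
        show h2 y * (h2 w / ‖y - w‖) = h2 y * h2 w / ‖y - w‖
        rw [mul_div_assoc])
    rw [integral_add i1 i2, Pool.Agent.TH791.Cl.pd_inner, Pool.Agent.TH791.Cl.pd_inner]
  simp only [e]
  rw [integral_add (Pool.Agent.TH791.Cl.pd_int h1 h1 n1 n1) (Pool.Agent.TH791.Cl.pd_int h2 h2 n2 n2)]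
  have c1 := Pool.Agent.TH791.Cl.coulomb_pd h1 n1
  have c2 := Pool.Agent.TH791.Cl.coulomb_pd h2 n2
  simp only [Pool.Agent.TH791.Cl.pd_inner] at c1 c2
  exact add_nonneg c1 c2

/-- splitting off two variables -/
theorem C2_mp2 : MeasurePreserving (fun q : (E3 × E3) × (Fin n → E3) => cns q.1.1 (cns q.1.2 q.2))
    ((volume.prod volume).prod volume) volume := by
  have h1 : MeasurePreserving (fun p : E3 × (Fin n → E3) => cns p.1 p.2)
    (volume.prod volume) volume := mp_cns
  have h2 : MeasurePreserving (fun p : E3 × (Fin (n + 1) → E3) => cns p.1 p.2)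
    (volume.prod volume) volume := mp_cns
  have h3 := (MeasurePreserving.id (volume : Measure E3)).prod h1
  have h4 : MeasurePreserving (MeasurableEquiv.prodAssoc : (E3 × E3) × (Fin n → E3) ≃ᵐ _)
      ((volume.prod volume).prod volume) (volume.prod (volume.prod volume)) :=
    ⟨MeasurableEquiv.measurable _, Measure.prodAssoc_prod⟩
  exact h2.comp (h3.comp h4)

/-
For fixed x'' the inner integral over y, w is ∑ over real and imaginary part h = u Re α(·,x''), u Im α(·,x'') of
∫∫ h(y) h(w)/|y-w| ≥ 0 (Pool.Agent.TH791.Cl.coulomb_pd, file Pool/Agent/TH791/Coul.lean: 0 ≤ ∫∫ h x h y/‖x-y‖ for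
Nice h; Nice = measurable, integrable, |h|^(5/3) integrable, true for continuous h with compact support).
The function is integrable (`adm_ee`, `Adm.int_rp`-like argument with `Adm.int_norm`), so Fubini applies
(fub twice and integral_integral_swap).
-/
theorem exch_nonneg {α : (Fin (n + 1) → E3) → ℂ} (hα : Continuous α)
    (hα' : HasCompactSupport α) {u : E3 → ℝ} (hu : Continuous u) (hc : HasCompactSupport u) :
    Integrable (fun x : Fin (n + 2) → E3 => 1 / ‖x 0 - x 1‖ *
      (u (x 0) * u (x 1) * rp (α (tl x)) (α (cns (x 0) (tl (tl x)))))) ∧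
    0 ≤ ∫ x : Fin (n + 2) → E3, 1 / ‖x 0 - x 1‖ *
      (u (x 0) * u (x 1) * rp (α (tl x)) (α (cns (x 0) (tl (tl x))))) := by
  obtain ⟨B, hB⟩ : ∃ B : (Fin (n + 2) → E3) → ℝ, ∀ x, B x =
      u (x 0) * u (x 1) * rp (α (tl x)) (α (cns (x 0) (tl (tl x)))) := ⟨_, fun _ => rfl⟩
  have hBc : Continuous B := by
    have : B = fun x => u (x 0) * u (x 1) * rp (α (tl x)) (α (cns (x 0) (tl (tl x)))) := funext hB
    rw [this]
    have t3 : Continuous (fun x : Fin (n + 2) → E3 => α (cns (x 0) (tl (tl x)))) :=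
      hα.comp (C2_cns_cont.comp ((continuous_apply 0).prodMk (C2_tl_cont.comp C2_tl_cont)))
    exact ((hu.comp (continuous_apply 0)).mul (hu.comp (continuous_apply 1))).mul
      (rp_continuous (hα.comp C2_tl_cont) t3)
  have hBs : HasCompactSupport B := by
    have hK : IsCompact ((fun p : E3 × (Fin (n + 1) → E3) => cns p.1 p.2) ''
        (tsupport u ×ˢ tsupport α)) := (hc.isCompact.prod hα'.isCompact).image C2_cns_cont
    refine HasCompactSupport.intro hK fun x hx => ?_
    rw [hB]
    by_cases h1 : x 0 ∈ tsupport u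
    · by_cases h2 : tl x ∈ tsupport α
      · exact absurd ⟨(x 0, tl x), ⟨h1, h2⟩, cns_tl x⟩ hx
      · rw [image_eq_zero_of_notMem_tsupport h2, rp_zero_left, mul_zero]
    · rw [image_eq_zero_of_notMem_tsupport h1, zero_mul, zero_mul]
  obtain ⟨F, hF⟩ : ∃ F : (Fin (n + 2) → E3) → ℝ, ∀ x, F x = 1 / ‖x 0 - x 1‖ * B x :=
    ⟨_, fun _ => rfl⟩
  have hFe : ∀ x : Fin (n + 2) → E3, 1 / ‖x 0 - x 1‖ *
      (u (x 0) * u (x 1) * rp (α (tl x)) (α (cns (x 0) (tl (tl x))))) = F x := by
    intro x
    rw [hF, hB]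
  simp only [hFe]
  have hFm : Measurable F := by
    have : F = fun x => 1 / ‖x 0 - x 1‖ * B x := funext hF
    rw [this]
    exact (adm_ee 0 1).meas.mul hBc.measurable
  have hFi : Integrable F := by
    have h1 := (adm_ee (n := n + 2) 0 1).int_norm (β := fun x => ((B x : ℝ) : ℂ))
      (Complex.continuous_ofReal.comp hBc) (by
        refine hBs.mono ?_
        intro x hx
        rw [Function.mem_support] at hx ⊢
        intro h
        apply hx
        rw [h]
        simp)
    refine Integrable.mono' h1 hFm.aestronglyMeasurable (ae_of_all _ fun x => ?_)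
    rw [hF, norm_mul, Complex.norm_real, Real.norm_of_nonneg (by positivity)]
  refine ⟨hFi, ?_⟩
  have hmp := C2_mp2 (n := n)
  have hFp : Integrable (fun q : (E3 × E3) × (Fin n → E3) => F (cns q.1.1 (cns q.1.2 q.2)))
      ((volume.prod volume).prod volume) := (hmp.integrable_comp hFm.aestronglyMeasurable).mpr hFi
  rw [← hmp.map_eq, integral_map hmp.measurable.aemeasurable hFm.aestronglyMeasurable,
    integral_prod_symm _ hFp]
  refine integral_nonneg_of_ae ?_
  filter_upwards [hFp.prod_left_ae] with v hv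
  rw [integral_prod _ hv]
  have hcv : Continuous (fun z : E3 => α (cns z v)) :=
    hα.comp (C2_cns_cont.comp (continuous_id.prodMk continuous_const))
  have n1 : Pool.Agent.TH791.Cl.Nice (fun z => u z * (α (cns z v)).re) :=
    C2_nice (hu.mul (Complex.continuous_re.comp hcv)) hc.mul_right
  have n2 : Pool.Agent.TH791.Cl.Nice (fun z => u z * (α (cns z v)).im) :=
    C2_nice (hu.mul (Complex.continuous_im.comp hcv)) hc.mul_right
  refine le_of_le_of_eq (C2_two n1 n2) ?_
  refine integral_congr_ae (ae_of_all _ fun y => integral_congr_ae (ae_of_all _ fun w => ?_))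
  show u y * (α (cns y v)).re * (u w * (α (cns w v)).re) / ‖y - w‖ +
    u y * (α (cns y v)).im * (u w * (α (cns w v)).im) / ‖y - w‖ = F (cns y (cns w v))
  rw [hF, hB]
  have e1 : cns y (cns w v) 1 = w := rfl
  simp only [tl_cns, cns_zero, e1, rp]
  ring

end Pool.Agent.H899_CR
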