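import Pool.Agent.H899_CR.Final

/-!
# The ground-state energy
-/

set_option autoImplicit false

noncomputable section

namespace Pool.Agent.H899_CR

open MeasureTheory

variable {n : ℕ}

/-- The ground-state energy `E_{n,Z}`: the infimum of `⟨ψ, H_{n,Z} ψ⟩` over the normalized
antisymmetric `H¹` wave functions of `n` electrons. -/
def gsE (Z : ℝ) (n : ℕ) : ℝ :=
  sInf {r | ∃ (ψ : WF n) (g : (Fin n → Fin 2) → Fin n → Fin 3 → (Fin n → E3) → ℂ),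
    IsSt ψ g ∧ EH Z ψ g = r}

theorem En_le_EH (Z : ℝ) {ψ : WF n} {g : (Fin n → Fin 2) → Fin n → Fin 3 → (Fin n → E3) → ℂ}
    (h : IsSt ψ g) : En Z n 0 ≤ EH Z ψ g := by
  have h1 := h1w_lower Z Bd.zero h.h1 h.anti (m := En Z n 0) (fun φ hφ => En_le Z Bd.zero hφ)
  rw [h.norm] at h1
  have h2 : 0 ≤ den (0 : E3 → ℝ) ψ := den_nonneg (fun y => le_refl _) ψ
  linarith

theorem gsE_eq (Z : ℝ) (n : ℕ) : gsE Z n = En Z n 0 := by
  have hb : BddBelow {r | ∃ (ψ : WF n) (g : (Fin n → Fin 2) → Fin n → Fin 3 → (Fin n → E3) → ℂ),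
      IsSt ψ g ∧ EH Z ψ g = r} := by
    refine ⟨En Z n 0, ?_⟩
    rintro r ⟨ψ, g, h, rfl⟩
    exact En_le_EH Z h
  apply le_antisymm
  · refine En_ge Z fun φ hφ h1 => ?_
    rw [pot_zero_eq, ← EH_of_CW Z hφ.cw]
    exact csInf_le hb ⟨φ, _, isSt_of_AS hφ h1, rfl⟩
  · obtain ⟨φ, hφ, h1⟩ := exists_AS n
    refine le_csInf ⟨_, φ, _, isSt_of_AS hφ h1, rfl⟩ ?_
    rintro r ⟨ψ, g, h, rfl⟩
    exact En_le_EH Z h

end Pool.Agent.H899_CR
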