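import Pool.Agent.H899_CR.FinDef
import Pool.Agent.H5R2.NL.H1E


set_option autoImplicit false

noncomputable section

namespace Pool.Agent.H899_CR

open MeasureTheory Filter Topology

variable {n : ℕ}

/-- splitting of the Coulomb energy -/
theorem e1_coul (Z : ℝ) (u : (Fin n → E3) → ℂ)
    (h1 : ∀ i j : Fin n, Integrable (fun x : Fin n → E3 => 1 / ‖x i - x j‖ * ‖u x‖ ^ 2))
    (h2 : ∀ i : Fin n, Integrable (fun x : Fin n → E3 => 1 / ‖x i‖ * ‖u x‖ ^ 2)) :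
    Integrable (fun x => VC Z x * ‖u x‖ ^ 2) ∧
      (∫ x, VC Z x * ‖u x‖ ^ 2) =
        1 / 2 * ∑ i, ∑ j, (∫ x : Fin n → E3, 1 / ‖x i - x j‖ * ‖u x‖ ^ 2)
        - Z * ∑ i, (∫ x : Fin n → E3, 1 / ‖x i‖ * ‖u x‖ ^ 2) := by
  have e : (fun x => VC Z x * ‖u x‖ ^ 2) = fun x =>
      1 / 2 * (∑ i, ∑ j, 1 / ‖x i - x j‖ * ‖u x‖ ^ 2)
        - Z * (∑ i, 1 / ‖x i‖ * ‖u x‖ ^ 2) := by
    funext x
    unfold VC
    simp only [← Finset.sum_mul]
    ring
  have i1 : Integrable (fun x : Fin n → E3 => ∑ i, ∑ j, 1 / ‖x i - x j‖ * ‖u x‖ ^ 2) :=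
    integrable_finsetSum _ fun i _ => integrable_finsetSum _ fun j _ => h1 i j
  have i2 : Integrable (fun x : Fin n → E3 => ∑ i, 1 / ‖x i‖ * ‖u x‖ ^ 2) :=
    integrable_finsetSum _ fun i _ => h2 i
  rw [e]
  refine ⟨(i1.const_mul _).sub (i2.const_mul _), ?_⟩
  rw [integral_sub (i1.const_mul _) (i2.const_mul _), integral_const_mul, integral_const_mul]
  congr 2
  · rw [integral_finsetSum _ fun i _ => integrable_finsetSum _ fun j _ => h1 i j]
    exact Finset.sum_congr rfl fun i _ => integral_finsetSum _ fun j _ => h1 i j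
  · rw [integral_finsetSum _ fun i _ => h2 i]

/-- TARGET 1 -/
theorem h1_approx {ψ : (Fin n → E3) → ℂ} {g : Fin n → Fin 3 → (Fin n → E3) → ℂ}
    (h : H5R2.NL.IsH1 ψ g) (Z : ℝ) :
    Integrable (fun x => VC Z x * ‖ψ x‖ ^ 2) ∧
    ∃ v : ℕ → (Fin n → E3) → ℂ, (∀ k, CC (v k)) ∧
      Tendsto (fun k => ∫ x, ‖ψ x - v k x‖ ^ 2) atTop (𝓝 0) ∧
      Tendsto (fun k => 1 / 2 * (∑ i, ∑ c, ∫ x, ‖pd i c (v k) x‖ ^ 2) + ∫ x, VC Z x * ‖v k x‖ ^ 2)
        atTop (𝓝 (1 / 2 * (∑ i, ∑ c, ∫ x, ‖g i c x‖ ^ 2) + ∫ x, VC Z x * ‖ψ x‖ ^ 2)) ∧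
      ∀ w : (Fin n → E3) → ℝ, Measurable w → (∃ B, ∀ x, |w x| ≤ B) →
        Tendsto (fun k => ∫ x, w x * ‖v k x‖ ^ 2) atTop (𝓝 (∫ x, w x * ‖ψ x‖ ^ 2)) := by
  obtain ⟨v, v1, v2, v3, v4⟩ := H5R2.NL.h1d_seq ψ g h
  have vc : ∀ n, ContDiff ℝ 1 (v n) := fun n => (v1 n).of_le (by exact_mod_cast le_top)
  have vH : ∀ n, H5R2.NL.IsH1 (v n) (fun i c x => fderiv ℝ (v n) x (H5R2.NL.dir i c)) := fun n =>
    H5R2.NL.isH1_of_smooth (v n) (v1 n) (v2 n)
  have hz : Tendsto (fun n : ℕ => 1 / ((n : ℝ) + 1)) atTop (𝓝 0) :=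
    tendsto_one_div_add_atTop_nhds_zero_nat
  have c0 : Tendsto (fun n => ∫ x, ‖ψ x - v n x‖ ^ 2) atTop (𝓝 0) :=
    squeeze_zero (fun n => integral_nonneg fun x => by positivity) v3 hz
  have hone : ∀ n : ℕ, 1 / ((n : ℝ) + 1) ≤ 1 := by
    intro n
    rw [div_le_one (by positivity)]
    have : (0 : ℝ) ≤ n := by positivity
    linarith
  -- convergence without weight
  have lim1 : ∀ (f : (Fin n → E3) → ℂ) (F : ℕ → (Fin n → E3) → ℂ), MemLp f 2 →
      (∀ n, MemLp (F n) 2) → (∀ n : ℕ, (∫ x, ‖f x - F n x‖ ^ 2) ≤ 1 / ((n : ℝ) + 1)) →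
      Tendsto (fun n => ∫ x, ‖F n x‖ ^ 2) atTop (𝓝 (∫ x, ‖f x‖ ^ 2)) := by
    intro f F hf hF hb
    have hb0 : Tendsto (fun n => ∫ x, ‖f x - F n x‖ ^ 2) atTop (𝓝 0) :=
      squeeze_zero (fun n => integral_nonneg fun x => by positivity) hb hz
    have h1 := H5R2.NL.h1d_lim (μ := (volume : Measure (Fin n → E3))) (w := fun _ => (1 : ℝ))
      (M := 2 * (∫ x, ‖f x‖ ^ 2) + 2) measurable_const (fun _ => zero_le_one) hf hF hb0
      (by simpa using H5R2.NL.h1d_sq_int hf) (fun n => by simpa using H5R2.NL.h1d_sq_int (hF n))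
      ?_ ?_
    · simpa using h1
    · simp only [one_pow, one_mul]
      have : 0 ≤ ∫ x, ‖f x‖ ^ 2 := integral_nonneg fun x => by positivity
      linarith
    · intro n
      simp only [one_pow, one_mul]
      have h2 := H5R2.NL.h1d_norm_le hf (hF n)
      have h3 := hb n
      have h4 := hone n
      linarith
  have l0 : Tendsto (fun n => ∫ x, ‖v n x‖ ^ 2) atTop (𝓝 (∫ x, ‖ψ x‖ ^ 2)) :=
    lim1 ψ v h.memLp (fun n => (vH n).memLp) v3
  have lg : ∀ i c, Tendsto (fun n => ∫ x, ‖fderiv ℝ (v n) x (H5R2.NL.dir i c)‖ ^ 2) atTop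
      (𝓝 (∫ x, ‖g i c x‖ ^ 2)) := fun i c =>
    lim1 (g i c) (fun n x => fderiv ℝ (v n) x (H5R2.NL.dir i c)) (h.memLp_grad i c)
      (fun n => (vH n).memLp_grad i c) (v4 i c)
  -- kinetic energy of one particle
  have hgs : ∀ n i, (∫ x, H5R2.NL.gradSq (v n) i x)
      = ∑ c, ∫ x, ‖fderiv ℝ (v n) x (H5R2.NL.dir i c)‖ ^ 2 := by
    intro n i
    have : (fun x => H5R2.NL.gradSq (v n) i x)
        = fun x => ∑ c, ‖fderiv ℝ (v n) x (H5R2.NL.dir i c)‖ ^ 2 :=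
      funext fun x => H5R2.NL.gradSq_dir (v n) (vc n) i x
    rw [this, integral_finsetSum _ fun c _ => H5R2.NL.h1d_sq_int ((vH n).memLp_grad i c)]
  have hgb : ∀ i : Fin n, ∃ M : ℝ, ∀ n, (∫ x, H5R2.NL.gradSq (v n) i x) ≤ M := by
    intro i
    refine ⟨∑ c, (2 * (∫ x, ‖g i c x‖ ^ 2) + 2), fun n => ?_⟩
    rw [hgs]
    refine Finset.sum_le_sum fun c _ => ?_
    have h2 := H5R2.NL.h1d_norm_le (h.memLp_grad i c) ((vH n).memLp_grad i c)
    have h3 := v4 i c n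
    have h4 := hone n
    linarith
  -- the weighted terms
  have wterm : ∀ (w : (Fin n → E3) → ℝ) (i : Fin n), Measurable w → (∀ x, 0 ≤ w x) →
      (∀ n, Integrable (fun x => w x ^ 2 * ‖v n x‖ ^ 2) ∧
        (∫ x, w x ^ 2 * ‖v n x‖ ^ 2) ≤ 4 * ∫ x, H5R2.NL.gradSq (v n) i x) →
      Integrable (fun x => w x * ‖ψ x‖ ^ 2) ∧ (∀ n, Integrable (fun x => w x * ‖v n x‖ ^ 2)) ∧
        Tendsto (fun n => ∫ x, w x * ‖v n x‖ ^ 2) atTop (𝓝 (∫ x, w x * ‖ψ x‖ ^ 2)) := by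
    intro w i hw hw0 hh
    obtain ⟨M, hM⟩ := hgb i
    have hMF : ∀ n, ∫ x, w x ^ 2 * ‖v n x‖ ^ 2 ≤ 4 * M := fun n =>
      (hh n).2.trans (mul_le_mul_of_nonneg_left (hM n) (by norm_num))
    obtain ⟨f1, f2⟩ := H5R2.NL.h1d_fatou (μ := (volume : Measure (Fin n → E3))) hw h.memLp
      (fun n => (vH n).memLp) c0 (fun n => (hh n).1) hMF
    exact ⟨H5R2.NL.h1d_weight_int hw hw0 h.memLp f1,
      fun n => H5R2.NL.h1d_weight_int hw hw0 (vH n).memLp (hh n).1,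
      H5R2.NL.h1d_lim hw hw0 h.memLp (fun n => (vH n).memLp) c0 f1 (fun n => (hh n).1) f2 hMF⟩
  have hsq : ∀ (a b : ℝ), b / a ^ 2 = (1 / a) ^ 2 * b := by
    intro a b
    rw [div_pow, one_pow]; ring
  have wen : ∀ i : Fin n, Integrable (fun x : Fin n → E3 => 1 / ‖x i‖ * ‖ψ x‖ ^ 2) ∧
      (∀ n', Integrable (fun x : Fin n → E3 => 1 / ‖x i‖ * ‖v n' x‖ ^ 2)) ∧
        Tendsto (fun n' => ∫ x : Fin n → E3, 1 / ‖x i‖ * ‖v n' x‖ ^ 2) atTop
          (𝓝 (∫ x : Fin n → E3, 1 / ‖x i‖ * ‖ψ x‖ ^ 2)) := by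
    intro i
    refine wterm (fun x => 1 / ‖x i‖) i ?_ (fun x => by positivity) fun n' => ?_
    · fun_prop
    · have := H5R2.NL.hardy_en (v n') (vc n') (v2 n') i 0
      simp_rw [sub_zero, hsq] at this
      exact this
  have wee : ∀ (i j : Fin n), Integrable (fun x : Fin n → E3 => 1 / ‖x i - x j‖ * ‖ψ x‖ ^ 2) ∧
      (∀ n', Integrable (fun x : Fin n → E3 => 1 / ‖x i - x j‖ * ‖v n' x‖ ^ 2)) ∧
        Tendsto (fun n' => ∫ x : Fin n → E3, 1 / ‖x i - x j‖ * ‖v n' x‖ ^ 2) atTop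
          (𝓝 (∫ x : Fin n → E3, 1 / ‖x i - x j‖ * ‖ψ x‖ ^ 2)) := by
    intro i j
    by_cases hij : i = j
    · subst hij
      simp
    · refine wterm (fun x => 1 / ‖x i - x j‖) i ?_ (fun x => by positivity) fun n' => ?_
      · fun_prop
      · have := H5R2.NL.hardy_ee (v n') (vc n') (v2 n') i j hij
        simp_rw [hsq] at this
        exact this
  obtain ⟨p1, p2⟩ := e1_coul Z ψ (fun i j => (wee i j).1) (fun i => (wen i).1)
  refine ⟨p1, v, fun k => ⟨vc k, v2 k⟩, c0, ?_, ?_⟩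
  · have q2 : ∀ n', (∫ x, VC Z x * ‖v n' x‖ ^ 2) = _ := fun n' =>
      (e1_coul Z (v n') (fun i j => (wee i j).2.1 n') (fun i => (wen i).2.1 n')).2
    refine Tendsto.add (Tendsto.const_mul _ ?_) ?_
    · exact tendsto_finsetSum _ fun i _ => tendsto_finsetSum _ fun c _ => lg i c
    · rw [p2]
      simp_rw [q2]
      refine (Tendsto.const_mul _ ?_).sub (Tendsto.const_mul _ ?_)
      · exact tendsto_finsetSum _ fun i _ => tendsto_finsetSum _ fun j _ => (wee i j).2.2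
      · exact tendsto_finsetSum _ fun i _ => (wen i).2.2
  · rintro w hw ⟨B, hB⟩
    -- bounded weights
    have hB0 : 0 ≤ B := (abs_nonneg (w 0)).trans (hB 0)
    have hw1 : ∀ x, 0 ≤ w x + B := fun x => by linarith [neg_le_of_abs_le (hB x)]
    have hw2 : ∀ x, (w x + B) ^ 2 ≤ (2 * B) ^ 2 := fun x =>
      pow_le_pow_left₀ (hw1 x) (by linarith [le_of_abs_le (hB x)]) 2
    have hwm : Measurable (fun x => w x + B) := hw.add_const B
    have hint : ∀ f : (Fin n → E3) → ℂ, MemLp f 2 →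
        Integrable (fun x => (w x + B) ^ 2 * ‖f x‖ ^ 2) := by
      intro f hf
      refine ((H5R2.NL.h1d_sq_int hf).const_mul ((2 * B) ^ 2)).mono'
        ((hwm.pow_const 2).aestronglyMeasurable.mul (hf.1.norm.pow 2))
        (Eventually.of_forall fun x => ?_)
      rw [Real.norm_of_nonneg (by positivity)]
      exact mul_le_mul_of_nonneg_right (hw2 x) (by positivity)
    have hle : ∀ f : (Fin n → E3) → ℂ, MemLp f 2 →
        ∫ x, (w x + B) ^ 2 * ‖f x‖ ^ 2 ≤ (2 * B) ^ 2 * ∫ x, ‖f x‖ ^ 2 := by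
      intro f hf
      rw [← integral_const_mul]
      exact integral_mono (hint f hf) ((H5R2.NL.h1d_sq_int hf).const_mul _) fun x =>
        mul_le_mul_of_nonneg_right (hw2 x) (by positivity)
    have hψ0 : 0 ≤ ∫ x, ‖ψ x‖ ^ 2 := integral_nonneg fun x => by positivity
    have k1 := H5R2.NL.h1d_lim (μ := (volume : Measure (Fin n → E3))) (w := fun x => w x + B)
      (M := (2 * B) ^ 2 * (2 * (∫ x, ‖ψ x‖ ^ 2) + 2)) hwm hw1 h.memLp
      (fun k => (vH k).memLp) c0 (hint ψ h.memLp) (fun k => hint _ (vH k).memLp)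
      ((hle ψ h.memLp).trans (mul_le_mul_of_nonneg_left (by linarith) (by positivity)))
      (fun k => (hle _ (vH k).memLp).trans (mul_le_mul_of_nonneg_left (by
        have h2 := H5R2.NL.h1d_norm_le h.memLp (vH k).memLp
        have h3 := v3 k
        have h4 := hone k
        linarith) (by positivity)))
    have hiw : ∀ f : (Fin n → E3) → ℂ, MemLp f 2 → Integrable (fun x => (w x + B) * ‖f x‖ ^ 2) :=
      fun f hf => H5R2.NL.h1d_weight_int hwm hw1 hf (hint f hf)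
    have heq : ∀ f : (Fin n → E3) → ℂ, MemLp f 2 →
        ∫ x, w x * ‖f x‖ ^ 2 = (∫ x, (w x + B) * ‖f x‖ ^ 2) - B * ∫ x, ‖f x‖ ^ 2 := by
      intro f hf
      rw [← integral_const_mul, ← integral_sub (hiw f hf)
        ((H5R2.NL.h1d_sq_int hf).const_mul _)]
      congr 1
      funext x
      ring
    rw [heq ψ h.memLp]
    have : (fun k => ∫ x, w x * ‖v k x‖ ^ 2) =
        fun k => (∫ x, (w x + B) * ‖v k x‖ ^ 2) - B * ∫ x, ‖v k x‖ ^ 2 :=
      funext fun k => heq (v k) (vH k).memLp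
    rw [this]
    exact k1.sub (l0.const_mul B)

/-- TARGET 2: functions of class `C¹` with compact support are in H¹ (integration by parts, as in
`isH1_of_smooth`) -/
theorem isH1_of_CC {α : (Fin n → E3) → ℂ} (h : CC α) :
    H5R2.NL.IsH1 α (fun i c => pd i c α) := by
  have hu := h.smooth
  have hc := h.comp
  have hd : ∀ i c, Continuous fun x => fderiv ℝ α x (dir i c) := fun i c =>
    (hu.continuous_fderiv (by simp)).clm_apply continuous_const
  have hdc : ∀ (i : Fin n) (c : Fin 3), HasCompactSupport fun x => fderiv ℝ α x (dir i c) := by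
    intro i c
    exact hc.fderiv_apply (𝕜 := ℝ) _
  refine ⟨hu.continuous.memLp_of_hasCompactSupport hc,
    fun i c => (hd i c).memLp_of_hasCompactSupport (hdc i c), ?_⟩
  intro i c φ hφ hφc
  have hd' : Continuous fun x => fderiv ℝ φ x (dir i c) :=
    (hφ.continuous_fderiv (by simp)).clm_apply continuous_const
  have i1 : Integrable (fun x => fderiv ℝ α x (dir i c) * φ x) :=
    ((hd i c).mul hφ.continuous).integrable_of_hasCompactSupport (hdc i c).mul_right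
  have i2 : Integrable (fun x => α x * fderiv ℝ φ x (dir i c)) :=
    (hu.continuous.mul hd').integrable_of_hasCompactSupport hc.mul_right
  have i3 : Integrable (fun x => α x * φ x) :=
    (hu.continuous.mul hφ.continuous).integrable_of_hasCompactSupport hc.mul_right
  exact integral_mul_fderiv_eq_neg_fderiv_mul_of_integrable i1 i2 i3
    (fun x _ => hu.differentiable (by simp) x) (fun x _ => hφ.differentiable (by simp) x)

end Pool.Agent.H899_CR
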