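import Pool.Agent.H899_CR.Slice


set_option autoImplicit false

noncomputable section

namespace Pool.Agent.H899_CR

open MeasureTheory

variable {n : ℕ}

/-! Targets. -/

theorem rp_expand (u v : ℂ) (s t : ℝ) :
    ‖(s : ℂ) * u + (t : ℂ) * v‖ ^ 2 = s ^ 2 * ‖u‖ ^ 2 + 2 * s * t * rp u v + t ^ 2 * ‖v‖ ^ 2 := by
  rw [← rp_self, ← rp_self, ← rp_self]
  simp [rp]
  ring

theorem norm_smul_sq (s : ℝ) (u : ℂ) : ‖(s : ℂ) * u‖ ^ 2 = s ^ 2 * ‖u‖ ^ 2 := by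
  rw [norm_mul, mul_pow, Complex.norm_real, Real.norm_eq_abs, sq_abs]

theorem fderiv_sq' {f : E3 → ℝ} (hf : ContDiff ℝ 1 f) (y v : E3) :
    fderiv ℝ (fun y => f y ^ 2) y v = 2 * f y * fderiv ℝ f y v := by
  have h := ((hf.differentiable (by simp) y).hasFDerivAt).pow 2
  rw [h.fderiv]
  simp

/-- expansion of the energy density of `f φ` -/
theorem ed_mf {U : (Fin (n + 1) → E3) → ℝ} {α : (Fin (n + 1) → E3) → ℂ} (h : CC α)
    {f : E3 → ℝ} (hf : ContDiff ℝ 1 f) (x : Fin (n + 1) → E3) :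
    ed U (fun x => (f (x 0) : ℂ) * α x) (fun x => (f (x 0) : ℂ) * α x) x =
      1 / 2 * (∑ c, ‖pd 0 c (fun x => (f (x 0) : ℂ) * α x) x‖ ^ 2) +
        f (x 0) ^ 2 * (1 / 2 * (∑ i : Fin n, ∑ c, ‖pd i.succ c α x‖ ^ 2) + U x * ‖α x‖ ^ 2) := by
  unfold ed
  simp only [rp_self]
  rw [Fin.sum_univ_succ]
  have e1 : ∑ i : Fin n, ∑ c, ‖pd i.succ c (fun x => (f (x 0) : ℂ) * α x) x‖ ^ 2 =
      f (x 0) ^ 2 * ∑ i : Fin n, ∑ c, ‖pd i.succ c α x‖ ^ 2 := by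
    rw [Finset.mul_sum]
    refine Finset.sum_congr rfl fun i _ => ?_
    rw [Finset.mul_sum]
    refine Finset.sum_congr rfl fun c _ => ?_
    rw [pd_mf_succ h hf, norm_smul_sq]
  rw [e1, norm_smul_sq]
  ring

theorem ed_ims {U : (Fin (n + 1) → E3) → ℝ} {α : (Fin (n + 1) → E3) → ℂ} (h : CC α)
    {f : E3 → ℝ} (hf : ContDiff ℝ 1 f) (x : Fin (n + 1) → E3) :
    ed U α (fun x => ((f (x 0) ^ 2 : ℝ) : ℂ) * α x) x =
      ed U (fun x => (f (x 0) : ℂ) * α x) (fun x => (f (x 0) : ℂ) * α x) x -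
        1 / 2 * (gs f (x 0) * ‖α x‖ ^ 2) := by
  have hf2 : ContDiff ℝ 1 (fun y => f y ^ 2) := hf.pow 2
  rw [ed_mf h hf]
  unfold ed
  rw [Fin.sum_univ_succ]
  have e1 : ∑ i : Fin n, ∑ c, rp (pd i.succ c α x)
      (pd i.succ c (fun x => ((f (x 0) ^ 2 : ℝ) : ℂ) * α x) x) =
      f (x 0) ^ 2 * ∑ i : Fin n, ∑ c, ‖pd i.succ c α x‖ ^ 2 := by
    rw [Finset.mul_sum]
    refine Finset.sum_congr rfl fun i _ => ?_
    rw [Finset.mul_sum]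
    refine Finset.sum_congr rfl fun c _ => ?_
    rw [pd_mf_succ h hf2, rp_smul_right, rp_self]
  have e2 : ∑ c, rp (pd 0 c α x) (pd 0 c (fun x => ((f (x 0) ^ 2 : ℝ) : ℂ) * α x) x) =
      (∑ c, ‖pd 0 c (fun x => (f (x 0) : ℂ) * α x) x‖ ^ 2) - gs f (x 0) * ‖α x‖ ^ 2 := by
    unfold gs
    rw [Finset.sum_mul, ← Finset.sum_sub_distrib]
    refine Finset.sum_congr rfl fun c _ => ?_
    rw [pd_mf_zero h hf2, pd_mf_zero h hf, rp_expand, rp_add_right, rp_smul_right, rp_smul_right,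
      rp_self, fderiv_sq' hf]
    ring
  rw [e1, e2, rp_smul_right, rp_self]
  ring

theorem gs_continuous {f : E3 → ℝ} (hf : ContDiff ℝ 1 f) : Continuous (gs f) := by
  unfold gs
  refine continuous_finsetSum _ fun c _ => ?_
  exact ((hf.continuous_fderiv (by simp)).clm_apply continuous_const).pow 2

theorem int_gs {α : (Fin (n + 1) → E3) → ℂ} (h : CC α) {f : E3 → ℝ} (hf : ContDiff ℝ 1 f) :
    Integrable (fun x => gs f (x 0) * ‖α x‖ ^ 2) := by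
  have h1 : Continuous fun x : Fin (n + 1) → E3 => gs f (x 0) :=
    (gs_continuous hf).comp (continuous_apply 0)
  refine (h1.mul (h.cont.norm.pow 2)).integrable_of_hasCompactSupport ?_
  refine h.comp.mono ?_
  intro x hx
  rw [Function.mem_support] at hx ⊢
  intro h0
  apply hx
  simp [h0]

/-
IMS localization formula. Pointwise: with f = f(x 0) and ∂ = pd 0 c,
 rp (∂φ) (∂(f²φ)) = ‖∂(fφ)‖² - (∂f)² ‖φ‖²  [∂(fφ) = f ∂φ + ∂f φ, ∂(f²φ) = f² ∂φ + 2 f ∂f φ],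
and for the other derivatives rp (∂φ) (f² ∂φ) = ‖f ∂φ‖².
-/
theorem FW_mf {U : (Fin (n + 1) → E3) → ℝ} (hU : Adm U) {φ : WF (n + 1)} (hφ : CW φ)
    {f : E3 → ℝ} (hf : ContDiff ℝ 1 f) :
    FW U φ (mf (fun y => f y ^ 2) φ) =
      FW U (mf f φ) (mf f φ) - 1 / 2 * ∑ σ, ∫ x, gs f (x 0) * ‖φ σ x‖ ^ 2 := by
  unfold FW
  rw [Finset.mul_sum, ← Finset.sum_sub_distrib]
  refine Finset.sum_congr rfl fun σ _ => ?_
  unfold FF
  rw [← integral_const_mul, ← integral_sub (int_ed hU ((hφ.mf hf) σ) ((hφ.mf hf) σ))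
    ((int_gs (hφ σ) hf).const_mul _)]
  refine integral_congr_ae (ae_of_all _ fun x => ?_)
  exact ed_ims (hφ σ) hf x

/-- the density of the slices -/
theorem slice_density {U : (Fin (n + 1) → E3) → ℝ} {α : (Fin (n + 1) → E3) → ℂ} (h : CC α)
    (z : E3) (y : Fin n → E3) :
    ed (fun x => U (cns z x)) (fun x => α (cns z x)) (fun x => α (cns z x)) y =
      1 / 2 * (∑ i : Fin n, ∑ c, ‖pd i.succ c α (cns z y)‖ ^ 2) +
        U (cns z y) * ‖α (cns z y)‖ ^ 2 := by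
  unfold ed
  simp only [rp_self]
  congr 2
  refine Finset.sum_congr rfl fun i _ => Finset.sum_congr rfl fun c _ => ?_
  rw [pd_slice h]

theorem int_density {U : (Fin (n + 1) → E3) → ℝ} (hU : Adm U) {α : (Fin (n + 1) → E3) → ℂ}
    (h : CC α) {f : E3 → ℝ} (hf : ContDiff ℝ 1 f) :
    Integrable (fun x : Fin (n + 1) → E3 => f (x 0) ^ 2 *
      (1 / 2 * (∑ i : Fin n, ∑ c, ‖pd i.succ c α x‖ ^ 2) + U x * ‖α x‖ ^ 2)) := by
  have h1 := int_ed hU (h.mf hf) (h.mf hf)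
  have h2 : Integrable (fun x : Fin (n + 1) → E3 =>
      1 / 2 * (∑ c, ‖pd 0 c (fun x => (f (x 0) : ℂ) * α x) x‖ ^ 2)) := by
    refine (integrable_finsetSum _ fun c _ => ?_).const_mul _
    exact int_sq (pd_continuous (h.mf hf) 0 c) (pd_comp (h.mf hf) 0 c)
  refine (h1.sub h2).congr (ae_of_all _ fun x => ?_)
  simp only [Pi.sub_apply]
  rw [ed_mf h hf]
  ring

/-
Drop the kinetic energy ½ ∑_c ‖pd 0 c (fφ)‖² ≥ 0 of the first electron and use Fubini for the rest.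
-/
theorem FW_mf_slice {U : (Fin (n + 1) → E3) → ℝ} (hU : Adm U) {φ : WF (n + 1)} (hφ : CW φ)
    {f : E3 → ℝ} (hf : ContDiff ℝ 1 f) :
    ∑ τ, ∫ z, f z ^ 2 * FW (fun x => U (cns z x)) (sl τ z φ) (sl τ z φ) ≤
      FW U (mf f φ) (mf f φ) := by
  have h1 : ∀ σ : Fin (n + 1) → Fin 2, ∫ x : Fin (n + 1) → E3, f (x 0) ^ 2 *
      (1 / 2 * (∑ i : Fin n, ∑ c, ‖pd i.succ c (φ σ) x‖ ^ 2) + U x * ‖φ σ x‖ ^ 2) ≤
      FF U (mf f φ σ) (mf f φ σ) := by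
    intro σ
    unfold FF
    refine integral_mono (int_density hU (hφ σ) hf) (int_ed hU ((hφ.mf hf) σ) ((hφ.mf hf) σ)) ?_
    intro x
    change _ ≤ ed U (fun x => (f (x 0) : ℂ) * φ σ x) (fun x => (f (x 0) : ℂ) * φ σ x) x
    rw [ed_mf (hφ σ) hf]
    have : 0 ≤ 1 / 2 * (∑ c, ‖pd 0 c (fun x => (f (x 0) : ℂ) * φ σ x) x‖ ^ 2) := by positivity
    linarith
  have h2 : ∀ (τ : Fin 2) (σ : Fin n → Fin 2), ∫ x : Fin (n + 1) → E3, f (x 0) ^ 2 *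
      (1 / 2 * (∑ i : Fin n, ∑ c, ‖pd i.succ c (φ (cns τ σ)) x‖ ^ 2) +
        U x * ‖φ (cns τ σ) x‖ ^ 2) =
      ∫ z, f z ^ 2 * FF (fun x => U (cns z x)) (sl τ z φ σ) (sl τ z φ σ) := by
    intro τ σ
    rw [fub (int_density hU (hφ _) hf)]
    refine integral_congr_ae (ae_of_all _ fun z => ?_)
    change ∫ y, _ = f z ^ 2 * FF (fun x => U (cns z x)) (sl τ z φ σ) (sl τ z φ σ)
    unfold FF
    rw [← integral_const_mul]
    refine integral_congr_ae (ae_of_all _ fun y => ?_)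
    change _ = f z ^ 2 * ed (fun x => U (cns z x)) (fun x => φ (cns τ σ) (cns z x))
      (fun x => φ (cns τ σ) (cns z x)) y
    rw [slice_density (hφ _)]
    rfl
  have h3 : ∀ (τ : Fin 2) (σ : Fin n → Fin 2), Integrable (fun z =>
      f z ^ 2 * FF (fun x => U (cns z x)) (sl τ z φ σ) (sl τ z φ σ)) := by
    intro τ σ
    have h4 := (fub_int (int_density hU (hφ (cns τ σ)) hf)).integral_prod_left
    refine h4.congr (ae_of_all _ fun z => ?_)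
    change ∫ y, _ = f z ^ 2 * FF (fun x => U (cns z x)) (sl τ z φ σ) (sl τ z φ σ)
    unfold FF
    rw [← integral_const_mul]
    refine integral_congr_ae (ae_of_all _ fun y => ?_)
    change _ = f z ^ 2 * ed (fun x => U (cns z x)) (fun x => φ (cns τ σ) (cns z x))
      (fun x => φ (cns τ σ) (cns z x)) y
    rw [slice_density (hφ _)]
    rfl
  have h5 : ∀ τ : Fin 2, ∫ z, f z ^ 2 * FW (fun x => U (cns z x)) (sl τ z φ) (sl τ z φ) =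
      ∑ σ : Fin n → Fin 2, ∫ z, f z ^ 2 *
        FF (fun x => U (cns z x)) (sl τ z φ σ) (sl τ z φ σ) := by
    intro τ
    rw [← integral_finsetSum _ fun σ _ => h3 τ σ]
    refine integral_congr_ae (ae_of_all _ fun z => ?_)
    change f z ^ 2 * FW (fun x => U (cns z x)) (sl τ z φ) (sl τ z φ) = _
    unfold FW
    rw [Finset.mul_sum]
  have h6 : FW U (mf f φ) (mf f φ) = ∑ τ : Fin 2, ∑ σ : Fin n → Fin 2,
      FF U (mf f φ (cns τ σ)) (mf f φ (cns τ σ)) :=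
    sum_spin (fun σ => FF U (mf f φ σ) (mf f φ σ))
  rw [h6]
  refine Finset.sum_le_sum fun τ _ => ?_
  rw [h5 τ]
  refine Finset.sum_le_sum fun σ _ => ?_
  rw [← h2 τ σ]
  exact h1 (cns τ σ)

/-- `H¹` bound for the multiplication by a bounded function with bounded derivative
 (‖∂(fφ)‖² ≤ 2 f² ‖∂φ‖² + 2 (∂f)² ‖φ‖²) -/
theorem h1_mf {φ : WF (n + 1)} (hφ : CW φ) {f : E3 → ℝ} (hf : ContDiff ℝ 1 f) {B : ℝ}
    (hB : ∀ y, |f y| ≤ B) (hB' : ∀ y, ‖fderiv ℝ f y‖ ≤ B) : h1 (mf f φ) ≤ 8 * B ^ 2 * h1 φ := by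
  have hU : Adm (fun _ : Fin (n + 1) → E3 => (1 : ℝ)) := Adm.const 1
  have hB0 : 0 ≤ B := le_trans (abs_nonneg _) (hB 0)
  unfold h1 FW
  rw [Finset.mul_sum]
  refine Finset.sum_le_sum fun σ _ => ?_
  unfold FF
  rw [← integral_const_mul]
  refine integral_mono (int_ed hU ((hφ.mf hf) σ) ((hφ.mf hf) σ))
    ((int_ed hU (hφ σ) (hφ σ)).const_mul _) ?_
  intro x
  change ed (fun _ => 1) (fun x => (f (x 0) : ℂ) * φ σ x) (fun x => (f (x 0) : ℂ) * φ σ x) x ≤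
    8 * B ^ 2 * ed (fun _ => 1) (φ σ) (φ σ) x
  rw [ed_mf (hφ σ) hf]
  unfold ed
  simp only [rp_self]
  rw [Fin.sum_univ_succ (n := n)]
  have hf2 : f (x 0) ^ 2 ≤ B ^ 2 := sq_le_sq' (by linarith [neg_abs_le (f (x 0)), hB (x 0)])
    (le_trans (le_abs_self _) (hB _))
  have key : ∑ c, ‖pd 0 c (fun x => (f (x 0) : ℂ) * φ σ x) x‖ ^ 2 ≤
      2 * B ^ 2 * (∑ c, ‖pd 0 c (φ σ) x‖ ^ 2) + 6 * B ^ 2 * ‖φ σ x‖ ^ 2 := by
    have h3 : ∀ c : Fin 3, ‖pd 0 c (fun x => (f (x 0) : ℂ) * φ σ x) x‖ ^ 2 ≤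
        2 * B ^ 2 * ‖pd 0 c (φ σ) x‖ ^ 2 + 2 * B ^ 2 * ‖φ σ x‖ ^ 2 := by
      intro c
      rw [pd_mf_zero (hφ σ) hf]
      set d := fderiv ℝ f (x 0) (EuclideanSpace.single c 1) with hd
      have hd2 : d ^ 2 ≤ B ^ 2 := by
        have h4 : |d| ≤ B := by
          have := (fderiv ℝ f (x 0)).le_opNorm (EuclideanSpace.single c (1 : ℝ))
          rw [PiLp.norm_single, norm_one, mul_one, Real.norm_eq_abs] at this
          exact le_trans this (hB' _)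
        exact sq_le_sq' (by linarith [neg_abs_le d]) (le_trans (le_abs_self _) h4)
      have h5 := norm_add_le ((f (x 0) : ℂ) * pd 0 c (φ σ) x) ((d : ℂ) * φ σ x)
      have h6 : ‖(f (x 0) : ℂ) * pd 0 c (φ σ) x + (d : ℂ) * φ σ x‖ ^ 2 ≤
          2 * ‖(f (x 0) : ℂ) * pd 0 c (φ σ) x‖ ^ 2 + 2 * ‖(d : ℂ) * φ σ x‖ ^ 2 := by
        nlinarith [norm_nonneg ((f (x 0) : ℂ) * pd 0 c (φ σ) x + (d : ℂ) * φ σ x),
          sq_nonneg (‖(f (x 0) : ℂ) * pd 0 c (φ σ) x‖ - ‖(d : ℂ) * φ σ x‖),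
          norm_nonneg ((f (x 0) : ℂ) * pd 0 c (φ σ) x), norm_nonneg ((d : ℂ) * φ σ x)]
      rw [norm_smul_sq, norm_smul_sq] at h6
      have h7 : f (x 0) ^ 2 * ‖pd 0 c (φ σ) x‖ ^ 2 ≤ B ^ 2 * ‖pd 0 c (φ σ) x‖ ^ 2 :=
        mul_le_mul_of_nonneg_right hf2 (by positivity)
      have h8 : d ^ 2 * ‖φ σ x‖ ^ 2 ≤ B ^ 2 * ‖φ σ x‖ ^ 2 :=
        mul_le_mul_of_nonneg_right hd2 (by positivity)
      linarith
    calc _ ≤ ∑ c : Fin 3, (2 * B ^ 2 * ‖pd 0 c (φ σ) x‖ ^ 2 + 2 * B ^ 2 * ‖φ σ x‖ ^ 2) :=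
          Finset.sum_le_sum fun c _ => h3 c
      _ = _ := by
        rw [Finset.sum_add_distrib, ← Finset.mul_sum, Finset.sum_const, Finset.card_univ,
          Fintype.card_fin]
        simp only [nsmul_eq_mul]
        push_cast
        ring
  have hR0 : 0 ≤ ∑ i : Fin n, ∑ c, ‖pd i.succ c (φ σ) x‖ ^ 2 :=
    Finset.sum_nonneg fun i _ => Finset.sum_nonneg fun c _ => sq_nonneg _
  have hK0 : 0 ≤ ∑ c, ‖pd 0 c (φ σ) x‖ ^ 2 := Finset.sum_nonneg fun c _ => sq_nonneg _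
  have hα : 0 ≤ ‖φ σ x‖ ^ 2 := sq_nonneg _
  clear hU hB'
  generalize (∑ i : Fin n, ∑ c, ‖pd i.succ c (φ σ) x‖ ^ 2) = R at *
  generalize (∑ c, ‖pd 0 c (fun x => (f (x 0) : ℂ) * φ σ x) x‖ ^ 2) = K' at *
  generalize (∑ c, ‖pd 0 c (φ σ) x‖ ^ 2) = K at *
  generalize ‖φ σ x‖ ^ 2 = A at *
  have h9 : f (x 0) ^ 2 * (1 / 2 * R + 1 * A) ≤ B ^ 2 * (1 / 2 * R + 1 * A) :=
    mul_le_mul_of_nonneg_right hf2 (by linarith)
  have hBK : 0 ≤ B ^ 2 * K := mul_nonneg (sq_nonneg _) hK0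
  have hBR : 0 ≤ B ^ 2 * R := mul_nonneg (sq_nonneg _) hR0
  have hBα : 0 ≤ B ^ 2 * A := mul_nonneg (sq_nonneg _) hα
  linarith

end Pool.Agent.H899_CR
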