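import Mathlib

/-!
# The numerical induction: definitions

`e k` is the ground-state energy of `k` electrons, `D k μ s` is the decrease of the energy due to
the potential `-μ 1(|y| ≥ s)`, `T k κ t` is the decrease due to `-κ min(|y|, t)`.
-/

set_option autoImplicit false

noncomputable section

namespace Pool.Agent.H899_CR

open MeasureTheory

/-- The inequalities for the energies used in the induction. -/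
structure Iface (K0 K1 Cl Z : ℝ) (e : ℕ → ℝ) (D T : ℕ → ℝ → ℝ → ℝ) : Prop where
  D_nonneg : ∀ k μ s, 0 ≤ μ → 0 ≤ D k μ s
  D_triv : ∀ k μ s, 0 ≤ μ → D k μ s ≤ μ * k
  D_conv : ∀ k μ' μ s, 0 < μ' → μ' ≤ μ → D k μ' s ≤ μ' / μ * D k μ s
  D_anti : ∀ k μ s s', 0 ≤ μ → s ≤ s' → D k μ s' ≤ D k μ s
  T_layer : ∀ k κ t, 0 ≤ κ → 0 < t → T k κ t ≤ 1 / t * ∫ r in (0 : ℝ)..t, D k (κ * t) r
  ion0 : ∀ L, 0 < L → K0 ≤ Z * L → 3 * Z / (8 * L) ≤ e 0 - e 1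
  ion : ∀ k : ℕ, ∀ q : ℝ, q = Z - (k + 1) → 0 < q → ∀ L, 0 < L → K0 ≤ q * L → ∀ μ, 0 < μ →
    ∀ B, (∀ t, L / 4 ≤ t → (q + 1) / t + 1 / 2 * T k (2 / t ^ 2) t ≤ B) →
    3 * q / (8 * L) - K1 / (q * L) ^ (3 / 2 : ℝ) * (D (k + 1) μ (L / 4) / μ) * (B + 1 / L ^ 2) ≤
      e (k + 1) - e (k + 2)
  step : ∀ k : ℕ, ∀ μ, 0 < μ → ∀ s, 0 < s → ∀ θ, 0 < θ → θ ≤ 1 → ∀ B,
    (∀ t, s / 2 ≤ t →
      θ / 2 * (D k (2 * μ) s + T k (2 / (θ * t ^ 2)) t) + (Z - k) / t ≤ B) →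
    D (k + 1) μ s ≤ D k μ s + 2 * μ + B - (e k - e (k + 1)) ∨
      D (k + 1) μ s ≤ Cl / (μ * s ^ 2) * D (k + 1) (2 * μ) (s / 2)

/-- `g(μ) = (Z^b μ)^(1/a)` with `b = a - 4/3`. -/
def gz (a Z μ : ℝ) : ℝ := (Z ^ (a - 4 / 3) * μ) ^ (1 / a)

/-- `M = C_M Z^(2/3)`. -/
def MZ (CM Z : ℝ) : ℝ := CM * Z ^ (2 / 3 : ℝ)

/-- Lower bound on the ionization energy `e k - e (k+1)`. -/
def IClaim (a lam Z : ℝ) (e : ℕ → ℝ) (k : ℕ) : Prop :=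
  1 / (4 * lam) * (Z - k) ^ a * Z ^ (-(a - 4 / 3)) ≤ e k - e (k + 1)

/-- `s₁ = √C_M Z^(-1/3)`. -/
def s1 (CM Z : ℝ) : ℝ := √CM * Z ^ (-(1 / 3) : ℝ)

/-- Upper bound on `D k` at the radius `s`. -/
def DAt (a CD CM Z : ℝ) (D : ℕ → ℝ → ℝ → ℝ) (k : ℕ) (s : ℝ) : Prop :=
  ∀ μ, 0 < μ → D k μ s ≤ CD * μ * gz a Z (max μ (MZ CM Z / s ^ 2))

/-- The maintained bound on `D k` at the radius `s`, for `μ ≥ M/s²`. -/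
def PAt (a lam CD CM Z : ℝ) (D : ℕ → ℝ → ℝ → ℝ) (k : ℕ) (s : ℝ) : Prop :=
  ∀ μ, MZ CM Z / s ^ 2 ≤ μ →
    D k μ s ≤ 1 / 4 * CD * μ * gz a Z μ +
      7 * μ * max 0 ((56 * lam) ^ (1 / a) * gz a Z μ - (Z - k))

/-- Upper bound on `T k`. -/
def TClaim (a CD CM Z : ℝ) (T : ℕ → ℝ → ℝ → ℝ) (k : ℕ) : Prop :=
  ∀ κ, 0 < κ → ∀ t, 0 < t → T k κ t ≤ κ * (CD * t * gz a Z (κ * t) + MZ CM Z / 4)

/-- The conditions on the constants. -/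
structure Cst (a K0 K1 Cl lam CD CM : ℝ) : Prop where
  a1 : 1 < a
  a2 : a < 2
  a3 : 0 ≤ 5 * a ^ 2 - 6 * a - 4
  hK0 : 0 < K0
  hK1 : 0 < K1
  hCl : 0 < Cl
  lam1 : 1 ≤ lam
  lamK : K0 ≤ lam
  CD_eq : CD = 10 * (56 * lam) ^ (1 / a)
  CM1 : 1 ≤ CM
  CM_lam : 16 * lam ≤ CM
  CM_Cl : 32 * Cl ≤ CM
  CM_CD : 16 * CD ≤ √CM
  CM_int : 1 + CD / (2 / a - 1) ≤ √CM / 4
  young : ∀ y, 0 ≤ y → CD / 4 * y ^ (1 + 1 / a) ≤ 1 / (32 * lam) + CM / 64 * y ^ 2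
  i1 : 16 * K1 * (13 + 40 * 448 ^ (1 / a)) * (CD * (16 * CM / lam ^ 2) ^ (1 / a)) ≤
    lam ^ (3 / 2 : ℝ)
  i2 : 16 * K1 * (13 + 40 * 448 ^ (1 / a)) * (CD * (16 * CM / lam ^ 2) ^ (1 / a)) * CM ≤
    lam ^ (5 / 2 : ℝ)

end Pool.Agent.H899_CR
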