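import Pool.Agent.H899_CR.Num0


set_option autoImplicit false

noncomputable section

namespace Pool.Agent.H899_CR

open MeasureTheory

theorem numT_gz_nonneg {a Z x : ℝ} (hZ : 0 ≤ Z) (hx : 0 ≤ x) : 0 ≤ gz a Z x := by
  unfold gz
  positivity

theorem numT_gz_max_le {a Z x y : ℝ} (hZ : 0 ≤ Z) (hx : 0 ≤ x) (hy : 0 ≤ y) :
    gz a Z (max x y) ≤ gz a Z x + gz a Z y := by
  rcases le_total x y with h | h
  · rw [max_eq_right h]
    have := numT_gz_nonneg (a := a) hZ hx
    linarith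
  · rw [max_eq_left h]
    have := numT_gz_nonneg (a := a) hZ hy
    linarith

/-- `g(M/r²) = g(M) r^(-2/a)`. -/
theorem numT_gz_div_sq {a Z m r : ℝ} (hZ : 0 ≤ Z) (hm : 0 ≤ m) (hr : 0 < r) :
    gz a Z (m / r ^ 2) = gz a Z m * r ^ (-(2 / a)) := by
  unfold gz
  have h1 : Z ^ (a - 4 / 3) * (m / r ^ 2) = Z ^ (a - 4 / 3) * m * (r ^ (-2 : ℝ)) := by
    rw [Real.rpow_neg hr.le, Real.rpow_two]
    ring
  rw [h1, Real.mul_rpow (by positivity) (by positivity), ← Real.rpow_mul hr.le]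
  congr 2
  ring

/-- `g(M/s₁²) = Z`. -/
theorem numT_gz_s1 {a CM Z : ℝ} (ha : 0 < a) (hCM : 0 < CM) (hZ : 0 < Z) :
    gz a Z (MZ CM Z / s1 CM Z ^ 2) = Z := by
  unfold gz MZ s1
  have h1 : CM * Z ^ (2 / 3 : ℝ) / (√CM * Z ^ (-(1 / 3) : ℝ)) ^ 2 = Z ^ (4 / 3 : ℝ) := by
    rw [mul_pow, Real.sq_sqrt hCM.le, mul_div_mul_left _ _ hCM.ne', ← Real.rpow_natCast (Z ^ (-(1 / 3) : ℝ)) 2,
      ← Real.rpow_mul hZ.le, ← Real.rpow_sub hZ]
    norm_num
  rw [h1, ← Real.rpow_add hZ, ← Real.rpow_mul hZ.le]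
  have h2 : (a - 4 / 3 + 4 / 3) * (1 / a) = 1 := by
    field_simp
    ring
  rw [h2, Real.rpow_one]

/-
TARGET. Notation: g(x) = gz a Z x = (Z^b x)^(1/a), b = a - 4/3, M = MZ CM Z = CM Z^(2/3), s₁ = √CM Z^(-1/3).
Proof.  T k κ t ≤ (1/t) ∫_0^t D k (κ t) r dr   (h.T_layer).  The integrand is antitone in r (h.D_anti), hence interval
integrable. Pointwise for 0 < r:
   * D k (κt) r ≤ κ t k ≤ κ t Z                                       (h.D_triv, k ≤ Z)     -- used for r ≤ s₁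
   * D k (κt) r ≤ CD κt g(max(κt, M/r²)) ≤ CD κt (g(κt) + g(M/r²))    (hD)                   -- used for r > s₁
(g is monotone and nonnegative on [0,∞), so g(max x y) ≤ g x + g y.)
Case t ≤ s₁: the integral is ≤ t κ t Z ≤ s₁ κ t Z.
Case t > s₁: split the integral at s₁:  ≤ s₁ κ t Z + CD κ t [ t g(κt) + ∫_{s₁}^t g(M/r²) dr ],  and
   g(M/r²) = g(M) r^(-2/a),  ∫_{s₁}^t r^(-2/a) dr ≤ s₁^(1-2/a) / (2/a - 1)   (2/a > 1, integral_rpow),
   g(M) s₁^(-2/a) = g(M/s₁²) = Z   since  M/s₁² = CM Z^(2/3) / (CM Z^(-2/3)) = Z^(4/3), b + 4/3 = a.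
   So ∫_{s₁}^t g(M/r²) dr ≤ s₁ Z/(2/a-1).
Together T k κ t ≤ κ [ CD t g(κt) + s₁ Z (1 + CD/(2/a-1)) ],  s₁ Z = √CM Z^(2/3), and
   √CM Z^(2/3) (1 + CD/(2/a-1)) ≤ √CM Z^(2/3) √CM/4 = M/4 by hc.CM_int.
-/
theorem num_T {a K0 K1 Cl lam CD CM Z : ℝ} (hc : Cst a K0 K1 Cl lam CD CM) (hZ : 1 ≤ Z)
    {e : ℕ → ℝ} {D T : ℕ → ℝ → ℝ → ℝ} (h : Iface K0 K1 Cl Z e D T) {k : ℕ} (hk : (k : ℝ) ≤ Z)
    (hD : ∀ s, 0 < s → DAt a CD CM Z D k s) : TClaim a CD CM Z T k := by
  intro κ hκ t ht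
  have ha : 0 < a := by linarith [hc.a1]
  have hZ0 : 0 < Z := by linarith
  have hCM : 0 < CM := by linarith [hc.CM1]
  have hlam : 0 < lam := by linarith [hc.lam1]
  have hCD : 0 < CD := by
    rw [hc.CD_eq]
    positivity
  have h2a : 0 < 2 / a - 1 := by
    rw [sub_pos, lt_div_iff₀ ha]
    linarith [hc.a2]
  set μ := κ * t with hμdef
  have hμ : 0 < μ := mul_pos hκ ht
  set m := MZ CM Z with hm
  have hm0 : 0 < m := by
    rw [hm]
    unfold MZ
    positivity
  set s := s1 CM Z with hs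
  have hs0 : 0 < s := by
    rw [hs]
    unfold s1
    positivity
  have hanti : Antitone (fun r => D k μ r) := fun x y hxy => h.D_anti k μ x y hμ.le hxy
  have hint : ∀ x y : ℝ, IntervalIntegrable (fun r => D k μ r) volume x y :=
    fun x y => hanti.intervalIntegrable
  have hg0 : 0 ≤ gz a Z μ := numT_gz_nonneg hZ0.le hμ.le
  -- bound for small `r`
  have hsmall : ∀ r, D k μ r ≤ μ * Z := fun r =>
    (h.D_triv k μ r hμ.le).trans (mul_le_mul_of_nonneg_left hk hμ.le)
  have hI1 : ∀ x, 0 ≤ x → ∫ r in (0 : ℝ)..x, D k μ r ≤ x * (μ * Z) := by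
    intro x hx
    have := intervalIntegral.integral_mono_on hx (hint 0 x) (intervalIntegrable_const (c := μ * Z))
      (fun r _ => hsmall r)
    rw [intervalIntegral.integral_const, smul_eq_mul, sub_zero] at this
    exact this
  -- the target in terms of the integral
  have hsZ : s * Z = √CM * Z ^ (2 / 3 : ℝ) := by
    rw [hs]
    unfold s1
    rw [mul_assoc]
    congr 1
    nth_rewrite 2 [← Real.rpow_one Z]
    rw [← Real.rpow_add hZ0]
    norm_num
  have hfin : s * Z * (1 + CD / (2 / a - 1)) ≤ m / 4 := by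
    rw [hsZ, hm]
    unfold MZ
    calc √CM * Z ^ (2 / 3 : ℝ) * (1 + CD / (2 / a - 1))
        ≤ √CM * Z ^ (2 / 3 : ℝ) * (√CM / 4) :=
          mul_le_mul_of_nonneg_left hc.CM_int (by positivity)
      _ = (√CM * √CM) * Z ^ (2 / 3 : ℝ) / 4 := by ring
      _ = CM * Z ^ (2 / 3 : ℝ) / 4 := by rw [Real.mul_self_sqrt hCM.le]
  have hmain : ∫ r in (0 : ℝ)..t, D k μ r ≤
      s * (μ * Z) + CD * μ * (t * gz a Z μ + s * Z / (2 / a - 1)) := by
    rcases le_or_gt t s with hts | hts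
    · have h1 := hI1 t ht.le
      have h2 : t * (μ * Z) ≤ s * (μ * Z) := mul_le_mul_of_nonneg_right hts (by positivity)
      have h3 : 0 ≤ CD * μ * (t * gz a Z μ + s * Z / (2 / a - 1)) := by positivity
      linarith
    · rw [← intervalIntegral.integral_add_adjacent_intervals (hint 0 s) (hint s t)]
      have hnot : (0 : ℝ) ∉ Set.uIcc s t := by
        rw [Set.uIcc_of_le hts.le]
        intro h0
        exact absurd h0.1 (not_le.2 hs0)
      have hrint : IntervalIntegrable (fun r : ℝ => r ^ (-(2 / a))) volume s t :=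
        intervalIntegral.intervalIntegrable_rpow (Or.inr hnot)
      have hpt : ∀ r ∈ Set.Icc s t, D k μ r ≤
          CD * μ * (gz a Z μ + gz a Z m * r ^ (-(2 / a))) := by
        intro r hr
        have hr0 : 0 < r := lt_of_lt_of_le hs0 hr.1
        refine (hD r hr0 μ hμ).trans ?_
        apply mul_le_mul_of_nonneg_left _ (by positivity)
        rw [← numT_gz_div_sq hZ0.le hm0.le hr0]
        exact numT_gz_max_le hZ0.le hμ.le (by positivity)
      have hI2 : ∫ r in s..t, D k μ r ≤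
          ∫ r in s..t, CD * μ * (gz a Z μ + gz a Z m * r ^ (-(2 / a))) :=
        intervalIntegral.integral_mono_on hts.le (hint s t)
          ((intervalIntegrable_const.add (hrint.const_mul _)).const_mul _) hpt
      have hI3 : ∫ r in s..t, CD * μ * (gz a Z μ + gz a Z m * r ^ (-(2 / a))) =
          CD * μ * ((t - s) * gz a Z μ + gz a Z m * ∫ r in s..t, r ^ (-(2 / a))) := by
        rw [intervalIntegral.integral_const_mul,
          intervalIntegral.integral_add intervalIntegrable_const (hrint.const_mul _),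
          intervalIntegral.integral_const_mul, intervalIntegral.integral_const, smul_eq_mul]
      have hI4 : ∫ r in s..t, r ^ (-(2 / a)) ≤ s ^ (1 - 2 / a) / (2 / a - 1) := by
        rw [integral_rpow (Or.inr ⟨by intro h1; linarith, hnot⟩)]
        have e1 : -(2 / a) + 1 = 1 - 2 / a := by ring
        rw [e1]
        have e2 : (t ^ (1 - 2 / a) - s ^ (1 - 2 / a)) / (1 - 2 / a) =
            (s ^ (1 - 2 / a) - t ^ (1 - 2 / a)) / (2 / a - 1) := by
          rw [div_eq_div_iff (by linarith) h2a.ne']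
          ring
        rw [e2]
        apply div_le_div_of_nonneg_right _ h2a.le
        have : 0 ≤ t ^ (1 - 2 / a) := by positivity
        linarith
      have hgm : gz a Z m * s ^ (1 - 2 / a) = s * Z := by
        have h1 := numT_gz_div_sq (a := a) hZ0.le hm0.le hs0
        have h2 := numT_gz_s1 (a := a) (CM := CM) (Z := Z) ha hCM hZ0
        rw [← hm, ← hs, h1] at h2
        have e1 : (1 : ℝ) - 2 / a = 1 + -(2 / a) := by ring
        rw [e1, Real.rpow_add hs0, Real.rpow_one, mul_left_comm, h2]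
      have hgm0 : 0 ≤ gz a Z m := numT_gz_nonneg hZ0.le hm0.le
      have hI5 : gz a Z m * ∫ r in s..t, r ^ (-(2 / a)) ≤ s * Z / (2 / a - 1) := by
        refine (mul_le_mul_of_nonneg_left hI4 hgm0).trans ?_
        rw [← mul_div_assoc, hgm]
      have hI6 : (t - s) * gz a Z μ ≤ t * gz a Z μ :=
        mul_le_mul_of_nonneg_right (by linarith) hg0
      have hI7 : CD * μ * ((t - s) * gz a Z μ + gz a Z m * ∫ r in s..t, r ^ (-(2 / a))) ≤
          CD * μ * (t * gz a Z μ + s * Z / (2 / a - 1)) :=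
        mul_le_mul_of_nonneg_left (by linarith) (by positivity)
      have := hI1 s hs0.le
      linarith
  refine (h.T_layer k κ t hκ.le ht).trans ?_
  have hstep : 1 / t * ∫ r in (0 : ℝ)..t, D k (κ * t) r ≤
      1 / t * (s * (μ * Z) + CD * μ * (t * gz a Z μ + s * Z / (2 / a - 1))) :=
    mul_le_mul_of_nonneg_left hmain (by positivity)
  refine hstep.trans ?_
  have heq : 1 / t * (s * (μ * Z) + CD * μ * (t * gz a Z μ + s * Z / (2 / a - 1))) =
      κ * (CD * t * gz a Z μ + s * Z * (1 + CD / (2 / a - 1))) := by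
    rw [hμdef]
    field_simp
    ring
  rw [heq]
  apply mul_le_mul_of_nonneg_left _ hκ.le
  linarith

end Pool.Agent.H899_CR
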