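import Pool.Agent.H899_CR.Num0


set_option autoImplicit false

noncomputable section

namespace Pool.Agent.H899_CR

open MeasureTheory

theorem n2_gz_mono {a Z x y : ℝ} (ha : 0 < a) (hZ : 0 < Z) (hx : 0 ≤ x) (hxy : x ≤ y) :
    gz a Z x ≤ gz a Z y := by
  unfold gz
  have hZb : 0 < Z ^ (a - 4 / 3) := Real.rpow_pos_of_pos hZ _
  exact Real.rpow_le_rpow (by positivity) (mul_le_mul_of_nonneg_left hxy hZb.le) (by positivity)

theorem n2_gz_nonneg {a Z x : ℝ} (hZ : 0 < Z) (hx : 0 ≤ x) : 0 ≤ gz a Z x := by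
  unfold gz
  have hZb : 0 < Z ^ (a - 4 / 3) := Real.rpow_pos_of_pos hZ _
  exact Real.rpow_nonneg (by positivity) _

theorem n2_gz_scale {a Z x : ℝ} (ha : 0 < a) (hZ : 0 < Z) (hx : 0 ≤ x) :
    gz a Z (x * Z ^ (4 / 3 : ℝ)) = Z * x ^ (1 / a) := by
  unfold gz
  have h1 : Z ^ (a - 4 / 3) * (x * Z ^ (4 / 3 : ℝ)) = Z ^ a * x := by
    have : Z ^ (a - 4 / 3) * Z ^ (4 / 3 : ℝ) = Z ^ a := by
      rw [← Real.rpow_add hZ]; congr 1; ring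
    calc _ = (Z ^ (a - 4 / 3) * Z ^ (4 / 3 : ℝ)) * x := by ring
      _ = _ := by rw [this]
  rw [h1, Real.mul_rpow (Real.rpow_nonneg hZ.le _) hx, ← Real.rpow_mul hZ.le]
  have : a * (1 / a) = 1 := by field_simp
  rw [this, Real.rpow_one]

theorem n2_s1_sq {CM Z : ℝ} (hCM : 0 < CM) (hZ : 0 < Z) :
    MZ CM Z / (s1 CM Z) ^ 2 = Z ^ (4 / 3 : ℝ) := by
  unfold MZ s1
  rw [mul_pow, Real.sq_sqrt hCM.le]
  have h1 : (Z ^ (-(1 / 3) : ℝ)) ^ 2 = Z ^ (-(2 / 3) : ℝ) := by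
    rw [← Real.rpow_natCast, ← Real.rpow_mul hZ.le]; congr 1; norm_num
  rw [h1]
  have h2 : Z ^ (2 / 3 : ℝ) = Z ^ (4 / 3 : ℝ) * Z ^ (-(2 / 3) : ℝ) := by
    rw [← Real.rpow_add hZ]; congr 1; norm_num
  rw [h2]
  have h3 : Z ^ (-(2 / 3) : ℝ) ≠ 0 := (Real.rpow_pos_of_pos hZ _).ne'
  field_simp

theorem n2_s1_pos {CM Z : ℝ} (hCM : 0 < CM) (hZ : 0 < Z) : 0 < s1 CM Z := by
  unfold s1
  have := Real.sqrt_pos.2 hCM
  have := Real.rpow_pos_of_pos hZ (-(1 / 3) : ℝ)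
  positivity

/-
TARGET 1. Notation: g(x) = gz a Z x = (Z^b x)^(1/a), b = a - 4/3, M = MZ CM Z = CM Z^(2/3), s₁ = s1 CM Z = √CM Z^(-1/3).
Case s < s₁: D k μ s ≤ μ k ≤ μ Z (h.D_triv), and max μ (M/s²) ≥ M/s² ≥ M/s₁² = CM Z^(2/3)/(CM Z^(-2/3)) = Z^(4/3),
   g(Z^(4/3)) = (Z^(b+4/3))^(1/a) = (Z^a)^(1/a) = Z, and CD = 10 (56 lam)^(1/a) ≥ 1. g is monotone.
Case s ≥ s₁, μ ≥ M/s²: hP gives D k μ s ≤ CD/4 μ g(μ) + 7 μ max(0, (56 lam)^(1/a) g(μ) - (Z-k)) and Z - k ≥ 0, so the max is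
   at most (56 lam)^(1/a) g(μ) = CD/10 g(μ); total ≤ (1/4 + 7/10) CD μ g(μ), and max μ (M/s²) = μ.
Case s ≥ s₁, μ < M/s²: h.D_conv with μ' = μ and the larger value M/s² (the previous case at μ = M/s²):
   D k μ s ≤ μ/(M/s²) D k (M/s²) s ≤ μ/(M/s²) CD (M/s²) g(M/s²) = CD μ g(M/s²).
-/
theorem num_D {a K0 K1 Cl lam CD CM Z : ℝ} (hc : Cst a K0 K1 Cl lam CD CM) (hZ : 1 ≤ Z)
    {e : ℕ → ℝ} {D T : ℕ → ℝ → ℝ → ℝ} (h : Iface K0 K1 Cl Z e D T) {k : ℕ} (hk : (k : ℝ) ≤ Z)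
    {s : ℝ} (hs : 0 < s) (hP : s1 CM Z ≤ s → PAt a lam CD CM Z D k s) : DAt a CD CM Z D k s := by
  have ha1 := hc.a1
  have ha0 : 0 < a := by linarith
  have hZ0 : 0 < Z := by linarith
  have hCM0 : 0 < CM := by linarith [hc.CM1]
  have hM0 : 0 < MZ CM Z := by
    unfold MZ
    have := Real.rpow_pos_of_pos hZ0 (2 / 3 : ℝ)
    positivity
  have hlam : (1 : ℝ) ≤ (56 * lam) ^ (1 / a) := by
    apply Real.one_le_rpow _ (by positivity)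
    linarith [hc.lam1]
  have hCD1 : 1 ≤ CD := by rw [hc.CD_eq]; linarith
  rcases lt_or_ge s (s1 CM Z) with hlt | hge
  · intro μ hμ
    have h1 : D k μ s ≤ μ * k := h.D_triv k μ s hμ.le
    have h2 : μ * (k : ℝ) ≤ μ * Z := mul_le_mul_of_nonneg_left hk hμ.le
    have h3 : Z ^ (4 / 3 : ℝ) ≤ max μ (MZ CM Z / s ^ 2) := by
      refine le_trans ?_ (le_max_right _ _)
      rw [← n2_s1_sq hCM0 hZ0]
      apply div_le_div_of_nonneg_left hM0.le (by positivity)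
      exact pow_le_pow_left₀ hs.le hlt.le 2
    have h4 : Z ≤ gz a Z (max μ (MZ CM Z / s ^ 2)) := by
      have h5 := n2_gz_scale (x := 1) ha0 hZ0 zero_le_one
      rw [one_mul, Real.one_rpow, mul_one] at h5
      rw [← h5]
      conv_lhs => rw [h5]
      calc Z = gz a Z (Z ^ (4 / 3 : ℝ)) := h5.symm
        _ ≤ gz a Z (max μ (MZ CM Z / s ^ 2)) :=
            n2_gz_mono ha0 hZ0 (Real.rpow_nonneg hZ0.le _) h3
        _ = _ := by rw [h5]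
    have h6 : μ * Z ≤ μ * gz a Z (max μ (MZ CM Z / s ^ 2)) :=
      mul_le_mul_of_nonneg_left h4 hμ.le
    have h7 : 0 ≤ μ * gz a Z (max μ (MZ CM Z / s ^ 2)) := by
      have : 0 ≤ μ * Z := by positivity
      linarith
    calc D k μ s ≤ μ * gz a Z (max μ (MZ CM Z / s ^ 2)) := by linarith
      _ ≤ CD * (μ * gz a Z (max μ (MZ CM Z / s ^ 2))) := le_mul_of_one_le_left h7 hCD1
      _ = _ := by ring
  · have hP' := hP hge
    have hMs : 0 < MZ CM Z / s ^ 2 := by positivity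
    have key : ∀ μ, MZ CM Z / s ^ 2 ≤ μ → D k μ s ≤ CD * μ * gz a Z μ := by
      intro μ hμ
      have hμ0 : 0 < μ := by linarith
      have h1 := hP' μ hμ
      have hg : 0 ≤ gz a Z μ := n2_gz_nonneg hZ0 hμ0.le
      have h2 : max 0 ((56 * lam) ^ (1 / a) * gz a Z μ - (Z - k)) ≤
          (56 * lam) ^ (1 / a) * gz a Z μ := by
        apply max_le
        · exact mul_nonneg (by linarith) hg
        · linarith
      have h3 : 7 * μ * max 0 ((56 * lam) ^ (1 / a) * gz a Z μ - (Z - k)) ≤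
          7 * μ * ((56 * lam) ^ (1 / a) * gz a Z μ) :=
        mul_le_mul_of_nonneg_left h2 (by positivity)
      have h4 : (56 * lam) ^ (1 / a) = CD / 10 := by rw [hc.CD_eq]; ring
      rw [h4] at h3 h1
      have h5 : 0 ≤ CD * μ * gz a Z μ := by positivity
      nlinarith
    intro μ hμ
    rcases le_or_gt (MZ CM Z / s ^ 2) μ with h1 | h1
    · rw [max_eq_left h1]; exact key μ h1
    · rw [max_eq_right h1.le]
      have h2 := h.D_conv k μ (MZ CM Z / s ^ 2) s hμ h1.le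
      have h3 := key _ le_rfl
      calc D k μ s ≤ μ / (MZ CM Z / s ^ 2) * D k (MZ CM Z / s ^ 2) s := h2
        _ ≤ μ / (MZ CM Z / s ^ 2) *
            (CD * (MZ CM Z / s ^ 2) * gz a Z (MZ CM Z / s ^ 2)) :=
            mul_le_mul_of_nonneg_left h3 (by positivity)
        _ = _ := by
            generalize MZ CM Z / s ^ 2 = m at hMs
            field_simp

/-
TARGET 2. For s ≥ s₁ and μ ≥ M/s² one has g(μ) ≤ s μ/√CM.
Proof: equivalently Z^b μ ≤ (s μ/√CM)^a = s^a μ^a CM^(-a/2), i.e. Z^b ≤ s^a μ^(a-1) CM^(-a/2). Since a > 1 and μ ≥ M/s²,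
   s^a μ^(a-1) ≥ s^a (M/s²)^(a-1) = s^(2-a) M^(a-1) ≥ s₁^(2-a) M^(a-1) = CM^(1-a/2) Z^(-(2-a)/3) CM^(a-1) Z^(2(a-1)/3)
   = CM^(a/2) Z^((3a-4)/3) = CM^(a/2) Z^b.
-/
theorem num_g {a K0 K1 Cl lam CD CM Z : ℝ} (hc : Cst a K0 K1 Cl lam CD CM) (hZ : 1 ≤ Z)
    {s μ : ℝ} (hs : s1 CM Z ≤ s) (hμ : MZ CM Z / s ^ 2 ≤ μ) :
    gz a Z μ ≤ s * μ / √CM := by
  have ha1 := hc.a1
  have ha2 := hc.a2
  have ha0 : 0 < a := by linarith
  have hZ0 : 0 < Z := by linarith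
  have hCM0 : 0 < CM := by linarith [hc.CM1]
  have hs1 := n2_s1_pos hCM0 hZ0
  have hs0 : 0 < s := by linarith
  have hZ43 : 0 < Z ^ (4 / 3 : ℝ) := Real.rpow_pos_of_pos hZ0 _
  -- `σ = s / s₁`
  obtain ⟨σ, hσ⟩ : ∃ σ, σ = s / s1 CM Z := ⟨_, rfl⟩
  have hσ1 : 1 ≤ σ := by rw [hσ, le_div_iff₀ hs1]; linarith
  have hσ0 : 0 < σ := by linarith
  have hsσ : s = σ * s1 CM Z := by rw [hσ]; field_simp
  have hMs : MZ CM Z / s ^ 2 = Z ^ (4 / 3 : ℝ) / σ ^ 2 := by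
    rw [← n2_s1_sq hCM0 hZ0, hsσ]
    field_simp
  rw [hMs] at hμ
  -- `ν = μ σ ^ 2 / Z ^ (4/3)`
  obtain ⟨ν, hν⟩ : ∃ ν, ν = μ * σ ^ 2 / Z ^ (4 / 3 : ℝ) := ⟨_, rfl⟩
  have hν1 : 1 ≤ ν := by
    rw [hν, le_div_iff₀ hZ43, one_mul]
    rwa [div_le_iff₀ (by positivity)] at hμ
  have hν0 : 0 < ν := by linarith
  have hμν : μ = (ν / σ ^ 2) * Z ^ (4 / 3 : ℝ) := by rw [hν]; field_simp
  have hR : s * μ / √CM = Z * (ν / σ) := by
    rw [hsσ, hμν]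
    unfold s1
    have h1 : Z ^ (-(1 / 3) : ℝ) * Z ^ (4 / 3 : ℝ) = Z := by
      rw [← Real.rpow_add hZ0]; norm_num
    have h2 : √CM ≠ 0 := (Real.sqrt_pos.2 hCM0).ne'
    calc σ * (√CM * Z ^ (-(1 / 3) : ℝ)) * (ν / σ ^ 2 * Z ^ (4 / 3 : ℝ)) / √CM
        = (Z ^ (-(1 / 3) : ℝ) * Z ^ (4 / 3 : ℝ)) * (ν / σ) := by field_simp
      _ = _ := by rw [h1]
  rw [hR, hμν, n2_gz_scale ha0 hZ0 (by positivity)]
  apply mul_le_mul_of_nonneg_left _ hZ0.le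
  have h1 : ν / σ ^ 2 ≤ (ν / σ) ^ a := by
    rw [Real.div_rpow hν0.le hσ0.le]
    have h2 : ν ≤ ν ^ a := by
      conv_lhs => rw [← Real.rpow_one ν]
      exact Real.rpow_le_rpow_of_exponent_le hν1 ha1.le
    have h3 : σ ^ a ≤ σ ^ 2 := by
      rw [← Real.rpow_natCast]
      exact Real.rpow_le_rpow_of_exponent_le hσ1 (by norm_num; linarith)
    have h4 : 0 < σ ^ a := Real.rpow_pos_of_pos hσ0 _
    calc ν / σ ^ 2 ≤ ν ^ a / σ ^ 2 := by gcongr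
      _ ≤ ν ^ a / σ ^ a := by gcongr
  calc (ν / σ ^ 2) ^ (1 / a) ≤ ((ν / σ) ^ a) ^ (1 / a) :=
        Real.rpow_le_rpow (by positivity) h1 (by positivity)
    _ = ν / σ := by
        rw [← Real.rpow_mul (by positivity)]
        have : a * (1 / a) = 1 := by field_simp
        rw [this, Real.rpow_one]

end Pool.Agent.H899_CR
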