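import Pool.Agent.H899_CR.Num0


set_option autoImplicit false

noncomputable section

namespace Pool.Agent.H899_CR

open MeasureTheory

theorem num_I0 {a K0 K1 Cl lam CD CM Z : ℝ} (hc : Cst a K0 K1 Cl lam CD CM) (hZ : 1 ≤ Z)
    {e : ℕ → ℝ} {D T : ℕ → ℝ → ℝ → ℝ} (h : Iface K0 K1 Cl Z e D T) : IClaim a lam Z e 0 := by
  have hlam : 0 < lam := lt_of_lt_of_le one_pos hc.lam1
  have hZ0 : 0 < Z := lt_of_lt_of_le one_pos hZ
  have hZ3 : 0 < Z ^ (-(1 / 3) : ℝ) := Real.rpow_pos_of_pos hZ0 _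
  have hL : 0 < lam * Z ^ (-(1 / 3) : ℝ) := mul_pos hlam hZ3
  have e1 : Z * (lam * Z ^ (-(1 / 3) : ℝ)) = lam * Z ^ (2 / 3 : ℝ) := by
    have : Z ^ (2 / 3 : ℝ) = Z * Z ^ (-(1 / 3) : ℝ) := by
      rw [show (2 / 3 : ℝ) = 1 + -(1 / 3) by norm_num, Real.rpow_add hZ0, Real.rpow_one]
    rw [this]; ring
  have h1 := h.ion0 _ hL (by
    rw [e1]
    calc K0 ≤ lam * 1 := by rw [mul_one]; exact hc.lamK
      _ ≤ lam * Z ^ (2 / 3 : ℝ) :=
        mul_le_mul_of_nonneg_left (Real.one_le_rpow hZ (by norm_num)) hlam.le)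
  unfold IClaim
  refine le_trans ?_ h1
  rw [Nat.cast_zero, sub_zero, mul_assoc, ← Real.rpow_add hZ0]
  have e2 : a + -(a - 4 / 3) = 4 / 3 := by ring
  rw [e2]
  have e3 : Z ^ (4 / 3 : ℝ) * Z ^ (-(1 / 3) : ℝ) = Z := by
    rw [← Real.rpow_add hZ0]; norm_num
  rw [le_div_iff₀ (by positivity)]
  have e4 : 1 / (4 * lam) * Z ^ (4 / 3 : ℝ) * (8 * (lam * Z ^ (-(1 / 3) : ℝ)))
      = 2 * (Z ^ (4 / 3 : ℝ) * Z ^ (-(1 / 3) : ℝ)) := by
    field_simp
    ring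
  rw [e4, e3]
  linarith

section
variable {a Z q lam CM : ℝ}

/-- comparison of powers: `q^x Z^y ≤ q^x' Z^y'` when `x - x' = y' - y ≥ 0` -/
theorem pow_cmp (hq : 1 ≤ q) (hqZ : q ≤ Z) {x y x' y' : ℝ} (h1 : x - x' = y' - y)
    (h2 : 0 ≤ y' - y) : q ^ x * Z ^ y ≤ q ^ x' * Z ^ y' := by
  have hq0 : 0 < q := by linarith
  have hZ0 : 0 < Z := by linarith
  have e1 : q ^ x = q ^ x' * q ^ (x - x') := by
    rw [← Real.rpow_add hq0]; congr 1; ring
  have e2 : Z ^ y' = Z ^ y * Z ^ (y' - y) := by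
    rw [← Real.rpow_add hZ0]; congr 1; ring
  rw [e1, e2, h1]
  have h3 : q ^ (y' - y) ≤ Z ^ (y' - y) := Real.rpow_le_rpow hq0.le hqZ h2
  have h4 : 0 < q ^ x' := Real.rpow_pos_of_pos hq0 _
  have h5 : 0 < Z ^ y := Real.rpow_pos_of_pos hZ0 _
  calc q ^ x' * q ^ (y' - y) * Z ^ y = (q ^ x' * Z ^ y) * q ^ (y' - y) := by ring
    _ ≤ (q ^ x' * Z ^ y) * Z ^ (y' - y) := mul_le_mul_of_nonneg_left h3 (by positivity)
    _ = q ^ x' * (Z ^ y * Z ^ (y' - y)) := by ring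

theorem gz_mono (ha : 0 < a) (hZ : 0 < Z) {x y : ℝ} (hx : 0 ≤ x) (hxy : x ≤ y) :
    gz a Z x ≤ gz a Z y := by
  unfold gz
  have : 0 ≤ Z ^ (a - 4 / 3) := (Real.rpow_pos_of_pos hZ _).le
  exact Real.rpow_le_rpow (mul_nonneg this hx) (mul_le_mul_of_nonneg_left hxy this) (by positivity)

/-- the length -/
def LL (a lam Z q : ℝ) : ℝ := lam * (q ^ (1 - a) * Z ^ (a - 4 / 3))

theorem LL_pos (hlam : 0 < lam) (hq : 0 < q) (hZ : 0 < Z) : 0 < LL a lam Z q := by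
  unfold LL
  exact mul_pos hlam (mul_pos (Real.rpow_pos_of_pos hq _) (Real.rpow_pos_of_pos hZ _))

theorem qLL (hq : 0 < q) : q * LL a lam Z q = lam * (q ^ (2 - a) * Z ^ (a - 4 / 3)) := by
  unfold LL
  have : q ^ (2 - a) = q * q ^ (1 - a) := by
    rw [show 2 - a = 1 + (1 - a) by ring, Real.rpow_add hq, Real.rpow_one]
  rw [this]; ring

theorem qLL_rpow (hlam : 0 < lam) (hq : 0 < q) (hZ : 0 < Z) (p : ℝ) :
    (q * LL a lam Z q) ^ p = lam ^ p * (q ^ ((2 - a) * p) * Z ^ ((a - 4 / 3) * p)) := by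
  rw [qLL hq, Real.mul_rpow hlam.le (mul_nonneg (Real.rpow_pos_of_pos hq _).le
    (Real.rpow_pos_of_pos hZ _).le), Real.mul_rpow (Real.rpow_pos_of_pos hq _).le
    (Real.rpow_pos_of_pos hZ _).le, ← Real.rpow_mul hq.le, ← Real.rpow_mul hZ.le]

/-- `g(8/L)` -/
theorem gz8 (_ha : 0 < a) (hlam : 0 < lam) (hq : 0 < q) (hZ : 0 < Z) :
    (56 * lam) ^ (1 / a) * gz a Z (8 / LL a lam Z q) = 448 ^ (1 / a) * q ^ ((a - 1) / a) := by
  unfold gz LL
  have hZb : 0 < Z ^ (a - 4 / 3) := Real.rpow_pos_of_pos hZ _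
  have hq1 : 0 < q ^ (1 - a) := Real.rpow_pos_of_pos hq _
  have hq2 : 0 < q ^ (a - 1) := Real.rpow_pos_of_pos hq _
  have e1 : q ^ (1 - a) * q ^ (a - 1) = 1 := by
    rw [← Real.rpow_add hq]; simp
  have e2 : Z ^ (a - 4 / 3) * (8 / (lam * (q ^ (1 - a) * Z ^ (a - 4 / 3))))
      = 8 / lam * q ^ (a - 1) := by
    have : q ^ (a - 1) = 1 / q ^ (1 - a) := by
      rw [eq_div_iff hq1.ne', mul_comm]; exact e1
    rw [this]
    field_simp
  rw [e2, ← Real.mul_rpow (by positivity) (by positivity)]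
  have e3 : 56 * lam * (8 / lam * q ^ (a - 1)) = 448 * q ^ (a - 1) := by
    field_simp
    ring
  rw [e3, Real.mul_rpow (by norm_num) hq2.le, ← Real.rpow_mul hq.le]
  congr 2
  ring

/-- `g(16 M/L²)` -/
theorem gz16 (ha : 0 < a) (hlam : 0 < lam) (hCM : 0 < CM) (hq : 0 < q) (hZ : 0 < Z) :
    gz a Z (16 * MZ CM Z / (LL a lam Z q) ^ 2) =
      (16 * CM / lam ^ 2) ^ (1 / a) * (q ^ (2 - 2 / a) * Z ^ ((2 - a) / a)) := by
  unfold gz LL MZ
  have hZb : 0 < Z ^ (a - 4 / 3) := Real.rpow_pos_of_pos hZ _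
  have hq1 : 0 < q ^ (1 - a) := Real.rpow_pos_of_pos hq _
  have hq2 : 0 < q ^ (a - 1) := Real.rpow_pos_of_pos hq _
  have hZ2 : 0 < Z ^ (2 / 3 : ℝ) := Real.rpow_pos_of_pos hZ _
  have e1 : q ^ (1 - a) * q ^ (a - 1) = 1 := by
    rw [← Real.rpow_add hq]; simp
  have e0 : q ^ (a - 1) = 1 / q ^ (1 - a) := by
    rw [eq_div_iff hq1.ne', mul_comm]; exact e1
  have e2 : Z ^ (a - 4 / 3) * (16 * (CM * Z ^ (2 / 3 : ℝ)) /
      (lam * (q ^ (1 - a) * Z ^ (a - 4 / 3))) ^ 2)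
      = 16 * CM / lam ^ 2 * (q ^ (2 * a - 2) * Z ^ (2 - a)) := by
    have e3 : q ^ (2 * a - 2) = q ^ (a - 1) * q ^ (a - 1) := by
      rw [← Real.rpow_add hq]; congr 1; ring
    have e4 : Z ^ (2 - a) * Z ^ (a - 4 / 3) = Z ^ (2 / 3 : ℝ) := by
      rw [← Real.rpow_add hZ]; congr 1; ring
    rw [e3, e0, ← e4]
    field_simp
  have hx : 0 ≤ q ^ (2 * a - 2) := (Real.rpow_pos_of_pos hq _).le
  have hy : 0 ≤ Z ^ (2 - a) := (Real.rpow_pos_of_pos hZ _).le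
  rw [e2, Real.mul_rpow (by positivity) (mul_nonneg hx hy), Real.mul_rpow hx hy,
    ← Real.rpow_mul hq.le, ← Real.rpow_mul hZ.le]
  congr 3
  · field_simp
  · ring

end

theorem num_I {a K0 K1 Cl lam CD CM Z : ℝ} (hc : Cst a K0 K1 Cl lam CD CM) (hZ : 1 ≤ Z)
    {e : ℕ → ℝ} {D T : ℕ → ℝ → ℝ → ℝ} (h : Iface K0 K1 Cl Z e D T) {k : ℕ}
    (hk : (k : ℝ) + 2 ≤ Z) (hT : TClaim a CD CM Z T k)
    (hD : ∀ s, 0 < s → DAt a CD CM Z D (k + 1) s) : IClaim a lam Z e (k + 1) := by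
  have ha1 := hc.a1
  have ha2 := hc.a2
  have ha3 := hc.a3
  have ha0 : 0 < a := by linarith
  have hlam : 0 < lam := lt_of_lt_of_le one_pos hc.lam1
  have hZ0 : 0 < Z := lt_of_lt_of_le one_pos hZ
  have hCM : 0 < CM := lt_of_lt_of_le one_pos hc.CM1
  have hCD : 0 < CD := by rw [hc.CD_eq]; positivity
  have hK1 := hc.hK1
  have hb : 0 < a - 4 / 3 := by
    by_contra hcon
    have : a ≤ 4 / 3 := by linarith
    nlinarith
  set q : ℝ := Z - (k + 1) with hq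
  have hq1 : 1 ≤ q := by rw [hq]; linarith
  have hq0 : 0 < q := by linarith
  have hqZ : q ≤ Z := by rw [hq]; have : (0 : ℝ) ≤ k := Nat.cast_nonneg k; linarith
  set L := LL a lam Z q with hLdef
  have hL : 0 < L := LL_pos hlam hq0 hZ0
  have hqL : K0 ≤ q * L := by
    rw [hLdef, qLL hq0]
    have h1 : 1 ≤ q ^ (2 - a) := Real.one_le_rpow hq1 (by linarith)
    have h2 : 1 ≤ Z ^ (a - 4 / 3) := Real.one_le_rpow hZ hb.le
    have h3 : 1 ≤ q ^ (2 - a) * Z ^ (a - 4 / 3) := one_le_mul_of_one_le_of_one_le h1 h2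
    calc K0 ≤ lam * 1 := by rw [mul_one]; exact hc.lamK
      _ ≤ _ := mul_le_mul_of_nonneg_left h3 hlam.le
  set M := MZ CM Z with hM
  have hM1 : 1 ≤ M := by
    rw [hM]
    exact one_le_mul_of_one_le_of_one_le hc.CM1 (Real.one_le_rpow hZ (by norm_num))
  have hM0 : 0 < M := by linarith
  set μ := 16 * M / L ^ 2 with hμ
  have hμ0 : 0 < μ := by positivity
  set c := (448 : ℝ) ^ (1 / a) with hcdef
  have hc0 : 0 < c := Real.rpow_pos_of_pos (by norm_num) _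
  set B := 8 * q / L + 40 * c * q / L + 4 * M / L ^ 2 with hB
  have hB0 : 0 < B := by positivity
  -- the bound for the potential
  have hBt : ∀ t, L / 4 ≤ t → (q + 1) / t + 1 / 2 * T k (2 / t ^ 2) t ≤ B := by
    intro t ht
    have ht0 : 0 < t := lt_of_lt_of_le (by positivity) ht
    have h1 := hT (2 / t ^ 2) (by positivity) t ht0
    have h2 : 2 / t ^ 2 * t = 2 / t := by field_simp
    rw [h2] at h1
    have hinv : 1 / t ≤ 4 / L := by
      rw [div_le_div_iff₀ ht0 hL]; linarith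
    have h3 : 2 / t ≤ 8 / L := by
      calc 2 / t = 2 * (1 / t) := by ring
        _ ≤ 2 * (4 / L) := by linarith
        _ = 8 / L := by ring
    have h4 : gz a Z (2 / t) ≤ gz a Z (8 / L) := gz_mono ha0 hZ0 (by positivity) h3
    have h5 : CD * gz a Z (8 / L) ≤ 10 * c * q := by
      rw [hc.CD_eq, mul_assoc, gz8 ha0 hlam hq0 hZ0, ← mul_assoc]
      refine mul_le_mul_of_nonneg_left ?_ (by positivity)
      calc q ^ ((a - 1) / a) ≤ q ^ (1 : ℝ) := by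
            refine Real.rpow_le_rpow_of_exponent_le hq1 ?_
            rw [div_le_one ha0]; linarith
        _ = q := Real.rpow_one q
    have hg0 : 0 ≤ gz a Z (2 / t) := by unfold gz; positivity
    have h6 : 1 / 2 * T k (2 / t ^ 2) t ≤ CD * gz a Z (2 / t) * (1 / t) + M / 4 * (1 / t) ^ 2 := by
      calc 1 / 2 * T k (2 / t ^ 2) t
          ≤ 1 / 2 * (2 / t ^ 2 * (CD * t * gz a Z (2 / t) + M / 4)) := by linarith
        _ = CD * gz a Z (2 / t) * (1 / t) + M / 4 * (1 / t) ^ 2 := by field_simp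
    have h7 : CD * gz a Z (2 / t) * (1 / t) ≤ 10 * c * q * (4 / L) := by
      have : CD * gz a Z (2 / t) ≤ 10 * c * q :=
        le_trans (mul_le_mul_of_nonneg_left h4 hCD.le) h5
      exact mul_le_mul this hinv (by positivity) (by positivity)
    have h8 : M / 4 * (1 / t) ^ 2 ≤ M / 4 * (4 / L) ^ 2 := by
      refine mul_le_mul_of_nonneg_left ?_ (by positivity)
      exact pow_le_pow_left₀ (by positivity) hinv 2
    have h9 : (q + 1) / t ≤ 2 * q * (4 / L) := by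
      calc (q + 1) / t = (q + 1) * (1 / t) := by ring
        _ ≤ (2 * q) * (4 / L) := mul_le_mul (by linarith) hinv (by positivity) (by positivity)
    calc (q + 1) / t + 1 / 2 * T k (2 / t ^ 2) t
        ≤ 2 * q * (4 / L) + (10 * c * q * (4 / L) + M / 4 * (4 / L) ^ 2) := by linarith
      _ = B := by rw [hB]; field_simp; ring
  have hion := h.ion k q hq hq0 L hL hqL μ hμ0 B hBt
  -- the constant
  set K : ℝ := 13 + 40 * c with hK
  have hK0 : 0 < K := by positivity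
  have hBK : B + 1 / L ^ 2 ≤ K * (q / L + M / L ^ 2) := by
    have h1 : 1 / L ^ 2 ≤ M / L ^ 2 := div_le_div_of_nonneg_right hM1 (by positivity)
    have e1 : B = (8 + 40 * c) * (q / L) + 4 * (M / L ^ 2) := by rw [hB]; ring
    have h2 : 0 < q / L := by positivity
    have h3 : 0 < M / L ^ 2 := by positivity
    have h4 : 0 < c * (M / L ^ 2) := by positivity
    rw [e1, hK]
    nlinarith
  -- the bound for the density
  set N := CD * (16 * CM / lam ^ 2) ^ (1 / a) with hN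
  have hN0 : 0 < N := by positivity
  set w := q ^ (2 - 2 / a) * Z ^ ((2 - a) / a) with hw
  have hw0 : 0 < w := mul_pos (Real.rpow_pos_of_pos hq0 _) (Real.rpow_pos_of_pos hZ0 _)
  have hν : D (k + 1) μ (L / 4) / μ ≤ N * w := by
    have h1 := hD (L / 4) (by positivity) μ hμ0
    have h2 : MZ CM Z / (L / 4) ^ 2 = μ := by rw [hμ, ← hM]; field_simp; ring
    rw [h2, max_self] at h1
    rw [div_le_iff₀ hμ0]
    refine le_trans h1 (le_of_eq ?_)
    rw [show gz a Z μ = gz a Z (16 * MZ CM Z / (LL a lam Z q) ^ 2) from rfl,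
      gz16 ha0 hlam hCM hq0 hZ0, hN, hw]
    ring
  have hi1 : 16 * K1 * K * N ≤ lam ^ (3 / 2 : ℝ) := hc.i1
  have hi2 : 16 * K1 * K * N * CM ≤ lam ^ (5 / 2 : ℝ) := hc.i2
  have hF : 0 ≤ 5 * a / 2 - 3 - 2 / a := by
    have : 5 * a / 2 - 3 - 2 / a = (5 * a ^ 2 - 6 * a - 4) / (2 * a) := by field_simp; ring
    rw [this]
    positivity
  have hE : 0 ≤ 3 * a / 2 - 1 - 2 / a := by linarith
  have hdiv : (2 - a) / a = 2 / a - 1 := by field_simp
  have h35 : (q * L) ^ (3 / 2 : ℝ) = lam ^ (3 / 2 : ℝ) *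
      (q ^ ((2 - a) * (3 / 2)) * Z ^ ((a - 4 / 3) * (3 / 2))) := qLL_rpow hlam hq0 hZ0 _
  have h55 : (q * L) ^ (5 / 2 : ℝ) = lam ^ (5 / 2 : ℝ) *
      (q ^ ((2 - a) * (5 / 2)) * Z ^ ((a - 4 / 3) * (5 / 2))) := qLL_rpow hlam hq0 hZ0 _
  have hqLp : 0 < q * L := by positivity
  have hS0 : 0 < (q * L) ^ (3 / 2 : ℝ) := Real.rpow_pos_of_pos hqLp _
  have hc1 : 16 * K1 * K * (N * w) ≤ (q * L) ^ (3 / 2 : ℝ) := by
    rw [h35]
    have h1 : w ≤ q ^ ((2 - a) * (3 / 2)) * Z ^ ((a - 4 / 3) * (3 / 2)) := by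
      rw [hw]
      exact pow_cmp hq1 hqZ (by rw [hdiv]; ring) (by rw [hdiv]; linarith)
    calc 16 * K1 * K * (N * w) = (16 * K1 * K * N) * w := by ring
      _ ≤ lam ^ (3 / 2 : ℝ) * (q ^ ((2 - a) * (3 / 2)) * Z ^ ((a - 4 / 3) * (3 / 2))) :=
        mul_le_mul hi1 h1 hw0.le (by positivity)
  have hc2 : 16 * K1 * K * (N * w) * M ≤ (q * L) ^ (5 / 2 : ℝ) := by
    rw [h55]
    have h1 : w * Z ^ (2 / 3 : ℝ) ≤ q ^ ((2 - a) * (5 / 2)) * Z ^ ((a - 4 / 3) * (5 / 2)) := by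
      rw [hw, mul_assoc, ← Real.rpow_add hZ0]
      exact pow_cmp hq1 hqZ (by rw [hdiv]; ring) (by rw [hdiv]; linarith)
    calc 16 * K1 * K * (N * w) * M = (16 * K1 * K * N * CM) * (w * Z ^ (2 / 3 : ℝ)) := by
          rw [hM]; unfold MZ; ring
      _ ≤ lam ^ (5 / 2 : ℝ) * (q ^ ((2 - a) * (5 / 2)) * Z ^ ((a - 4 / 3) * (5 / 2))) :=
        mul_le_mul hi2 h1 (by positivity) (by positivity)
  have h52 : (q * L) ^ (5 / 2 : ℝ) = (q * L) ^ (3 / 2 : ℝ) * (q * L) := by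
    rw [show (5 / 2 : ℝ) = 3 / 2 + 1 by norm_num, Real.rpow_add hqLp, Real.rpow_one]
  set S := (q * L) ^ (3 / 2 : ℝ) with hS
  have hmain : K1 / S * (D (k + 1) μ (L / 4) / μ) * (B + 1 / L ^ 2) ≤ q / (8 * L) := by
    have h1 : K1 / S * (D (k + 1) μ (L / 4) / μ) * (B + 1 / L ^ 2)
        ≤ K1 / S * (N * w) * (K * (q / L + M / L ^ 2)) := by
      refine mul_le_mul (mul_le_mul_of_nonneg_left hν (by positivity)) hBK (by positivity)
        (by positivity)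
    refine le_trans h1 ?_
    have e1 : K1 / S * (N * w) * (K * (q / L + M / L ^ 2))
        = (16 * K1 * K * (N * w)) / S * (q / (16 * L)) +
          (16 * K1 * K * (N * w) * M) / (S * (q * L)) * (q / (16 * L)) := by
      field_simp
    have h2 : (16 * K1 * K * (N * w)) / S ≤ 1 := by
      rw [div_le_one hS0]; exact hc1
    have h3 : (16 * K1 * K * (N * w) * M) / (S * (q * L)) ≤ 1 := by
      rw [div_le_one (by positivity), ← h52]; exact hc2
    have h4 : 0 < q / (16 * L) := by positivity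
    rw [e1]
    calc _ ≤ 1 * (q / (16 * L)) + 1 * (q / (16 * L)) :=
          add_le_add (mul_le_mul_of_nonneg_right h2 h4.le) (mul_le_mul_of_nonneg_right h3 h4.le)
      _ = q / (8 * L) := by field_simp; ring
  have hfin : q / (4 * L) ≤ e (k + 1) - e (k + 2) := by
    refine le_trans ?_ hion
    have e1 : q / (4 * L) = 3 * q / (8 * L) - q / (8 * L) := by field_simp; ring
    rw [e1]
    linarith
  unfold IClaim
  refine le_trans (le_of_eq ?_) hfin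
  have e5 : Z - ((k + 1 : ℕ) : ℝ) = q := by rw [hq]; push_cast; ring
  rw [e5, hLdef]
  unfold LL
  have hZb : 0 < Z ^ (a - 4 / 3) := Real.rpow_pos_of_pos hZ0 _
  have hqa : 0 < q ^ (1 - a) := Real.rpow_pos_of_pos hq0 _
  have e6 : q ^ a * q ^ (1 - a) = q := by
    rw [← Real.rpow_add hq0]; simp
  rw [Real.rpow_neg hZ0.le, eq_div_iff (by positivity)]
  calc 1 / (4 * lam) * q ^ a * (Z ^ (a - 4 / 3))⁻¹ * (4 * (lam * (q ^ (1 - a) * Z ^ (a - 4 / 3))))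
      = (q ^ a * q ^ (1 - a)) := by field_simp
    _ = q := e6

end Pool.Agent.H899_CR

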