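import Pool.Agent.H899_CR.Num0


set_option autoImplicit false

noncomputable section

namespace Pool.Agent.H899_CR

open MeasureTheory

lemma N5_growth (A s t : ℝ) (hst : s < t) :
    ∀ᶠ x : ℝ in Filter.atTop, A * x ^ s ≤ x ^ t := by
  have h1 : Filter.Tendsto (fun x : ℝ => x ^ (t - s)) Filter.atTop Filter.atTop :=
    tendsto_rpow_atTop (by linarith)
  filter_upwards [h1.eventually (Filter.eventually_ge_atTop A),
    Filter.eventually_gt_atTop (0 : ℝ)] with x hx hx0
  have h2 : x ^ t = x ^ (t - s) * x ^ s := by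
    rw [← Real.rpow_add hx0]; congr 1; ring
  rw [h2]
  exact mul_le_mul_of_nonneg_right hx (Real.rpow_nonneg hx0.le _)

lemma N5_young (lam CD K p y : ℝ) (hlam : 1 ≤ lam) (hCD1 : 1 ≤ CD) (hCD : CD ≤ 560 * lam)
    (hK : 256 * 560 ≤ K) (hp1 : 1 / 2 ≤ p) (hp2 : p ≤ 1) (hy : 0 ≤ y) :
    CD / 4 * y ^ (1 + p) ≤ 1 / (32 * lam) + (K * lam * CD) / 64 * y ^ 2 := by
  have hCD0 : 0 < CD := by linarith
  have hlam0 : 0 < lam := by linarith
  have hK0 : 0 < K := by linarith
  have hA : 0 < 1 / (32 * lam) := by positivity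
  rcases le_total 1 y with h1 | h1
  · have h2 : y ^ (1 + p) ≤ y ^ 2 := by
      have := Real.rpow_le_rpow_of_exponent_le h1 (show 1 + p ≤ 2 by linarith)
      rwa [Real.rpow_two] at this
    have h3 : CD / 4 ≤ (K * lam * CD) / 64 := by
      have : 16 ≤ K * lam := by nlinarith
      nlinarith
    have h4 : CD / 4 * y ^ (1 + p) ≤ (K * lam * CD) / 64 * y ^ 2 :=
      mul_le_mul h3 h2 (Real.rpow_nonneg hy _) (by positivity)
    linarith
  · set t : ℝ := √y with ht
    have ht0 : 0 ≤ t := Real.sqrt_nonneg _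
    have hty : t ^ 2 = y := Real.sq_sqrt hy
    have h2 : y ^ (1 + p) ≤ t ^ 3 := by
      rcases hy.eq_or_lt with h0 | h0
      · rw [← h0, Real.zero_rpow (by linarith)]
        positivity
      · have h3 := Real.rpow_le_rpow_of_exponent_ge h0 h1 (show (3 : ℝ) / 2 ≤ 1 + p by linarith)
        refine h3.trans (le_of_eq ?_)
        rw [← hty, ← Real.rpow_natCast t 2, ← Real.rpow_mul ht0, ← Real.rpow_natCast t 3]
        congr 1
        push_cast
        norm_num
    have hy2 : y ^ 2 = t ^ 4 := by rw [← hty]; ring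
    rw [hy2]
    have h3 : CD / 4 * y ^ (1 + p) ≤ CD / 4 * t ^ 3 :=
      mul_le_mul_of_nonneg_left h2 (by positivity)
    refine h3.trans ?_
    set X : ℝ := CD / 4 with hX
    set B : ℝ := (K * lam * CD) / 64 with hB
    have hX0 : 0 < X := by positivity
    have hB0 : 0 < B := by positivity
    rcases le_total X (B * t) with h4 | h4
    · have h5 : X * t ^ 3 ≤ B * t ^ 4 := by
        calc X * t ^ 3 ≤ (B * t) * t ^ 3 := mul_le_mul_of_nonneg_right h4 (by positivity)
          _ = B * t ^ 4 := by ring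
      linarith
    · have h5 : X ^ 4 ≤ 1 / (32 * lam) * B ^ 3 := by
        have h6 : X ^ 4 = CD ^ 3 * (CD / 256) := by rw [hX]; ring
        have h7 : 1 / (32 * lam) * B ^ 3 = CD ^ 3 * (K ^ 3 * lam ^ 2 / (32 * 64 ^ 3)) := by
          rw [hB]; field_simp
        rw [h6, h7]
        refine mul_le_mul_of_nonneg_left ?_ (by positivity)
        have h8 : (256 * 560 : ℝ) ^ 3 ≤ K ^ 3 := pow_le_pow_left₀ (by norm_num) hK 3
        have h9 : lam ≤ lam ^ 2 := by nlinarith
        calc CD / 256 ≤ 560 * lam / 256 := by linarith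
          _ ≤ (256 * 560 : ℝ) ^ 3 * lam / (32 * 64 ^ 3) := by
              norm_num
              nlinarith
          _ ≤ K ^ 3 * lam ^ 2 / (32 * 64 ^ 3) :=
              div_le_div_of_nonneg_right
                (mul_le_mul h8 h9 hlam0.le (by positivity)) (by positivity)
      have h6 : (B * t) ^ 3 ≤ X ^ 3 := pow_le_pow_left₀ (by positivity) h4 3
      have h7 : B ^ 3 * (X * t ^ 3) ≤ B ^ 3 * (1 / (32 * lam)) := by
        calc B ^ 3 * (X * t ^ 3) = X * (B * t) ^ 3 := by ring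
          _ ≤ X * X ^ 3 := mul_le_mul_of_nonneg_left h6 hX0.le
          _ = X ^ 4 := by ring
          _ ≤ B ^ 3 * (1 / (32 * lam)) := by rw [mul_comm]; exact h5
      have h8 : X * t ^ 3 ≤ 1 / (32 * lam) := le_of_mul_le_mul_left h7 (by positivity)
      have h9 : 0 ≤ B * t ^ 4 := by positivity
      linarith

/-
TARGET. Put p = 1/a ∈ (1/2, 1), CD = 10 (56 lam)^p, CM = K lam CD with K ≥ 1 large depending on a and Cl only, then lam large.
 * For lam ≥ 1: 1 ≤ CD ≤ 560 lam.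
 * CM_lam, CM1, CM_Cl: K ≥ 16, K ≥ 32 Cl.
 * CM_CD: 256 CD² ≤ K lam CD if K ≥ 256*560.   CM_int: (1 + CD/(2/a-1)) ≤ CD (1 + 1/(2/a-1)), so it suffices
   16 (1 + 1/(2/a-1))² CD² ≤ K lam CD, i.e. K ≥ 16*560*(1+1/(2/a-1))².
 * young: y^(1+p) ≤ y^(3/2) + y² (3/2 ≤ 1+p ≤ 2). CD/4 y² ≤ CM/128 y² if CM ≥ 32 CD. And
   CD/4 y^(3/2) ≤ 1/(32 lam) + CM/128 y²: by AM-GM  A + B y² ≥ A^(1/4) B^(3/4) y^(3/2), so it suffices
   (CD/4)^4 ≤ 1/(32 lam) (CM/128)^3 = K³ lam² CD³/(32*128³), true if CD ≤ 560 lam and K large.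
 * i1: CD (16 CM/lam²)^p = const lam^(p²), p² < 3/2.  i2: CD (16 CM/lam²)^p CM = const lam^(p²+p+1), and
   a3 (divided by a²) says 5 - 6p - 4p² ≥ 0, so p² + p + 1 ≤ 9/4 - p/2 < 5/2. So both hold for lam large
   (constants depend on a, K1, K only).
-/
theorem num_cst (a K0 K1 Cl : ℝ) (a1 : 1 < a) (a2 : a < 2) (a3 : 0 ≤ 5 * a ^ 2 - 6 * a - 4)
    (hK0 : 0 < K0) (hK1 : 0 < K1) (hCl : 0 < Cl) :
    ∃ lam CD CM : ℝ, Cst a K0 K1 Cl lam CD CM := by
  set p : ℝ := 1 / a with hp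
  have ha0 : 0 < a := by linarith
  have hp0 : 0 < p := by positivity
  have hp1 : 1 / 2 < p := by
    rw [hp]; exact one_div_lt_one_div_of_lt ha0 a2
  have hp2 : p < 1 := by
    rw [hp, div_lt_one ha0]; exact a1
  have hpa : p * a = 1 := by rw [hp]; field_simp
  have hp3 : 0 ≤ 5 - 6 * p - 4 * p ^ 2 := by
    have h1 : 0 ≤ p ^ 2 * (5 * a ^ 2 - 6 * a - 4) := by positivity
    have h2 : p ^ 2 * (5 * a ^ 2 - 6 * a - 4) =
        5 * (p * a) ^ 2 - 6 * p * (p * a) - 4 * p ^ 2 := by ring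
    rw [h2, hpa] at h1
    linarith
  set d : ℝ := 2 / a - 1 with hd
  have hd0 : 0 < d := by
    have : (1 : ℝ) < 2 / a := by rw [lt_div_iff₀ ha0]; linarith
    rw [hd]; linarith
  set K : ℝ := 32 * Cl + 256 * 560 + 16 * 560 * (1 + 1 / d) ^ 2 with hK
  have hKa : 256 * 560 ≤ K := by
    have : 0 ≤ 16 * 560 * (1 + 1 / d) ^ 2 := by positivity
    rw [hK]; linarith
  have hKb : 32 * Cl ≤ K := by
    have : 0 ≤ 16 * 560 * (1 + 1 / d) ^ 2 := by positivity
    rw [hK]; linarith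
  have hKc : 16 * 560 * (1 + 1 / d) ^ 2 ≤ K := by
    rw [hK]; linarith
  have hKpos : 0 < K := by linarith
  set c1 : ℝ := 10 * 56 ^ p with hc1
  have hc1p : 0 < c1 := by positivity
  set W : ℝ := 16 * K1 * (13 + 40 * 448 ^ p) with hW
  set C2 : ℝ := W * (c1 * (16 * K * c1) ^ p) with hC2
  have hev1 := N5_growth C2 (p ^ 2) (3 / 2) (by linarith)
  have hev2 := N5_growth (C2 * (K * c1)) (p ^ 2 + 1 + p) (5 / 2) (by linarith)
  obtain ⟨lam, ⟨h1, h2⟩, h3, h4⟩ := ((hev1.and hev2).and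
    ((Filter.eventually_ge_atTop (1 : ℝ)).and (Filter.eventually_ge_atTop K0))).exists
  have hlam0 : 0 < lam := by linarith
  set CD : ℝ := 10 * (56 * lam) ^ p with hCD
  set CM : ℝ := K * lam * CD with hCM
  have hCD1 : 1 ≤ CD := by
    have := Real.one_le_rpow (show (1 : ℝ) ≤ 56 * lam by linarith) hp0.le
    rw [hCD]; linarith
  have hCD2 : CD ≤ 560 * lam := by
    have := Real.rpow_le_rpow_of_exponent_le (show (1 : ℝ) ≤ 56 * lam by linarith) hp2.le
    rw [Real.rpow_one] at this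
    rw [hCD]; linarith
  have hCD0 : 0 < CD := by linarith
  have hKl : K ≤ K * lam := le_mul_of_one_le_right hKpos.le h3
  have hKCM : K ≤ CM := by
    rw [hCM]
    exact hKl.trans (le_mul_of_one_le_right (by positivity) hCD1)
  have hCM0 : 0 < CM := by linarith
  have hCDe : CD = c1 * lam ^ p := by
    rw [hCD, hc1, Real.mul_rpow (by norm_num) hlam0.le]; ring
  have hq : 16 * CM / lam ^ 2 = 16 * K * c1 * lam ^ (p - 1) := by
    rw [hCM, hCDe, Real.rpow_sub_one hlam0.ne']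
    field_simp
  have hqp : (16 * CM / lam ^ 2) ^ p = (16 * K * c1) ^ p * lam ^ ((p - 1) * p) := by
    rw [hq, Real.mul_rpow (by positivity) (Real.rpow_nonneg hlam0.le _), Real.rpow_mul hlam0.le]
  have hprod : W * (CD * (16 * CM / lam ^ 2) ^ p) = C2 * lam ^ (p ^ 2) := by
    rw [hqp, hCDe, hC2]
    have : lam ^ (p ^ 2) = lam ^ p * lam ^ ((p - 1) * p) := by
      rw [← Real.rpow_add hlam0]; congr 1; ring
    rw [this]; ring
  have hprod2 : W * (CD * (16 * CM / lam ^ 2) ^ p) * CM =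
      C2 * (K * c1) * lam ^ (p ^ 2 + 1 + p) := by
    rw [hprod, hCM, hCDe]
    have : lam ^ (p ^ 2 + 1 + p) = lam ^ (p ^ 2) * lam * lam ^ p := by
      rw [Real.rpow_add hlam0, Real.rpow_add hlam0, Real.rpow_one]
    rw [this]; ring
  refine ⟨lam, CD, CM, ?_⟩
  refine
    { a1 := a1
      a2 := a2
      a3 := a3
      hK0 := hK0
      hK1 := hK1
      hCl := hCl
      lam1 := h3
      lamK := h4
      CD_eq := rfl
      CM1 := by linarith
      CM_lam := ?_
      CM_Cl := hKb.trans hKCM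
      CM_CD := ?_
      CM_int := ?_
      young := fun y hy => N5_young lam CD K p y h3 hCD1 hCD2 hKa hp1.le hp2.le hy
      i1 := by rw [hprod]; exact h1
      i2 := by rw [hprod2]; exact h2 }
  · rw [hCM]
    have : 16 * lam ≤ K * lam := mul_le_mul_of_nonneg_right (by linarith) hlam0.le
    exact this.trans (le_mul_of_one_le_right (by positivity) hCD1)
  · apply Real.le_sqrt_of_sq_le
    have e1 : 256 * CD ≤ K * lam := by
      have : (256 * 560) * lam ≤ K * lam := mul_le_mul_of_nonneg_right hKa hlam0.le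
      linarith
    calc (16 * CD) ^ 2 = (256 * CD) * CD := by ring
      _ ≤ K * lam * CD := mul_le_mul_of_nonneg_right e1 hCD0.le
  · rw [le_div_iff₀ (by norm_num : (0 : ℝ) < 4)]
    apply Real.le_sqrt_of_sq_le
    have e0 : 1 + CD / d ≤ CD * (1 + 1 / d) := by
      have : CD * (1 + 1 / d) = CD + CD / d := by ring
      rw [this]; linarith
    have e1 : 16 * (1 + 1 / d) ^ 2 * CD ≤ K * lam := by
      calc 16 * (1 + 1 / d) ^ 2 * CD ≤ 16 * (1 + 1 / d) ^ 2 * (560 * lam) :=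
            mul_le_mul_of_nonneg_left hCD2 (by positivity)
        _ = (16 * 560 * (1 + 1 / d) ^ 2) * lam := by ring
        _ ≤ K * lam := mul_le_mul_of_nonneg_right hKc hlam0.le
    have e2 : (1 + CD / d) * 4 ≤ CD * (1 + 1 / d) * 4 := by linarith
    calc ((1 + CD / d) * 4) ^ 2 ≤ (CD * (1 + 1 / d) * 4) ^ 2 :=
          pow_le_pow_left₀ (by positivity) e2 2
      _ = (16 * (1 + 1 / d) ^ 2 * CD) * CD := by ring
      _ ≤ K * lam * CD := mul_le_mul_of_nonneg_right e1 hCD0.le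

end Pool.Agent.H899_CR
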