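import Pool.Agent.H899_CR.NumMain

/-!
# The dichotomy for the energy decrease, and the radius where it is small
-/

set_option autoImplicit false

noncomputable section

namespace Pool.Agent.H899_CR

open MeasureTheory

/-- The dichotomy behind `num_P`. -/
theorem num_dich {a K0 K1 Cl lam CD CM Z : ℝ} (hc : Cst a K0 K1 Cl lam CD CM) (hZ : 1 ≤ Z)
    {e : ℕ → ℝ} {D T : ℕ → ℝ → ℝ → ℝ} (h : Iface K0 K1 Cl Z e D T) {k : ℕ}
    (hk : (k : ℝ) + 1 ≤ Z) {s : ℝ} (hs : s1 CM Z ≤ s) (hI : IClaim a lam Z e k)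
    (hT : TClaim a CD CM Z T k) (hD : DAt a CD CM Z D k s) (μ : ℝ)
    (hμM : MZ CM Z / s ^ 2 ≤ μ) :
    D (k + 1) μ s ≤ D k μ s + 7 * μ - 1 / 2 * (e k - e (k + 1)) ∨
      D (k + 1) μ s ≤ Cl / (μ * s ^ 2) * D (k + 1) (2 * μ) (s / 2) := by
  have ha1 := hc.a1
  have ha2 := hc.a2
  have hlam := hc.lam1
  have hCM1 := hc.CM1
  have hZ0 : 0 < Z := by linarith
  have hCM0 : 0 < CM := by linarith
  have hsq : 0 < √CM := Real.sqrt_pos.2 hCM0
  have hs0 : 0 < s := by
    refine lt_of_lt_of_le ?_ hs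
    unfold s1
    have : 0 < Z ^ (-(1 / 3) : ℝ) := Real.rpow_pos_of_pos hZ0 _
    positivity
  have hCD0 : 0 < CD := by
    rw [hc.CD_eq]
    have : 0 < (56 * lam) ^ (1 / a) := Real.rpow_pos_of_pos (by linarith) _
    positivity
  have hZ23 : 1 ≤ Z ^ (2 / 3 : ℝ) := Real.one_le_rpow hZ (by norm_num)
  set M := MZ CM Z with hMdef
  have hM1 : CM ≤ M := by
    rw [hMdef]; unfold MZ
    nlinarith
  have hM0 : 0 < M := by linarith
  have hμ0 : 0 < μ := lt_of_lt_of_le (by positivity) hμM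
  set b := a - 4 / 3 with hb
  have hZb0 : 0 < Z ^ b := Real.rpow_pos_of_pos hZ0 _
  have hZnb0 : 0 < Z ^ (-b) := Real.rpow_pos_of_pos hZ0 _
  have hZbb : Z ^ b * Z ^ (-b) = 1 := by
    rw [← Real.rpow_add hZ0]; simp
  have hZb23 : Z ^ b ≤ Z ^ (2 / 3 : ℝ) := by
    apply Real.rpow_le_rpow_of_exponent_le hZ
    rw [hb]; linarith
  set Q := Z - k with hQ
  have hQ1 : 1 ≤ Q := by rw [hQ]; linarith
  have hQZ : Q ≤ Z := by
    rw [hQ]
    have : (0 : ℝ) ≤ k := Nat.cast_nonneg k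
    linarith
  have hQ0 : 0 < Q := by linarith
  set I := e k - e (k + 1) with hIdef
  have hI' : 1 / (4 * lam) * Q ^ a * Z ^ (-b) ≤ I := hI
  have hQa : 1 ≤ Q ^ a := Real.one_le_rpow hQ1 (by linarith)
  have hI1 : 1 / (4 * lam) * Z ^ (-b) ≤ I := by
    refine le_trans ?_ hI'
    have h1 : 0 < 1 / (4 * lam) := by positivity
    calc 1 / (4 * lam) * Z ^ (-b) = 1 / (4 * lam) * 1 * Z ^ (-b) := by ring
      _ ≤ 1 / (4 * lam) * Q ^ a * Z ^ (-b) := by gcongr
  have hI0 : 0 ≤ I := le_trans (by positivity) hI1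
  set gμ := gz a Z μ with hgμ
  have hgμ0 : 0 ≤ gμ := n3_gz_nonneg hZ hμ0.le
  have hG : gμ ≤ s * μ / √CM := num_g hc hZ hs hμM
  have hGs : CD * gμ / s ≤ μ / 16 := by
    rw [div_le_iff₀ hs0]
    have h1 : CD * gμ ≤ CD * (s * μ / √CM) := by gcongr
    have h2 : CD * (s * μ / √CM) = (CD / √CM) * (s * μ) := by ring
    have h3 : CD / √CM ≤ 1 / 16 := by
      rw [div_le_div_iff₀ hsq (by norm_num)]
      linarith [hc.CM_CD]
    have h4 : (CD / √CM) * (s * μ) ≤ 1 / 16 * (s * μ) := by gcongr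
    linarith
  set g2 := gz a Z (2 * μ) with hg2
  have hg20 : 0 ≤ g2 := n3_gz_nonneg hZ (by linarith)
  have hg2le : g2 ≤ 2 * gμ := n3_gz_mul_le ha1 hZ hμ0.le (by norm_num)
  have hg4le : gz a Z (4 * μ) ≤ 4 * gμ := n3_gz_mul_le ha1 hZ hμ0.le (by norm_num)
  set θ := 1 / (1 + CD * g2) with hθ
  have hden : 0 < 1 + CD * g2 := by positivity
  have hθ0 : 0 < θ := by positivity
  have hθ1 : θ ≤ 1 := by
    rw [hθ, div_le_one hden]
    have : 0 ≤ CD * g2 := by positivity
    linarith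
  have hθg : θ * (CD * g2) ≤ 1 := by
    have : θ * (1 + CD * g2) = 1 := by rw [hθ]; field_simp
    nlinarith
  -- the bound for Q ^ 2 / M
  have hQM : Q ^ 2 / M ≤ I / 4 := by
    have h1 : Q ^ (2 : ℝ) = Q ^ a * Q ^ (2 - a) := by
      rw [← Real.rpow_add hQ0]; congr 1; ring
    have h2 : Q ^ (2 - a) ≤ Z ^ (2 - a) := Real.rpow_le_rpow hQ0.le hQZ (by linarith)
    have h3 : Z ^ (2 - a) * Z ^ b = Z ^ (2 / 3 : ℝ) := by
      rw [← Real.rpow_add hZ0]; congr 1; rw [hb]; ring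
    have h4 : Q ^ 2 = Q ^ a * Q ^ (2 - a) := by
      rw [← h1]; norm_cast
    have h5 : 16 * lam * Q ^ 2 * Z ^ b ≤ M * Q ^ a := by
      calc 16 * lam * Q ^ 2 * Z ^ b = 16 * lam * (Q ^ a) * (Q ^ (2 - a) * Z ^ b) := by
            rw [h4]; ring
        _ ≤ 16 * lam * (Q ^ a) * (Z ^ (2 - a) * Z ^ b) := by gcongr
        _ = (16 * lam * Z ^ (2 / 3 : ℝ)) * Q ^ a := by rw [h3]; ring
        _ ≤ (CM * Z ^ (2 / 3 : ℝ)) * Q ^ a := by
            have := hc.CM_lam
            gcongr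
        _ = M * Q ^ a := by rw [hMdef]; rfl
    have h6 : Q ^ 2 ≤ M * Q ^ a * Z ^ (-b) / (16 * lam) := by
      rw [le_div_iff₀ (by positivity)]
      calc Q ^ 2 * (16 * lam) = 16 * lam * Q ^ 2 * (Z ^ b * Z ^ (-b)) := by rw [hZbb]; ring
        _ = (16 * lam * Q ^ 2 * Z ^ b) * Z ^ (-b) := by ring
        _ ≤ (M * Q ^ a) * Z ^ (-b) := by gcongr
    rw [div_le_iff₀ hM0]
    calc Q ^ 2 ≤ M * Q ^ a * Z ^ (-b) / (16 * lam) := h6
      _ = (1 / (4 * lam) * Q ^ a * Z ^ (-b)) / 4 * M := by field_simp; ring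
      _ ≤ I / 4 * M := by gcongr
  have hB : ∀ t, s / 2 ≤ t →
      θ / 2 * (D k (2 * μ) s + T k (2 / (θ * t ^ 2)) t) + (Z - k) / t ≤
        9 / 2 * μ + 3 / 8 * I := by
    intro t ht
    have ht0 : 0 < t := by linarith
    have hinv : 1 / t ≤ 2 / s := by
      rw [div_le_div_iff₀ ht0 hs0]; linarith
    -- (1)
    have e1 : θ / 2 * D k (2 * μ) s ≤ μ := by
      have h1 := hD (2 * μ) (by linarith)
      rw [max_eq_left (by linarith)] at h1
      calc θ / 2 * D k (2 * μ) s ≤ θ / 2 * (CD * (2 * μ) * g2) := by gcongr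
        _ = (θ * (CD * g2)) * μ := by ring
        _ ≤ 1 * μ := by gcongr
        _ = μ := one_mul μ
    -- (2)
    have e2 : θ / 2 * T k (2 / (θ * t ^ 2)) t ≤ CD * gz a Z (2 / (θ * t)) / t + μ := by
      have h1 := hT (2 / (θ * t ^ 2)) (by positivity) t ht0
      have h2 : 2 / (θ * t ^ 2) * t = 2 / (θ * t) := by field_simp
      rw [h2] at h1
      have h3 : M / (4 * t ^ 2) ≤ μ := by
        refine le_trans ?_ hμM
        apply div_le_div_of_nonneg_left hM0.le (by positivity)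
        have h31 : s ^ 2 ≤ (2 * t) ^ 2 := by
          apply pow_le_pow_left₀ hs0.le
          linarith only [ht]
        calc s ^ 2 ≤ (2 * t) ^ 2 := h31
          _ = 4 * t ^ 2 := by ring
      calc θ / 2 * T k (2 / (θ * t ^ 2)) t
          ≤ θ / 2 * (2 / (θ * t ^ 2) * (CD * t * gz a Z (2 / (θ * t)) + M / 4)) := by gcongr
        _ = CD * gz a Z (2 / (θ * t)) / t + M / (4 * t ^ 2) := by field_simp
        _ ≤ CD * gz a Z (2 / (θ * t)) / t + μ := by linarith
    -- (3)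
    have e3 : CD * gz a Z (2 / (θ * t)) / t ≤ μ / 8 + I / 8 + μ := by
      have h1 : 2 / (θ * t) ≤ 4 / (θ * s) := by
        rw [div_le_div_iff₀ (by positivity) (by positivity)]
        have h11 : θ * s ≤ θ * (2 * t) := by
          apply mul_le_mul_of_nonneg_left _ hθ0.le
          linarith only [ht]
        linarith only [h11]
      have h2 : gz a Z (2 / (θ * t)) ≤ gz a Z (4 / (θ * s)) :=
        n3_gz_mono ha1 hZ (by positivity) h1
      have h3 : 4 / (θ * s) ≤ 4 / s + μ / 2 := by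
        have h31 : 4 / (θ * s) = 4 / s + 4 * (CD * g2) / s := by
          rw [hθ]; field_simp
        rw [h31]
        have h32 : 4 * (CD * g2) / s ≤ 8 * (CD * gμ / s) := by
          have : 8 * (CD * gμ / s) = 4 * (CD * (2 * gμ)) / s := by ring
          rw [this]
          gcongr
        linarith
      have h4 : gz a Z (4 / (θ * s)) ≤ gz a Z (8 / s) + gμ := by
        calc gz a Z (4 / (θ * s)) ≤ gz a Z (4 / s + μ / 2) :=
              n3_gz_mono ha1 hZ (by positivity) h3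
          _ ≤ gz a Z (2 * (4 / s)) + gz a Z (2 * (μ / 2)) :=
              n3_gz_add ha1 hZ (by positivity) (by positivity)
          _ = gz a Z (8 / s) + gμ := by
              rw [hgμ]; congr 2 <;> ring
      set y := 8 * Z ^ b / s with hy
      have hy0 : 0 < y := by positivity
      have h5 : gz a Z (8 / s) = y ^ (1 / a) := by
        unfold gz; congr 1; rw [hy]; ring
      have h6 : 2 * CD / s * gz a Z (8 / s) ≤ I / 8 + μ := by
        have h61 : 2 * CD / s * gz a Z (8 / s) = Z ^ (-b) * (CD / 4 * y ^ (1 + 1 / a)) := by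
          rw [h5, Real.rpow_add hy0, Real.rpow_one]
          have : 2 * CD / s = Z ^ (-b) * (CD / 4 * y) := by
            rw [hy]
            calc 2 * CD / s = (Z ^ b * Z ^ (-b)) * (2 * CD / s) := by rw [hZbb]; ring
              _ = Z ^ (-b) * (CD / 4 * (8 * Z ^ b / s)) := by ring
          rw [this]; ring
        rw [h61]
        have h62 := hc.young y hy0.le
        have h63 : Z ^ (-b) * (CD / 4 * y ^ (1 + 1 / a)) ≤
            Z ^ (-b) * (1 / (32 * lam) + CM / 64 * y ^ 2) := by gcongr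
        have h64 : Z ^ (-b) * (1 / (32 * lam) + CM / 64 * y ^ 2) =
            1 / (4 * lam) * Z ^ (-b) / 8 + (Z ^ b * Z ^ (-b)) * (CM * Z ^ b / s ^ 2) := by
          rw [hy]; field_simp; ring
        rw [hZbb, one_mul] at h64
        have h65 : CM * Z ^ b / s ^ 2 ≤ μ := by
          refine le_trans ?_ hμM
          rw [hMdef]; unfold MZ
          gcongr
        linarith
      calc CD * gz a Z (2 / (θ * t)) / t = CD * gz a Z (2 / (θ * t)) * (1 / t) := by ring
        _ ≤ CD * (gz a Z (8 / s) + gμ) * (2 / s) := by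
            have h8 : 0 ≤ gz a Z (8 / s) := n3_gz_nonneg hZ (by positivity)
            have h7 : gz a Z (2 / (θ * t)) ≤ gz a Z (8 / s) + gμ := h2.trans h4
            gcongr
        _ = 2 * CD / s * gz a Z (8 / s) + 2 * (CD * gμ / s) := by ring
        _ ≤ (I / 8 + μ) + 2 * (μ / 16) := by linarith
        _ = μ / 8 + I / 8 + μ := by ring
    -- (4)
    have e4 : (Z - k) / t ≤ μ + I / 4 := by
      have h1 : Q / t ≤ 2 * Q / s := by
        calc Q / t = Q * (1 / t) := by ring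
          _ ≤ Q * (2 / s) := by gcongr
          _ = 2 * Q / s := by ring
      have h2 : 2 * Q / s ≤ M / s ^ 2 + Q ^ 2 / M := by
        have h21 : M / s ^ 2 + Q ^ 2 / M - 2 * Q / s = (M - Q * s) ^ 2 / (M * s ^ 2) := by
          field_simp; ring
        have h22 : 0 ≤ (M - Q * s) ^ 2 / (M * s ^ 2) := by positivity
        linarith
      calc (Z - k) / t = Q / t := by rw [hQ]
        _ ≤ μ + I / 4 := by linarith
    calc θ / 2 * (D k (2 * μ) s + T k (2 / (θ * t ^ 2)) t) + (Z - k) / t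
        = θ / 2 * D k (2 * μ) s + θ / 2 * T k (2 / (θ * t ^ 2)) t + (Z - k) / t := by ring
      _ ≤ 9 / 2 * μ + 3 / 8 * I := by linarith
  rcases h.step k μ hμ0 s hs0 θ hθ0 hθ1 (9 / 2 * μ + 3 / 8 * I) hB with h1 | h2
  · left
    linarith
  · exact Or.inr h2

end Pool.Agent.H899_CR
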