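import Pool.Agent.H899_CR.Num6

/-!
# The radius beyond which the energy decrease is at most `μ`
-/

set_option autoImplicit false

noncomputable section

namespace Pool.Agent.H899_CR

open MeasureTheory

/-- Iteration of the dichotomy in the number of electrons. -/
theorem num_max {a K0 K1 Cl lam CD CM Z : ℝ} (hc : Cst a K0 K1 Cl lam CD CM) (hZ : 1 ≤ Z)
    {e : ℕ → ℝ} {D T : ℕ → ℝ → ℝ → ℝ} (h : Iface K0 K1 Cl Z e D T) {N : ℕ} (hN : (N : ℝ) ≤ Z)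
    {s μ : ℝ} (hs : s1 CM Z ≤ s) (hμM : MZ CM Z / s ^ 2 ≤ μ)
    (hμI : ∀ k : ℕ, k < N → 14 * μ ≤ e k - e (k + 1)) {β : ℝ} (hβ0 : 0 ≤ β)
    (hβ : ∀ k : ℕ, k ≤ N → Cl / (μ * s ^ 2) * D k (2 * μ) (s / 2) ≤ β) :
    ∀ k : ℕ, k ≤ N → D k μ s ≤ β := by
  have hZ0 : 0 < Z := by linarith
  have hCM0 : 0 < CM := lt_of_lt_of_le one_pos hc.CM1
  have hM0 : 0 ≤ MZ CM Z := by unfold MZ; positivity
  have hμ0 : 0 ≤ μ := le_trans (by positivity) hμM
  have hs0 : 0 < s := lt_of_lt_of_le (n2_s1_pos hCM0 hZ0) hs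
  intro k
  induction k with
  | zero =>
    intro _
    have := h.D_triv 0 μ s hμ0
    simp only [Nat.cast_zero, mul_zero] at this
    linarith
  | succ k ih =>
    intro hk
    have hkZ : (k : ℝ) + 1 ≤ Z := by
      have : ((k + 1 : ℕ) : ℝ) ≤ (N : ℝ) := by exact_mod_cast hk
      push_cast at this
      linarith
    obtain ⟨_, hD, hT, hI⟩ := f1_ind hc hZ h k (by linarith)
    rcases num_dich hc hZ h hkZ hs (hI hkZ) hT (hD s hs0) μ hμM with h1 | h1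
    · have h2 := ih (by omega)
      have h3 := hμI k (by omega)
      linarith
    · exact h1.trans (hβ (k + 1) hk)

theorem num_rad {a K0 K1 Cl lam CD CM Z : ℝ} (hc : Cst a K0 K1 Cl lam CD CM) (hZ : 1 ≤ Z)
    {e : ℕ → ℝ} {D T : ℕ → ℝ → ℝ → ℝ} (h : Iface K0 K1 Cl Z e D T) {N : ℕ} (hN : (N : ℝ) ≤ Z)
    {s μ : ℝ} (hμ : 0 < μ) (hs : 2 * s1 CM Z ≤ s) (hμM : 2 * MZ CM Z ≤ μ * s ^ 2)
    (hμI : ∀ k : ℕ, k < N → 28 * μ ≤ e k - e (k + 1)) : D N μ s ≤ μ := by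
  have hZ0 : 0 < Z := by linarith
  have hCM0 : 0 < CM := lt_of_lt_of_le one_pos hc.CM1
  have hCl := hc.hCl
  have hs10 : 0 < s1 CM Z := n2_s1_pos hCM0 hZ0
  have hs0 : 0 < s := by linarith
  have hM0 : 0 ≤ MZ CM Z := by unfold MZ; positivity
  have hZ23 : 1 ≤ Z ^ (2 / 3 : ℝ) := Real.one_le_rpow hZ (by norm_num)
  have hs2 : 0 < s ^ 2 := by positivity
  -- first scale
  have h1 : ∀ k : ℕ, k ≤ N → D k (2 * μ) (s / 2) ≤ 8 * Cl * Z / s ^ 2 := by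
    refine num_max hc hZ h hN (by linarith) ?_ (fun k hk => ?_) (by positivity) ?_
    · rw [div_le_iff₀ (by positivity)]
      nlinarith
    · have := hμI k hk
      linarith
    · intro k hk
      have hk' : (k : ℝ) ≤ Z := le_trans (by exact_mod_cast hk) hN
      have h2 := h.D_triv k (2 * (2 * μ)) (s / 2 / 2) (by positivity)
      have h3 : Cl / (2 * μ * (s / 2) ^ 2) * D k (2 * (2 * μ)) (s / 2 / 2) ≤
          Cl / (2 * μ * (s / 2) ^ 2) * (2 * (2 * μ) * Z) := by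
        apply mul_le_mul_of_nonneg_left _ (by positivity)
        refine h2.trans ?_
        apply mul_le_mul_of_nonneg_left hk' (by positivity)
      refine h3.trans (le_of_eq ?_)
      field_simp
      ring
  refine num_max hc hZ h hN (by linarith) ?_ (fun k hk => ?_) hμ.le ?_ N le_rfl
  · rw [div_le_iff₀ (by positivity)]
    linarith
  · have := hμI k hk
    linarith
  · intro k hk
    have h2 : Cl / (μ * s ^ 2) * D k (2 * μ) (s / 2) ≤
        Cl / (μ * s ^ 2) * (8 * Cl * Z / s ^ 2) :=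
      mul_le_mul_of_nonneg_left (h1 k hk) (by positivity)
    refine h2.trans ?_
    have h3 : Cl / (μ * s ^ 2) * (8 * Cl * Z / s ^ 2) = μ * (8 * Cl ^ 2 * Z / (μ * s ^ 2) ^ 2) := by
      field_simp
    rw [h3]
    have h4 : 8 * Cl ^ 2 * Z / (μ * s ^ 2) ^ 2 ≤ 1 := by
      rw [div_le_one (by positivity)]
      have h5 : (2 * MZ CM Z) ^ 2 ≤ (μ * s ^ 2) ^ 2 := pow_le_pow_left₀ (by positivity) hμM 2
      refine le_trans ?_ h5
      have h6 : (Z ^ (2 / 3 : ℝ)) ^ 2 = Z ^ (4 / 3 : ℝ) := by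
        rw [← Real.rpow_natCast, ← Real.rpow_mul hZ0.le]
        norm_num
      have h7 : Z ≤ Z ^ (4 / 3 : ℝ) := by
        calc Z = Z ^ (1 : ℝ) := (Real.rpow_one Z).symm
          _ ≤ _ := Real.rpow_le_rpow_of_exponent_le hZ (by norm_num)
      have h8 : (2 * MZ CM Z) ^ 2 = 4 * CM ^ 2 * Z ^ (4 / 3 : ℝ) := by
        unfold MZ
        rw [← h6]; ring
      rw [h8]
      have h9 := hc.CM_Cl
      have h10 : 8 * Cl ^ 2 ≤ 4 * CM ^ 2 := by nlinarith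
      have h11 : 8 * Cl ^ 2 * Z ≤ 4 * CM ^ 2 * Z := mul_le_mul_of_nonneg_right h10 hZ0.le
      have h12 : 4 * CM ^ 2 * Z ≤ 4 * CM ^ 2 * Z ^ (4 / 3 : ℝ) :=
        mul_le_mul_of_nonneg_left h7 (by positivity)
      linarith
    calc μ * (8 * Cl ^ 2 * Z / (μ * s ^ 2) ^ 2) ≤ μ * 1 :=
          mul_le_mul_of_nonneg_left h4 hμ.le
      _ = μ := mul_one μ

/-- The numerical results: lower bound for the ionization energies, upper bounds for `D`. -/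
theorem main_num2 (a K0 K1 Cl : ℝ) (a1 : 1 < a) (a2 : a < 2) (a3 : 0 ≤ 5 * a ^ 2 - 6 * a - 4)
    (hK0 : 0 < K0) (hK1 : 0 < K1) (hCl : 0 < Cl) :
    ∃ c C M R : ℝ, 0 < c ∧ 0 < C ∧ 0 < M ∧ 0 < R ∧
      ∀ Z : ℝ, 1 ≤ Z → ∀ (e : ℕ → ℝ) (D T : ℕ → ℝ → ℝ → ℝ), Iface K0 K1 Cl Z e D T →
      (∀ k : ℕ, (k : ℝ) + 1 ≤ Z → c * (Z - k) ^ a * Z ^ (-(a - 4 / 3)) ≤ e k - e (k + 1)) ∧
      (∀ k : ℕ, (k : ℝ) ≤ Z → ∀ s, 0 < s → ∀ μ, 0 < μ →
        D k μ s ≤ C * μ * (Z ^ (a - 4 / 3) * max μ (M * Z ^ (2 / 3 : ℝ) / s ^ 2)) ^ (1 / a)) ∧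
      (∀ k : ℕ, (k : ℝ) + 1 ≤ Z → ∃ μ, 0 < μ ∧
        D (k + 1) μ (R * Z ^ (-(1 / 3) : ℝ) * (Z / (Z - k)) ^ (a / 2)) ≤ μ) := by
  obtain ⟨lam, CD, CM, hc⟩ := num_cst a K0 K1 Cl a1 a2 a3 hK0 hK1 hCl
  have hlam : 0 < lam := lt_of_lt_of_le one_pos hc.lam1
  have hCM : 0 < CM := lt_of_lt_of_le one_pos hc.CM1
  have hCD : 0 < CD := by rw [hc.CD_eq]; positivity
  refine ⟨1 / (4 * lam), CD, CM, √(224 * lam * CM), by positivity, hCD, hCM, by positivity, ?_⟩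
  intro Z hZ e D T h
  have hZ0 : 0 < Z := by linarith
  have hIc : ∀ k : ℕ, (k : ℝ) + 1 ≤ Z →
      1 / (4 * lam) * (Z - k) ^ a * Z ^ (-(a - 4 / 3)) ≤ e k - e (k + 1) := fun k hk =>
    (f1_ind hc hZ h k (by linarith)).2.2.2 hk
  refine ⟨hIc, ?_, ?_⟩
  · intro k hk s hs μ hμ
    exact (f1_ind hc hZ h k hk).2.1 s hs μ hμ
  · intro k hk
    set Q := Z - k with hQ
    have hQ1 : 1 ≤ Q := by rw [hQ]; linarith
    have hQ0 : 0 < Q := by linarith
    have hQZ : Q ≤ Z := by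
      rw [hQ]
      have : (0 : ℝ) ≤ k := Nat.cast_nonneg k
      linarith
    refine ⟨1 / (112 * lam) * Q ^ a * Z ^ (-(a - 4 / 3)), by positivity, ?_⟩
    have hN : ((k + 1 : ℕ) : ℝ) ≤ Z := by push_cast; linarith
    have hZQ : 1 ≤ (Z / Q) ^ (a / 2) := by
      apply Real.one_le_rpow _ (by linarith)
      rw [one_le_div hQ0]; exact hQZ
    have hsq : √(224 * lam * CM) ^ 2 = 224 * lam * CM := Real.sq_sqrt (by positivity)
    refine num_rad hc hZ h hN (by positivity) ?_ ?_ ?_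
    · -- 2 s1 ≤ s
      unfold s1
      have h1 : 2 * √CM ≤ √(224 * lam * CM) := by
        have : 2 * √CM = √(4 * CM) := by
          rw [Real.sqrt_mul (by norm_num)]
          congr 1
          rw [show (4 : ℝ) = 2 ^ 2 by norm_num, Real.sqrt_sq (by norm_num)]
        rw [this]
        apply Real.sqrt_le_sqrt
        have := hc.lam1
        nlinarith
      have h2 : 0 < Z ^ (-(1 / 3) : ℝ) := Real.rpow_pos_of_pos hZ0 _
      calc 2 * (√CM * Z ^ (-(1 / 3) : ℝ)) = 2 * √CM * Z ^ (-(1 / 3) : ℝ) := by ring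
        _ ≤ √(224 * lam * CM) * Z ^ (-(1 / 3) : ℝ) := mul_le_mul_of_nonneg_right h1 h2.le
        _ = √(224 * lam * CM) * Z ^ (-(1 / 3) : ℝ) * 1 := (mul_one _).symm
        _ ≤ _ := mul_le_mul_of_nonneg_left hZQ (by positivity)
    · -- 2 M ≤ μ s²
      unfold MZ
      have h1 : ((Z / Q) ^ (a / 2)) ^ 2 = Z ^ a * Q ^ (-a) := by
        rw [← Real.rpow_natCast, ← Real.rpow_mul (by positivity), Real.div_rpow hZ0.le hQ0.le,
          Real.rpow_neg hQ0.le]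
        push_cast
        rw [show a / 2 * 2 = a by ring]
        rfl
      have h2 : (Z ^ (-(1 / 3) : ℝ)) ^ 2 = Z ^ (-(2 / 3) : ℝ) := by
        rw [← Real.rpow_natCast, ← Real.rpow_mul hZ0.le]
        norm_num
      have h3 : (√(224 * lam * CM) * Z ^ (-(1 / 3) : ℝ) * (Z / Q) ^ (a / 2)) ^ 2 =
          224 * lam * CM * Z ^ (-(2 / 3) : ℝ) * (Z ^ a * Q ^ (-a)) := by
        rw [mul_pow, mul_pow, hsq, h1, h2]
      rw [h3]
      have h4 : Z ^ (-(a - 4 / 3)) * Z ^ (-(2 / 3) : ℝ) * Z ^ a = Z ^ (2 / 3 : ℝ) := by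
        rw [← Real.rpow_add hZ0, ← Real.rpow_add hZ0]
        congr 1
        ring
      have h5 : Q ^ a * Q ^ (-a) = 1 := by
        rw [← Real.rpow_add hQ0]; simp
      have h6 : 1 / (112 * lam) * Q ^ a * Z ^ (-(a - 4 / 3)) *
          (224 * lam * CM * Z ^ (-(2 / 3) : ℝ) * (Z ^ a * Q ^ (-a))) =
          2 * CM * (Z ^ (-(a - 4 / 3)) * Z ^ (-(2 / 3) : ℝ) * Z ^ a) * (Q ^ a * Q ^ (-a)) := by
        field_simp
        ring
      rw [h6, h4, h5]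
      linarith
    · intro j hj
      have hj' : (j : ℝ) ≤ k := by exact_mod_cast Nat.lt_succ_iff.1 hj
      have h1 := hIc j (by linarith)
      refine le_trans ?_ h1
      have h2 : Q ^ a ≤ (Z - j) ^ a := by
        apply Real.rpow_le_rpow hQ0.le _ (by linarith)
        rw [hQ]; linarith
      have h3 : 28 * (1 / (112 * lam) * Q ^ a * Z ^ (-(a - 4 / 3))) =
          1 / (4 * lam) * Q ^ a * Z ^ (-(a - 4 / 3)) := by
        field_simp
        ring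
      rw [h3]
      have h4 : 0 < Z ^ (-(a - 4 / 3)) := Real.rpow_pos_of_pos hZ0 _
      gcongr

end Pool.Agent.H899_CR
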