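import Pool.Agent.H899_CR.Num1
import Pool.Agent.H899_CR.Num2
import Pool.Agent.H899_CR.Num3
import Pool.Agent.H899_CR.Num4
import Pool.Agent.H899_CR.Num5


set_option autoImplicit false

noncomputable section

namespace Pool.Agent.H899_CR

open MeasureTheory

/-- `P` at `k = 0`. -/
theorem f1_P0 {a K0 K1 Cl lam CD CM Z : ℝ} (hc : Cst a K0 K1 Cl lam CD CM) (hZ : 1 ≤ Z)
    {e : ℕ → ℝ} {D T : ℕ → ℝ → ℝ → ℝ} (h : Iface K0 K1 Cl Z e D T) (s : ℝ) :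
    PAt a lam CD CM Z D 0 s := by
  intro μ hμ
  have hZ0 : 0 < Z := lt_of_lt_of_le one_pos hZ
  have hlam : 0 < lam := lt_of_lt_of_le one_pos hc.lam1
  have hCM : 0 < CM := lt_of_lt_of_le one_pos hc.CM1
  have hCD : 0 < CD := by rw [hc.CD_eq]; positivity
  have hM : 0 ≤ MZ CM Z := by unfold MZ; positivity
  have hμ0 : 0 ≤ μ := le_trans (by positivity) hμ
  have h1 := h.D_triv 0 μ s hμ0
  simp only [Nat.cast_zero, mul_zero] at h1
  have hg : 0 ≤ gz a Z μ := n2_gz_nonneg hZ0 hμ0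
  have h2 : 0 ≤ 1 / 4 * CD * μ * gz a Z μ +
      7 * μ * max 0 ((56 * lam) ^ (1 / a) * gz a Z μ - (Z - ((0 : ℕ) : ℝ))) := by
    have : 0 ≤ max 0 ((56 * lam) ^ (1 / a) * gz a Z μ - (Z - ((0 : ℕ) : ℝ))) := le_max_left _ _
    positivity
  exact h1.trans h2

/-- `P` at `k + 1`, given everything at `k`. -/
theorem f1_Pstep {a K0 K1 Cl lam CD CM Z : ℝ} (hc : Cst a K0 K1 Cl lam CD CM) (hZ : 1 ≤ Z)
    {e : ℕ → ℝ} {D T : ℕ → ℝ → ℝ → ℝ} (h : Iface K0 K1 Cl Z e D T) {k : ℕ}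
    (hk : (k : ℝ) + 1 ≤ Z) (hI : IClaim a lam Z e k) (hT : TClaim a CD CM Z T k)
    (hP : ∀ s, s1 CM Z ≤ s → PAt a lam CD CM Z D k s)
    (hD : ∀ s, 0 < s → DAt a CD CM Z D k s) :
    ∀ s, s1 CM Z ≤ s → PAt a lam CD CM Z D (k + 1) s := by
  have hZ0 : 0 < Z := lt_of_lt_of_le one_pos hZ
  have hCM : 0 < CM := lt_of_lt_of_le one_pos hc.CM1
  have hs1 : 0 < s1 CM Z := n2_s1_pos hCM hZ0
  have hk1 : ((k + 1 : ℕ) : ℝ) ≤ Z := by push_cast; exact hk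
  have key : ∀ m : ℕ, ∀ s, s1 CM Z ≤ s → s < 2 ^ (m + 1) * s1 CM Z →
      PAt a lam CD CM Z D (k + 1) s := by
    intro m
    induction m with
    | zero =>
      intro s hs hsm
      have hs0 : 0 < s := hs1.trans_le hs
      refine num_P hc hZ h hk hs hI hT (hD s hs0) (hP s hs) ?_
      refine num_D hc hZ h hk1 (by positivity) ?_
      intro hcon
      exfalso
      norm_num at hsm
      linarith
    | succ m ih =>
      intro s hs hsm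
      have hs0 : 0 < s := hs1.trans_le hs
      refine num_P hc hZ h hk hs hI hT (hD s hs0) (hP s hs) ?_
      refine num_D hc hZ h hk1 (by positivity) ?_
      intro hcon
      refine ih (s / 2) hcon ?_
      have : (2 : ℝ) ^ (m + 1 + 1) * s1 CM Z = 2 * (2 ^ (m + 1) * s1 CM Z) := by ring
      rw [this] at hsm
      linarith
  intro s hs
  obtain ⟨m, hm⟩ := pow_unbounded_of_one_lt (s / s1 CM Z) (one_lt_two)
  refine key m s hs ?_
  rw [div_lt_iff₀ hs1] at hm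
  refine hm.trans_le ?_
  have : (2 : ℝ) ^ m ≤ 2 ^ (m + 1) := pow_le_pow_right₀ one_le_two (Nat.le_succ m)
  exact mul_le_mul_of_nonneg_right this hs1.le

/-- The whole induction. -/
theorem f1_ind {a K0 K1 Cl lam CD CM Z : ℝ} (hc : Cst a K0 K1 Cl lam CD CM) (hZ : 1 ≤ Z)
    {e : ℕ → ℝ} {D T : ℕ → ℝ → ℝ → ℝ} (h : Iface K0 K1 Cl Z e D T) :
    ∀ k : ℕ, (k : ℝ) ≤ Z →
      (∀ s, s1 CM Z ≤ s → PAt a lam CD CM Z D k s) ∧ (∀ s, 0 < s → DAt a CD CM Z D k s) ∧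
      TClaim a CD CM Z T k ∧ ((k : ℝ) + 1 ≤ Z → IClaim a lam Z e k) := by
  intro k
  induction k with
  | zero =>
    intro hk
    have hP : ∀ s, s1 CM Z ≤ s → PAt a lam CD CM Z D 0 s := fun s _ => f1_P0 hc hZ h s
    have hD : ∀ s, 0 < s → DAt a CD CM Z D 0 s := fun s hs => num_D hc hZ h hk hs (hP s)
    exact ⟨hP, hD, num_T hc hZ h hk hD, fun _ => num_I0 hc hZ h⟩
  | succ k ih =>
    intro hk
    have hk' : (k : ℝ) + 1 ≤ Z := by push_cast at hk; exact hk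
    obtain ⟨hP, hD, hT, hI⟩ := ih (by linarith)
    have hP1 := f1_Pstep hc hZ h hk' (hI hk') hT hP hD
    have hD1 : ∀ s, 0 < s → DAt a CD CM Z D (k + 1) s :=
      fun s hs => num_D hc hZ h hk hs (hP1 s)
    refine ⟨hP1, hD1, num_T hc hZ h hk hD1, fun hk2 => ?_⟩
    refine num_I hc hZ h ?_ hT hD1
    push_cast at hk2
    linarith

/-
TARGET. Take lam, CD, CM from num_cst; c = 1/(4 lam), C = CD, M = CM. Induction on k with the statement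
 S k: k ≤ Z → (∀ s ≥ s1 CM Z, PAt k s) ∧ (∀ s > 0, DAt k s) ∧ TClaim k ∧ (k + 1 ≤ Z → IClaim k).
 k = 0: D 0 μ s ≤ μ * 0 = 0 (D_triv), so PAt 0 s (the right side is ≥ 0), DAt 0 s (num_D), TClaim 0 (num_T), IClaim 0 (num_I0).
 k → k+1 (k + 1 ≤ Z): PAt (k+1) s for all s ≥ s1 by induction on m for s ≤ 2^m s1: given s, DAt (k+1) (s/2) follows from
 num_D at s/2 (its hypothesis: if s1 ≤ s/2 then PAt (k+1) (s/2), by the induction hypothesis in m), then num_P. (Every s is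
 ≤ 2^m s1 for some m, s1 > 0.) Then DAt (k+1) s for all s > 0 by num_D, TClaim (k+1) by num_T, IClaim (k+1) by num_I
 (uses TClaim k and DAt (k+1)).
-/
theorem main_num (a K0 K1 Cl : ℝ) (a1 : 1 < a) (a2 : a < 2) (a3 : 0 ≤ 5 * a ^ 2 - 6 * a - 4)
    (hK0 : 0 < K0) (hK1 : 0 < K1) (hCl : 0 < Cl) :
    ∃ c C M : ℝ, 0 < c ∧ 0 < C ∧ 0 < M ∧ ∀ Z : ℝ, 1 ≤ Z → ∀ (e : ℕ → ℝ) (D T : ℕ → ℝ → ℝ → ℝ),
      Iface K0 K1 Cl Z e D T →
      (∀ k : ℕ, (k : ℝ) + 1 ≤ Z → c * (Z - k) ^ a * Z ^ (-(a - 4 / 3)) ≤ e k - e (k + 1)) ∧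
      (∀ k : ℕ, (k : ℝ) ≤ Z → ∀ s, 0 < s → ∀ μ, 0 < μ →
        D k μ s ≤ C * μ * (Z ^ (a - 4 / 3) * max μ (M * Z ^ (2 / 3 : ℝ) / s ^ 2)) ^ (1 / a)) := by
  obtain ⟨lam, CD, CM, hc⟩ := num_cst a K0 K1 Cl a1 a2 a3 hK0 hK1 hCl
  have hlam : 0 < lam := lt_of_lt_of_le one_pos hc.lam1
  have hCM : 0 < CM := lt_of_lt_of_le one_pos hc.CM1
  have hCD : 0 < CD := by rw [hc.CD_eq]; positivity
  refine ⟨1 / (4 * lam), CD, CM, by positivity, hCD, hCM, ?_⟩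
  intro Z hZ e D T h
  refine ⟨?_, ?_⟩
  · intro k hk
    exact (f1_ind hc hZ h k (by linarith)).2.2.2 hk
  · intro k hk s hs μ hμ
    exact (f1_ind hc hZ h k hk).2.1 s hs μ hμ

end Pool.Agent.H899_CR
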