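import Pool.Agent.H899_CR.Ims
import Pool.Agent.H899_CR.Near
import Pool.Agent.H899_CR.Dd
import Pool.Agent.H899_CR.Jen
-- compiled with default heartbeats in 7 s, axioms propext/choice/Quot.sound; path I used: Pool/Agent/H899_CR/Rem.lean (not landed, yours to place)

set_option autoImplicit false

noncomputable section

namespace Pool.Agent.H899_CR

open MeasureTheory

variable {n : ℕ}

/-- `gs f` is bounded if the derivative of `f` is, and continuous (`gs_continuous` in Ims) -/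
theorem Bd.gs {f : E3 → ℝ} (hf : ContDiff ℝ 1 f) {B : ℝ} (hB : ∀ y, ‖fderiv ℝ f y‖ ≤ B) :
    Bd (gs f) ∧ ∀ y, gs f y ≤ 3 * B ^ 2 := by
  have key : ∀ y, H899_CR.gs f y ≤ 3 * B ^ 2 := by
    intro y
    unfold H899_CR.gs
    calc ∑ c, (fderiv ℝ f y (EuclideanSpace.single c 1)) ^ 2 ≤ ∑ _c : Fin 3, B ^ 2 := by
          refine Finset.sum_le_sum fun c _ => ?_
          have h1 := (fderiv ℝ f y).le_opNorm (EuclideanSpace.single c (1 : ℝ))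
          rw [PiLp.norm_single, norm_one, mul_one, Real.norm_eq_abs] at h1
          have h2 := h1.trans (hB y)
          exact sq_le_sq' (by linarith [neg_abs_le (fderiv ℝ f y (EuclideanSpace.single c 1))])
            (le_trans (le_abs_self _) h2)
      _ = 3 * B ^ 2 := by simp
  have h0 : ∀ y, 0 ≤ H899_CR.gs f y := fun y => by
    unfold H899_CR.gs
    exact Finset.sum_nonneg fun c _ => sq_nonneg _
  refine ⟨⟨(gs_continuous hf).measurable, 3 * B ^ 2, fun y => ?_⟩, key⟩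
  rw [abs_of_nonneg (h0 y)]
  exact key y

/-
`Θ = mf (f²) φ` satisfies AT (AT_mf); near_min bounds (n+1) |FW φ Θ| by √(ε K h1 Θ) and h1 Θ ≤ const h1 φ ≤ const (h1_mf with
the bound max(B², 2B²) for f² and its derivative 2 f f'). FW_mf, FW_mf_slice, and den_zero for gs f.
-/
theorem rem_main (Z : ℝ) (n : ℕ) {v : E3 → ℝ} (hv : Bd v) {f : E3 → ℝ} (hf : ContDiff ℝ 1 f)
    {B : ℝ} (hB : ∀ y, |f y| ≤ B) (hB' : ∀ y, ‖fderiv ℝ f y‖ ≤ B) :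
    ∃ K : ℝ, 0 ≤ K ∧ ∀ ε : ℝ, 0 ≤ ε → ε ≤ 1 → ∀ φ : WF (n + 1), AS φ → nsq φ = 1 →
      FW (pot Z v (En Z (n + 1) v)) φ φ ≤ ε →
      ((n : ℝ) + 1) * ∑ τ, ∫ z, f z ^ 2 *
        FW (fun x => pot Z v (En Z (n + 1) v) (cns z x)) (sl τ z φ) (sl τ z φ) ≤
        1 / 2 * den (gs f) φ + K * √ε := by
  obtain ⟨K0, hK0, hmin⟩ := near_min Z n hv
  have hB0 : 0 ≤ B := le_trans (abs_nonneg _) (hB 0)
  have hf2 : ContDiff ℝ 1 (fun y => f y ^ 2) := hf.pow 2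
  have hfB : ∀ y, |f y ^ 2| ≤ 2 * B ^ 2 := by
    intro y
    rw [abs_pow]
    have h1 : |f y| ^ 2 ≤ B ^ 2 := pow_le_pow_left₀ (abs_nonneg _) (hB y) 2
    nlinarith [sq_nonneg B]
  have hfB' : ∀ y, ‖fderiv ℝ (fun y => f y ^ 2) y‖ ≤ 2 * B ^ 2 := by
    intro y
    refine ContinuousLinearMap.opNorm_le_bound _ (by positivity) fun w => ?_
    rw [fderiv_sq' hf y w, norm_mul, norm_mul]
    have h1 : ‖(2 : ℝ)‖ = 2 := by norm_num
    have h2 : ‖f y‖ ≤ B := hB y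
    have h3 : ‖fderiv ℝ f y w‖ ≤ B * ‖w‖ :=
      ((fderiv ℝ f y).le_opNorm w).trans (mul_le_mul_of_nonneg_right (hB' y) (norm_nonneg w))
    rw [h1]
    calc 2 * ‖f y‖ * ‖fderiv ℝ f y w‖ ≤ 2 * B * (B * ‖w‖) :=
          mul_le_mul (by linarith) h3 (norm_nonneg _) (by positivity)
      _ = 2 * B ^ 2 * ‖w‖ := by ring
  refine ⟨√(K0 * (8 * (2 * B ^ 2) ^ 2 * K0)), Real.sqrt_nonneg _, ?_⟩
  intro ε hε hε1 φ hφ hn hle
  obtain ⟨hh, hΘ⟩ := hmin ε hε hε1 φ hφ hn hle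
  have hadm := adm_pot (n := n + 1) Z hv (En Z (n + 1) v)
  have k1 := hΘ (mf (fun y => f y ^ 2) φ) (AT_mf hφ hf2)
  have k2 := h1_mf hφ.cw hf2 hfB hfB'
  have k3 := FW_mf hadm hφ.cw hf
  have k4 := FW_mf_slice hadm hφ.cw hf
  have k5 := den_zero hφ (Bd.gs hf hB').1
  have k6 : √(ε * K0 * h1 (mf (fun y => f y ^ 2) φ)) ≤
      √(K0 * (8 * (2 * B ^ 2) ^ 2 * K0)) * √ε := by
    rw [← Real.sqrt_mul (by positivity)]
    apply Real.sqrt_le_sqrt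
    have h1' : h1 (mf (fun y => f y ^ 2) φ) ≤ 8 * (2 * B ^ 2) ^ 2 * K0 :=
      k2.trans (mul_le_mul_of_nonneg_left hh (by positivity))
    calc ε * K0 * h1 (mf (fun y => f y ^ 2) φ) ≤ ε * K0 * (8 * (2 * B ^ 2) ^ 2 * K0) :=
          mul_le_mul_of_nonneg_left h1' (by positivity)
      _ = K0 * (8 * (2 * B ^ 2) ^ 2 * K0) * ε := by ring
  have k7 : ((n : ℝ) + 1) * FW (pot Z v (En Z (n + 1) v)) φ (mf (fun y => f y ^ 2) φ) ≤
      ((n : ℝ) + 1) * |FW (pot Z v (En Z (n + 1) v)) φ (mf (fun y => f y ^ 2) φ)| :=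
    mul_le_mul_of_nonneg_left (le_abs_self _) (by positivity)
  have k8 := mul_le_mul_of_nonneg_left k4 (show (0 : ℝ) ≤ (n : ℝ) + 1 by positivity)
  refine k8.trans ?_
  have k9 : ((n : ℝ) + 1) * FW (pot Z v (En Z (n + 1) v)) (mf f φ) (mf f φ) =
      ((n : ℝ) + 1) * FW (pot Z v (En Z (n + 1) v)) φ (mf (fun y => f y ^ 2) φ) +
        1 / 2 * den (gs f) φ := by
    rw [k3, k5]
    ring
  rw [k9]
  linarith

/-- 1/‖z - y‖ ≥ 1/t - mn t y/t² for t = ‖z‖ > 0 (also for y = z, where both sides are 0) -/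
theorem PP_ge (Z : ℝ) {z : E3} (hz : 0 < ‖z‖) (x : Fin n → E3) :
    -((Z - n) / ‖z‖) - 1 / ‖z‖ ^ 2 * ∑ j, mn ‖z‖ (x j) ≤ PP Z z x := by
  have key : ∀ y : E3, 1 / ‖z‖ - 1 / ‖z‖ ^ 2 * mn ‖z‖ y ≤ 1 / ‖z - y‖ := by
    intro y
    unfold mn
    rcases le_or_gt ‖z‖ ‖y‖ with h | h
    · rw [min_eq_right h]
      have e : 1 / ‖z‖ - 1 / ‖z‖ ^ 2 * ‖z‖ = 0 := by
        field_simp
        ring
      rw [e]
      positivity
    · rw [min_eq_left h.le]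
      have h1 : ‖z‖ ≤ ‖z - y‖ + ‖y‖ := by
        have := norm_add_le (z - y) y
        rwa [sub_add_cancel] at this
      have h2 : ‖z - y‖ ≤ ‖z‖ + ‖y‖ := norm_sub_le z y
      have h3 : 0 < ‖z - y‖ := by linarith
      have h4 : 0 < ‖z‖ + ‖y‖ := by linarith [norm_nonneg y]
      have h5 : 1 / (‖z‖ + ‖y‖) ≤ 1 / ‖z - y‖ := one_div_le_one_div_of_le h3 h2
      refine le_trans ?_ h5
      rw [le_div_iff₀ h4]
      have h6 : (1 / ‖z‖ - 1 / ‖z‖ ^ 2 * ‖y‖) * (‖z‖ + ‖y‖) = 1 - ‖y‖ ^ 2 / ‖z‖ ^ 2 := by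
        field_simp
        ring
      rw [h6]
      have h7 : 0 ≤ ‖y‖ ^ 2 / ‖z‖ ^ 2 := by positivity
      linarith
  unfold PP
  have h1 : ∑ j, (1 / ‖z‖ - 1 / ‖z‖ ^ 2 * mn ‖z‖ (x j)) ≤ ∑ j, 1 / ‖z - x j‖ :=
    Finset.sum_le_sum fun j _ => key (x j)
  rw [Finset.sum_sub_distrib, ← Finset.mul_sum, Finset.sum_const, Finset.card_univ,
    Fintype.card_fin, nsmul_eq_mul] at h1
  have e : -((Z - n) / ‖z‖) = -(Z / ‖z‖) + (n : ℝ) * (1 / ‖z‖) := by ring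
  rw [e]
  linarith

theorem pot_cns (Z : ℝ) (v : E3 → ℝ) (e : ℝ) (z : E3) (x : Fin n → E3) :
    pot Z v e (cns z x) = pot Z v e x + PP Z z x - v z := by
  unfold pot
  rw [VC_cns, Fin.sum_univ_succ]
  simp only [cns_zero, cns_succ]
  ring

/-- VC_cns and adm_en -/
theorem adm_pot_cns (Z : ℝ) {v : E3 → ℝ} (hv : Bd v) (e : ℝ) (z : E3) :
    Adm (fun x : Fin n → E3 => pot Z v e (cns z x)) := by
  have h1 : Adm (fun x : Fin n → E3 => ∑ j, 1 / ‖x j - z‖) := Adm.sum _ fun j _ => adm_en j z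
  refine (((adm_pot Z hv e).add h1).add (Adm.const (-(Z / ‖z‖) - v z))).congr fun x => ?_
  rw [pot_cns]
  unfold PP
  have h2 : ∑ j, 1 / ‖z - x j‖ = ∑ j, 1 / ‖x j - z‖ :=
    Finset.sum_congr rfl fun j _ => by rw [norm_sub_rev]
  rw [h2]
  ring

theorem FW_mono_pot {U W : (Fin n → E3) → ℝ} (hU : Adm U) (hW : Adm W) (h : ∀ x, U x ≤ W x)
    {φ : WF n} (hφ : CW φ) : FW U φ φ ≤ FW W φ φ := by
  unfold FW
  refine Finset.sum_le_sum fun σ _ => ?_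
  unfold FF
  refine integral_mono (int_ed hU (hφ σ) (hφ σ)) (int_ed hW (hφ σ) (hφ σ)) fun x => ?_
  unfold ed
  rw [rp_self (φ σ x)]
  have h1 := mul_le_mul_of_nonneg_right (h x) (sq_nonneg ‖φ σ x‖)
  linarith

/-- comparison of the potential with a potential of `n` electrons -/
theorem pot_cns_ge (Z : ℝ) (v : E3 → ℝ) (e : ℝ) {z : E3} (hz : 0 < ‖z‖) (x : Fin n → E3) :
    pot Z (fun y => v y + 1 / ‖z‖ ^ 2 * mn ‖z‖ y) (e + (Z - n) / ‖z‖ + v z) x ≤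
      pot Z v e (cns z x) := by
  rw [pot_cns]
  have h1 := PP_ge Z hz x
  unfold pot
  rw [Finset.sum_add_distrib, ← Finset.mul_sum]
  linarith

/-- `pot Z v e (cns z x) ≥ pot Z (v + t⁻² mn t) (e + (Z-n)/t + v z) x` with t = ‖z‖ -/
theorem slice_C (Z : ℝ) {v : E3 → ℝ} (hv : Bd v) (e : ℝ) {z : E3} (hz : 0 < ‖z‖) {χ : WF n}
    (hχ : AS χ) :
    (En Z n (fun y => v y + 1 / ‖z‖ ^ 2 * mn ‖z‖ y) - (Z - n) / ‖z‖ - v z - e) * nsq χ ≤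
      FW (fun x => pot Z v e (cns z x)) χ χ := by
  have hw : Bd (fun y => v y + 1 / ‖z‖ ^ 2 * mn ‖z‖ y) :=
    hv.add ((Bd.mn ‖z‖).const_mul (1 / ‖z‖ ^ 2))
  refine le_trans ?_ (FW_mono_pot (adm_pot Z hw (e + (Z - n) / ‖z‖ + v z))
    (adm_pot_cns Z hv e z) (pot_cns_ge Z v e hz) hχ.cw)
  have h1 := En_le Z hw hχ
  rw [FW_pot Z hw 0 hχ.cw] at h1
  rw [FW_pot Z hw _ hχ.cw]
  linarith

/-
With t = ‖z‖: FW (pot Z 0 e (cns z ·)) χ χ ≥ FW (VC Z) χ χ - t⁻² den (mn t) χ - (e + (Z-n)/t) nsq χ and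
2 t⁻² den (mn t) χ ≤ FW (VC Z) χ χ - En Z n (2 t⁻² mn t) nsq χ, so the first is
≥ ½ FW (VC Z) χ χ + ½ (En Z n 0 - DT Z n (2/t²) t) nsq χ - (e + (Z-n)/t) nsq χ, and e ≤ En Z n 0.
-/
theorem slice_B (Z : ℝ) {e : ℝ} (he : e ≤ En Z n 0) {z : E3} (hz : 0 < ‖z‖) {χ : WF n}
    (hχ : AS χ) :
    1 / 2 * FW (pot Z 0 e) χ χ -
        ((Z - n) / ‖z‖ + 1 / 2 * DT Z n (2 / ‖z‖ ^ 2) ‖z‖) * nsq χ ≤
      FW (fun x => pot Z 0 e (cns z x)) χ χ := by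
  have hmn := Bd.mn ‖z‖
  have hw : Bd (fun y => (0 : E3 → ℝ) y + 1 / ‖z‖ ^ 2 * mn ‖z‖ y) :=
    Bd.zero.add (hmn.const_mul (1 / ‖z‖ ^ 2))
  refine le_trans ?_ (FW_mono_pot (adm_pot Z hw (e + (Z - n) / ‖z‖ + (0 : E3 → ℝ) z))
    (adm_pot_cns Z Bd.zero e z) (pot_cns_ge Z 0 e hz) hχ.cw)
  have hw2 : Bd (fun y => 2 / ‖z‖ ^ 2 * mn ‖z‖ y) := hmn.const_mul (2 / ‖z‖ ^ 2)
  have h1 := En_le Z hw2 hχ
  have d0 : den (0 : E3 → ℝ) χ = 0 := by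
    have h5 := den_const (n := n) 0 χ
    rw [zero_mul, zero_mul] at h5
    exact h5
  rw [FW_pot Z hw2 0 hχ.cw, den_const_mul] at h1
  rw [FW_pot Z hw _ hχ.cw, den_add Bd.zero (hmn.const_mul (1 / ‖z‖ ^ 2)) hχ.cw, den_const_mul,
    FW_pot Z Bd.zero e hχ.cw, d0]
  unfold DT
  have h2 := mul_le_mul_of_nonneg_right he (nsq_nonneg χ)
  simp only [Pi.zero_apply]
  have e2 : 2 / ‖z‖ ^ 2 * den (mn ‖z‖) χ = 2 * (1 / ‖z‖ ^ 2 * den (mn ‖z‖) χ) := by ring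
  rw [e2] at h1
  linarith

end Pool.Agent.H899_CR
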